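import Pool.Agent.AHM.Data

namespace Pool.Agent.AHM

noncomputable section

variable {K : Type} [Field K] [Algebra ℂ K] {L : Type} [Field L] [Algebra ℂ L]

/-! A1. Formal properties of the data. -/

namespace DataOps

/-- A generating family with as many elements as an independent one is independent. -/
theorem algInd_of_isAlgebraic {n : ℕ} {x y : Fin n → K} (hx : AlgebraicIndependent ℂ x)
    (h : ∀ z : K, IsAlgebraic (Algebra.adjoin ℂ (Set.range y)) z) :
    AlgebraicIndependent ℂ y := by
  have : Algebra.IsAlgebraic (Algebra.adjoin ℂ (Set.range y)) K := ⟨h⟩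
  exact (Algebra.IsAlgebraic.isTranscendenceBasis_of_le_trdeg_of_finite ℂ y
    hx.cardinalMk_le_trdeg).1

/-- If the generators of `K` are algebraic over a subring then so are all elements. -/
theorem isAlgebraic_of_gen {A : Subalgebra ℂ K} {S : Set K}
    (hS : IntermediateField.adjoin ℂ S = ⊤) (h : ∀ z ∈ S, IsAlgebraic A z) (z : K) :
    IsAlgebraic A z := by
  have hz : z ∈ IntermediateField.adjoin ℂ S := by rw [hS]; trivial
  induction hz using IntermediateField.adjoin_induction with
  | mem x hx => exact h x hx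
  | algebraMap x => exact isAlgebraic_algebraMap (R := A) (algebraMap ℂ A x)
  | add x y _ _ hx hy => exact hx.add hy
  | inv x _ hx => exact hx.inv
  | mul x y _ _ hx hy => exact hx.mul hy

theorem isAlgebraic_of_mem {A : Subalgebra ℂ K} {z : K} (hz : z ∈ A) : IsAlgebraic A z :=
  isAlgebraic_algebraMap (R := A) ⟨z, hz⟩

theorem isAlgebraic_of_sq {A : Subalgebra ℂ K} {z w : K} (hw : IsAlgebraic A w)
    (h : z ^ 2 = w) : IsAlgebraic A z := by
  subst h
  exact hw.of_pow (n := 2) (by norm_num)

theorem two_ne : (2 : K) ≠ 0 := by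
  have : CharZero K := charZero_of_injective_algebraMap (algebraMap ℂ K).injective
  exact two_ne_zero

/-- `b` is algebraic over every subring containing `a ≠ 0`. -/
theorem isAlgebraic_b {A : Subalgebra ℂ K} {d : Quad K} (ha : d.a ≠ 0) (hA : d.a ∈ A)
    (he : d.a * (1 + d.b ^ 2) = 2 * d.b * (1 + d.a ^ 2)) : IsAlgebraic A d.b := by
  set x : A := ⟨d.a, hA⟩ with hx
  have hxa : algebraMap A K x = d.a := rfl
  refine ⟨Polynomial.C x * Polynomial.X ^ 2 - Polynomial.C (2 * (1 + x ^ 2)) * Polynomial.X +
    Polynomial.C x, ?_, ?_⟩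
  · intro h
    have h2 := congrArg (fun p => Polynomial.coeff p 0) h
    simp at h2
    exact ha (by rw [← hxa, h2]; simp)
  · simp only [map_add, map_sub, map_mul, Polynomial.aeval_C, Polynomial.aeval_X, map_pow,
      map_one, hxa, map_ofNat]
    linear_combination he

/-- A quadruple on the curve generating the field satisfies the independence condition. -/
theorem isData_of_gen {d d' : Quad K} (hd : d.IsData) (ha : d'.a ≠ 0)
    (he : d'.a * (1 + d'.b ^ 2) = 2 * d'.b * (1 + d'.a ^ 2))
    (hg : IntermediateField.adjoin ℂ ({d'.a, d'.b, d'.r, d'.s} : Set K) = ⊤) : d'.IsData := by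
  refine ⟨he, ?_, hg⟩
  refine algInd_of_isAlgebraic hd.ind ?_
  set A := Algebra.adjoin ℂ (Set.range ![d'.a, d'.r, d'.s]) with hA
  have h0 : d'.a ∈ A := Algebra.subset_adjoin ⟨0, rfl⟩
  have h1 : d'.r ∈ A := Algebra.subset_adjoin ⟨1, rfl⟩
  have h2 : d'.s ∈ A := Algebra.subset_adjoin ⟨2, rfl⟩
  refine isAlgebraic_of_gen hg ?_
  intro z hz
  simp only [Set.mem_insert_iff, Set.mem_singleton_iff] at hz
  rcases hz with rfl | rfl | rfl | rfl
  · exact isAlgebraic_of_mem h0
  · exact isAlgebraic_b ha h0 he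
  · exact isAlgebraic_of_mem h1
  · exact isAlgebraic_of_mem h2

/-- A pair generating the field is independent. -/
theorem isPair_of_gen {P P' : Pair K} (hP : P.IsPair)
    (hg : IntermediateField.adjoin ℂ ({P'.p, P'.q} : Set K) = ⊤) : P'.IsPair := by
  refine ⟨?_, hg⟩
  refine algInd_of_isAlgebraic hP.ind ?_
  set A := Algebra.adjoin ℂ (Set.range ![P'.p, P'.q]) with hA
  have h0 : P'.p ∈ A := Algebra.subset_adjoin ⟨0, rfl⟩
  have h1 : P'.q ∈ A := Algebra.subset_adjoin ⟨1, rfl⟩
  refine isAlgebraic_of_gen hg ?_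
  intro z hz
  simp only [Set.mem_insert_iff, Set.mem_singleton_iff] at hz
  rcases hz with rfl | rfl
  · exact isAlgebraic_of_mem h0
  · exact isAlgebraic_of_mem h1

end DataOps

theorem Quad.IsData.ne_zero {d : Quad K} (hd : d.IsData) :
    d.a ≠ 0 ∧ d.b ≠ 0 ∧ d.r ≠ 0 ∧ d.s ≠ 0 := by
  have ha : d.a ≠ 0 := hd.ind.ne_zero 0
  refine ⟨ha, ?_, hd.ind.ne_zero 1, hd.ind.ne_zero 2⟩
  intro hb
  have h := hd.eq
  rw [hb] at h
  apply ha
  linear_combination h

/-- `κ = 2 + 2 a² - a b` and `κ⁻¹ = (1 + b² - 2 a b) / 2`. -/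
theorem Quad.kap_mem {d : Quad K} (hd : d.IsData) (R : Subalgebra ℂ K) (ha : d.a ∈ R)
    (hb : d.b ∈ R) : d.kap ∈ R ∧ d.kap⁻¹ ∈ R := by
  obtain ⟨ha0, hb0, -, -⟩ := hd.ne_zero
  have h2 : (2 : K) ≠ 0 := DataOps.two_ne
  have e1 : d.kap = 2 + 2 * d.a ^ 2 - d.a * d.b := by
    rw [Quad.kap, div_eq_iff hb0]
    linear_combination hd.eq
  have e2 : d.kap⁻¹ = algebraMap ℂ K (1 / 2) * (1 + d.b ^ 2 - 2 * d.a * d.b) := by
    rw [Quad.kap, inv_div, div_eq_iff ha0]
    have : algebraMap ℂ K (1 / 2) = 1 / 2 := by rw [map_div₀, map_one, map_ofNat]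
    rw [this]
    field_simp
    linear_combination -hd.eq
  have hR2 : (2 : K) ∈ R := by
    have h := R.algebraMap_mem (2 : ℂ)
    rwa [map_ofNat] at h
  constructor
  · rw [e1]
    exact R.sub_mem (R.add_mem hR2 (R.mul_mem hR2 (R.pow_mem ha 2))) (R.mul_mem ha hb)
  · rw [e2]
    exact R.mul_mem (R.algebraMap_mem _) (R.sub_mem (R.add_mem R.one_mem (R.pow_mem hb 2))
      (R.mul_mem (R.mul_mem hR2 ha) hb))

namespace DataOps

theorem gen_of_mem {S S' : Set K} (hS : IntermediateField.adjoin ℂ S = ⊤)
    (h : ∀ z ∈ S, z ∈ IntermediateField.adjoin ℂ S') : IntermediateField.adjoin ℂ S' = ⊤ := by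
  rw [eq_top_iff, ← hS]
  exact IntermediateField.adjoin_le_iff.2 h

theorem isData_inva {d : Quad K} (hd : d.IsData) : d.inva.IsData := by
  obtain ⟨ha0, hb0, hr0, hs0⟩ := hd.ne_zero
  refine isData_of_gen hd (inv_ne_zero ha0) ?_ ?_
  · simp only [Quad.inva]
    field_simp
    linear_combination hd.eq
  · refine gen_of_mem hd.gen ?_
    set F := IntermediateField.adjoin ℂ ({d.inva.a, d.inva.b, d.inva.r, d.inva.s} : Set K)
      with hF
    have h0 : d.inva.a ∈ F := IntermediateField.subset_adjoin _ _ (by simp)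
    have h1 : d.inva.b ∈ F := IntermediateField.subset_adjoin _ _ (by simp)
    have h2 : d.inva.r ∈ F := IntermediateField.subset_adjoin _ _ (by simp)
    have h3 : d.inva.s ∈ F := IntermediateField.subset_adjoin _ _ (by simp)
    simp only [Quad.inva] at h0 h1 h2 h3
    have ha : d.a ∈ F := by simpa using F.inv_mem h0
    intro z hz
    simp only [Set.mem_insert_iff, Set.mem_singleton_iff] at hz
    rcases hz with rfl | rfl | rfl | rfl
    · exact ha
    · exact h1
    · have := F.mul_mem h2 ha
      rwa [div_mul_cancel₀ _ ha0] at this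
    · have := F.mul_mem h3 ha
      rwa [div_mul_cancel₀ _ ha0] at this

theorem isData_invb {d : Quad K} (hd : d.IsData) : d.invb.IsData := by
  obtain ⟨ha0, hb0, hr0, hs0⟩ := hd.ne_zero
  refine isData_of_gen hd ha0 ?_ ?_
  · simp only [Quad.invb]
    field_simp
    linear_combination hd.eq
  · refine gen_of_mem hd.gen ?_
    set F := IntermediateField.adjoin ℂ ({d.invb.a, d.invb.b, d.invb.r, d.invb.s} : Set K)
      with hF
    have h0 : d.invb.a ∈ F := IntermediateField.subset_adjoin _ _ (by simp)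
    have h1 : d.invb.b ∈ F := IntermediateField.subset_adjoin _ _ (by simp)
    have h2 : d.invb.r ∈ F := IntermediateField.subset_adjoin _ _ (by simp)
    have h3 : d.invb.s ∈ F := IntermediateField.subset_adjoin _ _ (by simp)
    simp only [Quad.invb] at h0 h1 h2 h3
    have hb : d.b ∈ F := by simpa using F.inv_mem h1
    intro z hz
    simp only [Set.mem_insert_iff, Set.mem_singleton_iff] at hz
    rcases hz with rfl | rfl | rfl | rfl
    · exact h0
    · exact hb
    · have := F.div_mem h2 hb
      rwa [mul_div_cancel_right₀ _ hb0] at this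
    · have := F.div_mem h3 hb
      rwa [mul_div_cancel_right₀ _ hb0] at this

theorem kap_ne {d : Quad K} (hd : d.IsData) : d.kap ≠ 0 := by
  obtain ⟨ha0, hb0, hr0, hs0⟩ := hd.ne_zero
  exact div_ne_zero ha0 hb0

theorem isData_invr {d : Quad K} (hd : d.IsData) : d.invr.IsData := by
  obtain ⟨ha0, hb0, hr0, hs0⟩ := hd.ne_zero
  have hk0 := kap_ne hd
  refine isData_of_gen hd ha0 hd.eq ?_
  refine gen_of_mem hd.gen ?_
  set F := IntermediateField.adjoin ℂ ({d.invr.a, d.invr.b, d.invr.r, d.invr.s} : Set K)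
    with hF
  have h0 : d.invr.a ∈ F := IntermediateField.subset_adjoin _ _ (by simp)
  have h1 : d.invr.b ∈ F := IntermediateField.subset_adjoin _ _ (by simp)
  have h2 : d.invr.r ∈ F := IntermediateField.subset_adjoin _ _ (by simp)
  have h3 : d.invr.s ∈ F := IntermediateField.subset_adjoin _ _ (by simp)
  simp only [Quad.invr] at h0 h1 h2 h3
  have hk : d.kap ∈ F := F.div_mem h0 h1
  intro z hz
  simp only [Set.mem_insert_iff, Set.mem_singleton_iff] at hz
  rcases hz with rfl | rfl | rfl | rfl
  · exact h0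
  · exact h1
  · have := F.div_mem hk h2
    rwa [div_div_cancel₀ hk0] at this
  · exact h3

theorem isData_invs {d : Quad K} (hd : d.IsData) : d.invs.IsData := by
  obtain ⟨ha0, hb0, hr0, hs0⟩ := hd.ne_zero
  have hk0 := kap_ne hd
  refine isData_of_gen hd ha0 hd.eq ?_
  refine gen_of_mem hd.gen ?_
  set F := IntermediateField.adjoin ℂ ({d.invs.a, d.invs.b, d.invs.r, d.invs.s} : Set K)
    with hF
  have h0 : d.invs.a ∈ F := IntermediateField.subset_adjoin _ _ (by simp)
  have h1 : d.invs.b ∈ F := IntermediateField.subset_adjoin _ _ (by simp)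
  have h2 : d.invs.r ∈ F := IntermediateField.subset_adjoin _ _ (by simp)
  have h3 : d.invs.s ∈ F := IntermediateField.subset_adjoin _ _ (by simp)
  simp only [Quad.invs] at h0 h1 h2 h3
  have hk : d.kap ∈ F := F.div_mem h0 h1
  intro z hz
  simp only [Set.mem_insert_iff, Set.mem_singleton_iff] at hz
  rcases hz with rfl | rfl | rfl | rfl
  · exact h0
  · exact h1
  · exact h2
  · have := F.div_mem hk h3
    rwa [div_div_cancel₀ hk0] at this

theorem isData_swap {d : Quad K} (hd : d.IsData) : d.swap.IsData := by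
  obtain ⟨ha0, hb0, hr0, hs0⟩ := hd.ne_zero
  refine isData_of_gen hd ha0 hd.eq ?_
  refine gen_of_mem hd.gen ?_
  intro z hz
  refine IntermediateField.subset_adjoin _ _ ?_
  simp only [Set.mem_insert_iff, Set.mem_singleton_iff, Quad.swap] at hz ⊢
  tauto

theorem pair_inva {d : Quad K} (hd : d.IsData) : d.inva.pair = d.pair := by
  obtain ⟨ha0, hb0, hr0, hs0⟩ := hd.ne_zero
  ext
  · simp only [Quad.pair, Quad.inva, Quad.kap]
    field_simp
  · simp only [Quad.pair, Quad.inva, Quad.kap]
    field_simp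

theorem pair_invb {d : Quad K} (hd : d.IsData) : d.invb.pair = d.pair := by
  obtain ⟨ha0, hb0, hr0, hs0⟩ := hd.ne_zero
  ext
  · simp only [Quad.pair, Quad.invb, Quad.kap]
    field_simp
  · simp only [Quad.pair, Quad.invb, Quad.kap]
    field_simp

theorem pair_invr {d : Quad K} (hd : d.IsData) : d.invr.pair = d.pair.invr := by
  obtain ⟨ha0, hb0, hr0, hs0⟩ := hd.ne_zero
  ext
  · simp only [Quad.pair, Quad.invr, Quad.kap, Pair.invr]
    field_simp
  · simp only [Quad.pair, Quad.invr, Quad.kap, Pair.invr]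
    field_simp

theorem pair_invs {d : Quad K} (hd : d.IsData) : d.invs.pair = d.pair.invs := by
  obtain ⟨ha0, hb0, hr0, hs0⟩ := hd.ne_zero
  ext
  · simp only [Quad.pair, Quad.invs, Quad.kap, Pair.invs]
    field_simp
  · simp only [Quad.pair, Quad.invs, Quad.kap, Pair.invs]
    field_simp

theorem pair_swap {d : Quad K} (hd : d.IsData) : d.swap.pair = d.pair.swap := by
  obtain ⟨ha0, hb0, hr0, hs0⟩ := hd.ne_zero
  ext
  · simp only [Quad.pair, Quad.swap, Quad.kap, Pair.swap]
    field_simp
  · simp only [Quad.pair, Quad.swap, Quad.kap, Pair.swap]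
    field_simp

end DataOps

namespace DataOps

/-- The five steps of `Quad.tw`. -/
def opI (i : Bool) (d : Quad K) : Quad K := if i then d.inva else d
def opJ (i : Bool) (d : Quad K) : Quad K := if i then d.invb else d
def opK (i : Bool) (d : Quad K) : Quad K := if i then d.invr else d
def opL (i : Bool) (d : Quad K) : Quad K := if i then d.invs else d
def opM (i : Bool) (d : Quad K) : Quad K := if i then d.swap else d

omit [Algebra ℂ K] in
theorem tw_eq (i j k l m : Bool) (d : Quad K) :
    d.tw i j k l m = opM m (opL l (opK k (opJ j (opI i d)))) := rfl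

theorem opI_data {d : Quad K} (hd : d.IsData) (i : Bool) : (opI i d).IsData := by
  cases i
  · exact hd
  · exact isData_inva hd

theorem opJ_data {d : Quad K} (hd : d.IsData) (i : Bool) : (opJ i d).IsData := by
  cases i
  · exact hd
  · exact isData_invb hd

theorem opK_data {d : Quad K} (hd : d.IsData) (i : Bool) : (opK i d).IsData := by
  cases i
  · exact hd
  · exact isData_invr hd

theorem opL_data {d : Quad K} (hd : d.IsData) (i : Bool) : (opL i d).IsData := by
  cases i
  · exact hd
  · exact isData_invs hd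

theorem opM_data {d : Quad K} (hd : d.IsData) (i : Bool) : (opM i d).IsData := by
  cases i
  · exact hd
  · exact isData_swap hd

theorem opI_pair {d : Quad K} (hd : d.IsData) (i : Bool) : (opI i d).pair = d.pair := by
  cases i
  · rfl
  · exact pair_inva hd

theorem opJ_pair {d : Quad K} (hd : d.IsData) (i : Bool) : (opJ i d).pair = d.pair := by
  cases i
  · rfl
  · exact pair_invb hd

theorem opK_pair {d : Quad K} (hd : d.IsData) (i : Bool) :
    (opK i d).pair = if i then d.pair.invr else d.pair := by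
  cases i
  · rfl
  · exact pair_invr hd

theorem opL_pair {d : Quad K} (hd : d.IsData) (i : Bool) :
    (opL i d).pair = if i then d.pair.invs else d.pair := by
  cases i
  · rfl
  · exact pair_invs hd

theorem opM_pair {d : Quad K} (hd : d.IsData) (i : Bool) :
    (opM i d).pair = if i then d.pair.swap else d.pair := by
  cases i
  · rfl
  · exact pair_swap hd

end DataOps

theorem Quad.IsData.tw {d : Quad K} (hd : d.IsData) (i j k l m : Bool) :
    (d.tw i j k l m).IsData := by
  rw [DataOps.tw_eq]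
  exact DataOps.opM_data (DataOps.opL_data (DataOps.opK_data (DataOps.opJ_data
    (DataOps.opI_data hd i) j) k) l) m

theorem Quad.pair_tw {d : Quad K} (hd : d.IsData) (i j k l m : Bool) :
    (d.tw i j k l m).pair = d.pair.tw k l m := by
  have h1 := DataOps.opI_data hd i
  have h2 := DataOps.opJ_data h1 j
  have h3 := DataOps.opK_data h2 k
  have h4 := DataOps.opL_data h3 l
  rw [DataOps.tw_eq, DataOps.opM_pair h4, DataOps.opL_pair h3, DataOps.opK_pair h2,
    DataOps.opJ_pair h1, DataOps.opI_pair hd]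
  rfl

theorem Quad.IsData.blow {d : Quad K} (hd : d.IsData) : d.blow.IsData := by
  obtain ⟨ha0, hb0, hr0, hs0⟩ := hd.ne_zero
  refine DataOps.isData_of_gen hd ha0 hd.eq ?_
  refine DataOps.gen_of_mem hd.gen ?_
  set F := IntermediateField.adjoin ℂ ({d.blow.a, d.blow.b, d.blow.r, d.blow.s} : Set K)
    with hF
  have h0 : d.blow.a ∈ F := IntermediateField.subset_adjoin _ _ (by simp)
  have h1 : d.blow.b ∈ F := IntermediateField.subset_adjoin _ _ (by simp)
  have h2 : d.blow.r ∈ F := IntermediateField.subset_adjoin _ _ (by simp)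
  have h3 : d.blow.s ∈ F := IntermediateField.subset_adjoin _ _ (by simp)
  simp only [Quad.blow] at h0 h1 h2 h3
  intro z hz
  simp only [Set.mem_insert_iff, Set.mem_singleton_iff] at hz
  rcases hz with rfl | rfl | rfl | rfl
  · exact h0
  · exact h1
  · exact h2
  · have := F.mul_mem h3 h2
    rwa [div_mul_cancel₀ _ hr0] at this

theorem Pair.IsPair.tw {P : Pair K} (hP : P.IsPair) (k l m : Bool) :
    (P.tw k l m).IsPair := by
  refine DataOps.isPair_of_gen hP ?_
  refine DataOps.gen_of_mem hP.gen ?_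
  set F := IntermediateField.adjoin ℂ ({(P.tw k l m).p, (P.tw k l m).q} : Set K) with hF
  have h0 : (P.tw k l m).p ∈ F := IntermediateField.subset_adjoin _ _ (by simp)
  have h1 : (P.tw k l m).q ∈ F := IntermediateField.subset_adjoin _ _ (by simp)
  have key : P.p ∈ F ∧ P.q ∈ F := by
    clear_value F
    cases k <;> cases l <;> cases m <;>
      simp only [Pair.tw, Pair.invr, Pair.invs, Pair.swap, if_true, if_false,
        Bool.false_eq_true, inv_inv, inv_mem_iff] at h0 h1 <;>
      exact ⟨by assumption, by assumption⟩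
  intro z hz
  simp only [Set.mem_insert_iff, Set.mem_singleton_iff] at hz
  rcases hz with rfl | rfl
  · exact key.1
  · exact key.2

theorem Pair.map_tw (σ : L →ₐ[ℂ] K) (P : Pair L) (k l m : Bool) :
    (P.tw k l m).map σ = (P.map σ).tw k l m := by
  cases k <;> cases l <;> cases m <;> simp [Pair.tw, Pair.map, Pair.invr, Pair.invs, Pair.swap]

theorem Quad.IsData.pair_ind {d : Quad K} (hd : d.IsData) :
    AlgebraicIndependent ℂ ![d.pair.p, d.pair.q] := by
  obtain ⟨ha0, hb0, hr0, hs0⟩ := hd.ne_zero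
  have hk0 := DataOps.kap_ne hd
  have hind : AlgebraicIndependent ℂ ![d.a, d.pair.p, d.pair.q] := by
    refine DataOps.algInd_of_isAlgebraic hd.ind ?_
    set A := Algebra.adjoin ℂ (Set.range ![d.a, d.pair.p, d.pair.q]) with hA
    have h0 : d.a ∈ A := Algebra.subset_adjoin ⟨0, rfl⟩
    have h1 : d.pair.p ∈ A := Algebra.subset_adjoin ⟨1, rfl⟩
    have h2 : d.pair.q ∈ A := Algebra.subset_adjoin ⟨2, rfl⟩
    have ga := DataOps.isAlgebraic_of_mem h0
    have gb := DataOps.isAlgebraic_b (A := A) ha0 h0 hd.eq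
    have gp := DataOps.isAlgebraic_of_mem h1
    have gq := DataOps.isAlgebraic_of_mem h2
    have gk : IsAlgebraic A d.kap := by
      rw [Quad.kap, div_eq_mul_inv]
      exact ga.mul gb.inv
    have gr : IsAlgebraic A d.r := by
      refine DataOps.isAlgebraic_of_sq ((gp.mul gq).mul gk) ?_
      simp only [Quad.pair]
      field_simp
    have gs : IsAlgebraic A d.s := by
      refine DataOps.isAlgebraic_of_sq ((gp.mul gq.inv).mul gk) ?_
      simp only [Quad.pair]
      field_simp
    refine DataOps.isAlgebraic_of_gen hd.gen ?_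
    intro z hz
    simp only [Set.mem_insert_iff, Set.mem_singleton_iff] at hz
    rcases hz with rfl | rfl | rfl | rfl
    · exact ga
    · exact gb
    · exact gr
    · exact gs
  have h := hind.comp (![1, 2] : Fin 2 → Fin 3) (by decide)
  convert h using 1
  ext i
  fin_cases i <;> rfl

theorem exists_pair {d : Quad K} (hd : d.IsData) :
    ∃ (L : Type) (_ : Field L) (_ : Algebra ℂ L) (σ : L →ₐ[ℂ] K) (P : Pair L),
      P.IsPair ∧ P.map σ = d.pair ∧
        σ.range = (IntermediateField.adjoin ℂ {d.pair.p, d.pair.q}).toSubalgebra := by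
  set F := IntermediateField.adjoin ℂ ({d.pair.p, d.pair.q} : Set K) with hF
  have h0 : d.pair.p ∈ F := IntermediateField.subset_adjoin _ _ (by simp)
  have h1 : d.pair.q ∈ F := IntermediateField.subset_adjoin _ _ (by simp)
  refine ⟨F, inferInstance, inferInstance, F.val, ⟨⟨d.pair.p, h0⟩, ⟨d.pair.q, h1⟩⟩, ⟨?_, ?_⟩,
    rfl, F.range_val⟩
  · have h := hd.pair_ind
    refine AlgebraicIndependent.of_comp F.val ?_
    convert h using 1
    ext i
    fin_cases i <;> rfl
  · refine IntermediateField.map_injective F.val ?_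
    rw [IntermediateField.adjoin_map, ← AlgHom.fieldRange_eq_map, IntermediateField.fieldRange_val,
      Set.image_pair]
    rfl

end

end Pool.Agent.AHM
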