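import Pool.Agent.AHM.CurvePoly
import Pool.Agent.AHM.DataOps

namespace Pool.Agent.AHM

noncomputable section

variable {K : Type} [Field K] [Algebra ℂ K] {L : Type} [Field L] [Algebra ℂ L]

open Polynomial in
/-- A polynomial in the transcendental element `a` with a simple root is not a square in `ℂ(a)`. -/
theorem ACI_not_sq (a : K) (ha : Transcendental ℂ a) (f : ℂ[X]) (α : ℂ) (h0 : f.eval α = 0)
    (h1 : (derivative f).eval α ≠ 0) (z : K) (hz : z ∈ IntermediateField.adjoin ℂ ({a} : Set K))
    (hzf : z ^ 2 = aeval a f) : False := by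
  obtain ⟨r, s, rfl⟩ := (IntermediateField.mem_adjoin_simple_iff ℂ z).mp hz
  have hinj : Function.Injective (aeval (R := ℂ) a) := transcendental_iff_injective.mp ha
  have hf0 : f ≠ 0 := by
    rintro rfl
    simp at h1
  have hfa : aeval a f ≠ 0 := by
    rw [Ne, map_eq_zero_iff _ hinj]; exact hf0
  have hs : aeval a s ≠ 0 := by
    intro h
    rw [h, div_zero] at hzf
    apply hfa
    rw [← hzf]; ring
  have hs0 : s ≠ 0 := by
    rintro rfl
    exact hs (map_zero _)
  have heq : f * (s * s) = r * r := by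
    apply hinj
    rw [map_mul, map_mul, map_mul, ← hzf]
    field_simp
  have hr0 : r ≠ 0 := by
    rintro rfl
    rw [zero_mul] at heq
    exact mul_ne_zero hf0 (mul_ne_zero hs0 hs0) heq
  have hm1 : f.rootMultiplicity α = 1 := by
    have h2 : 0 < f.rootMultiplicity α := (rootMultiplicity_pos hf0).mpr h0
    have h3 : ¬ 1 < f.rootMultiplicity α := by
      rw [one_lt_rootMultiplicity_iff_isRoot hf0]
      rintro ⟨_, h⟩
      exact h1 h
    omega
  have h4 := congrArg (rootMultiplicity α) heq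
  rw [rootMultiplicity_mul (mul_ne_zero hf0 (mul_ne_zero hs0 hs0)),
    rootMultiplicity_mul (mul_ne_zero hs0 hs0), rootMultiplicity_mul (mul_ne_zero hr0 hr0), hm1] at h4
  omega

/-- Elements of `ℂ(a, b)` are `x + y δ`. -/
theorem ACI_form {a b δ : K} (hδ : δ = a * b - (1 + a ^ 2)) (ha0 : a ≠ 0)
    (hδ2 : δ ^ 2 = a ^ 4 + a ^ 2 + 1)
    (hns : ∀ z ∈ IntermediateField.adjoin ℂ ({a} : Set K), z ^ 2 ≠ a ^ 4 + a ^ 2 + 1)
    (w : K) (hw : w ∈ IntermediateField.adjoin ℂ ({a, b} : Set K)) :
    ∃ x ∈ IntermediateField.adjoin ℂ ({a} : Set K), ∃ y ∈ IntermediateField.adjoin ℂ ({a} : Set K),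
      w = x + y * δ := by
  have haM : a ∈ IntermediateField.adjoin ℂ ({a} : Set K) :=
    IntermediateField.subset_adjoin _ _ rfl
  induction hw using IntermediateField.adjoin_induction with
  | mem t ht =>
    rcases ht with rfl | rfl
    · exact ⟨t, haM, 0, zero_mem _, by ring⟩
    · refine ⟨(1 + a ^ 2) / a, div_mem (add_mem (one_mem _) (pow_mem haM 2)) haM, a⁻¹,
        inv_mem haM, ?_⟩
      rw [hδ]
      field_simp
      ring
  | algebraMap c =>
    exact ⟨algebraMap ℂ K c, IntermediateField.algebraMap_mem _ c, 0, zero_mem _, by ring⟩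
  | add w w' _ _ h h' =>
    obtain ⟨x, hx, y, hy, rfl⟩ := h
    obtain ⟨x', hx', y', hy', rfl⟩ := h'
    exact ⟨x + x', add_mem hx hx', y + y', add_mem hy hy', by ring⟩
  | mul w w' _ _ h h' =>
    obtain ⟨x, hx, y, hy, rfl⟩ := h
    obtain ⟨x', hx', y', hy', rfl⟩ := h'
    refine ⟨x * x' + y * y' * (a ^ 4 + a ^ 2 + 1), ?_, x * y' + y * x', ?_, ?_⟩
    · exact add_mem (mul_mem hx hx') (mul_mem (mul_mem hy hy')
        (add_mem (add_mem (pow_mem haM 4) (pow_mem haM 2)) (one_mem _)))
    · exact add_mem (mul_mem hx hy') (mul_mem hy hx')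
    · rw [← hδ2]; ring
  | inv w _ h =>
    obtain ⟨x, hx, y, hy, rfl⟩ := h
    by_cases hy0 : y = 0
    · exact ⟨x⁻¹, inv_mem hx, 0, zero_mem _, by rw [hy0]; ring_nf⟩
    have hN : x ^ 2 - y ^ 2 * (a ^ 4 + a ^ 2 + 1) ≠ 0 := by
      intro h
      apply hns (x / y) (div_mem hx hy)
      field_simp
      linear_combination h
    have hNM : x ^ 2 - y ^ 2 * (a ^ 4 + a ^ 2 + 1) ∈ IntermediateField.adjoin ℂ ({a} : Set K) :=
      sub_mem (pow_mem hx 2) (mul_mem (pow_mem hy 2)
        (add_mem (add_mem (pow_mem haM 4) (pow_mem haM 2)) (one_mem _)))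
    refine ⟨x / (x ^ 2 - y ^ 2 * (a ^ 4 + a ^ 2 + 1)), div_mem hx hNM,
      -y / (x ^ 2 - y ^ 2 * (a ^ 4 + a ^ 2 + 1)), div_mem (neg_mem hy) hNM, ?_⟩
    have hw0 : x + y * δ ≠ 0 := by
      intro h
      apply hN
      have : x ^ 2 - y ^ 2 * (a ^ 4 + a ^ 2 + 1) = (x + y * δ) * (x - y * δ) := by
        rw [← hδ2]; ring
      rw [this, h, zero_mul]
    rw [inv_eq_iff_eq_inv, eq_comm, inv_eq_iff_eq_inv]
    have : x / (x ^ 2 - y ^ 2 * (a ^ 4 + a ^ 2 + 1)) + -y / (x ^ 2 - y ^ 2 * (a ^ 4 + a ^ 2 + 1)) * δ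
      = (x - y * δ) / (x ^ 2 - y ^ 2 * (a ^ 4 + a ^ 2 + 1)) := by ring
    rw [this]
    rw [eq_comm, inv_eq_one_div, eq_comm, div_eq_div_iff hN hw0, ← hδ2]
    ring

/-- `κ = a / b` is not a square in `ℂ(a, b)`. -/
theorem ACI_kap_not_sq {a b : K} (ha : Transcendental ℂ a)
    (heq : a * (1 + b ^ 2) = 2 * b * (1 + a ^ 2)) (hb0 : b ≠ 0)
    (w : K) (hw : w ∈ IntermediateField.adjoin ℂ ({a, b} : Set K)) (hw2 : w ^ 2 = a / b) :
    False := by
  have ha0 : a ≠ 0 := by
    rintro rfl
    exact ha (isAlgebraic_zero)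
  have haM : a ∈ IntermediateField.adjoin ℂ ({a} : Set K) :=
    IntermediateField.subset_adjoin _ _ rfl
  -- a root of `X² + X + 1`
  obtain ⟨α, hα⟩ : ∃ α : ℂ, α ^ 2 + α + 1 = 0 := by
    have := IsAlgClosed.exists_root (Polynomial.X ^ 2 + Polynomial.X + 1 : Polynomial ℂ) (by
      have : (Polynomial.X ^ 2 + Polynomial.X + 1 : Polynomial ℂ).degree = 2 := by
        compute_degree!
      rw [this]; norm_num)
    obtain ⟨α, hα⟩ := this
    refine ⟨α, ?_⟩
    simpa [Polynomial.IsRoot] using hα
  have hα3 : 2 * α + 1 ≠ 0 := by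
    intro h
    have h1 : α = -1/2 := by linear_combination h / 2
    rw [h1] at hα
    norm_num at hα
  have hα4 : α + 2 ≠ 0 := by
    intro h
    have h1 : α = -2 := by linear_combination h
    rw [h1] at hα
    norm_num at hα
  set δ : K := a * b - (1 + a ^ 2) with hδ
  have hδ2 : δ ^ 2 = a ^ 4 + a ^ 2 + 1 := by
    have : δ ^ 2 = a * (a * (1 + b ^ 2) - 2 * b * (1 + a ^ 2)) + a ^ 4 + a ^ 2 + 1 := by
      rw [hδ]; ring
    rw [this, heq]; ring
  have hns : ∀ z ∈ IntermediateField.adjoin ℂ ({a} : Set K), z ^ 2 ≠ a ^ 4 + a ^ 2 + 1 := by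
    intro z hz hz2
    refine ACI_not_sq a ha (Polynomial.X ^ 4 + Polynomial.X ^ 2 + 1) α ?_ ?_ z hz ?_
    · simp only [Polynomial.eval_add, Polynomial.eval_pow, Polynomial.eval_X, Polynomial.eval_one]
      linear_combination (α ^ 2 - α + 1) * hα
    · simp only [Polynomial.derivative_add, Polynomial.derivative_X_pow, Polynomial.derivative_one,
        Polynomial.eval_add, Polynomial.eval_mul, Polynomial.eval_pow, Polynomial.eval_X,
        Polynomial.eval_C, Polynomial.eval_zero]
      intro h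
      apply hα4
      push_cast at h
      have : α + 2 = (4 * α ^ 3 + 2 * α) / 2 - (2 * α - 2) * (α ^ 2 + α + 1) := by ring
      rw [this, hα]
      have h' : 4 * α ^ 3 + 2 * α = 0 := by
        linear_combination h
      rw [h']; ring
    · simp [hz2]
  obtain ⟨x, hx, y, hy, rfl⟩ := ACI_form hδ ha0 hδ2 hns w hw
  have hkap : a / b = 1 + a ^ 2 - δ := by
    rw [div_eq_iff hb0, hδ]
    linear_combination heq
  have h3 : x ^ 2 + y ^ 2 * (a ^ 4 + a ^ 2 + 1) - (1 + a ^ 2) + (2 * x * y + 1) * δ = 0 := by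
    rw [← hδ2]
    linear_combination hw2 + hkap
  have hpM : x ^ 2 + y ^ 2 * (a ^ 4 + a ^ 2 + 1) - (1 + a ^ 2) ∈
      IntermediateField.adjoin ℂ ({a} : Set K) :=
    sub_mem (add_mem (pow_mem hx 2) (mul_mem (pow_mem hy 2)
        (add_mem (add_mem (pow_mem haM 4) (pow_mem haM 2)) (one_mem _))))
      (add_mem (one_mem _) (pow_mem haM 2))
  have h2M : (2 : K) ∈ IntermediateField.adjoin ℂ ({a} : Set K) := by
    have := IntermediateField.algebraMap_mem (IntermediateField.adjoin ℂ ({a} : Set K)) (2 : ℂ)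
    rwa [map_ofNat (algebraMap ℂ K) 2] at this
  have hxy : 2 * x * y + 1 = 0 := by
    by_contra hne
    refine hns (-(x ^ 2 + y ^ 2 * (a ^ 4 + a ^ 2 + 1) - (1 + a ^ 2)) / (2 * x * y + 1)) ?_ ?_
    · exact div_mem (neg_mem hpM) (add_mem (mul_mem (mul_mem h2M hx) hy) (one_mem _))
    · have : -(x ^ 2 + y ^ 2 * (a ^ 4 + a ^ 2 + 1) - (1 + a ^ 2)) / (2 * x * y + 1) = δ := by
        rw [div_eq_iff hne]
        linear_combination -h3
      rw [this, hδ2]
  have h4 : x ^ 2 + y ^ 2 * (a ^ 4 + a ^ 2 + 1) = 1 + a ^ 2 := by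
    rw [hxy] at h3
    linear_combination h3
  have h5 : (x ^ 2 - y ^ 2 * (a ^ 4 + a ^ 2 + 1)) ^ 2 = a ^ 2 := by
    have e1 : (x ^ 2 - y ^ 2 * (a ^ 4 + a ^ 2 + 1)) ^ 2 =
      (x ^ 2 + y ^ 2 * (a ^ 4 + a ^ 2 + 1)) ^ 2 - (2 * x * y) ^ 2 * (a ^ 4 + a ^ 2 + 1) := by ring
    have e2 : 2 * x * y = -1 := by linear_combination hxy
    rw [e1, h4, e2]; ring
  rcases sq_eq_sq_iff_eq_or_eq_neg.mp h5 with h6 | h6
  · -- 2 x² = a² + a + 1
    have h7 : 2 * x ^ 2 = a ^ 2 + a + 1 := by linear_combination h4 + h6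
    refine ACI_not_sq a ha (Polynomial.C (1 / 2) * (Polynomial.X ^ 2 + Polynomial.X + 1)) α
      ?_ ?_ x hx ?_
    · simp [hα]
    · simp only [Polynomial.derivative_mul, Polynomial.derivative_C, zero_mul, zero_add,
        Polynomial.derivative_add, Polynomial.derivative_X_pow, Polynomial.derivative_X,
        Polynomial.derivative_one, Polynomial.eval_mul, Polynomial.eval_add, Polynomial.eval_C,
        Polynomial.eval_pow, Polynomial.eval_X, Polynomial.eval_one, Polynomial.eval_zero]
      intro h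
      apply hα3
      push_cast at h
      linear_combination 2 * h
    · have h8 : x ^ 2 = algebraMap ℂ K (1 / 2) * (a ^ 2 + a + 1) := by
        rw [← h7]
        have : algebraMap ℂ K (1 / 2) * 2 = 1 := by
          have h9 : algebraMap ℂ K 2 = 2 := map_ofNat (algebraMap ℂ K) 2
          rw [← h9, ← map_mul]
          norm_num
        linear_combination -(x ^ 2) * this
      rw [h8]
      simp
  · have h7 : 2 * x ^ 2 = a ^ 2 - a + 1 := by linear_combination h4 + h6
    refine ACI_not_sq a ha (Polynomial.C (1 / 2) * (Polynomial.X ^ 2 - Polynomial.X + 1)) (-α)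
      ?_ ?_ x hx ?_
    · simp only [Polynomial.eval_mul, Polynomial.eval_C, Polynomial.eval_add, Polynomial.eval_sub,
        Polynomial.eval_pow, Polynomial.eval_X, Polynomial.eval_one]
      linear_combination (1/2) * hα
    · simp only [Polynomial.derivative_mul, Polynomial.derivative_C, zero_mul, zero_add,
        Polynomial.derivative_add, Polynomial.derivative_sub, Polynomial.derivative_X_pow,
        Polynomial.derivative_X,
        Polynomial.derivative_one, Polynomial.eval_mul, Polynomial.eval_add, Polynomial.eval_sub,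
        Polynomial.eval_C,
        Polynomial.eval_pow, Polynomial.eval_X, Polynomial.eval_one, Polynomial.eval_zero]
      intro h
      apply hα3
      push_cast at h
      linear_combination -2 * h
    · have h8 : x ^ 2 = algebraMap ℂ K (1 / 2) * (a ^ 2 - a + 1) := by
        rw [← h7]
        have : algebraMap ℂ K (1 / 2) * 2 = 1 := by
          have h9 : algebraMap ℂ K 2 = 2 := map_ofNat (algebraMap ℂ K) 2
          rw [← h9, ← map_mul]
          norm_num
        linear_combination -(x ^ 2) * this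
      rw [h8]
      simp

/-- `q, s` are algebraically independent over `ℂ(a, b)`. -/
theorem ACI_ind {a b s q : K} (heq : a * (1 + b ^ 2) = 2 * b * (1 + a ^ 2))
    (hind : AlgebraicIndependent ℂ ![a, s, q]) :
    AlgebraicIndependent (IntermediateField.adjoin ℂ ({a, b} : Set K)) ![q, s] := by
  have ha : Transcendental ℂ a := hind.transcendental 0
  have ha0 : a ≠ 0 := by
    rintro rfl
    exact ha (isAlgebraic_zero)
  -- independence over `ℂ[a]`
  have h1 : AlgebraicIndependent ℂ (Sum.elim ![q, s] ![a]) := by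
    have h2 := hind.comp (Sum.elim ![2, 1] ![0] : Fin 2 ⊕ Fin 1 → Fin 3) (by
      intro x y
      rcases x with x | x <;> rcases y with y | y <;> fin_cases x <;> fin_cases y <;> simp)
    convert! h2 using 1
    funext x
    rcases x with x | x <;> fin_cases x <;> rfl
  obtain ⟨-, h2⟩ := AlgebraicIndependent.sumElim_iff.mp h1
  set R := Algebra.adjoin ℂ (Set.range ![a]) with hR
  have haR : a ∈ R := Algebra.subset_adjoin ⟨0, rfl⟩
  have hle : R ≤ (IntermediateField.adjoin ℂ ({a, b} : Set K)).toSubalgebra := by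
    rw [hR, Algebra.adjoin_le_iff]
    rintro _ ⟨i, rfl⟩
    fin_cases i
    exact IntermediateField.subset_adjoin _ _ (by simp)
  let _ : Algebra R (IntermediateField.adjoin ℂ ({a, b} : Set K)) :=
    (Subalgebra.inclusion hle).toAlgebra
  have : IsScalarTower R (IntermediateField.adjoin ℂ ({a, b} : Set K)) K :=
    IsScalarTower.of_algebraMap_eq fun x => rfl
  have : Algebra.IsAlgebraic R (IntermediateField.adjoin ℂ ({a, b} : Set K)) := by
    constructor
    rintro ⟨x, hx⟩
    have hxK : IsAlgebraic R x := by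
      induction hx using IntermediateField.adjoin_induction with
      | mem t ht =>
        rcases ht with rfl | rfl
        · exact isAlgebraic_algebraMap (⟨t, haR⟩ : R)
        · set aR : R := ⟨a, haR⟩
          have haR0 : aR ≠ 0 := by
            intro h
            exact ha0 (congrArg Subtype.val h)
          refine ⟨Polynomial.C aR * (1 + Polynomial.X ^ 2) - 2 * Polynomial.X * Polynomial.C (1 + aR ^ 2), ?_, ?_⟩
          · intro h
            have := congrArg (fun g => Polynomial.coeff g 0) h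
            simp [Polynomial.coeff_add, Polynomial.coeff_sub, mul_add] at this
            exact haR0 this
          · simp only [map_sub, map_mul, map_add, map_one, map_pow, Polynomial.aeval_C,
              Polynomial.aeval_X, aR]
            rw [map_ofNat (Polynomial.aeval t) 2]
            have : algebraMap R K ⟨a, haR⟩ = a := rfl
            rw [this]
            linear_combination heq
      | algebraMap c => exact isAlgebraic_algebraMap (algebraMap ℂ R c)
      | add x y _ _ h h' => exact h.add h'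
      | mul x y _ _ h h' => exact h.mul h'
      | inv x _ h => exact h.inv
    exact (isAlgebraic_algebraMap_iff (FaithfulSMul.algebraMap_injective _ K)).mp hxK
  exact h2.extendScalars _

/-- Elements integral over an algebraically closed field. -/
theorem ACI_integral {E : Type*} [Field E] [Algebra ℂ E] (x : E) (hx : IsIntegral ℂ x) :
    ∃ c : ℂ, algebraMap ℂ E c = x := by
  have h1 := IsAlgClosed.degree_eq_one_of_irreducible ℂ (minpoly.irreducible hx)
  exact minpoly.mem_range_of_degree_eq_one ℂ x h1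

attribute [local instance] MvPolynomial.algebraMvPolynomial in
open MvPolynomial in
/-- The main statement, in the coordinates `q = r / s` and `s`. -/
theorem ACI_main {a b s q p : K} (heq : a * (1 + b ^ 2) = 2 * b * (1 + a ^ 2))
    (hb0 : b ≠ 0)
    (hind : AlgebraicIndependent ℂ ![a, s, q])
    (hgen : IntermediateField.adjoin ℂ ({a, b, s, q} : Set K) = ⊤)
    (hp : p = q * s ^ 2 / (a / b)) (f : K)
    (hf : IsAlgebraic (IntermediateField.adjoin ℂ {p, q}) f) :
    f ∈ IntermediateField.adjoin ℂ {p, q} := by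
  have ha : Transcendental ℂ a := hind.transcendental 0
  have ha0 : a ≠ 0 := by
    rintro rfl
    exact ha (isAlgebraic_zero)
  have hs0 : s ≠ 0 := hind.ne_zero 1
  have hq0 : q ≠ 0 := hind.ne_zero 2
  set k := IntermediateField.adjoin ℂ ({a, b} : Set K) with hk
  have hak : a ∈ k := IntermediateField.subset_adjoin _ _ (by simp)
  have hbk : b ∈ k := IntermediateField.subset_adjoin _ _ (by simp)
  set κ : k := ⟨a / b, div_mem hak hbk⟩ with hκ
  have hκ0 : κ ≠ 0 := by
    intro h
    have := congrArg Subtype.val h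
    exact div_ne_zero ha0 hb0 this
  have hκns : ∀ w : k, w ^ 2 ≠ κ := by
    intro w hw
    refine ACI_kap_not_sq ha heq hb0 w w.2 ?_
    have := congrArg Subtype.val hw
    exact this
  have hindk := ACI_ind heq hind
  -- the polynomial ring `B = k[q, s]`
  set φB : MvPolynomial (Fin 2) k →ₐ[k] K := aeval ![q, s] with hφB
  have hφBinj : Function.Injective φB := hindk
  let _ : Algebra (MvPolynomial (Fin 2) k) K := φB.toRingHom.toAlgebra
  have halg : ∀ x, algebraMap (MvPolynomial (Fin 2) k) K x = φB x := fun _ => rfl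
  have : FaithfulSMul (MvPolynomial (Fin 2) k) K := by
    rw [faithfulSMul_iff_algebraMap_injective]
    exact hφBinj
  have : IsFractionRing (MvPolynomial (Fin 2) k) K := by
    apply IsFractionRing.of_field
    intro z
    have hz : z ∈ IntermediateField.adjoin ℂ ({a, b, s, q} : Set K) := by rw [hgen]; trivial
    obtain ⟨x, hx, y, hy, rfl⟩ := IntermediateField.mem_adjoin_iff_div.mp hz
    have hmem : ∀ t ∈ Algebra.adjoin ℂ ({a, b, s, q} : Set K), ∃ T : MvPolynomial (Fin 2) k,
        φB T = t := by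
      intro t ht
      induction ht using Algebra.adjoin_induction with
      | mem t ht =>
        rcases ht with rfl | rfl | rfl | rfl
        · exact ⟨C ⟨t, hak⟩, by rw [hφB, aeval_C]; rfl⟩
        · exact ⟨C ⟨t, hbk⟩, by rw [hφB, aeval_C]; rfl⟩
        · exact ⟨X 1, by rw [hφB, aeval_X]; rfl⟩
        · exact ⟨X 0, by rw [hφB, aeval_X]; rfl⟩
      | algebraMap c => exact ⟨C (algebraMap ℂ k c), by rw [hφB, aeval_C]; rfl⟩
      | add x y _ _ h h' =>
        obtain ⟨X, rfl⟩ := h
        obtain ⟨Y, rfl⟩ := h'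
        exact ⟨X + Y, map_add _ _ _⟩
      | mul x y _ _ h h' =>
        obtain ⟨X, rfl⟩ := h
        obtain ⟨Y, rfl⟩ := h'
        exact ⟨X * Y, map_mul _ _ _⟩
    obtain ⟨X, rfl⟩ := hmem x hx
    obtain ⟨Y, rfl⟩ := hmem y hy
    exact ⟨X, Y, rfl⟩
  -- the polynomial ring `P = ℂ[q, p]`
  set φ : MvPolynomial (Fin 2) ℂ →ₐ[ℂ] K := aeval ![q, p] with hφ
  set gB : MvPolynomial (Fin 2) ℂ →+* MvPolynomial (Fin 2) k :=
    eval₂Hom (C.comp (algebraMap ℂ k)) ![X 0, C κ⁻¹ * X 0 * X 1 ^ 2] with hgB
  have hcomp : (algebraMap (MvPolynomial (Fin 2) k) K).comp gB = (φ : MvPolynomial (Fin 2) ℂ →+* K) := by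
    apply MvPolynomial.ringHom_ext
    · intro c
      simp only [hgB, hφ, RingHom.comp_apply, coe_eval₂Hom, eval₂_C, RingHom.coe_coe, aeval_C, halg,
        hφB]
      rfl
    · intro i
      fin_cases i
      · simp [hgB, hφ, halg, hφB]
      · have e1 : gB (X 1) = C κ⁻¹ * X 0 * X 1 ^ 2 := by simp [hgB]
        have e2 : φ (X 1) = p := by simp [hφ]
        have e3 : φB (C κ⁻¹ * X 0 * X 1 ^ 2) = (a / b)⁻¹ * q * s ^ 2 := by
          rw [map_mul, map_mul, map_pow, hφB, aeval_C, aeval_X, aeval_X]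
          rfl
        change φB (gB (X 1)) = φ (X 1)
        rw [e1, e2, e3, hp]
        field_simp
  have hmem : ∀ T, φ T ∈ Algebra.adjoin ℂ ({p, q} : Set K) := by
    intro T
    have : φ T ∈ φ.range := ⟨T, rfl⟩
    have h2 : φ.range = Algebra.adjoin ℂ (Set.range ![q, p]) := by
      rw [hφ, Algebra.adjoin_range_eq_range_aeval]
    rw [h2] at this
    convert! this using 2
    simp
  -- a multiple of `f` is integral
  obtain ⟨y, h, hy0, hmonic, hhf⟩ : ∃ (y : MvPolynomial (Fin 2) ℂ)
      (h : Polynomial (MvPolynomial (Fin 2) ℂ)), φ y ≠ 0 ∧ h.Monic ∧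
      h.eval₂ (φ : MvPolynomial (Fin 2) ℂ →+* K) (φ y * f) = 0 := by
    have hrange : ∀ x : Algebra.adjoin ℂ ({p, q} : Set K), ∃ T : MvPolynomial (Fin 2) ℂ,
        φ T = x := by
      rintro ⟨x, hx⟩
      induction hx using Algebra.adjoin_induction with
      | mem t ht =>
        rcases ht with rfl | rfl
        · exact ⟨X 1, by simp [hφ]⟩
        · exact ⟨X 0, by simp [hφ]⟩
      | algebraMap c => exact ⟨C c, by simp [hφ]⟩
      | add x y _ _ h h' =>
        obtain ⟨X, hX⟩ := h
        obtain ⟨Y, hY⟩ := h'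
        exact ⟨X + Y, by rw [map_add, hX, hY]⟩
      | mul x y _ _ h h' =>
        obtain ⟨X, hX⟩ := h
        obtain ⟨Y, hY⟩ := h'
        exact ⟨X * Y, by rw [map_mul, hX, hY]⟩
    let φR : MvPolynomial (Fin 2) ℂ →+* Algebra.adjoin ℂ ({p, q} : Set K) :=
      (φ.codRestrict (Algebra.adjoin ℂ ({p, q} : Set K)) hmem).toRingHom
    have hφR : Function.Surjective φR := by
      intro x
      obtain ⟨T, hT⟩ := hrange x
      exact ⟨T, Subtype.ext hT⟩
    have halg0 : IsAlgebraic (Algebra.adjoin ℂ ({p, q} : Set K)) f := by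
      open scoped IntermediateField.algebraAdjoinAdjoin in
      exact (IsFractionRing.isAlgebraic_iff (Algebra.adjoin ℂ ({p, q} : Set K))
        (IntermediateField.adjoin ℂ ({p, q} : Set K)) K).mpr hf
    obtain ⟨y, hy0, h, hmonic, hh⟩ := halg0.exists_integral_multiple
    obtain ⟨Y, rfl⟩ := hφR y
    obtain ⟨H, hH, -, hHm⟩ := Polynomial.lifts_and_natDegree_eq_and_monic
      (f := φR) (p := h) (by
        obtain ⟨H, hH⟩ := Polynomial.map_surjective φR hφR h
        exact ⟨H, hH⟩) hmonic
    refine ⟨Y, H, ?_, hHm, ?_⟩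
    · intro h0
      exact hy0 (Subtype.ext h0)
    · rw [← hH, Polynomial.eval₂_map] at hh
      exact hh
  -- `F = φ(y) f` lies in `B`
  have hFint : IsIntegral (MvPolynomial (Fin 2) k) (φ y * f) := by
    refine ⟨h.map gB, hmonic.map _, ?_⟩
    rw [Polynomial.eval₂_map, hcomp]
    exact hhf
  obtain ⟨F, hF⟩ := UniqueFactorizationMonoid.integer_of_integral hFint
  have hFh : h.eval₂ gB F = 0 := by
    apply hφBinj
    have := Polynomial.hom_eval₂ h gB (algebraMap (MvPolynomial (Fin 2) k) K) F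
    rw [hcomp, hF, hhf] at this
    rw [map_zero]
    exact this
  -- extend to `E`, containing a square root of `κ`
  let E := AlgebraicClosure k
  obtain ⟨t, ht⟩ : ∃ t : E, t ^ 2 = algebraMap k E κ :=
    IsAlgClosed.exists_pow_nat_eq _ (by norm_num)
  have hιinj : Function.Injective (algebraMap k E) := (algebraMap k E).injective
  have ht0 : t ≠ 0 := by
    rintro rfl
    rw [zero_pow (by norm_num)] at ht
    exact hκ0 (hιinj (by rw [← ht, map_zero]))
  set Θ : MvPolynomial (Fin 2) k →+* MvPolynomial (Fin 2) E :=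
    eval₂Hom (C.comp (algebraMap k E)) ![X 0, C t * X 1] with hΘ
  set g' : MvPolynomial (Fin 2) ℂ →+* MvPolynomial (Fin 2) ℂ :=
    eval₂Hom C ![X 0, X 0 * X 1 ^ 2] with hg'
  have hΘg : Θ.comp gB = (algebraMap (MvPolynomial (Fin 2) ℂ) (MvPolynomial (Fin 2) E)).comp g' := by
    apply MvPolynomial.ringHom_ext
    · intro c
      simp only [hΘ, hgB, hg', RingHom.comp_apply, coe_eval₂Hom, eval₂_C]
      change C (algebraMap k E (algebraMap ℂ k c)) = map (algebraMap ℂ E) (C c)
      rw [map_C, ← IsScalarTower.algebraMap_apply]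
    · intro i
      fin_cases i
      · simp [hΘ, hgB, hg']
      · have e1 : gB (X 1) = C κ⁻¹ * X 0 * X 1 ^ 2 := by simp [hgB]
        have e2 : g' (X 1) = X 0 * X 1 ^ 2 := by simp [hg']
        have e3 : Θ (C κ⁻¹ * X 0 * X 1 ^ 2) = C (algebraMap k E κ⁻¹) * X 0 * (C t * X 1) ^ 2 := by
          simp [hΘ]
        have e4 : (algebraMap (MvPolynomial (Fin 2) ℂ) (MvPolynomial (Fin 2) E)) (X 0 * X 1 ^ 2) =
            X 0 * X 1 ^ 2 := by
          change map (algebraMap ℂ E) (X 0 * X 1 ^ 2) = _
          simp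
        change Θ (gB (X 1)) = (algebraMap (MvPolynomial (Fin 2) ℂ) (MvPolynomial (Fin 2) E)) (g' (X 1))
        rw [e1, e2, e3, e4, mul_pow, ← map_pow, ht]
        have e5 : (C (algebraMap k E κ⁻¹) : MvPolynomial (Fin 2) E) * C (algebraMap k E κ) = 1 := by
          rw [← map_mul, ← map_mul, inv_mul_cancel₀ hκ0, map_one, map_one]
        linear_combination (X 0 * X 1 ^ 2) * e5
  have hΘint : IsIntegral (MvPolynomial (Fin 2) ℂ) (Θ F) := by
    refine ⟨h.map g', hmonic.map _, ?_⟩
    rw [Polynomial.eval₂_map, ← hΘg, ← Polynomial.hom_eval₂, hFh, map_zero]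
  have hcoef := MvPolynomial.isIntegral_iff_isIntegral_coeff.mp hΘint
  have hΘcoef : ∀ (G : MvPolynomial (Fin 2) k) (m : Fin 2 →₀ ℕ),
      coeff m (Θ G) = algebraMap k E (coeff m G) * t ^ (m 1) := by
    intro G
    induction G using MvPolynomial.induction_on' with
    | monomial u c =>
      intro m
      have e1 : Θ (monomial u c) = monomial u (algebraMap k E c * t ^ (u 1)) := by
        rw [monomial_eq, monomial_eq, Finsupp.prod_fintype _ _ (by simp), Fin.prod_univ_two,
          Finsupp.prod_fintype _ _ (by simp), Fin.prod_univ_two]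
        simp only [hΘ, map_mul, map_pow, coe_eval₂Hom, eval₂_C, eval₂_X, RingHom.comp_apply,
          Matrix.cons_val_zero, Matrix.cons_val_one, mul_pow]
        ring
      rw [e1, coeff_monomial, coeff_monomial]
      split_ifs with h
      · rw [h]
      · rw [map_zero, zero_mul]
    | add p₁ p₂ h₁ h₂ =>
      intro m
      rw [map_add, coeff_add, coeff_add, h₁, h₂, map_add]
      ring
  -- each monomial of `F` lies in `ℂ(p, q)`
  have hpM : p ∈ IntermediateField.adjoin ℂ ({p, q} : Set K) :=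
    IntermediateField.subset_adjoin _ _ (by simp)
  have hqM : q ∈ IntermediateField.adjoin ℂ ({p, q} : Set K) :=
    IntermediateField.subset_adjoin _ _ (by simp)
  have hmon : ∀ m, φB (monomial m (coeff m F)) ∈ IntermediateField.adjoin ℂ ({p, q} : Set K) := by
    intro m
    by_cases hc0 : coeff m F = 0
    · rw [hc0, map_zero, map_zero]; exact zero_mem _
    obtain ⟨z, hz⟩ := ACI_integral _ (hcoef m)
    rw [hΘcoef] at hz
    obtain ⟨n, hn | hn⟩ := Nat.even_or_odd' (m 1)
    · have h1 : coeff m F * κ ^ n = algebraMap ℂ k z := by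
        apply hιinj
        rw [map_mul, map_pow, ← ht, ← pow_mul, ← hn, ← hz, ← IsScalarTower.algebraMap_apply]
      have h2 : φB (monomial m (coeff m F)) = algebraMap ℂ K z * q ^ (m 0) * (p / q) ^ n := by
        have h3 : ((coeff m F : k) : K) * (a / b) ^ n = algebraMap ℂ K z := by
          have := congrArg (fun x : k => (x : K)) h1
          exact this
        rw [monomial_eq, Finsupp.prod_fintype _ _ (by simp), Fin.prod_univ_two, map_mul, map_mul,
          map_pow, map_pow, hφB, aeval_C, aeval_X, aeval_X, ← h3, hn, hp]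
        change ((coeff m F : k) : K) * (q ^ m 0 * s ^ (2 * n)) = _
        rw [pow_mul]
        have h4 : q * s ^ 2 / (a / b) / q = s ^ 2 / (a / b) := by
          field_simp
        rw [h4]
        have h5 : (a / b) ^ n * (s ^ 2 / (a / b)) ^ n = (s ^ 2) ^ n := by
          rw [← mul_pow, mul_div_cancel₀ _ (div_ne_zero ha0 hb0)]
        linear_combination (-((coeff m F : k) : K) * q ^ m 0) * h5
      rw [h2]
      exact mul_mem (mul_mem (IntermediateField.algebraMap_mem _ z) (pow_mem hqM _))
        (pow_mem (div_mem hpM hqM) _)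
    · exfalso
      have hc1 : algebraMap k E (coeff m F) ≠ 0 := by
        rw [Ne, map_eq_zero_iff _ hιinj]; exact hc0
      have hκE : algebraMap k E κ ≠ 0 := by
        rw [Ne, map_eq_zero_iff _ hιinj]; exact hκ0
      apply hκns (algebraMap ℂ k z / (coeff m F * κ ^ n))
      apply hιinj
      rw [← ht, map_pow]
      congr 1
      rw [map_div₀, map_mul, map_pow, ← IsScalarTower.algebraMap_apply, hz, hn, pow_add, pow_mul, ht,
        pow_one, mul_div_mul_left _ _ hc1, mul_div_cancel_left₀ _ (pow_ne_zero n hκE)]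
  have hFmem : φB F ∈ IntermediateField.adjoin ℂ ({p, q} : Set K) := by
    rw [F.as_sum, map_sum]
    exact sum_mem fun m _ => hmon m
  have hymem : φ y ∈ IntermediateField.adjoin ℂ ({p, q} : Set K) :=
    IntermediateField.algebra_adjoin_le_adjoin ℂ _ (hmem y)
  have : f = φB F / φ y := by
    rw [eq_div_iff hy0]
    rw [← halg, hF]
    ring
  rw [this]
  exact div_mem hFmem hymem


/-- A10. `ℂ(p, q)` is algebraically closed in `K` (the general fibres are connected). -/
theorem algClosed_in {d : Quad K} (hd : d.IsData) (f : K)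
    (hf : IsAlgebraic (IntermediateField.adjoin ℂ {d.pair.p, d.pair.q}) f) :
    f ∈ IntermediateField.adjoin ℂ {d.pair.p, d.pair.q} := by
  have h1 := (hd.tw false false false false true).blow
  have h2 : (d.tw false false false false true).blow = ⟨d.a, d.b, d.s, d.r / d.s⟩ := rfl
  rw [h2] at h1
  have hs0 : d.s ≠ 0 := hd.ne_zero.2.2.2
  exact ACI_main h1.eq hd.ne_zero.2.1 h1.ind h1.gen (by
    simp only [Quad.pair, Quad.kap]
    field_simp) f hf

end

end Pool.Agent.AHM
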