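import Pool.Agent.AHM.Proper

open CategoryTheory AlgebraicGeometry Order

namespace Pool.Agent.AHM

noncomputable section

/-- A proper dominant morphism is surjective. -/
theorem almostHol_surjective {G Y : Scheme.{0}} (f : G ⟶ Y) [IsProper f] [IsDominant f] :
    Surjective f := by
  refine ⟨fun y => ?_⟩
  have h1 : Dense (Set.range f) := f.denseRange
  have h2 : IsClosed (Set.range f) := f.isClosedMap.isClosed_range
  have h3 : Set.range f = Set.univ := by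
    rw [← h2.closure_eq, h1.closure_eq]
  exact (h3 ▸ Set.mem_univ y : y ∈ Set.range f)

/-- Composition of a dominant morphism with a partial map, computed on the preimage. -/
theorem almostHol_comp {G X Y : Scheme.{0}} [PreirreducibleSpace G] [Nonempty X] (π : G ⟶ X)
    [IsDominant π] (f : X.PartialMap Y) (ψ : G ⟶ Y)
    (hd : Dense ((π ⁻¹ᵁ f.domain : G.Opens) : Set G))
    (h : (π ∣_ f.domain) ≫ f.hom = (π ⁻¹ᵁ f.domain).ι ≫ ψ) :
    (π.toPartialMap.comp f).toRationalMap = ψ.toRationalMap := by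
  have hle : π ⁻¹ᵁ f.domain ≤ (⊤ : G.Opens).ι ''ᵁ ((G.topIso.hom ≫ π) ⁻¹ᵁ f.domain) := by
    intro x hx
    exact ⟨⟨x, trivial⟩, hx, rfl⟩
  refine Scheme.PartialMap.toRationalMap_eq_iff.mpr ⟨π ⁻¹ᵁ f.domain, hd, hle, le_top, ?_⟩
  have h2 : G.homOfLE hle ≫ (((⊤ : G.Opens).ι.isoImage ((G.topIso.hom ≫ π) ⁻¹ᵁ f.domain)).inv ≫
      ((G.topIso.hom ≫ π) ∣_ f.domain)) = π ∣_ f.domain := by
    rw [← cancel_mono f.domain.ι, Category.assoc, Category.assoc, morphismRestrict_ι,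
      morphismRestrict_ι]
    have e := Scheme.Hom.isoImage_inv_ι_assoc (⊤ : G.Opens).ι
      ((G.topIso.hom ≫ π) ⁻¹ᵁ f.domain) π
    exact (congrArg (G.homOfLE hle ≫ ·) e).trans (Scheme.homOfLE_ι_assoc _ _ _)
  change G.homOfLE hle ≫ (((⊤ : G.Opens).ι.isoImage ((G.topIso.hom ≫ π) ⁻¹ᵁ f.domain)).inv ≫
      ((G.topIso.hom ≫ π) ∣_ f.domain) ≫ f.hom) =
    G.homOfLE (le_top : (π ⁻¹ᵁ f.domain) ≤ ⊤) ≫ G.topIso.hom ≫ ψ
  rw [reassoc_of% h2, h]
  simp

/-- S7. The rational map defined by a roof which is an isomorphism over `U`. -/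
theorem almostHol (G X Y : SmoothProjVar) (π : G.X ⟶ X.X) (φΓ : G.X ⟶ Y.X)
    (hπ : π ≫ X.str = G.str) (hφ : φΓ ≫ Y.str = G.str) [IsDominant φΓ]
    (U : X.X.Opens) (V : Y.X.Opens) (hU : (U : Set X.X).Nonempty) (hV : (V : Set Y.X).Nonempty)
    (hW : π ⁻¹ᵁ U = φΓ ⁻¹ᵁ V) (hiso : IsIso (π ∣_ U)) :
    ∃ (φ : X.X ⤏ Y.X) (_ : φ.IsDominant) (_ : IsDominant π),
      φ.compHom Y.str = X.str.toRationalMap ∧ IsAlmostHolomorphic φ ∧
      IsBirationalMorphism π ∧ π.toRationalMap.comp φ = φΓ.toRationalMap := by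
  have hUd : Dense (U : Set X.X) := U.2.dense hU
  have hVd : Dense (V : Set Y.X) := V.2.dense hV
  have hG := isProper_str G
  have hY := isProper_str Y
  have hpr : IsProper φΓ := by
    have : IsProper (φΓ ≫ Y.str) := by rw [hφ]; exact hG
    exact IsProper.of_comp φΓ Y.str
  have hsurj : Surjective φΓ := almostHol_surjective φΓ
  have hprV : IsProper (φΓ ∣_ V) := inferInstance
  have hsuV : Surjective (φΓ ∣_ V) := IsZariskiLocalAtTarget.restrict hsurj V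
  have hUι : IsDominant U.ι := Opens.isDominant_ι hUd
  have hVι : IsDominant V.ι := Opens.isDominant_ι hVd
  have hπd : IsDominant π := by
    have h1 : IsDominant ((π ⁻¹ᵁ U).ι ≫ π) := by
      rw [← morphismRestrict_ι]
      infer_instance
    exact IsDominant.of_comp (π ⁻¹ᵁ U).ι π
  let g : U.toScheme ⟶ V.toScheme := inv (π ∣_ U) ≫ (G.X.isoOfEq hW).hom ≫ (φΓ ∣_ V)
  have hgp : IsProper g := inferInstance
  have hgs : Surjective g := inferInstance
  have hgd : IsDominant (g ≫ V.ι) := inferInstance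
  let f : X.X.PartialMap Y.X := Scheme.PartialMap.mk U hUd (g ≫ V.ι)
  have hfd : IsDominant f.hom := hgd
  have hg1 : (π ∣_ U) ≫ g ≫ V.ι = (π ⁻¹ᵁ U).ι ≫ φΓ := by
    simp [g]
  have hnW : ((π ⁻¹ᵁ U : G.X.Opens) : Set G.X).Nonempty := by
    obtain ⟨x, hx⟩ := hU
    refine ⟨((inv (π ∣_ U)) ⟨x, hx⟩).1, ((inv (π ∣_ U)) ⟨x, hx⟩).2⟩
  have hWd : Dense ((π ⁻¹ᵁ U : G.X.Opens) : Set G.X) := (π ⁻¹ᵁ U).2.dense hnW
  refine ⟨f.toRationalMap, inferInstance, hπd, ?_, ⟨inferInstance, U, V, hUd, g, hVd, hgp, hgs, rfl⟩,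
    ⟨U, hUd, hWd, hiso⟩, ?_⟩
  · rw [← Scheme.RationalMap.compHom_toRationalMap]
    refine Scheme.PartialMap.toRationalMap_eq_iff.mpr ⟨U, hUd, le_rfl, le_top, ?_⟩
    have : g ≫ V.ι ≫ Y.str = U.ι ≫ X.str := by
      rw [← cancel_epi (π ∣_ U), reassoc_of% hg1, hφ, morphismRestrict_ι_assoc, hπ]
    change X.X.homOfLE (le_refl U) ≫ (g ≫ V.ι) ≫ Y.str =
      X.X.homOfLE (le_top : U ≤ ⊤) ≫ X.X.topIso.hom ≫ X.str
    simpa using this
  · rw [Scheme.RationalMap.toRationalMap_comp]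
    exact almostHol_comp π f φΓ hWd hg1

end

end Pool.Agent.AHM
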