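import Mathlib

/-!
# Basic definitions for MP_27e6ae_ag

Smooth projective complex varieties, almost holomorphic maps and birational morphisms, in the
language of Mathlib schemes.
-/

open CategoryTheory AlgebraicGeometry Order

namespace Pool.Agent.AHM

noncomputable section

/-- The base scheme `Spec ℂ`. -/
abbrev SpecC : Scheme.{0} := Spec (CommRingCat.of ℂ)

/-- The standard grading of the polynomial ring in `n + 1` variables (from Mathlib). -/
instance polyGrading (n : ℕ) :
    GradedAlgebra (MvPolynomial.homogeneousSubmodule (Fin (n + 1)) ℂ) :=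
  MvPolynomial.gradedAlgebra

/-- Projective `n`-space over `ℂ`, with homogeneous coordinates `X 0, ..., X n`. -/
abbrev PSpace (n : ℕ) : Scheme.{0} :=
  Proj (MvPolynomial.homogeneousSubmodule (Fin (n + 1)) ℂ)

/-- The structure morphism of projective space. -/
def PSpace.str (n : ℕ) : PSpace n ⟶ SpecC :=
  Proj.toSpecZero (MvPolynomial.homogeneousSubmodule (Fin (n + 1)) ℂ) ≫
    Spec.map (CommRingCat.ofHom
      (algebraMap ℂ (MvPolynomial.homogeneousSubmodule (Fin (n + 1)) ℂ 0)))

/-- A smooth projective complex variety: an integral scheme, smooth over `Spec ℂ`, with a closed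
immersion over `Spec ℂ` into some projective space. -/
structure SmoothProjVar where
  /-- the underlying scheme -/
  X : Scheme.{0}
  /-- the structure morphism -/
  str : X ⟶ SpecC
  isIntegral : IsIntegral X
  smooth : Smooth str
  projective : ∃ (n : ℕ) (i : X ⟶ PSpace n), IsClosedImmersion i ∧ i ≫ PSpace.str n = str

attribute [instance] SmoothProjVar.isIntegral SmoothProjVar.smooth

instance (X : SmoothProjVar) : IsLocallyNoetherian X.X :=
  LocallyOfFiniteType.isLocallyNoetherian X.str

/-- A rational map `φ` is almost holomorphic if it is dominant and restricts to a proper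
surjective morphism `U ⟶ V` between nonempty open subsets. -/
def IsAlmostHolomorphic {X Y : Scheme.{0}} (φ : X ⤏ Y) : Prop :=
  φ.IsDominant ∧ ∃ (U : X.Opens) (V : Y.Opens) (hU : Dense (U : Set X))
    (g : U.toScheme ⟶ V.toScheme), Dense (V : Set Y) ∧ IsProper g ∧ Surjective g ∧
      φ = (Scheme.PartialMap.mk U hU (g ≫ V.ι)).toRationalMap

/-- A birational morphism: an isomorphism over some dense open subset. -/
def IsBirationalMorphism {X Y : Scheme.{0}} (π : X ⟶ Y) : Prop :=
  ∃ V : Y.Opens, Dense (V : Set Y) ∧ Dense ((π ⁻¹ᵁ V : X.Opens) : Set X) ∧ IsIso (π ∣_ V)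

end

end Pool.Agent.AHM
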