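import Pool.Agent.AHM.CoordAlg

/-!
# Existence of local coordinates on smooth varieties
-/

set_option autoImplicit false

open CategoryTheory AlgebraicGeometry Order

namespace Pool.Agent.AHM.Stmt

/-- Local coordinates exist at every point of a smooth projective variety. -/
theorem exists_isCoordinates (X : SmoothProjVar) (x : Pt X) :
    ∃ (n : ℕ) (t : Fin n → Loc X x), IsCoordinates t := by
  obtain ⟨U, hU, V, hV, hxV, e, h⟩ := Smooth.exists_isStandardSmooth X.str x
  have hUtop : U = ⊤ := by
    ext y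
    simp only [TopologicalSpace.Opens.coe_top, Set.mem_univ, iff_true, SetLike.mem_coe]
    have hy : y = X.str x := Subsingleton.elim (α := PrimeSpectrum ℂ) _ _
    rw [hy]
    exact e hxV
  subst hUtop
  let c : CommRingCat.of ℂ ⟶ Γ(X.X, V) :=
    (Scheme.ΓSpecIso (CommRingCat.of ℂ)).inv ≫ X.str.appLE ⊤ V e
  letI : Algebra ℂ Γ(X.X, V) := c.hom.toAlgebra
  have hss : Algebra.IsStandardSmooth ℂ Γ(X.X, V) := by
    have h1 : c.hom.IsStandardSmooth := by
      have := RingHom.isStandardSmooth_respectsIso.2 _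
        (Scheme.ΓSpecIso (CommRingCat.of ℂ)).symm.commRingCatIsoToRingEquiv h
      exact this
    exact h1
  obtain ⟨n, t, ht⟩ := exists_isCoordinates_of_isStandardSmooth hss
  letI : Algebra Γ(X.X, V) (Loc X x) := (X.X.presheaf.germ V x hxV).hom.toAlgebra
  haveI : IsScalarTower ℂ Γ(X.X, V) (Loc X x) := by
    refine IsScalarTower.of_algebraMap_eq' ?_
    change (const X x).hom = (X.X.presheaf.germ V x hxV).hom.comp c.hom
    rw [← CommRingCat.hom_comp]
    congr 1
    simp only [const, c, Category.assoc]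
    congr 1
    rw [Scheme.Hom.appLE, Category.assoc]
    erw [X.X.presheaf.germ_res]
    rfl
  haveI := hV.isLocalization_stalk ⟨x, hxV⟩
  exact ⟨n, _, ht.localization (hV.primeIdealOf ⟨x, hxV⟩).asIdeal.primeCompl⟩

end Pool.Agent.AHM.Stmt
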