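import Pool.Agent.AHM.Jac
import Pool.Agent.AHM.CoordGeo

/-!
# Birational morphisms and function fields
-/

set_option autoImplicit false

open CategoryTheory AlgebraicGeometry Order

namespace Pool.Agent.AHM.Stmt

noncomputable section

theorem bir_genericPoint {X Y : Scheme.{0}} [IsIntegral X] [IsIntegral Y] (f : X ⟶ Y)
    (hf : IsBirationalMorphism f) :
    f (genericPoint X) = genericPoint Y ∧ IsIso (f.stalkMap (genericPoint X)) := by
  obtain ⟨V, hV, hfV, hiso⟩ := hf
  haveI hne : Nonempty (f ⁻¹ᵁ V) := by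
    obtain ⟨x, hx⟩ := hfV.nonempty
    exact ⟨⟨x, hx⟩⟩
  haveI hne2 : Nonempty V := by
    obtain ⟨x, hx⟩ := hV.nonempty
    exact ⟨⟨x, hx⟩⟩
  haveI : Nonempty (f ⁻¹ᵁ V).toScheme := hne
  haveI : Nonempty V.toScheme := hne2
  let u := genericPoint (f ⁻¹ᵁ V).toScheme
  have h1 : (f ⁻¹ᵁ V).ι u = genericPoint X := genericPoint_eq_of_isOpenImmersion _
  have h2 : ((f ∣_ V) ≫ V.ι) u = genericPoint Y := genericPoint_eq_of_isOpenImmersion _
  have h3 : (f ∣_ V) ≫ V.ι = (f ⁻¹ᵁ V).ι ≫ f := morphismRestrict_ι f V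
  refine ⟨?_, ?_⟩
  · rw [← h1, ← h2, h3]
    rfl
  · rw [← h1]
    have h4 : IsIso (((f ⁻¹ᵁ V).ι ≫ f).stalkMap u) := by
      rw [← h3]
      infer_instance
    rw [Scheme.Hom.stalkMap_comp] at h4
    haveI h5 : IsIso (f.stalkMap ((f ⁻¹ᵁ V).ι u) ≫ (f ⁻¹ᵁ V).ι.stalkMap u) := h4
    exact IsIso.of_isIso_comp_right _ ((f ⁻¹ᵁ V).ι.stalkMap u)

theorem bir_isFractionRing_aux {X : Scheme.{0}} [IsIntegral X] (x g : X)
    (hg : g = genericPoint X) (h : g ⤳ x) :
    @IsFractionRing (X.presheaf.stalk x) _ (X.presheaf.stalk g) _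
      (X.presheaf.stalkSpecializes h).hom.toAlgebra := by
  subst hg
  exact (inferInstance : IsFractionRing (X.presheaf.stalk x) X.functionField)

theorem bir_isFractionRing {X Y : Scheme.{0}} [IsIntegral X] [IsIntegral Y] (f : X ⟶ Y)
    (hf : IsBirationalMorphism f) (x : X) :
    @IsFractionRing (Y.presheaf.stalk (f x)) _ (X.presheaf.stalk (genericPoint X)) _
      ((X.presheaf.stalkSpecializes ((genericPoint_spec X).specializes trivial)).hom.comp
        (f.stalkMap x).hom).toAlgebra := by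
  obtain ⟨h1, h2⟩ := bir_genericPoint f hf
  have hsp : genericPoint X ⤳ x := (genericPoint_spec X).specializes trivial
  have hnat := Scheme.Hom.stalkSpecializes_stalkMap f (genericPoint X) x hsp
  have h3 := bir_isFractionRing_aux (f x) (f (genericPoint X)) h1
    (f.base.hom.map_specializes hsp)
  letI a1 : Algebra (Y.presheaf.stalk (f x)) (Y.presheaf.stalk (f (genericPoint X))) :=
    (Y.presheaf.stalkSpecializes (f.base.hom.map_specializes hsp)).hom.toAlgebra
  letI a2 : Algebra (Y.presheaf.stalk (f x)) (X.presheaf.stalk (genericPoint X)) :=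
    ((X.presheaf.stalkSpecializes hsp).hom.comp (f.stalkMap x).hom).toAlgebra
  let e : Y.presheaf.stalk (f (genericPoint X)) ≃+* X.presheaf.stalk (genericPoint X) :=
    (asIso (f.stalkMap (genericPoint X))).commRingCatIsoToRingEquiv
  let e' : Y.presheaf.stalk (f (genericPoint X)) ≃ₐ[Y.presheaf.stalk (f x)]
      X.presheaf.stalk (genericPoint X) :=
    AlgEquiv.ofRingEquiv (f := e) (by
      intro r
      have := congrArg (fun F => F.hom r) hnat
      exact this)
  exact IsLocalization.isLocalization_of_algEquiv _ e'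

end

end Pool.Agent.AHM.Stmt
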