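import Pool.Agent.AHM.Stmt

/-!
# Coordinates: localisation, standard smooth algebras, fraction fields
-/

set_option autoImplicit false

open CategoryTheory AlgebraicGeometry Order

namespace Pool.Agent.AHM.Stmt

section

variable {A B : Type} [CommRing A] [CommRing B] [Algebra ℂ A] [Algebra ℂ B] [Algebra A B]
  [IsScalarTower ℂ A B]

/-- Coordinates localise. -/
theorem IsCoordinates.localization (M : Submonoid A) [IsLocalization M B] {n : ℕ}
    {t : Fin n → A} (ht : IsCoordinates t) :
    IsCoordinates (fun i => algebraMap A B (t i)) := by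
  obtain ⟨h1, h2⟩ := ht
  have e : (fun i => KaehlerDifferential.D ℂ B (algebraMap A B (t i))) =
      KaehlerDifferential.map ℂ ℂ A B ∘ fun i => KaehlerDifferential.D ℂ A (t i) := by
    funext i
    simp
  refine ⟨?_, ?_⟩
  · rw [e]
    exact h1.of_isLocalizedModule B M _
  · have := span_eq_top_of_isLocalizedModule B M (KaehlerDifferential.map ℂ ℂ A B)
      (v := Set.range fun i => KaehlerDifferential.D ℂ A (t i)) h2
    rw [← Set.range_comp, ← e] at this
    exact this

/-- Standard smooth algebras have coordinates. -/
theorem exists_isCoordinates_of_isStandardSmooth (h : Algebra.IsStandardSmooth ℂ A) :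
    ∃ (n : ℕ) (t : Fin n → A), IsCoordinates t := by
  obtain ⟨ι, σ, _, _, ⟨P⟩⟩ := h.out
  haveI : Fintype ((Set.range P.map)ᶜ : Set _) := Fintype.ofFinite _
  let e := Fintype.equivFin ((Set.range P.map)ᶜ : Set _)
  let b := P.basisKaehler.reindex e
  refine ⟨_, fun i => P.val (e.symm i), ?_, ?_⟩
  · have := b.linearIndependent
    convert this using 1
    funext i
    simp [b]
  · have := b.span_eq
    convert this using 3
    funext i
    simp [b]

end

end Pool.Agent.AHM.Stmt
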