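import Pool.Agent.AHM.Model

open CategoryTheory AlgebraicGeometry Order

namespace Pool.Agent.AHM

noncomputable section

variable {K : Type} [Field K] [Algebra ℂ K] {L : Type} [Field L] [Algebra ℂ L]

namespace Coords

open HomogeneousLocalization

/-- the grading of the polynomial ring -/
abbrev HS (n : ℕ) : ℕ → Submodule ℂ (MvPolynomial (Fin (n + 1)) ℂ) :=
  MvPolynomial.homogeneousSubmodule (Fin (n + 1)) ℂ

theorem X_mem (n : ℕ) (k : Fin (n + 1)) :
    (MvPolynomial.X k : MvPolynomial (Fin (n + 1)) ℂ) ∈ HS n 1 :=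
  MvPolynomial.isHomogeneous_X _ _

/-- `X j / X k` -/
def fr (n : ℕ) (k j : Fin (n + 1)) :
    Away (HS n) (MvPolynomial.X k : MvPolynomial (Fin (n + 1)) ℂ) :=
  Away.mk (HS n) (X_mem n k) 1 (MvPolynomial.X j) (by simpa using X_mem n j)

/-- the standard open subset -/
abbrev DD (n : ℕ) (k : Fin (n + 1)) : (PSpace n).Opens :=
  Proj.basicOpen (HS n) (MvPolynomial.X k : MvPolynomial (Fin (n + 1)) ℂ)

theorem isAffineOpen_DD (n : ℕ) (k : Fin (n + 1)) : IsAffineOpen (DD n k) :=
  Proj.isAffineOpen_basicOpen (HS n) _ (X_mem n k) one_pos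

theorem exists_mem_DD (n : ℕ) (p : PSpace n) : ∃ k, p ∈ DD n k := by
  have h := Proj.iSup_basicOpen_eq_top' (HS n)
    (fun k : Fin (n + 1) => (MvPolynomial.X k : MvPolynomial (Fin (n + 1)) ℂ))
    (fun k => ⟨1, X_mem n k⟩) (by
      rw [eq_top_iff]
      intro f _
      have h1 : f ∈ Algebra.adjoin ℂ (Set.range
          (fun k : Fin (n + 1) => (MvPolynomial.X k : MvPolynomial (Fin (n + 1)) ℂ))) := by
        rw [MvPolynomial.adjoin_range_X]
        trivial
      induction h1 using Algebra.adjoin_induction with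
      | mem x hx => exact Algebra.subset_adjoin hx
      | algebraMap r =>
        exact (Algebra.adjoin (HS n 0) _).algebraMap_mem
          (⟨MvPolynomial.C r, MvPolynomial.isHomogeneous_C _ _⟩ : HS n 0)
      | add x y _ _ hx hy => exact add_mem (hx trivial) (hy trivial)
      | mul x y _ _ hx hy => exact mul_mem (hx trivial) (hy trivial))
  have h2 : p ∈ ⨆ k, DD n k := by
    rw [h]
    trivial
  simpa using TopologicalSpace.Opens.mem_iSup.mp h2

/-- the evaluation of a fraction at a point of the chart -/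
def ev (M : Mod K) {n : ℕ} (i : M.V.X ⟶ PSpace n) (z : M.V.X) (k : Fin (n + 1))
    (hz : i z ∈ DD n k) :
    Away (HS n) (MvPolynomial.X k : MvPolynomial (Fin (n + 1)) ℂ) →+* K :=
  (M.stalkEmb z : M.V.X.presheaf.stalk z →+* K).comp
    ((i.stalkMap z).hom.comp (((PSpace n).presheaf.germ (DD n k) (i z) hz).hom.comp
      (Proj.awayToSection (HS n) (MvPolynomial.X k)).hom))

/-- the evaluation of a homogeneous fraction at a point -/
def at' (M : Mod K) {n : ℕ} (i : M.V.X ⟶ PSpace n) (z : M.V.X) :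
    HomogeneousLocalization.AtPrime (HS n) (i z).asHomogeneousIdeal.toIdeal →+* K :=
  (M.stalkEmb z : M.V.X.presheaf.stalk z →+* K).comp
    ((i.stalkMap z).hom.comp
      (Proj.stalkIso' (HS n) (i z)).toCommRingCatIso.inv.hom)

theorem ev_eq (M : Mod K) {n : ℕ} (i : M.V.X ⟶ PSpace n) (z : M.V.X) (k : Fin (n + 1))
    (hz : i z ∈ DD n k) (a) :
    ev M i z k hz a = at' M i z (HomogeneousLocalization.mapId (HS n)
      (Submonoid.powers_le.mpr hz) a) := by
  have h := ProjectiveSpectrum.Proj.awayToSection_germ (HS n) (MvPolynomial.X k) (i z) hz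
  have h1 := congrArg (fun f => (M.stalkEmb z) ((i.stalkMap z).hom (f.hom a))) h
  exact h1

theorem val_mapId_fr (n : ℕ) (k j : Fin (n + 1))
    (P : Submonoid (MvPolynomial (Fin (n + 1)) ℂ))
    (h : Submonoid.powers (MvPolynomial.X k : MvPolynomial (Fin (n + 1)) ℂ) ≤ P) :
    (HomogeneousLocalization.mapId (HS n) h (fr n k j)).val =
      Localization.mk (MvPolynomial.X j) ⟨MvPolynomial.X k ^ 1, h ⟨1, rfl⟩⟩ := rfl

theorem ev_mul (M : Mod K) {n : ℕ} (i : M.V.X ⟶ PSpace n) (z : M.V.X) (k l j : Fin (n + 1))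
    (hk : i z ∈ DD n k) (hl : i z ∈ DD n l) :
    ev M i z k hk (fr n k j) * ev M i z l hl (fr n l k) = ev M i z l hl (fr n l j) := by
  rw [ev_eq, ev_eq, ev_eq, ← map_mul]
  congr 1
  apply HomogeneousLocalization.val_injective
  rw [HomogeneousLocalization.val_mul, val_mapId_fr, val_mapId_fr, val_mapId_fr,
    Localization.mk_mul, Localization.mk_eq_mk_iff, Localization.r_iff_exists]
  refine ⟨1, ?_⟩
  simp only [Submonoid.coe_mul, OneMemClass.coe_one, one_mul, pow_one]
  ring

theorem ev_self (M : Mod K) {n : ℕ} (i : M.V.X ⟶ PSpace n) (z : M.V.X) (k : Fin (n + 1))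
    (hk : i z ∈ DD n k) : ev M i z k hk (fr n k k) = 1 := by
  rw [ev_eq]
  convert map_one (at' M i z)
  apply HomogeneousLocalization.val_injective
  rw [val_mapId_fr, HomogeneousLocalization.val_one, Localization.mk_eq_mk', IsLocalization.mk'_eq_iff_eq_mul]
  simp

theorem mem_of_ev_ne_zero (M : Mod K) {n : ℕ} (i : M.V.X ⟶ PSpace n) (k l : Fin (n + 1))
    (hl : i (genericPoint M.V.X) ∈ DD n l)
    (h : ev M i (genericPoint M.V.X) l hl (fr n l k) ≠ 0) :
    i (genericPoint M.V.X) ∈ DD n k := by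
  rw [ev_eq] at h
  have hl' : Submonoid.powers (MvPolynomial.X l : MvPolynomial (Fin (n + 1)) ℂ) ≤
      ((i (genericPoint M.V.X)).asHomogeneousIdeal.toIdeal).primeCompl :=
    Submonoid.powers_le.mpr hl
  set x := HomogeneousLocalization.mapId (HS n) hl' (fr n l k) with hx
  obtain ⟨y, hy⟩ : ∃ y : M.V.X.functionField, y = (i.stalkMap (genericPoint M.V.X)).hom
      ((Proj.stalkIso' (HS n) (i (genericPoint M.V.X))).toCommRingCatIso.inv.hom x) := ⟨_, rfl⟩
  have h1 : y ≠ 0 := by
    intro h0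
    apply h
    have h5 : M.stalkEmb (genericPoint M.V.X) y = 0 := by rw [h0, map_zero]
    rw [hy] at h5
    exact h5
  have h2 : IsUnit y := isUnit_iff_ne_zero.mpr h1
  rw [hy] at h2
  have h3 := isUnit_of_map_unit (i.stalkMap (genericPoint M.V.X)).hom _ h2
  have h4 : IsUnit x := by
    have := h3.map (Proj.stalkIso' (HS n) (i (genericPoint M.V.X))).toCommRingCatIso.hom.hom
    have h6 : (Proj.stalkIso' (HS n) (i (genericPoint M.V.X))).toCommRingCatIso.hom.hom
      ((Proj.stalkIso' (HS n) (i (genericPoint M.V.X))).toCommRingCatIso.inv.hom x) = x :=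
      RingEquiv.apply_symm_apply _ _
    exact (congrArg (fun t => IsUnit t) h6).mp this
  rw [← HomogeneousLocalization.isUnit_iff_isUnit_val, hx, val_mapId_fr,
    Localization.mk_eq_mk', IsLocalization.AtPrime.isUnit_mk'_iff] at h4
  exact h4

theorem stalkEmb_germ (M : Mod K) (U : M.V.X.Opens) (z : M.V.X) (hz : z ∈ U)
    (hη : genericPoint M.V.X ∈ U) (g : Γ(M.V.X, U)) :
    M.stalkEmb z (M.V.X.presheaf.germ U z hz g) =
      M.e (M.V.X.presheaf.germ U (genericPoint M.V.X) hη g) := by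
  have h := TopCat.Presheaf.germ_stalkSpecializes M.V.X.presheaf (U := U) (y := z) hz
    ((genericPoint_spec M.V.X).specializes trivial)
  have h2 := congrArg (fun f => M.e (f.hom g)) h
  exact h2

theorem ev_eq_germ (M : Mod K) {n : ℕ} (i : M.V.X ⟶ PSpace n) (z : M.V.X) (k : Fin (n + 1))
    (hz : i z ∈ DD n k) (hη : genericPoint M.V.X ∈ i ⁻¹ᵁ DD n k) (a) :
    ev M i z k hz a = M.e (M.V.X.presheaf.germ (i ⁻¹ᵁ DD n k) (genericPoint M.V.X) hη
      (i.app (DD n k) (Proj.awayToSection (HS n) (MvPolynomial.X k) a))) := by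
  rw [← stalkEmb_germ M (i ⁻¹ᵁ DD n k) z hz hη]
  exact congrArg (M.stalkEmb z) (Scheme.Hom.germ_stalkMap_apply i (DD n k) z hz _)

theorem ι_toSpecZero (n : ℕ) (k : Fin (n + 1)) :
    (DD n k).ι ≫ Proj.toSpecZero (HS n) = Proj.basicOpenToSpec (HS n) (MvPolynomial.X k) ≫
      Spec.map (CommRingCat.ofHom (HomogeneousLocalization.fromZeroRingHom (HS n)
        (Submonoid.powers (MvPolynomial.X k : MvPolynomial (Fin (n + 1)) ℂ)))) := by
  rw [← Proj.awayι_toSpecZero (HS n) (MvPolynomial.X k) (X_mem n k) one_pos,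
    ← Proj.basicOpenIsoSpec_hom (HS n) (MvPolynomial.X k) (X_mem n k) one_pos, Proj.awayι]
  simp

theorem str_section' (n : ℕ) (k : Fin (n + 1)) :
    (Scheme.ΓSpecIso (CommRingCat.of ℂ)).inv ≫ (PSpace.str n).appTop ≫
      (PSpace n).presheaf.map (homOfLE (le_top : DD n k ≤ ⊤)).op =
    CommRingCat.ofHom (algebraMap ℂ (HS n 0)) ≫
      CommRingCat.ofHom (HomogeneousLocalization.fromZeroRingHom (HS n)
        (Submonoid.powers (MvPolynomial.X k : MvPolynomial (Fin (n + 1)) ℂ))) ≫
      Proj.awayToSection (HS n) (MvPolynomial.X k) := by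
  have h1 : (PSpace n).presheaf.map (homOfLE (le_top : DD n k ≤ ⊤)).op =
      (DD n k).ι.appTop ≫ (DD n k).topIso.hom := by
    have h := (PSpace n).presheaf.map_comp
      (homOfLE (x := (DD n k).ι ''ᵁ ⊤) (y := ⊤) le_top).op
      (eqToHom (show DD n k = (DD n k).ι ''ᵁ ⊤ from (DD n k).ι_image_top.symm)).op
    exact h
  have h2 : (PSpace.str n).appTop ≫ (DD n k).ι.appTop =
      (Spec.map (CommRingCat.ofHom (algebraMap ℂ (HS n 0)))).appTop ≫
      (Spec.map (CommRingCat.ofHom (HomogeneousLocalization.fromZeroRingHom (HS n)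
        (Submonoid.powers (MvPolynomial.X k : MvPolynomial (Fin (n + 1)) ℂ))))).appTop ≫
      (Proj.basicOpenToSpec (HS n) (MvPolynomial.X k)).appTop := by
    rw [← Scheme.Hom.comp_appTop, ← Scheme.Hom.comp_appTop, ← Scheme.Hom.comp_appTop,
      ← ι_toSpecZero]
    rfl
  rw [h1, reassoc_of% h2, ← Scheme.ΓSpecIso_inv_naturality_assoc,
    ← Scheme.ΓSpecIso_inv_naturality_assoc]
  have h3 := Proj.basicOpenToSpec_app_top (HS n)
    (MvPolynomial.X k : MvPolynomial (Fin (n + 1)) ℂ)
  have h4 : (Proj.basicOpenToSpec (HS n)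
    (MvPolynomial.X k : MvPolynomial (Fin (n + 1)) ℂ)).appTop = _ := h3
  rw [h4, Category.assoc, Category.assoc, Iso.inv_hom_id, Category.comp_id,
    Iso.inv_hom_id_assoc]

theorem str_section (n : ℕ) (k : Fin (n + 1)) (c : ℂ) :
    (PSpace n).presheaf.map (homOfLE (le_top : DD n k ≤ ⊤)).op
      ((PSpace.str n).appTop ((Scheme.ΓSpecIso (CommRingCat.of ℂ)).inv c)) =
    Proj.awayToSection (HS n) (MvPolynomial.X k)
      (HomogeneousLocalization.fromZeroRingHom (HS n) _ (algebraMap ℂ (HS n 0) c)) :=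
  congrArg (fun f => f.hom c) (str_section' n k)

theorem e_germ_str (M : Mod K) (U : M.V.X.Opens) (hη : genericPoint M.V.X ∈ U) (c : ℂ) :
    M.e (M.V.X.presheaf.germ U (genericPoint M.V.X) hη
      (M.V.X.presheaf.map (homOfLE (le_top : U ≤ ⊤)).op
        (M.V.str.appTop ((Scheme.ΓSpecIso (CommRingCat.of ℂ)).inv c)))) = algebraMap ℂ K c := by
  rw [TopCat.Presheaf.germ_res_apply]
  exact M.e.commutes c

theorem ev_const (M : Mod K) {n : ℕ} (i : M.V.X ⟶ PSpace n) (hi : i ≫ PSpace.str n = M.V.str)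
    (k : Fin (n + 1)) (hk : i (genericPoint M.V.X) ∈ DD n k) (c : ℂ) :
    ev M i (genericPoint M.V.X) k hk
      (HomogeneousLocalization.fromZeroRingHom (HS n) _ (algebraMap ℂ (HS n 0) c)) =
      algebraMap ℂ K c := by
  rw [ev_eq_germ M i _ k hk hk, ← str_section]
  have h1 : i.app (DD n k) ((PSpace n).presheaf.map (homOfLE (le_top : DD n k ≤ ⊤)).op
      ((PSpace.str n).appTop ((Scheme.ΓSpecIso (CommRingCat.of ℂ)).inv c))) =
      M.V.X.presheaf.map (homOfLE (le_top : i ⁻¹ᵁ DD n k ≤ ⊤)).op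
        (M.V.str.appTop ((Scheme.ΓSpecIso (CommRingCat.of ℂ)).inv c)) := by
    have h2 := congrArg (fun f => f.hom
      ((PSpace.str n).appTop ((Scheme.ΓSpecIso (CommRingCat.of ℂ)).inv c)))
      (i.naturality (homOfLE (le_top : DD n k ≤ ⊤)).op)
    refine h2.trans ?_
    have h3 : M.V.str.appTop ((Scheme.ΓSpecIso (CommRingCat.of ℂ)).inv c) =
        i.appTop ((PSpace.str n).appTop ((Scheme.ΓSpecIso (CommRingCat.of ℂ)).inv c)) := by
      rw [← hi, Scheme.Hom.comp_appTop]
      rfl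
    rw [h3]
    rfl
  rw [h1]
  exact e_germ_str M _ hk c

theorem mk_prod_eq (n : ℕ) (k : Fin (n + 1)) (a : ℕ) (ai : Fin (n + 1) → ℕ)
    (hai : ∑ i, ai i = a) (h : ∏ i, (MvPolynomial.X i : MvPolynomial (Fin (n + 1)) ℂ) ^ ai i ∈
      HS n (a • 1)) :
    (Away.mk (HS n) (X_mem n k) a (∏ i, (MvPolynomial.X i : MvPolynomial (Fin (n + 1)) ℂ) ^ ai i)
      h : Away (HS n) (MvPolynomial.X k : MvPolynomial (Fin (n + 1)) ℂ)) =
      ∏ i, fr n k i ^ ai i := by
  apply (show Function.Injective (algebraMap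
    (Away (HS n) (MvPolynomial.X k : MvPolynomial (Fin (n + 1)) ℂ))
      (Localization.Away (MvPolynomial.X k : MvPolynomial (Fin (n + 1)) ℂ)))
      from HomogeneousLocalization.val_injective _)
  simp only [map_pow, map_prod]
  simp only [HomogeneousLocalization.algebraMap_apply, fr, Away.val_mk,
    Localization.mk_pow, Localization.mk_prod]
  congr 1
  ext
  simp only [SubmonoidClass.coe_finsetProd, SubmonoidClass.coe_pow, pow_one]
  rw [Finset.prod_pow_eq_pow_sum, hai]

theorem ev_mem (M : Mod K) {n : ℕ} (i : M.V.X ⟶ PSpace n) (hi : i ≫ PSpace.str n = M.V.str)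
    (k : Fin (n + 1)) (hk : i (genericPoint M.V.X) ∈ DD n k) (a) :
    ev M i (genericPoint M.V.X) k hk a ∈
      Algebra.adjoin ℂ (Set.range fun j => ev M i (genericPoint M.V.X) k hk (fr n k j)) := by
  have hx : Algebra.adjoin (HS n 0) (Set.range
      (fun k : Fin (n + 1) => (MvPolynomial.X k : MvPolynomial (Fin (n + 1)) ℂ))) = ⊤ := by
    rw [eq_top_iff]
    intro f _
    have h1 : f ∈ Algebra.adjoin ℂ (Set.range
        (fun k : Fin (n + 1) => (MvPolynomial.X k : MvPolynomial (Fin (n + 1)) ℂ))) := by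
      rw [MvPolynomial.adjoin_range_X]
      trivial
    induction h1 using Algebra.adjoin_induction with
    | mem x hx => exact Algebra.subset_adjoin hx
    | algebraMap r =>
      exact (Algebra.adjoin (HS n 0) _).algebraMap_mem
        (⟨MvPolynomial.C r, MvPolynomial.isHomogeneous_C _ _⟩ : HS n 0)
    | add x y _ _ hx hy => exact add_mem (hx trivial) (hy trivial)
    | mul x y _ _ hx hy => exact mul_mem (hx trivial) (hy trivial)
  have hspan := HomogeneousLocalization.Away.span_mk_prod_pow_eq_top (X_mem n k)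
    (fun k : Fin (n + 1) => (MvPolynomial.X k : MvPolynomial (Fin (n + 1)) ℂ)) hx (fun _ => 1)
    (fun k => X_mem n k)
  have ha : a ∈ (⊤ : Submodule (HS n 0) (Away (HS n)
    (MvPolynomial.X k : MvPolynomial (Fin (n + 1)) ℂ))) := trivial
  rw [← hspan] at ha
  induction ha using Submodule.span_induction with
  | mem x hx =>
    obtain ⟨b, ai, hai, rfl⟩ := hx
    rw [mk_prod_eq n k b ai (by simpa using hai), map_prod]
    refine prod_mem fun j _ => ?_
    rw [map_pow]
    exact pow_mem (Algebra.subset_adjoin (Set.mem_range_self j)) _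
  | zero => rw [map_zero]; exact zero_mem _
  | add x y _ _ hx hy => rw [map_add]; exact add_mem hx hy
  | smul r x _ hx =>
    obtain ⟨r, hr⟩ := r
    have hr' := hr
    have h0 : r ∈ MvPolynomial.homogeneousSubmodule (Fin (n + 1)) ℂ 0 := hr'
    rw [MvPolynomial.homogeneousSubmodule_zero, Submodule.mem_one] at h0
    obtain ⟨c, hc⟩ := h0
    have h1 : (⟨r, hr⟩ : HS n 0) = algebraMap ℂ (HS n 0) c := Subtype.ext hc.symm
    rw [h1, Algebra.smul_def, map_mul]
    refine mul_mem ?_ hx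
    have h2 := ev_const M i hi k hk c
    rw [HomogeneousLocalization.algebraMap_eq, h2]
    exact Subalgebra.algebraMap_mem _ _

/-- the structure map of the sections over an open subset -/
def secMap (M : Mod K) (U : M.V.X.Opens) : ℂ →+* Γ(M.V.X, U) :=
  (M.V.X.presheaf.map (homOfLE (le_top : U ≤ ⊤)).op).hom.comp
    (M.V.str.appTop.hom.comp (Scheme.ΓSpecIso (CommRingCat.of ℂ)).inv.hom)

theorem secMap_smooth (M : Mod K) (U : M.V.X.Opens) (hU : IsAffineOpen U) :
    (secMap M U).Smooth := by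
  have h1 : (M.V.str.appLE ⊤ U (le_top : U ≤ M.V.str ⁻¹ᵁ ⊤)).hom.Smooth :=
    M.V.smooth.smooth_appLE (isAffineOpen_top _) hU _
  have h2 : ((Scheme.ΓSpecIso (CommRingCat.of ℂ)).inv.hom).Smooth :=
    RingHom.Smooth.of_bijective (ConcreteCategory.bijective_of_isIso
      (Scheme.ΓSpecIso (CommRingCat.of ℂ)).inv)
  exact h2.comp h1

theorem chart (M : Mod K) (U : M.V.X.Opens) (hU : IsAffineOpen U)
    (hη : genericPoint M.V.X ∈ U) (S : Subalgebra ℂ K)
    (hS : ∀ t : K, t ∈ S ↔ ∃ g : Γ(M.V.X, U),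
      M.e (M.V.X.presheaf.germ U (genericPoint M.V.X) hη g) = t) :
    Algebra.Smooth ℂ S ∧ IntermediateField.adjoin ℂ (S : Set K) = ⊤ := by
  let _ : Algebra ℂ Γ(M.V.X, U) := (secMap M U).toAlgebra
  have hsm : Algebra.Smooth ℂ Γ(M.V.X, U) := secMap_smooth M U hU
  let ρ : Γ(M.V.X, U) →ₐ[ℂ] K :=
    { toRingHom := (M.e : M.V.X.functionField →+* K).comp
        (M.V.X.presheaf.germ U (genericPoint M.V.X) hη).hom
      commutes' := fun c => e_germ_str M U hη c }
  have hρ : ∀ g, ρ g = M.e (M.V.X.presheaf.germ U (genericPoint M.V.X) hη g) := fun g => rfl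
  have hinj : Function.Injective ρ :=
    M.e.injective.comp (germ_injective_of_isIntegral M.V.X (genericPoint M.V.X) hη)
  have hr : ρ.range = S := by
    ext t
    rw [hS]
    rfl
  refine ⟨?_, ?_⟩
  · have e : Γ(M.V.X, U) ≃ₐ[ℂ] S :=
      (AlgEquiv.ofInjective ρ hinj).trans (Subalgebra.equivOfEq _ _ hr)
    exact Algebra.Smooth.of_equiv e
  · rw [eq_top_iff]
    intro t _
    have : Nonempty U := ⟨⟨_, hη⟩⟩
    have := functionField_isFractionRing_of_isAffineOpen M.V.X U hU
    obtain ⟨a, b, hb, hab⟩ := IsFractionRing.div_surjective (A := Γ(M.V.X, U)) (M.e.symm t)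
    have h1 : t = ρ a / ρ b := by
      rw [← M.e.apply_symm_apply t, ← hab, map_div₀]
      rfl
    rw [h1]
    have h2 : ∀ g, ρ g ∈ IntermediateField.adjoin ℂ (S : Set K) := fun g =>
      IntermediateField.subset_adjoin _ _ (by rw [← hr]; exact ⟨g, rfl⟩)
    exact div_mem (h2 a) (h2 b)

end Coords

open Coords in
/-- S2. Homogeneous coordinates of a smooth projective variety. -/
theorem exists_coords (M : Mod K) : ∃ (n : ℕ) (y : Fin (n + 1) → K),
    (∀ z : M.V.X, ∃ k, y k ≠ 0 ∧ ∀ i, y i / y k ∈ M.loc z) ∧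
    ∀ k, y k ≠ 0 → Algebra.Smooth ℂ (Algebra.adjoin ℂ (Set.range fun i => y i / y k)) ∧
      IntermediateField.adjoin ℂ (Set.range fun i => y i / y k) = ⊤ := by
  obtain ⟨n, i, hi, hstr⟩ := M.V.projective
  obtain ⟨l, hl⟩ := exists_mem_DD n (i (genericPoint M.V.X))
  have hne : ∀ k (hk : i (genericPoint M.V.X) ∈ DD n k),
      ev M i (genericPoint M.V.X) l hl (fr n l k) ≠ 0 := by
    intro k hk h0
    have h1 := ev_mul M i (genericPoint M.V.X) l k k hl hk
    rw [h0, zero_mul, ev_self] at h1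
    exact one_ne_zero h1.symm
  have hq : ∀ k (hk : i (genericPoint M.V.X) ∈ DD n k) j,
      ev M i (genericPoint M.V.X) l hl (fr n l j) / ev M i (genericPoint M.V.X) l hl (fr n l k) =
      ev M i (genericPoint M.V.X) k hk (fr n k j) := by
    intro k hk j
    rw [div_eq_iff (hne k hk)]
    exact (ev_mul M i (genericPoint M.V.X) k l j hk hl).symm
  refine ⟨n, fun j => ev M i (genericPoint M.V.X) l hl (fr n l j), ?_, ?_⟩
  · intro z
    obtain ⟨k, hk⟩ := exists_mem_DD n (i z)
    have hη : genericPoint M.V.X ∈ i ⁻¹ᵁ DD n k :=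
      ((genericPoint_spec M.V.X).mem_open_set_iff (i ⁻¹ᵁ DD n k).isOpen).mpr ⟨z, by simpa using hk⟩
    refine ⟨k, hne k hη, fun j => ?_⟩
    dsimp only
    rw [hq k hη j, ev_eq_germ M i _ k hη hη, ← ev_eq_germ M i z k hk hη]
    exact ⟨_, rfl⟩
  · intro k hk
    have hk' := mem_of_ev_ne_zero M i k l hl hk
    have hfun : (fun j => ev M i (genericPoint M.V.X) l hl (fr n l j) /
        ev M i (genericPoint M.V.X) l hl (fr n l k)) =
        fun j => ev M i (genericPoint M.V.X) k hk' (fr n k j) := funext fun j => hq k hk' j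
    dsimp only
    rw [hfun]
    have hU : IsAffineOpen (i ⁻¹ᵁ DD n k) := (isAffineOpen_DD n k).preimage i
    have h := chart M (i ⁻¹ᵁ DD n k) hU hk'
      (Algebra.adjoin ℂ (Set.range fun j => ev M i (genericPoint M.V.X) k hk' (fr n k j))) ?_
    · refine ⟨h.1, ?_⟩
      rw [eq_top_iff, ← h.2, IntermediateField.adjoin_le_iff]
      intro t ht
      exact IntermediateField.algebra_adjoin_le_adjoin _ _ ht
    · intro t
      constructor
      · intro ht
        induction ht using Algebra.adjoin_induction with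
        | mem x hx =>
          obtain ⟨j, rfl⟩ := hx
          exact ⟨_, (ev_eq_germ M i _ k hk' hk' _).symm⟩
        | algebraMap r => exact ⟨_, e_germ_str M _ hk' r⟩
        | add x y _ _ hx hy =>
          obtain ⟨a, rfl⟩ := hx
          obtain ⟨b, rfl⟩ := hy
          exact ⟨a + b, by rw [map_add, map_add]⟩
        | mul x y _ _ hx hy =>
          obtain ⟨a, rfl⟩ := hx
          obtain ⟨b, rfl⟩ := hy
          exact ⟨a * b, by rw [map_mul, map_mul]⟩
      · rintro ⟨g, rfl⟩
        obtain ⟨s, rfl⟩ := i.app_surjective (DD n k) (isAffineOpen_DD n k) g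
        obtain ⟨a, rfl⟩ : ∃ a, Proj.awayToSection (HS n) (MvPolynomial.X k) a = s := by
          refine ⟨(Proj.basicOpenIsoAway (HS n) _ (X_mem n k) one_pos).inv s, ?_⟩
          rw [← Proj.basicOpenIsoAway_hom (HS n) _ (X_mem n k) one_pos]
          simp
        rw [← ev_eq_germ M i _ k hk' hk']
        exact ev_mem M i hstr k hk' a

end

end Pool.Agent.AHM
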