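import Pool.Agent.AHM.CoreDefs

namespace Pool.Agent.AHM

noncomputable section

variable {K : Type} [Field K] [Algebra ℂ K]

namespace CoreDer

open MvPolynomial

/-- The sign change. -/
def neg2 : MvPolynomial (Fin 2) ℂ →ₐ[ℂ] MvPolynomial (Fin 2) ℂ := aeval ![-X 0, -X 1]

/-- Restriction to the line `(l z, m z)`. -/
def ev (l m : ℂ) : MvPolynomial (Fin 2) ℂ →ₐ[ℂ] PowerSeries ℂ :=
  aeval ![l • PowerSeries.X, m • PowerSeries.X]

theorem constantCoeff_ev (l m : ℂ) (A : MvPolynomial (Fin 2) ℂ) :
    PowerSeries.constantCoeff (ev l m A) = eval ![0, 0] A := by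
  have h : (PowerSeries.constantCoeff (R := ℂ)).comp (ev l m).toRingHom =
      eval ![0, 0] := by
    apply MvPolynomial.ringHom_ext
    · intro c
      simp [ev]
    · intro i
      fin_cases i <;> simp [ev]
  exact congrArg (fun f => f A) h

theorem evalNegHom_C (c : ℂ) :
    PowerSeries.evalNegHom (PowerSeries.C c) = (PowerSeries.C c : PowerSeries ℂ) := by
  ext n
  rw [PowerSeries.evalNegHom, PowerSeries.coeff_rescale, PowerSeries.coeff_C]
  split_ifs with h
  · simp [h]
  · simp

theorem ev_neg2 (l m : ℂ) (A : MvPolynomial (Fin 2) ℂ) :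
    ev l m (neg2 A) = PowerSeries.evalNegHom (ev l m A) := by
  have h : (ev l m).toRingHom.comp neg2.toRingHom =
      (PowerSeries.evalNegHom).comp (ev l m).toRingHom := by
    apply MvPolynomial.ringHom_ext
    · intro c
      simp [ev, neg2, evalNegHom_C]
    · intro i
      fin_cases i <;> simp [ev, neg2, PowerSeries.smul_eq_C_mul, evalNegHom_C]
  exact congrArg (fun f => f A) h

theorem ev_ne_zero {l m : ℂ} {B : MvPolynomial (Fin 2) ℂ} (hB : eval ![0, 0] B ≠ 0) :
    ev l m B ≠ 0 := by
  intro h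
  apply hB
  rw [← constantCoeff_ev l m, h, map_zero]

theorem exists_series (l m : ℂ) {B : MvPolynomial (Fin 2) ℂ} (hB : eval ![0, 0] B ≠ 0)
    (A : MvPolynomial (Fin 2) ℂ) : ∃ w : PowerSeries ℂ, w * ev l m B = ev l m A := by
  have h : IsUnit (ev l m B) := by
    rw [PowerSeries.isUnit_iff_constantCoeff, constantCoeff_ev]
    exact isUnit_iff_ne_zero.mpr hB
  obtain ⟨u, hu⟩ := h
  refine ⟨ev l m A * (u⁻¹ : (PowerSeries ℂ)ˣ), ?_⟩
  rw [← hu, mul_assoc, Units.inv_mul, mul_one]

section

variable {ρ τ : K} (hind : AlgebraicIndependent ℂ ![ρ, τ])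

include hind in
theorem aeval_inj {A B : MvPolynomial (Fin 2) ℂ} (h : aeval ![ρ, τ] A = aeval ![ρ, τ] B) :
    A = B := hind h

include hind in
theorem even_rep {t : K} (ht : t ∈ IntermediateField.adjoin ℂ {ρ * τ, ρ / τ}) :
    ∃ A B : MvPolynomial (Fin 2) ℂ, neg2 A = A ∧ neg2 B = B ∧ B ≠ 0 ∧
      t * aeval ![ρ, τ] B = aeval ![ρ, τ] A := by
  have hτ : τ ≠ 0 := by
    have := hind.ne_zero 1
    simpa using this
  induction ht using IntermediateField.adjoin_induction with
  | mem x hx =>
    rcases hx with rfl | hx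
    · exact ⟨X 0 * X 1, 1, by simp [neg2], by simp, one_ne_zero, by simp⟩
    · rw [Set.mem_singleton_iff] at hx
      subst hx
      refine ⟨X 0 * X 1, X 1 ^ 2, by simp [neg2], by simp [neg2], ?_, ?_⟩
      · exact pow_ne_zero _ (X_ne_zero _)
      · simp
        field_simp
  | algebraMap x =>
    exact ⟨C x, 1, by simp [neg2, algebraMap_eq], by simp, one_ne_zero, by simp⟩
  | add x y hx hy ihx ihy =>
    obtain ⟨A, B, h1, h2, h3, h4⟩ := ihx
    obtain ⟨A', B', h1', h2', h3', h4'⟩ := ihy
    refine ⟨A * B' + A' * B, B * B', by simp [h1, h2, h1', h2'], by simp [h2, h2'],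
      mul_ne_zero h3 h3', ?_⟩
    rw [map_mul, map_add, map_mul, map_mul, ← h4, ← h4']
    ring
  | mul x y hx hy ihx ihy =>
    obtain ⟨A, B, h1, h2, h3, h4⟩ := ihx
    obtain ⟨A', B', h1', h2', h3', h4'⟩ := ihy
    refine ⟨A * A', B * B', by simp [h1, h1'], by simp [h2, h2'],
      mul_ne_zero h3 h3', ?_⟩
    rw [map_mul, map_mul, ← h4, ← h4']
    ring
  | inv x hx ihx =>
    obtain ⟨A, B, h1, h2, h3, h4⟩ := ihx
    by_cases hx0 : x = 0
    · subst hx0
      exact ⟨0, 1, by simp, by simp, one_ne_zero, by simp⟩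
    · refine ⟨B, A, h2, h1, ?_, ?_⟩
      · rintro rfl
        rw [map_zero] at h4
        rcases mul_eq_zero.mp h4 with h | h
        · exact hx0 h
        · exact h3 (hind (h.trans (map_zero _).symm))
      · rw [← h4]
        field_simp

include hind in
/-- The series of an element which is regular at the origin. -/
theorem exists_ser (l m : ℂ) {t : K} (ht : RegAt ρ τ 0 0 t) :
    ∃ w : PowerSeries ℂ, ∀ A B : MvPolynomial (Fin 2) ℂ, B ≠ 0 →
      t * aeval ![ρ, τ] B = aeval ![ρ, τ] A → w * ev l m B = ev l m A := by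
  obtain ⟨A, B, hB, h⟩ := ht
  obtain ⟨w, hw⟩ := exists_series l m hB A
  refine ⟨w, fun A' B' hB' h' => ?_⟩
  have h1 : A * B' = A' * B := by
    apply hind
    change aeval ![ρ, τ] (A * B') = aeval ![ρ, τ] (A' * B)
    rw [map_mul, map_mul, ← h, ← h']
    ring
  have h2 : ev l m A * ev l m B' = ev l m A' * ev l m B := by
    rw [← map_mul, h1, map_mul]
  apply mul_right_cancel₀ (ev_ne_zero (l := l) (m := m) hB)
  rw [← h2, ← hw]
  ring

include hind in
open Classical in
/-- the series of `t` (zero if `t` is not regular at the origin) -/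
def ser (l m : ℂ) (t : K) : PowerSeries ℂ :=
  if h : RegAt ρ τ 0 0 t then (exists_ser hind l m h).choose else 0

include hind in
theorem ser_spec (l m : ℂ) {t : K} (ht : RegAt ρ τ 0 0 t) {A B : MvPolynomial (Fin 2) ℂ}
    (hB : B ≠ 0) (h : t * aeval ![ρ, τ] B = aeval ![ρ, τ] A) :
    ser hind l m t * ev l m B = ev l m A := by
  unfold ser
  rw [dif_pos ht]
  exact (exists_ser hind l m ht).choose_spec A B hB h

theorem ne_zero_of_eval {B : MvPolynomial (Fin 2) ℂ} (h : eval ![0, 0] B ≠ 0) : B ≠ 0 := by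
  rintro rfl
  exact h (map_zero _)

variable (B : Subalgebra ℂ K) (hloc : ∀ t ∈ B, RegAt ρ τ 0 0 t)

/-- The expansion as a ring homomorphism. -/
def psi (l m : ℂ) : B →ₐ[ℂ] PowerSeries ℂ where
  toFun t := ser hind l m t
  map_one' := by
    have h := ser_spec hind l m (hloc (1 : B) (1 : B).2) (A := 1) (B := 1) one_ne_zero (by simp)
    simpa using h
  map_zero' := by
    have h := ser_spec hind l m (hloc (0 : B) (0 : B).2) (A := 0) (B := 1) one_ne_zero (by simp)
    simpa using h
  map_mul' x y := by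
    obtain ⟨A1, B1, h1, h1'⟩ := hloc x x.2
    obtain ⟨A2, B2, h2, h2'⟩ := hloc y y.2
    have e1 := ser_spec hind l m (hloc x x.2) (ne_zero_of_eval h1) h1'
    have e2 := ser_spec hind l m (hloc y y.2) (ne_zero_of_eval h2) h2'
    have e3 := ser_spec hind l m (hloc (x * y : B) (x * y).2) (A := A1 * A2) (B := B1 * B2)
      (mul_ne_zero (ne_zero_of_eval h1) (ne_zero_of_eval h2))
      (by rw [map_mul, map_mul, ← h1', ← h2']; push_cast; ring)
    apply mul_right_cancel₀ (mul_ne_zero (ev_ne_zero (l := l) (m := m) h1)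
      (ev_ne_zero (l := l) (m := m) h2))
    rw [← map_mul, e3, map_mul, ← e1, ← e2, map_mul]
    ring
  map_add' x y := by
    obtain ⟨A1, B1, h1, h1'⟩ := hloc x x.2
    obtain ⟨A2, B2, h2, h2'⟩ := hloc y y.2
    have e1 := ser_spec hind l m (hloc x x.2) (ne_zero_of_eval h1) h1'
    have e2 := ser_spec hind l m (hloc y y.2) (ne_zero_of_eval h2) h2'
    have e3 := ser_spec hind l m (hloc (x + y : B) (x + y).2) (A := A1 * B2 + A2 * B1)
      (B := B1 * B2) (mul_ne_zero (ne_zero_of_eval h1) (ne_zero_of_eval h2))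
      (by rw [map_mul, map_add, map_mul, map_mul, ← h1', ← h2']; push_cast; ring)
    apply mul_right_cancel₀ (mul_ne_zero (ev_ne_zero (l := l) (m := m) h1)
      (ev_ne_zero (l := l) (m := m) h2))
    rw [← map_mul, e3, map_add, map_mul, map_mul, ← e1, ← e2, map_mul]
    ring
  commutes' c := by
    have h := ser_spec hind l m (hloc (algebraMap ℂ B c) (algebraMap ℂ B c).2) (A := C c) (B := 1)
      one_ne_zero (by simp)
    rw [map_one, mul_one] at h
    rw [h]
    simp [ev]

theorem psi_spec (l m : ℂ) (t : B) {A D : MvPolynomial (Fin 2) ℂ} (hD : D ≠ 0)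
    (h : (t : K) * aeval ![ρ, τ] D = aeval ![ρ, τ] A) :
    psi hind B hloc l m t * ev l m D = ev l m A :=
  ser_spec hind l m (hloc t t.2) hD h

theorem psi_even (l m : ℂ) (t : B) (ht : (t : K) ∈ IntermediateField.adjoin ℂ {ρ * τ, ρ / τ}) :
    PowerSeries.evalNegHom (psi hind B hloc l m t) = psi hind B hloc l m t := by
  obtain ⟨A, D, h1, h2, h3, h4⟩ := even_rep hind ht
  obtain ⟨A', D', h3', h4'⟩ := hloc t t.2
  have e := psi_spec hind B hloc l m t (ne_zero_of_eval h3') h4'
  -- `A D' = A' D`
  have h5 : A * D' = A' * D := by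
    apply hind
    change aeval ![ρ, τ] (A * D') = aeval ![ρ, τ] (A' * D)
    rw [map_mul, map_mul, ← h4, ← h4']
    ring
  have h6 : A * neg2 D' = neg2 A' * D := by
    have := congrArg neg2 h5
    rwa [map_mul, map_mul, h1, h2] at this
  have h7 : A' * neg2 D' = neg2 A' * D' := by
    apply mul_right_cancel₀ h3
    calc A' * neg2 D' * D = (A' * D) * neg2 D' := by ring
      _ = (A * D') * neg2 D' := by rw [h5]
      _ = (A * neg2 D') * D' := by ring
      _ = neg2 A' * D * D' := by rw [h6]
      _ = neg2 A' * D' * D := by ring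
  have h8 := congrArg (ev l m) h7
  rw [map_mul, map_mul, ev_neg2, ev_neg2, ← e, map_mul] at h8
  have h9 : ev l m D' ≠ 0 := ev_ne_zero h3'
  have h10 : PowerSeries.evalNegHom (ev l m D') ≠ 0 := by
    rw [← ev_neg2]
    intro h
    apply h3'
    have := congrArg PowerSeries.constantCoeff h
    rw [constantCoeff_ev, map_zero] at this
    have h11 : eval ![0, 0] (neg2 D') = eval ![0, 0] D' := by
      have : (eval (![0, 0] : Fin 2 → ℂ)).comp neg2.toRingHom = eval ![0, 0] := by
        apply MvPolynomial.ringHom_ext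
        · intro c
          simp [neg2]
        · intro i
          fin_cases i <;> simp [neg2]
      exact congrArg (fun f => f D') this
    rw [← h11, this]
  apply mul_right_cancel₀ (mul_ne_zero h9 h10)
  linear_combination (-1 : PowerSeries ℂ) * h8

/-- Evaluation at the origin. -/
def eps : B →+* ℂ := (PowerSeries.constantCoeff (R := ℂ)).comp (psi hind B hloc 1 0).toRingHom

theorem constantCoeff_psi (l m : ℂ) (t : B) :
    PowerSeries.constantCoeff (psi hind B hloc l m t) = eps hind B hloc t := by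
  obtain ⟨A, D, h1, h2⟩ := hloc t t.2
  have e1 := psi_spec hind B hloc l m t (ne_zero_of_eval h1) h2
  have e2 := psi_spec hind B hloc 1 0 t (ne_zero_of_eval h1) h2
  have f1 := congrArg PowerSeries.constantCoeff e1
  have f2 := congrArg PowerSeries.constantCoeff e2
  rw [map_mul, constantCoeff_ev, constantCoeff_ev] at f1 f2
  apply mul_right_cancel₀ h1
  rw [f1, ← f2]
  rfl

/-- The ideal of the origin. -/
def mm : Ideal B := RingHom.ker (eps hind B hloc)

instance : (mm hind B hloc).IsPrime := RingHom.ker_isPrime _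

theorem isUnit_psi (l m : ℂ) (t : (mm hind B hloc).primeCompl) :
    IsUnit (psi hind B hloc l m t) := by
  rw [PowerSeries.isUnit_iff_constantCoeff, constantCoeff_psi]
  exact isUnit_iff_ne_zero.mpr t.2

/-- the local ring at the origin -/
abbrev RR : Type := Localization.AtPrime (mm hind B hloc)

/-- The expansion on the local ring. -/
def psiR (l m : ℂ) : RR hind B hloc →ₐ[ℂ] PowerSeries ℂ :=
  IsLocalization.liftAlgHom (M := (mm hind B hloc).primeCompl) (f := psi hind B hloc l m)
    (isUnit_psi hind B hloc l m)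

theorem psiR_algebraMap (l m : ℂ) (t : B) :
    psiR hind B hloc l m (algebraMap B (RR hind B hloc) t) = psi hind B hloc l m t :=
  IsLocalization.lift_eq _ _

theorem exists_mk (x : RR hind B hloc) : ∃ (b : B) (s : (mm hind B hloc).primeCompl),
    x * algebraMap B _ (s : B) = algebraMap B _ b := by
  obtain ⟨⟨b, s⟩, h⟩ := IsLocalization.surj (mm hind B hloc).primeCompl x
  exact ⟨b, s, h⟩

theorem constantCoeff_psiR (l m : ℂ) (x : RR hind B hloc) :
    PowerSeries.constantCoeff (psiR hind B hloc l m x) =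
      PowerSeries.constantCoeff (psiR hind B hloc 1 0 x) := by
  obtain ⟨b, s, h⟩ := exists_mk hind B hloc x
  have h1 := congrArg (fun x => PowerSeries.constantCoeff (psiR hind B hloc l m x)) h
  have h2 := congrArg (fun x => PowerSeries.constantCoeff (psiR hind B hloc 1 0 x)) h
  simp only [map_mul, psiR_algebraMap, constantCoeff_psi] at h1 h2
  have h3 : eps hind B hloc s ≠ 0 := s.2
  apply mul_right_cancel₀ h3
  rw [h1, h2]

variable (heven : ∀ t ∈ B, t ∈ IntermediateField.adjoin ℂ {ρ * τ, ρ / τ})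

include heven in
theorem psiR_even (l m : ℂ) (x : RR hind B hloc) :
    PowerSeries.evalNegHom (psiR hind B hloc l m x) = psiR hind B hloc l m x := by
  obtain ⟨b, s, h⟩ := exists_mk hind B hloc x
  have h1 := congrArg (fun x => psiR hind B hloc l m x) h
  have h2 := congrArg (fun x => PowerSeries.evalNegHom (psiR hind B hloc l m x)) h
  simp only [map_mul, psiR_algebraMap] at h1 h2
  rw [psi_even hind B hloc l m b (heven _ b.2), psi_even hind B hloc l m s (heven _ s.1.2)] at h2
  apply mul_right_cancel₀ (isUnit_psi hind B hloc l m s).ne_zero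
  rw [h1, h2]

include heven in
theorem coeff_one_psiR (l m : ℂ) (x : RR hind B hloc) :
    PowerSeries.coeff 1 (psiR hind B hloc l m x) = 0 := by
  have h := congrArg (PowerSeries.coeff 1) (psiR_even hind B hloc heven l m x)
  rw [PowerSeries.evalNegHom, PowerSeries.coeff_rescale] at h
  have : (2 : ℂ) * PowerSeries.coeff 1 (psiR hind B hloc l m x) = 0 := by
    linear_combination -h
  simpa using this

/-- Value at the origin. -/
def epsR (x : RR hind B hloc) : ℂ := PowerSeries.constantCoeff (psiR hind B hloc 1 0 x)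

theorem algebraMap_residue (x : RR hind B hloc) :
    algebraMap (RR hind B hloc) (IsLocalRing.ResidueField (RR hind B hloc)) x =
      algebraMap ℂ (IsLocalRing.ResidueField (RR hind B hloc)) (epsR hind B hloc x) := by
  rw [IsScalarTower.algebraMap_apply ℂ (RR hind B hloc)
    (IsLocalRing.ResidueField (RR hind B hloc)), ← sub_eq_zero, ← map_sub]
  change IsLocalRing.residue (RR hind B hloc) _ = 0
  rw [IsLocalRing.residue_eq_zero_iff, IsLocalRing.mem_maximalIdeal]
  intro hu
  have h1 := (hu.map (psiR hind B hloc 1 0))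
  rw [PowerSeries.isUnit_iff_constantCoeff, isUnit_iff_ne_zero] at h1
  apply h1
  simp [epsR]

include heven in
/-- The point derivations. -/
def der (l m : ℂ) :
    Derivation ℂ (RR hind B hloc) (IsLocalRing.ResidueField (RR hind B hloc)) :=
  Derivation.mk'
    ((Algebra.linearMap ℂ (IsLocalRing.ResidueField (RR hind B hloc))) ∘ₗ
      (PowerSeries.coeff (R := ℂ) 2) ∘ₗ (psiR hind B hloc l m).toLinearMap)
    (by
      intro a b
      simp only [LinearMap.comp_apply, AlgHom.toLinearMap_apply, map_mul,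
        Algebra.linearMap_apply, Algebra.smul_def, algebraMap_residue]
      rw [PowerSeries.coeff_mul]
      have h2 : Finset.HasAntidiagonal.antidiagonal 2 = {(0, 2), (1, 1), (2, 0)} := rfl
      rw [h2]
      have h3 : PowerSeries.coeff 0 (psiR hind B hloc l m a) = epsR hind B hloc a := by
        rw [PowerSeries.coeff_zero_eq_constantCoeff_apply, constantCoeff_psiR]
        rfl
      have h4 : PowerSeries.coeff 0 (psiR hind B hloc l m b) = epsR hind B hloc b := by
        rw [PowerSeries.coeff_zero_eq_constantCoeff_apply, constantCoeff_psiR]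
        rfl
      simp [coeff_one_psiR hind B hloc heven l m, h3, h4]
      ring)

theorem der_apply (l m : ℂ) (t : B) : der hind B hloc heven l m (algebraMap B _ t) =
    algebraMap ℂ _ (PowerSeries.coeff 2 (psi hind B hloc l m t)) := by
  change algebraMap ℂ _ (PowerSeries.coeff 2 (psiR hind B hloc l m (algebraMap B _ t))) = _
  rw [psiR_algebraMap]

theorem coeff_two_of_mul {p w : PowerSeries ℂ} {c : ℂ}
    (hw : PowerSeries.constantCoeff w ≠ 0) (h : p * w = c • PowerSeries.X ^ 2) :
    PowerSeries.coeff 2 p * PowerSeries.constantCoeff w = c := by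
  have e0 := congrArg (PowerSeries.coeff 0) h
  have e1 := congrArg (PowerSeries.coeff 1) h
  have e2 := congrArg (PowerSeries.coeff 2) h
  rw [PowerSeries.coeff_mul] at e0 e1 e2
  have h0 : Finset.HasAntidiagonal.antidiagonal 0 = {(0, 0)} := rfl
  have h1 : Finset.HasAntidiagonal.antidiagonal 1 = {(0, 1), (1, 0)} := rfl
  have h2 : Finset.HasAntidiagonal.antidiagonal 2 = {(0, 2), (1, 1), (2, 0)} := rfl
  rw [h0] at e0
  rw [h1] at e1
  rw [h2] at e2
  simp [PowerSeries.coeff_X_pow, hw] at e0 e1 e2
  have f0 : PowerSeries.constantCoeff p = 0 := by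
    simpa [hw] using e0
  simp [f0, hw] at e1
  simp [f0, e1] at e2
  exact e2

theorem coeff_two_psi (l m : ℂ) (t : B) {A D : MvPolynomial (Fin 2) ℂ} {c : ℂ}
    (hD : eval ![0, 0] D ≠ 0) (h : (t : K) * aeval ![ρ, τ] D = aeval ![ρ, τ] A)
    (hA : ev l m A = c • PowerSeries.X ^ 2) :
    PowerSeries.coeff 2 (psi hind B hloc l m t) * eval ![0, 0] D = c := by
  have h1 := psi_spec hind B hloc l m t (ne_zero_of_eval hD) h
  rw [hA] at h1
  have h2 := coeff_two_of_mul (by rw [constantCoeff_ev]; exact hD) h1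
  rwa [constantCoeff_ev] at h2

end

open IsLocalRing in
theorem li_of_der {R : Type} [CommRing R] [IsLocalRing R] [Algebra ℂ R]
    [Module.Flat R Ω[R⁄ℂ]] (v : Fin 3 → R) (g : ℂ)
    (D : ℂ → ℂ → Derivation ℂ R (ResidueField R))
    (hval : ∀ (l m : ℂ) (j : Fin 3), D l m (v j) * algebraMap ℂ (ResidueField R) g =
      algebraMap ℂ (ResidueField R) ((![l ^ 2, l * m, m ^ 2] : Fin 3 → ℂ) j)) :
    LinearIndependent R (fun j => KaehlerDifferential.D ℂ R (v j)) := by
  apply Module.IsLocalRing.linearIndependent_of_flat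
  rw [Fintype.linearIndependent_iff]
  intro c hc
  have key : ∀ l m : ℂ, c 0 * algebraMap ℂ _ (l ^ 2) + c 1 * algebraMap ℂ _ (l * m) +
      c 2 * algebraMap ℂ _ (m ^ 2) = 0 := by
    intro l m
    have e := congrArg (LinearMap.liftBaseChange (ResidueField R)
      ((D l m).liftKaehlerDifferential)) hc
    rw [map_sum, Fin.sum_univ_three, map_zero] at e
    simp only [map_smul, Function.comp_apply, TensorProduct.mk_apply,
      LinearMap.liftBaseChange_tmul,
      Derivation.liftKaehlerDifferential_comp_D, smul_eq_mul] at e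
    have e1 := congrArg (fun z => z * algebraMap ℂ (ResidueField R) g) e
    simp only [add_mul, mul_assoc, hval, zero_mul, one_mul] at e1
    exact e1
  have k1 := key 1 0
  have k2 := key 0 1
  have k3 := key 1 1
  simp only [one_pow, mul_zero, map_zero, map_one, mul_one, add_zero, ne_eq,
    OfNat.ofNat_ne_zero, not_false_eq_true, zero_pow, zero_add] at k1 k2 k3
  intro i
  fin_cases i
  · exact k1
  · simpa [k1, k2] using k3
  · exact k2

/-- independence descends -/
theorem li_descend {B R : Type} [CommRing B] [CommRing R] [Algebra ℂ B] [Algebra ℂ R] [Algebra B R]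
    [IsScalarTower ℂ B R] (hBR : Function.Injective (algebraMap B R)) (v : Fin 3 → B)
    (h : LinearIndependent R (fun j => KaehlerDifferential.D ℂ R (algebraMap B R (v j)))) :
    LinearIndependent B (fun j => KaehlerDifferential.D ℂ B (v j)) := by
  rw [Fintype.linearIndependent_iff] at h ⊢
  intro c hc i
  apply hBR
  rw [map_zero]
  refine h (fun j => algebraMap B R (c j)) ?_ i
  have e := congrArg (KaehlerDifferential.map ℂ ℂ B R) hc
  rw [map_sum, map_zero] at e
  rw [← e]
  refine Finset.sum_congr rfl fun j _ => ?_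
  rw [map_smul, KaehlerDifferential.map_D, algebraMap_smul]

open scoped IntermediateField.algebraAdjoinAdjoin in
theorem no_three_of_field {K : Type} [Field K] [Algebra ℂ K] (S : Set K) (x y : K)
    (hF : IntermediateField.adjoin ℂ S = IntermediateField.adjoin ℂ {x, y})
    (v : Fin 3 → Algebra.adjoin ℂ S)
    (h : LinearIndependent (Algebra.adjoin ℂ S)
      (fun j => KaehlerDifferential.D ℂ (Algebra.adjoin ℂ S) (v j))) : False := by
  have hli : LinearIndependent (IntermediateField.adjoin ℂ S)
      (KaehlerDifferential.map ℂ ℂ (Algebra.adjoin ℂ S) (IntermediateField.adjoin ℂ S) ∘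
        (fun j => KaehlerDifferential.D ℂ (Algebra.adjoin ℂ S) (v j))) :=
    LinearIndependent.of_isLocalizedModule (IntermediateField.adjoin ℂ S)
      (nonZeroDivisors (Algebra.adjoin ℂ S)) _ h
  have hx : x ∈ IntermediateField.adjoin ℂ S := by
    rw [hF]
    exact IntermediateField.subset_adjoin _ _ (by simp)
  have hy : y ∈ IntermediateField.adjoin ℂ S := by
    rw [hF]
    exact IntermediateField.subset_adjoin _ _ (by simp)
  set F := IntermediateField.adjoin ℂ S with hFdef
  let w : Fin 2 → Ω[F⁄ℂ] := ![KaehlerDifferential.D ℂ F ⟨x, hx⟩, KaehlerDifferential.D ℂ F ⟨y, hy⟩]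
  have hall : ∀ t (ht : t ∈ F), KaehlerDifferential.D ℂ F ⟨t, ht⟩ ∈
      Submodule.span F (Set.range w) := by
    intro t ht
    have ht' : t ∈ IntermediateField.adjoin ℂ {x, y} := hF ▸ ht
    have hle : IntermediateField.adjoin ℂ {x, y} ≤ F := hF.ge
    suffices h' : ∀ ht : t ∈ F, KaehlerDifferential.D ℂ F ⟨t, ht⟩ ∈
      Submodule.span F (Set.range w) from h' ht
    induction ht' using IntermediateField.adjoin_induction with
    | mem z hz =>
      intro ht
      rcases hz with rfl | hz
      · exact Submodule.subset_span ⟨0, rfl⟩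
      · rw [Set.mem_singleton_iff] at hz
        subst hz
        exact Submodule.subset_span ⟨1, rfl⟩
    | algebraMap c =>
      intro ht
      have : (⟨algebraMap ℂ K c, ht⟩ : F) = algebraMap ℂ F c := rfl
      rw [this, Derivation.map_algebraMap]
      exact zero_mem _
    | add a b ha hb iha ihb =>
      intro ht
      have : (⟨a + b, ht⟩ : F) = ⟨a, hle ha⟩ + ⟨b, hle hb⟩ := rfl
      rw [this, map_add]
      exact add_mem (iha (hle ha) _) (ihb (hle hb) _)
    | mul a b ha hb iha ihb =>
      intro ht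
      have : (⟨a * b, ht⟩ : F) = ⟨a, hle ha⟩ * ⟨b, hle hb⟩ := rfl
      rw [this, Derivation.leibniz]
      exact add_mem (Submodule.smul_mem _ _ (ihb (hle hb) _))
        (Submodule.smul_mem _ _ (iha (hle ha) _))
    | inv a ha iha =>
      intro ht
      have : (⟨a⁻¹, ht⟩ : F) = (⟨a, hle ha⟩ : F)⁻¹ := rfl
      rw [this, Derivation.leibniz_inv]
      exact Submodule.smul_mem _ _ (iha (hle ha) _)
  have hspan : Submodule.span F (Set.range w) = ⊤ := by
    rw [eq_top_iff, ← KaehlerDifferential.span_range_derivation, Submodule.span_le]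
    rintro _ ⟨t, rfl⟩
    exact hall t.1 t.2
  have hfin : Module.Finite F Ω[F⁄ℂ] :=
    ⟨Submodule.fg_def.mpr ⟨_, Set.finite_range w, hspan⟩⟩
  have hcard := hli.fintype_card_le_finrank
  have h2 : Module.finrank F Ω[F⁄ℂ] ≤ 2 := by
    have := finrank_le_of_span_eq_top hspan
    simpa using this
  rw [Fintype.card_fin] at hcard
  have h3 : 3 ≤ 2 := hcard.trans h2
  omega

end CoreDer

/-- C5. A smooth two-dimensional algebra of even functions regular at the origin cannot contain
`ρ² / G²`, `ρ τ / G²`, `τ² / G²` with `G` a unit at the origin: the three coefficients of the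
quadratic part at the origin would be linearly independent point derivations, while the module of
differentials of `B` is projective of rank `2`. -/
theorem no_three {ρ τ : K} (hind : AlgebraicIndependent ℂ ![ρ, τ]) (B : Subalgebra ℂ K)
    (hB : Algebra.Smooth ℂ B)
    (hF : IntermediateField.adjoin ℂ (B : Set K) = IntermediateField.adjoin ℂ {ρ * τ, ρ / τ})
    (hloc : ∀ t ∈ B, RegAt ρ τ 0 0 t)
    (A : MvPolynomial (Fin 2) ℂ) (hA : MvPolynomial.eval ![0, 0] A ≠ 0)
    (h1 : ρ ^ 2 / (MvPolynomial.aeval ![ρ, τ] A) ^ 2 ∈ B)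
    (h2 : ρ * τ / (MvPolynomial.aeval ![ρ, τ] A) ^ 2 ∈ B)
    (h3 : τ ^ 2 / (MvPolynomial.aeval ![ρ, τ] A) ^ 2 ∈ B) : False := by
  classical
  have heven : ∀ t ∈ B, t ∈ IntermediateField.adjoin ℂ {ρ * τ, ρ / τ} := by
    intro t ht
    rw [← hF]
    exact IntermediateField.subset_adjoin _ _ ht
  set G := MvPolynomial.aeval ![ρ, τ] A with hG
  have hG0 : G ≠ 0 := by
    intro h
    have : A = 0 := hind (h.trans (map_zero _).symm)
    exact CoreDer.ne_zero_of_eval hA this
  have hgen : ∃ S : Set K, B = Algebra.adjoin ℂ S := ⟨B, (Algebra.adjoin_eq B).symm⟩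
  obtain ⟨S, rfl⟩ := hgen
  have hF' : IntermediateField.adjoin ℂ S = IntermediateField.adjoin ℂ {ρ * τ, ρ / τ} := by
    rw [← hF]
    apply le_antisymm
    · exact IntermediateField.adjoin.mono _ _ _ Algebra.subset_adjoin
    · rw [IntermediateField.adjoin_le_iff]
      exact IntermediateField.algebra_adjoin_le_adjoin ℂ S
  let f : Fin 3 → Algebra.adjoin ℂ S := ![⟨_, h1⟩, ⟨_, h2⟩, ⟨_, h3⟩]
  refine CoreDer.no_three_of_field S _ _ hF' f ?_
  have hfs : Algebra.FormallySmooth ℂ (CoreDer.RR hind (Algebra.adjoin ℂ S) hloc) := by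
    have h1 : Algebra.FormallySmooth ℂ (Algebra.adjoin ℂ S) := hB.formallySmooth
    have h2 : Algebra.FormallySmooth (Algebra.adjoin ℂ S)
        (CoreDer.RR hind (Algebra.adjoin ℂ S) hloc) :=
      Algebra.FormallySmooth.of_isLocalization (CoreDer.mm hind _ hloc).primeCompl
    exact Algebra.FormallySmooth.comp ℂ (Algebra.adjoin ℂ S) _
  have hpr : Module.Projective (CoreDer.RR hind (Algebra.adjoin ℂ S) hloc)
      Ω[CoreDer.RR hind (Algebra.adjoin ℂ S) hloc⁄ℂ] := inferInstance
  have hflat : Module.Flat (CoreDer.RR hind (Algebra.adjoin ℂ S) hloc)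
      Ω[CoreDer.RR hind (Algebra.adjoin ℂ S) hloc⁄ℂ] := Module.Flat.of_projective
  have hinj : Function.Injective (algebraMap (Algebra.adjoin ℂ S)
      (CoreDer.RR hind (Algebra.adjoin ℂ S) hloc)) :=
    IsLocalization.injective _ (CoreDer.mm hind _ hloc).primeCompl_le_nonZeroDivisors
  refine CoreDer.li_descend (R := CoreDer.RR hind (Algebra.adjoin ℂ S) hloc) hinj f ?_
  refine CoreDer.li_of_der (fun j => algebraMap _ _ (f j)) (MvPolynomial.eval ![0, 0] A ^ 2)
    (CoreDer.der hind _ hloc heven) ?_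
  intro l m j
  rw [CoreDer.der_apply, ← map_mul]
  congr 1
  have hD : MvPolynomial.eval ![0, 0] (A ^ 2) ≠ 0 := by
    rw [map_pow]
    exact pow_ne_zero _ hA
  rw [← map_pow]
  fin_cases j
  · refine CoreDer.coeff_two_psi hind _ hloc l m _ (A := MvPolynomial.X 0 ^ 2) hD ?_ ?_
    · simp [f, ← hG]
      field_simp
    · simp [CoreDer.ev, smul_pow]
  · refine CoreDer.coeff_two_psi hind _ hloc l m _
      (A := MvPolynomial.X 0 * MvPolynomial.X 1) hD ?_ ?_
    · simp [f, ← hG]
      field_simp
    · simp only [CoreDer.ev, map_mul, MvPolynomial.aeval_X, Matrix.cons_val_zero,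
        Matrix.cons_val_one, smul_mul_smul_comm, pow_two]
      rfl
  · refine CoreDer.coeff_two_psi hind _ hloc l m _ (A := MvPolynomial.X 1 ^ 2) hD ?_ ?_
    · simp [f, ← hG]
      field_simp
    · simp [CoreDer.ev, smul_pow]

end

end Pool.Agent.AHM
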