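import Pool.Agent.AHM.CoreDefs

namespace Pool.Agent.AHM

noncomputable section

variable {K : Type} [Field K] [Algebra ℂ K]

/-- An element of `K` which lies in all valuation rings containing the subalgebra `R` is integral
over `R`. -/
theorem coreIntegral_isIntegral_of_forall (R : Subalgebra ℂ K) (x : K)
    (h : ∀ V : ValuationSubring K, (∀ t ∈ R, t ∈ V) → x ∈ V) : IsIntegral R x := by
  have h1 : x ∈ (⨅ V : {V : ValuationSubring K // (R : Set K) ⊆ V.toSubring},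
      V.1.toSubring) := by
    rw [Subring.mem_iInf]
    intro V
    exact h V.1 (fun t ht => V.2 ht)
  rw [iInf_valuationSubring_superset] at h1
  have h2 : IsIntegral (Subring.closure (R : Set K)) x := h1
  have hle : ∀ t ∈ Subring.closure (R : Set K), t ∈ R := by
    intro t ht
    have h3 : Subring.closure (R : Set K) ≤ R.toSubring := Subring.closure_le.2 (fun _ h => h)
    exact h3 ht
  let φ : Subring.closure (R : Set K) →+* R :=
    (Subring.subtype _).codRestrict R (fun t => hle t.1 t.2)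
  exact IsIntegral.map_of_comp_eq φ (RingHom.id K) (by ext t; rfl) h2

omit [Algebra ℂ K] in
/-- The two cases of `IsSide` in a valuation ring. -/
theorem coreIntegral_side (V : ValuationSubring K) (ρ : K) (hρ : ρ ≠ 0) (α : ℕ) (hα : 1 ≤ α) :
    ∃ (u : K) (e : ℕ), IsSide ρ α u e ∧ u ∈ V ∧ ρ * (u ^ e) ^ 2 ∈ V ∧ ρ ^ 2 * (u ^ e) ^ 2 ∈ V ∧
      (u ^ e) ^ 2 ∈ V := by
  rcases V.mem_or_inv_mem ρ with h | h
  · refine ⟨ρ, 0, Or.inl ⟨rfl, rfl⟩, h, ?_, ?_, ?_⟩
    · simpa using h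
    · simpa using V.pow_mem h 2
    · simp
  · obtain ⟨β, rfl⟩ : ∃ β, α = β + 1 := ⟨α - 1, by omega⟩
    refine ⟨ρ⁻¹, β + 1, Or.inr ⟨rfl, rfl⟩, h, ?_, ?_, ?_⟩
    · have : ρ * (ρ⁻¹ ^ (β + 1)) ^ 2 = ρ⁻¹ ^ (2 * β + 1) := by
        rw [← pow_mul, show (β + 1) * 2 = (2 * β + 1) + 1 by ring, pow_succ (ρ⁻¹) (2 * β + 1)]
        field_simp
      rw [this]
      exact V.pow_mem h _
    · have : ρ ^ 2 * (ρ⁻¹ ^ (β + 1)) ^ 2 = ρ⁻¹ ^ (2 * β) := by
        rw [← pow_mul, show (β + 1) * 2 = 2 * β + 2 by ring, pow_add (ρ⁻¹) (2 * β) 2]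
        field_simp
      rw [this]
      exact V.pow_mem h _
    · exact V.pow_mem (V.pow_mem h _) _

/-- C3. Integrality, by valuation rings: a valuation ring of `K` containing all `y i / y k`
contains `u, v` for one of the four charts; as the entries of the normal form in that chart
generate the unit ideal, `y k g u ^ e v ^ f` is a unit of the valuation ring. -/
theorem normalForm_integral {ρ τ : K} {J : Type} [Fintype J] {y : J → K} {g : K} {α β : ℕ}
    (hN : IsNormalForm ρ τ y g α β) (hα : 1 ≤ α) (hβ : 1 ≤ β) (k : J) (hk : y k ≠ 0)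
    (hρ : ρ ≠ 0) (hτ : τ ≠ 0)
    (t : K) (ht : t = ρ ^ 2 ∨ t = ρ * τ ∨ t = τ ^ 2) :
    IsIntegral (Algebra.adjoin ℂ (Set.range fun i => y i / y k)) (t / (y k * g) ^ 2) := by
  apply coreIntegral_isIntegral_of_forall
  intro V hV
  obtain ⟨u, e, hu, huV, hu1, hu2, hu0⟩ := coreIntegral_side V ρ hρ α hα
  obtain ⟨v, f, hv, hvV, hv1, hv2, hv0⟩ := coreIntegral_side V τ hτ β hβ
  have hadj : ∀ c ∈ Algebra.adjoin ℂ ({u, v} : Set K), c ∈ V := by
    intro c hc
    induction hc using Algebra.adjoin_induction with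
    | mem x hx =>
      rcases hx with rfl | hx
      · exact huV
      · rw [Set.mem_singleton_iff.1 hx]; exact hvV
    | algebraMap r => exact hV _ (Subalgebra.algebraMap_mem _ r)
    | add x y _ _ hx hy => exact V.add_mem _ _ hx hy
    | mul x y _ _ hx hy => exact V.mul_mem _ _ hx hy
  obtain ⟨c, hc, hsum⟩ := hN.one u v e f hu hv
  have hg : g ≠ 0 := hN.g_ne
  have hykg : y k * g ≠ 0 := mul_ne_zero hk hg
  -- the inverse of `y k * g * u ^ e * v ^ f`
  have hinv : (∑ i, c i * (y i / y k)) * (y k * g * u ^ e * v ^ f) = 1 := by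
    rw [← hsum, Finset.sum_mul]
    refine Finset.sum_congr rfl (fun i _ => ?_)
    field_simp
  have hS : (∑ i, c i * (y i / y k)) ∈ V := by
    refine V.toSubring.sum_mem (fun i _ => ?_)
    exact V.mul_mem _ _ (hadj _ (hc i)) (hV _ (Algebra.subset_adjoin ⟨i, rfl⟩))
  have hkey : t / (y k * g) ^ 2 =
      (t * ((u ^ e) ^ 2 * (v ^ f) ^ 2)) * (∑ i, c i * (y i / y k)) ^ 2 := by
    rw [div_eq_iff (pow_ne_zero 2 hykg)]
    have h1 : ((∑ i, c i * (y i / y k)) * (y k * g * u ^ e * v ^ f)) ^ 2 = 1 := by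
      rw [hinv, one_pow]
    calc t = t * 1 := (mul_one t).symm
      _ = t * ((∑ i, c i * (y i / y k)) * (y k * g * u ^ e * v ^ f)) ^ 2 := by rw [h1]
      _ = _ := by ring
  rw [hkey]
  refine V.mul_mem _ _ ?_ (V.pow_mem hS 2)
  rcases ht with rfl | rfl | rfl
  · have : ρ ^ 2 * ((u ^ e) ^ 2 * (v ^ f) ^ 2) = (ρ ^ 2 * (u ^ e) ^ 2) * (v ^ f) ^ 2 := by ring
    rw [this]
    exact V.mul_mem _ _ hu2 hv0
  · have : ρ * τ * ((u ^ e) ^ 2 * (v ^ f) ^ 2) = (ρ * (u ^ e) ^ 2) * (τ * (v ^ f) ^ 2) := by ring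
    rw [this]
    exact V.mul_mem _ _ hu1 hv1
  · have : τ ^ 2 * ((u ^ e) ^ 2 * (v ^ f) ^ 2) = (u ^ e) ^ 2 * (τ ^ 2 * (v ^ f) ^ 2) := by ring
    rw [this]
    exact V.mul_mem _ _ hu0 hv2

end

end Pool.Agent.AHM
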