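import Pool.Agent.AHM.CoreDefs

namespace Pool.Agent.AHM

noncomputable section

variable {K : Type} [Field K] [Algebra ℂ K]

namespace CoreParity

open MvPolynomial

/-- The involution `(X₀, X₁) ↦ (-X₀, -X₁)`. -/
def sg : MvPolynomial (Fin 2) ℂ →ₐ[ℂ] MvPolynomial (Fin 2) ℂ :=
  aeval ![-X 0, -X 1]

theorem sg_X0 : sg (X 0) = -X 0 := by simp [sg]

theorem sg_X1 : sg (X 1) = -X 1 := by simp [sg]

theorem sg_sg (A : MvPolynomial (Fin 2) ℂ) : sg (sg A) = A := by
  have h : sg.comp sg = AlgHom.id ℂ _ := by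
    apply MvPolynomial.algHom_ext
    intro i
    fin_cases i
    · simp [sg_X0]
    · simp [sg_X1]
  exact DFunLike.congr_fun h A

omit [Field K] [Algebra ℂ K] in
theorem range_pair (u v : K) : Set.range ![u, v] = {u, v} := by
  ext x
  simp only [Set.mem_range, Fin.exists_fin_two, Set.mem_insert_iff, Set.mem_singleton_iff]
  simp only [Matrix.cons_val_zero, Matrix.cons_val_one]
  constructor <;> rintro (h | h) <;> simp [h]

theorem mem_adjoin_pair {u v x : K} (h : x ∈ Algebra.adjoin ℂ {u, v}) :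
    ∃ A : MvPolynomial (Fin 2) ℂ, aeval ![u, v] A = x := by
  rw [← range_pair, Algebra.adjoin_range_eq_range_aeval] at h
  exact h

/-- Even polynomials are even functions; the odd case multiplied by `ρ`. -/
theorem even_aux {ρ τ : K} (hρ : ρ ≠ 0) (hτ : τ ≠ 0) (A : MvPolynomial (Fin 2) ℂ) :
    aeval ![ρ, τ] (A + sg A) ∈ IntermediateField.adjoin ℂ {ρ * τ, ρ / τ} ∧
      ρ * aeval ![ρ, τ] (A - sg A) ∈ IntermediateField.adjoin ℂ {ρ * τ, ρ / τ} := by
  have h1 : ρ * τ ∈ IntermediateField.adjoin ℂ {ρ * τ, ρ / τ} :=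
    IntermediateField.subset_adjoin _ _ (by simp)
  have h2 : ρ / τ ∈ IntermediateField.adjoin ℂ {ρ * τ, ρ / τ} :=
    IntermediateField.subset_adjoin _ _ (by simp)
  have h3 : ρ * ρ ∈ IntermediateField.adjoin ℂ {ρ * τ, ρ / τ} := by
    have : ρ * ρ = (ρ * τ) * (ρ / τ) := by field_simp
    rw [this]; exact mul_mem h1 h2
  have h4 : τ / ρ ∈ IntermediateField.adjoin ℂ {ρ * τ, ρ / τ} := by
    have : τ / ρ = (ρ / τ)⁻¹ := by rw [inv_div]
    rw [this]; exact inv_mem h2
  induction A using MvPolynomial.induction_on with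
  | C a =>
    have h5 : sg (C a) = C a := by
      rw [← MvPolynomial.algebraMap_eq]; exact AlgHom.commutes _ _
    rw [h5, sub_self, map_zero, mul_zero]
    refine ⟨?_, zero_mem _⟩
    rw [map_add, ← MvPolynomial.algebraMap_eq, AlgHom.commutes]
    exact add_mem (IntermediateField.algebraMap_mem _ _) (IntermediateField.algebraMap_mem _ _)
  | add p q hp hq =>
    refine ⟨?_, ?_⟩
    · have : p + q + sg (p + q) = (p + sg p) + (q + sg q) := by rw [map_add]; ring
      rw [this, map_add]; exact add_mem hp.1 hq.1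
    · have : p + q - sg (p + q) = (p - sg p) + (q - sg q) := by rw [map_add]; ring
      rw [this, map_add, mul_add]; exact add_mem hp.2 hq.2
  | mul_X p i hp =>
    obtain ⟨hp1, hp2⟩ := hp
    have hi : i = 0 ∨ i = 1 := by fin_cases i <;> simp
    rcases hi with rfl | rfl
    · constructor
      · have : p * X 0 + sg (p * X 0) = X 0 * (p - sg p) := by
          rw [map_mul, sg_X0]; ring
        rw [this, map_mul, aeval_X]
        exact hp2
      · have : p * X 0 - sg (p * X 0) = X 0 * (p + sg p) := by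
          rw [map_mul, sg_X0]; ring
        rw [this, map_mul, aeval_X, ← mul_assoc]
        exact mul_mem h3 hp1
    · constructor
      · have : p * X 1 + sg (p * X 1) = X 1 * (p - sg p) := by
          rw [map_mul, sg_X1]; ring
        rw [this, map_mul, aeval_X]
        have h6 : (![ρ, τ] : Fin 2 → K) 1 * aeval ![ρ, τ] (p - sg p) =
            (τ / ρ) * (ρ * aeval ![ρ, τ] (p - sg p)) := by
          change τ * _ = _
          field_simp
        rw [h6]
        exact mul_mem h4 hp2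
      · have : p * X 1 - sg (p * X 1) = X 1 * (p + sg p) := by
          rw [map_mul, sg_X1]; ring
        rw [this, map_mul, aeval_X, ← mul_assoc]
        exact mul_mem h1 hp1

theorem even_mem {ρ τ : K} (hρ : ρ ≠ 0) (hτ : τ ≠ 0) {A : MvPolynomial (Fin 2) ℂ}
    (hA : sg A = A) : aeval ![ρ, τ] A ∈ IntermediateField.adjoin ℂ {ρ * τ, ρ / τ} := by
  have h := (even_aux hρ hτ A).1
  rw [hA] at h
  have h2 : aeval ![ρ, τ] A = algebraMap ℂ K (1 / 2) * aeval ![ρ, τ] (A + A) := by
    rw [map_add, ← two_mul, ← mul_assoc]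
    have : algebraMap ℂ K (1 / 2) * 2 = 1 := by
      have h3 : (2 : K) = algebraMap ℂ K 2 := by rw [map_ofNat]
      rw [h3, ← map_mul]; norm_num
    rw [this, one_mul]
  rw [h2]
  exact mul_mem (IntermediateField.algebraMap_mem _ _) h

/-- Every even function is a quotient of even polynomials. -/
theorem even_frac {ρ τ : K} (hind : AlgebraicIndependent ℂ ![ρ, τ]) (hτ : τ ≠ 0) {f : K}
    (hf : f ∈ IntermediateField.adjoin ℂ {ρ * τ, ρ / τ}) :
    ∃ P Q : MvPolynomial (Fin 2) ℂ, Q ≠ 0 ∧ sg P = P ∧ sg Q = Q ∧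
      f * aeval ![ρ, τ] Q = aeval ![ρ, τ] P := by
  have hinj : ∀ Q : MvPolynomial (Fin 2) ℂ, Q ≠ 0 → aeval ![ρ, τ] Q ≠ 0 := fun Q hQ h =>
    hQ (hind (by rw [h, map_zero]))
  induction hf using IntermediateField.adjoin_induction with
  | mem x hx =>
    simp only [Set.mem_insert_iff, Set.mem_singleton_iff] at hx
    rcases hx with rfl | rfl
    · refine ⟨X 0 * X 1, 1, one_ne_zero, ?_, map_one _, ?_⟩
      · rw [map_mul, sg_X0, sg_X1]; ring
      · simp
    · refine ⟨X 0 * X 1, X 1 * X 1, mul_ne_zero (X_ne_zero _) (X_ne_zero _), ?_, ?_, ?_⟩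
      · rw [map_mul, sg_X0, sg_X1]; ring
      · rw [map_mul, sg_X1]; ring
      · simp only [map_mul, aeval_X, Matrix.cons_val_zero, Matrix.cons_val_one]
        field_simp
  | algebraMap x =>
    refine ⟨C x, 1, one_ne_zero, ?_, map_one _, ?_⟩
    · rw [← MvPolynomial.algebraMap_eq]; exact AlgHom.commutes _ _
    · rw [map_one, mul_one, ← MvPolynomial.algebraMap_eq, AlgHom.commutes]
  | add x y _ _ hx hy =>
    obtain ⟨P, Q, hQ, h1, h2, h3⟩ := hx
    obtain ⟨P', Q', hQ', h1', h2', h3'⟩ := hy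
    refine ⟨P * Q' + P' * Q, Q * Q', mul_ne_zero hQ hQ', ?_, ?_, ?_⟩
    · rw [map_add, map_mul, map_mul, h1, h2, h1', h2']
    · rw [map_mul, h2, h2']
    · rw [map_mul, map_add, map_mul, map_mul, ← h3, ← h3']; ring
  | mul x y _ _ hx hy =>
    obtain ⟨P, Q, hQ, h1, h2, h3⟩ := hx
    obtain ⟨P', Q', hQ', h1', h2', h3'⟩ := hy
    refine ⟨P * P', Q * Q', mul_ne_zero hQ hQ', ?_, ?_, ?_⟩
    · rw [map_mul, h1, h1']
    · rw [map_mul, h2, h2']
    · rw [map_mul, map_mul, ← h3, ← h3']; ring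
  | inv x _ hx =>
    obtain ⟨P, Q, hQ, h1, h2, h3⟩ := hx
    by_cases hP : P = 0
    · have hx0 : x = 0 := by
        rw [hP, map_zero] at h3
        rcases mul_eq_zero.1 h3 with h | h
        · exact h
        · exact absurd h (hinj Q hQ)
      exact ⟨0, 1, one_ne_zero, map_zero _, map_one _, by simp [hx0]⟩
    · refine ⟨Q, P, hP, h2, h1, ?_⟩
      have hx0 : x ≠ 0 := fun h => hinj P hP (by rw [← h3, h, zero_mul])
      rw [← h3]
      field_simp

/-- A domain between: `K ⊇ A₀[ρ] ∩ A₀[ρ⁻¹] = A₀`. -/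
theorem mem_of_both {A₀ : Subalgebra ℂ K} {ρ Y : K} (ht : Transcendental A₀ ρ)
    (h1 : Y ∈ Algebra.adjoin A₀ {ρ}) (h2 : Y ∈ Algebra.adjoin A₀ {ρ⁻¹}) : Y ∈ A₀ := by
  rw [Algebra.adjoin_singleton_eq_range_aeval] at h1 h2
  obtain ⟨A, hA⟩ := h1
  obtain ⟨B, hB⟩ := h2
  have hA' : Polynomial.aeval ρ A = Y := hA
  have hB' : Polynomial.aeval ρ⁻¹ B = Y := hB
  have hρ : ρ ≠ 0 := fun h => ht (by rw [h]; exact isAlgebraic_zero)
  have hinj : Function.Injective (Polynomial.aeval ρ : Polynomial A₀ →ₐ[A₀] K) :=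
    transcendental_iff_injective.1 ht
  have h3 : A * Polynomial.X ^ B.natDegree = B.reverse := by
    apply hinj
    rw [map_mul, map_pow, Polynomial.aeval_X, hA']
    let _ : Invertible ρ⁻¹ := invertibleOfNonzero (inv_ne_zero hρ)
    have h4 := Polynomial.eval₂_reverse_mul_pow (algebraMap A₀ K) ρ⁻¹ B
    rw [invOf_eq_inv, inv_inv] at h4
    rw [Polynomial.aeval_def]
    rw [Polynomial.aeval_def] at hB'
    rw [hB'] at h4
    rw [← h4, inv_pow, mul_assoc, inv_mul_cancel₀ (pow_ne_zero _ hρ), mul_one]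
  have h5 : A.natDegree = 0 := by
    by_cases hA0 : A = 0
    · rw [hA0]; simp
    · have h6 : (A * Polynomial.X ^ B.natDegree).natDegree = A.natDegree + B.natDegree := by
        rw [Polynomial.natDegree_mul hA0 (pow_ne_zero _ Polynomial.X_ne_zero),
          Polynomial.natDegree_X_pow]
      have h7 := Polynomial.reverse_natDegree_le B
      rw [← h3, h6] at h7
      omega
  rw [Polynomial.eq_C_of_natDegree_eq_zero h5, Polynomial.aeval_C] at hA'
  rw [← hA']
  exact (A.coeff 0).2

theorem adjoin_le_adjoin (u τ : K) {Y : K} (h : Y ∈ Algebra.adjoin ℂ {u, τ}) :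
    Y ∈ Algebra.adjoin (Algebra.adjoin ℂ {τ}) {u} := by
  have h1 : Algebra.adjoin ℂ {u, τ} ≤
      (Algebra.adjoin (Algebra.adjoin ℂ {τ}) {u}).restrictScalars ℂ := by
    apply Algebra.adjoin_le
    intro x hx
    simp only [Set.mem_insert_iff, Set.mem_singleton_iff] at hx
    rcases hx with rfl | rfl
    · exact Algebra.subset_adjoin (R := Algebra.adjoin ℂ {τ}) (Set.mem_singleton x)
    · exact Subalgebra.algebraMap_mem (Algebra.adjoin (Algebra.adjoin ℂ {x}) {u})
        (⟨x, Algebra.subset_adjoin (Set.mem_singleton x)⟩ : Algebra.adjoin ℂ {x})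
  exact h1 h

theorem pos_aux {ρ τ : K} (ht : Transcendental (Algebra.adjoin ℂ {τ}) ρ) (hτ : τ ≠ 0)
    {J : Type} (z : J → K) (k : J) (h1 : ∀ i, z i ∈ Algebra.adjoin ℂ {ρ, τ})
    (h2 : ∀ i, z i ∈ Algebra.adjoin ℂ {ρ⁻¹, τ})
    (hF : ρ * τ ∈ IntermediateField.adjoin ℂ (Set.range fun i => z i / z k)) : False := by
  have h3 : ∀ i, z i ∈ Algebra.adjoin ℂ {τ} := fun i =>
    mem_of_both ht (adjoin_le_adjoin _ _ (h1 i)) (adjoin_le_adjoin _ _ (h2 i))
  have h4 : IntermediateField.adjoin ℂ (Set.range fun i => z i / z k) ≤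
      IntermediateField.adjoin ℂ {τ} := by
    rw [IntermediateField.adjoin_le_iff]
    rintro _ ⟨i, rfl⟩
    exact div_mem (IntermediateField.algebra_adjoin_le_adjoin _ _ (h3 i))
      (IntermediateField.algebra_adjoin_le_adjoin _ _ (h3 k))
  have h5 : ρ ∈ IntermediateField.adjoin ℂ {τ} := by
    have h6 := div_mem (h4 hF) (IntermediateField.subset_adjoin ℂ {τ} (Set.mem_singleton τ))
    rwa [mul_div_cancel_right₀ _ hτ] at h6
  rw [IntermediateField.mem_adjoin_iff_div] at h5
  obtain ⟨x, hx, y, hy, hxy⟩ := h5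
  have hy0 : y ≠ 0 := by
    rintro rfl
    rw [div_zero] at hxy
    exact ht (by rw [hxy]; exact isAlgebraic_zero)
  apply ht
  refine ⟨Polynomial.C ⟨y, hy⟩ * Polynomial.X - Polynomial.C ⟨x, hx⟩, ?_, ?_⟩
  · intro h
    have h7 := congrArg (fun p => Polynomial.coeff p 1) h
    simp only [Polynomial.coeff_sub, Polynomial.coeff_C_mul, Polynomial.coeff_X_one, mul_one,
      Polynomial.coeff_C_succ, sub_zero, Polynomial.coeff_zero] at h7
    exact hy0 (congrArg Subtype.val h7)
  · rw [map_sub, map_mul, Polynomial.aeval_X, Polynomial.aeval_C, Polynomial.aeval_C]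
    change y * ρ - x = 0
    rw [hxy]
    field_simp
    simp

end CoreParity

open CoreParity

/-- C2. If all the quotients are even functions, then each entry of the normal form is even or
odd. -/
theorem normalForm_parity {ρ τ : K} (hind : AlgebraicIndependent ℂ ![ρ, τ])
    {J : Type} [Fintype J] {y : J → K} {g : K} {α β : ℕ} (hN : IsNormalForm ρ τ y g α β)
    (hF : ∀ k, y k ≠ 0 → ∀ i, y i / y k ∈ IntermediateField.adjoin ℂ {ρ * τ, ρ / τ}) (k : J) :
    (y k * g) ^ 2 ∈ IntermediateField.adjoin ℂ {ρ * τ, ρ / τ} := by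
  have hρ0 : ρ ≠ 0 := by
    have := hind.ne_zero 0
    simpa using this
  have hτ0 : τ ≠ 0 := by
    have := hind.ne_zero 1
    simpa using this
  have hmem := hN.mem ρ τ 0 0 (Or.inl ⟨rfl, rfl⟩) (Or.inl ⟨rfl, rfl⟩)
  simp only [pow_zero, mul_one] at hmem
  obtain ⟨c, hc, hsum⟩ := hN.one ρ τ 0 0 (Or.inl ⟨rfl, rfl⟩) (Or.inl ⟨rfl, rfl⟩)
  simp only [pow_zero, mul_one] at hsum
  choose A hA using fun i => mem_adjoin_pair (hmem i)
  choose C' hC using fun i => mem_adjoin_pair (hc i)
  have hinj : Function.Injective (MvPolynomial.aeval ![ρ, τ] : MvPolynomial (Fin 2) ℂ →ₐ[ℂ] K) :=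
    hind
  have hone : ∑ i, C' i * A i = 1 := by
    apply hinj
    rw [map_sum, map_one, ← hsum]
    exact Finset.sum_congr rfl fun i _ => by rw [map_mul, hC, hA]
  by_cases hk : y k = 0
  · rw [hk, zero_mul, zero_pow two_ne_zero]; exact zero_mem _
  have hAk : A k ≠ 0 := by
    intro h
    have := hA k
    rw [h, map_zero] at this
    exact mul_ne_zero hk hN.g_ne this.symm
  -- the relation `σ(A i) A k = A i σ(A k)`
  have hrel : ∀ i, sg (A i) * A k = A i * sg (A k) := by
    intro i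
    obtain ⟨P, Q, hQ, h1, h2, h3⟩ := even_frac hind hτ0 (hF k hk i)
    have h4 : A i * Q = P * A k := by
      apply hinj
      rw [map_mul, map_mul, ← h3, hA, hA]
      field_simp
    have h5 : sg (A i) * Q = P * sg (A k) := by
      have := congrArg sg h4
      rwa [map_mul, map_mul, h1, h2] at this
    apply mul_right_cancel₀ hQ
    linear_combination A k * h5 - sg (A k) * h4
  set h : MvPolynomial (Fin 2) ℂ := ∑ i, C' i * sg (A i) with hh
  have h1 : sg (A k) = h * A k := by
    calc sg (A k) = (∑ i, C' i * A i) * sg (A k) := by rw [hone, one_mul]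
      _ = ∑ i, C' i * (A i * sg (A k)) := by
        rw [Finset.sum_mul]; exact Finset.sum_congr rfl fun i _ => by ring
      _ = ∑ i, C' i * (sg (A i) * A k) :=
        Finset.sum_congr rfl fun i _ => by rw [hrel i]
      _ = h * A k := by
        rw [hh, Finset.sum_mul]; exact Finset.sum_congr rfl fun i _ => by ring
  have h2 : sg h * h = 1 := by
    apply mul_right_cancel₀ hAk
    have h3 := congrArg sg h1
    rw [sg_sg, map_mul, h1] at h3
    rw [one_mul]
    linear_combination -h3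
  have h3 : IsUnit h := IsUnit.of_mul_eq_one (sg h) (by rw [mul_comm]; exact h2)
  obtain ⟨a, _, ha⟩ := MvPolynomial.isUnit_iff_eq_C_of_isReduced.1 h3
  have h4 : sg h = h := by
    rw [ha, ← MvPolynomial.algebraMap_eq]
    exact AlgHom.commutes _ _
  rw [h4] at h2
  have h5 : sg (A k ^ 2) = A k ^ 2 := by
    rw [map_pow, h1]
    linear_combination (A k ^ 2) * h2
  have h6 := even_mem hρ0 hτ0 h5
  rwa [map_pow, hA] at h6

/-- C2'. Both degrees are positive. -/
theorem normalForm_pos {ρ τ : K} (hind : AlgebraicIndependent ℂ ![ρ, τ])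
    {J : Type} [Fintype J] {y : J → K} {g : K} {α β : ℕ} (hN : IsNormalForm ρ τ y g α β)
    (k : J) (hk : y k ≠ 0) (hF : IntermediateField.adjoin ℂ (Set.range fun i => y i / y k) =
      IntermediateField.adjoin ℂ {ρ * τ, ρ / τ}) : 1 ≤ α ∧ 1 ≤ β := by
  have hρ0 : ρ ≠ 0 := by
    have := hind.ne_zero 0
    simpa using this
  have hτ0 : τ ≠ 0 := by
    have := hind.ne_zero 1
    simpa using this
  have hdiv : (fun i => (y i * g) / (y k * g)) = fun i => y i / y k := by
    funext i
    have := hN.g_ne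
    field_simp
  have hmem : ρ * τ ∈ IntermediateField.adjoin ℂ (Set.range fun i => (y i * g) / (y k * g)) := by
    rw [hdiv, hF]
    exact IntermediateField.subset_adjoin _ _ (by simp)
  constructor
  · by_contra hα
    have hα0 : α = 0 := by omega
    subst hα0
    have ht : Transcendental (Algebra.adjoin ℂ {τ}) ρ := by
      have := hind.transcendental_adjoin (s := {1}) (i := 0) (by simp)
      rw [Set.image_singleton] at this
      exact this
    refine pos_aux ht hτ0 (fun i => y i * g) k ?_ ?_ hmem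
    · intro i
      have := hN.mem ρ τ 0 0 (Or.inl ⟨rfl, rfl⟩) (Or.inl ⟨rfl, rfl⟩) i
      simpa only [pow_zero, mul_one] using this
    · intro i
      have := hN.mem ρ⁻¹ τ 0 0 (Or.inr ⟨rfl, rfl⟩) (Or.inl ⟨rfl, rfl⟩) i
      simpa only [pow_zero, mul_one] using this
  · by_contra hβ
    have hβ0 : β = 0 := by omega
    subst hβ0
    have ht : Transcendental (Algebra.adjoin ℂ {ρ}) τ := by
      have := hind.transcendental_adjoin (s := {0}) (i := 1) (by simp)
      rw [Set.image_singleton] at this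
      exact this
    refine pos_aux ht hρ0 (fun i => y i * g) k ?_ ?_ (by rw [mul_comm τ ρ]; exact hmem)
    · intro i
      have := hN.mem ρ τ 0 0 (Or.inl ⟨rfl, rfl⟩) (Or.inl ⟨rfl, rfl⟩) i
      rw [Set.pair_comm]
      simpa only [pow_zero, mul_one] using this
    · intro i
      have := hN.mem ρ τ⁻¹ 0 0 (Or.inl ⟨rfl, rfl⟩) (Or.inr ⟨rfl, rfl⟩) i
      rw [Set.pair_comm]
      simpa only [pow_zero, mul_one] using this

end

end Pool.Agent.AHM
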