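import Pool.Agent.AHM.CoreDefs

namespace Pool.Agent.AHM

noncomputable section

open TensorProduct

theorem coreSmooth_frac (P S : Type) [CommRing P] [IsDomain P]
    [CommRing S] [IsDomain S] [Algebra P S] [Algebra.Etale P S] :
    IsFractionRing S (S ⊗[P] (FractionRing P)) := by
  have hinj : Function.Injective (algebraMap P S) := FaithfulSMul.algebraMap_injective P S
  have hle : Algebra.algebraMapSubmonoid S (nonZeroDivisors P) ≤ nonZeroDivisors S :=
    map_le_nonZeroDivisors_of_injective _ hinj le_rfl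
  let _ : Algebra (FractionRing P) (S ⊗[P] (FractionRing P)) := Algebra.TensorProduct.rightAlgebra
  have hdom : IsDomain (S ⊗[P] (FractionRing P)) :=
    IsLocalization.isDomain_of_le_nonZeroDivisors (S ⊗[P] (FractionRing P)) hle
  have het : Algebra.Etale (FractionRing P) (S ⊗[P] (FractionRing P)) :=
    Algebra.Etale.of_equiv (Algebra.TensorProduct.commRight P (FractionRing P) S)
  have hfin : Module.Finite (FractionRing P) (S ⊗[P] (FractionRing P)) :=
    Algebra.FormallyUnramified.finite_of_free _ _
  have hfield : IsField (S ⊗[P] (FractionRing P)) :=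
    isField_of_isIntegral_of_isField' (Semifield.toIsField (FractionRing P))
  have hiT : Function.Injective (algebraMap S (S ⊗[P] (FractionRing P))) :=
    IsLocalization.injective _ hle
  refine IsLocalization.of_le_of_exists_dvd (Algebra.algebraMapSubmonoid S (nonZeroDivisors P))
    (nonZeroDivisors S) hle ?_
  intro n hn
  have hn0 : n ≠ 0 := nonZeroDivisors.ne_zero hn
  have hn1 : algebraMap S (S ⊗[P] (FractionRing P)) n ≠ 0 := by
    intro h
    exact hn0 (hiT (by rw [h, map_zero]))
  obtain ⟨y, hy⟩ := hfield.mul_inv_cancel hn1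
  obtain ⟨a, ⟨m, hm⟩, rfl⟩ := IsLocalization.exists_mk'_eq
    (Algebra.algebraMapSubmonoid S (nonZeroDivisors P)) y
  refine ⟨m, hm, a, ?_⟩
  rw [IsLocalization.mul_mk'_eq_mk'_of_mul, IsLocalization.mk'_eq_iff_eq_mul, one_mul] at hy
  exact (hiT hy).symm

theorem coreSmooth_etale (P S : Type) [CommRing P] [IsDomain P] [IsIntegrallyClosed P]
    [CommRing S] [IsDomain S] [Algebra P S] [Algebra.Etale P S] : IsIntegrallyClosed S := by
  have hfr := coreSmooth_frac P S
  rw [isIntegrallyClosed_iff (S ⊗[P] (FractionRing P))]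
  intro x hx
  obtain ⟨z, hz⟩ := (TensorProduct.toIntegralClosure_bijective_of_smooth (R := P) (S := S)
    (B := FractionRing P)).2 ⟨x, hx⟩
  have hz2 : ((TensorProduct.toIntegralClosure P S (FractionRing P) z : _) :
      S ⊗[P] (FractionRing P)) = x := by rw [hz]
  rw [← hz2]
  clear hz hz2 hx x
  induction z with
  | zero => exact ⟨0, by simp⟩
  | add u v hu hv =>
    obtain ⟨a, ha⟩ := hu
    obtain ⟨b, hb⟩ := hv
    exact ⟨a + b, by rw [map_add, map_add, ha, hb]; rfl⟩
  | tmul s c =>
    obtain ⟨c, hc⟩ := c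
    obtain ⟨p, rfl⟩ := IsIntegrallyClosed.isIntegral_iff.1 hc
    refine ⟨p • s, ?_⟩
    change (p • s) ⊗ₜ[P] (1 : FractionRing P) = s ⊗ₜ[P] (algebraMap P (FractionRing P) p)
    rw [TensorProduct.smul_tmul, Algebra.smul_def, mul_one]

theorem coreSmooth_closed (A : Type) [CommRing A] [IsDomain A] [Algebra ℂ A]
    [Algebra.Smooth ℂ A] : IsIntegrallyClosed A := by
  have key : ∀ m : MaximalSpectrum A, ∃ f : A, f ∉ m.asIdeal ∧
      IsIntegrallyClosed (Localization.Away f) := by
    intro m
    obtain ⟨f, hfm, n, h1, h2, h3⟩ :=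
      Algebra.IsSmoothAt.exists_isStandardEtale_mvPolynomial (R := ℂ) (p := m.asIdeal)
    refine ⟨f, hfm, ?_⟩
    have hf0 : f ≠ 0 := fun h => hfm (h ▸ m.asIdeal.zero_mem)
    have hd : IsDomain (Localization.Away f) :=
      IsLocalization.isDomain_of_le_nonZeroDivisors (Localization.Away f)
        (powers_le_nonZeroDivisors_of_noZeroDivisors hf0)
    exact coreSmooth_etale (MvPolynomial (Fin n) ℂ) (Localization.Away f)
  choose f hfm hf using key
  have hle : ∀ m : MaximalSpectrum A, Submonoid.powers (f m) ≤ nonZeroDivisors A := fun m =>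
    powers_le_nonZeroDivisors_of_noZeroDivisors fun h => hfm m (h ▸ m.asIdeal.zero_mem)
  refine IsIntegrallyClosed.of_iInf_eq_bot (K := FractionRing A)
    (fun m : MaximalSpectrum A => Localization.subalgebra.ofField (FractionRing A)
      (Submonoid.powers (f m)) (hle m)) ?_ ?_
  · intro m
    have := hf m
    exact IsIntegrallyClosed.of_equiv
      (IsLocalization.algEquiv (Submonoid.powers (f m)) (Localization.Away (f m))
        (Localization.subalgebra.ofField (FractionRing A)
      (Submonoid.powers (f m)) (hle m))).toRingEquiv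
  · refine bot_unique (le_trans (iInf_mono fun m => ?_)
      (MaximalSpectrum.iInf_localization_eq_bot A (FractionRing A)).le)
    rintro x ⟨a, s, hs, rfl⟩
    refine ⟨a, s, ?_, rfl⟩
    obtain ⟨k, rfl⟩ := hs
    intro hmem
    exact hfm m (m.isMaximal.isPrime.mem_of_pow_mem k hmem)

variable {K : Type} [Field K] [Algebra ℂ K]

/-- C4. A smooth `ℂ`-algebra which is a domain is integrally closed in its fraction field
(Mathlib: `RingTheory/Smooth/IntegralClosure`). -/
theorem mem_of_isIntegral_of_smooth (B : Subalgebra ℂ K) (hB : Algebra.Smooth ℂ B) (x : K)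
    (hx : x ∈ IntermediateField.adjoin ℂ (B : Set K)) (hi : IsIntegral B x) : x ∈ B := by
  have hcl : IsIntegrallyClosed B := coreSmooth_closed B
  rw [IntermediateField.mem_adjoin_iff_div] at hx
  obtain ⟨r, hr, s, hs, rfl⟩ := hx
  rw [Algebra.adjoin_eq] at hr hs
  by_cases hs0 : s = 0
  · rw [hs0, div_zero]
    exact B.zero_mem
  have hinj : Function.Injective (algebraMap B K) := Subtype.val_injective
  let φ : FractionRing B →ₐ[B] K := IsFractionRing.liftAlgHom (g := Algebra.ofId B K) hinj
  have hφ : Function.Injective φ := φ.injective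
  have hs1 : (⟨s, hs⟩ : B) ≠ 0 := fun h => hs0 (congrArg Subtype.val h)
  let y : FractionRing B := algebraMap B (FractionRing B) ⟨r, hr⟩ /
    algebraMap B (FractionRing B) ⟨s, hs⟩
  have hy : φ y = r / s := by
    simp only [y, map_div₀, AlgHom.commutes]
    rfl
  rw [← hy] at hi
  have hi2 : IsIntegral B y := (isIntegral_algHom_iff φ hφ).1 hi
  obtain ⟨b, hb⟩ := IsIntegrallyClosed.isIntegral_iff.1 hi2
  rw [← hy, ← hb, AlgHom.commutes]
  exact b.2

end

end Pool.Agent.AHM
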