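import Pool.Agent.AHM.CoreNormal
import Pool.Agent.AHM.CoreParity
import Pool.Agent.AHM.CoreIntegral
import Pool.Agent.AHM.CoreSmooth
import Pool.Agent.AHM.CoreDer

namespace Pool.Agent.AHM

noncomputable section

variable {K : Type} [Field K] [Algebra ℂ K]

theorem core_adjoin (s : Set K) :
    IntermediateField.adjoin ℂ ((Algebra.adjoin ℂ s : Subalgebra ℂ K) : Set K) =
      IntermediateField.adjoin ℂ s := by
  refine le_antisymm ?_ (IntermediateField.adjoin.mono ℂ _ _ Algebra.subset_adjoin)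
  rw [IntermediateField.adjoin_le_iff]
  exact IntermediateField.algebra_adjoin_le_adjoin ℂ s

theorem core_exists_poly {u v x : K} (hx : x ∈ Algebra.adjoin ℂ {u, v}) :
    ∃ A : MvPolynomial (Fin 2) ℂ, MvPolynomial.aeval ![u, v] A = x := by
  have h : Algebra.adjoin ℂ {u, v} = (MvPolynomial.aeval ![u, v] :
      MvPolynomial (Fin 2) ℂ →ₐ[ℂ] K).range := by
    rw [← Algebra.adjoin_range_eq_range_aeval]
    congr 1
    ext z
    simp only [Set.mem_insert_iff, Set.mem_singleton_iff, Matrix.range_cons, Matrix.range_empty,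
      Set.union_empty, Set.mem_union]
  rw [h] at hx
  exact hx

theorem core_inj {ρ τ : K} (hind : AlgebraicIndependent ℂ ![ρ, τ])
    {A B : MvPolynomial (Fin 2) ℂ}
    (h : MvPolynomial.aeval ![ρ, τ] A = MvPolynomial.aeval ![ρ, τ] B) : A = B :=
  hind h

theorem core_ne {ρ τ : K} (hind : AlgebraicIndependent ℂ ![ρ, τ]) : ρ ≠ 0 ∧ τ ≠ 0 := by
  constructor
  · intro h
    have := core_inj hind (A := MvPolynomial.X 0) (B := 0) (by simp [h])
    exact MvPolynomial.X_ne_zero _ this
  · intro h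
    have := core_inj hind (A := MvPolynomial.X 1) (B := 0) (by simp [h])
    exact MvPolynomial.X_ne_zero _ this

theorem core_regAt_mul {u v : K} {l m : ℂ} {s t : K} (hs : RegAt u v l m s)
    (ht : RegAt u v l m t) : RegAt u v l m (s * t) := by
  obtain ⟨A, B, hB, h⟩ := hs
  obtain ⟨A', B', hB', h'⟩ := ht
  refine ⟨A * A', B * B', ?_, ?_⟩
  · rw [map_mul]
    exact mul_ne_zero hB hB'
  · rw [map_mul, map_mul, ← h, ← h']
    ring

theorem core_regAt_add {u v : K} {l m : ℂ} {s t : K} (hs : RegAt u v l m s)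
    (ht : RegAt u v l m t) : RegAt u v l m (s + t) := by
  obtain ⟨A, B, hB, h⟩ := hs
  obtain ⟨A', B', hB', h'⟩ := ht
  refine ⟨A * B' + A' * B, B * B', ?_, ?_⟩
  · rw [map_mul]
    exact mul_ne_zero hB hB'
  · rw [map_mul, map_add, map_mul, map_mul, ← h, ← h']
    ring

theorem core_regAt_algebraMap {u v : K} {l m : ℂ} (c : ℂ) :
    RegAt u v l m (algebraMap ℂ K c) :=
  ⟨MvPolynomial.C c, 1, by simp, by simp⟩

/-- C6. There is no base point free tuple on `ℙ¹ × ℙ¹` whose quotients generate the field of even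
functions and all of whose charts are smooth. -/
theorem core {ρ τ : K} (hind : AlgebraicIndependent ℂ ![ρ, τ])
    {J : Type} [Finite J] (y : J → K) (hy : BPFree ρ τ y)
    (hF : ∀ k, y k ≠ 0 → IntermediateField.adjoin ℂ (Set.range fun i => y i / y k) =
      IntermediateField.adjoin ℂ {ρ * τ, ρ / τ})
    (hsm : ∀ k, y k ≠ 0 →
      Algebra.Smooth ℂ (Algebra.adjoin ℂ (Set.range fun i => y i / y k))) : False := by
  obtain ⟨_⟩ := nonempty_fintype J
  obtain ⟨g, α, β, hN⟩ := exists_normalForm hind y hy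
  obtain ⟨hρ, hτ⟩ := core_ne hind
  obtain ⟨c, hc, hc1⟩ := hN.one ρ τ 0 0 (Or.inl ⟨rfl, rfl⟩) (Or.inl ⟨rfl, rfl⟩)
  have hm := hN.mem ρ τ 0 0 (Or.inl ⟨rfl, rfl⟩) (Or.inl ⟨rfl, rfl⟩)
  simp only [pow_zero, mul_one] at hc1 hm
  choose A hA using fun i => core_exists_poly (hm i)
  choose C hC using fun i => core_exists_poly (hc i)
  have hrel : ∑ i, C i * A i = 1 := by
    apply core_inj hind
    rw [map_sum, map_one, ← hc1]
    exact Finset.sum_congr rfl fun i _ => by rw [map_mul, hA, hC]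
  obtain ⟨k, hk⟩ : ∃ k, MvPolynomial.eval ![0, 0] (A k) ≠ 0 := by
    by_contra hcon
    push Not at hcon
    have := congrArg (MvPolynomial.eval ![(0 : ℂ), 0]) hrel
    rw [map_sum, map_one] at this
    simp only [map_mul, hcon, mul_zero, Finset.sum_const_zero] at this
    exact zero_ne_one this
  have hAk0 : A k ≠ 0 := fun h => hk (by rw [h, map_zero])
  have hykg : y k * g ≠ 0 := by
    rw [← hA k]
    intro h
    exact hAk0 (core_inj hind (by rw [h, map_zero]))
  have hyk : y k ≠ 0 := left_ne_zero_of_mul hykg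
  obtain ⟨hα, hβ⟩ := normalForm_pos hind hN k hyk (hF k hyk)
  have hpar := normalForm_parity hind hN (fun k hk i => by
    rw [← hF k hk]
    exact IntermediateField.subset_adjoin _ _ ⟨i, rfl⟩) k
  have hBadj := core_adjoin (Set.range fun i => y i / y k)
  have hmem1 : ρ * τ ∈ IntermediateField.adjoin ℂ {ρ * τ, ρ / τ} :=
    IntermediateField.subset_adjoin _ _ (by simp)
  have hmem2 : ρ / τ ∈ IntermediateField.adjoin ℂ {ρ * τ, ρ / τ} :=
    IntermediateField.subset_adjoin _ _ (by simp)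
  have hall : ∀ t, (t = ρ ^ 2 ∨ t = ρ * τ ∨ t = τ ^ 2) →
      t / (MvPolynomial.aeval ![ρ, τ] (A k)) ^ 2 ∈
        Algebra.adjoin ℂ (Set.range fun i => y i / y k) := by
    intro t ht
    rw [hA k]
    refine mem_of_isIntegral_of_smooth _ (hsm k hyk) _ ?_
      (normalForm_integral hN hα hβ k hyk hρ hτ t ht)
    rw [hBadj, hF k hyk]
    refine div_mem ?_ hpar
    rcases ht with rfl | rfl | rfl
    · have : ρ ^ 2 = (ρ * τ) * (ρ / τ) := by field_simp
      rw [this]
      exact mul_mem hmem1 hmem2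
    · exact hmem1
    · have : τ ^ 2 = (ρ * τ) / (ρ / τ) := by field_simp
      rw [this]
      exact div_mem hmem1 hmem2
  refine no_three hind (Algebra.adjoin ℂ (Set.range fun i => y i / y k)) (hsm k hyk)
    (by rw [hBadj, hF k hyk]) ?_ (A k) hk (hall _ (Or.inl rfl)) (hall _ (Or.inr (Or.inl rfl)))
    (hall _ (Or.inr (Or.inr rfl)))
  intro t ht
  induction ht using Algebra.adjoin_induction with
  | mem x hx =>
    obtain ⟨i, rfl⟩ := hx
    refine ⟨A i, A k, hk, ?_⟩
    rw [hA, hA]
    field_simp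
  | algebraMap r => exact core_regAt_algebraMap r
  | add x y _ _ hx hy => exact core_regAt_add hx hy
  | mul x y _ _ hx hy => exact core_regAt_mul hx hy

end

end Pool.Agent.AHM
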