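import Pool.Agent.AHM.Data

/-!
# Normal form of a base point free tuple on `ℙ¹ × ℙ¹`

`ρ, τ` are algebraically independent.  The four pairs `(u, v)` with `u ∈ {ρ, ρ⁻¹}`,
`v ∈ {τ, τ⁻¹}` are the coordinates of the four standard charts of `ℙ¹ × ℙ¹`.
-/

namespace Pool.Agent.AHM

noncomputable section

variable {K : Type} [Field K] [Algebra ℂ K]

/-- `(u, e)` is `(ρ, 0)` or `(ρ⁻¹, α)`. -/
def IsSide (ρ : K) (α : ℕ) (u : K) (e : ℕ) : Prop := (u = ρ ∧ e = 0) ∨ (u = ρ⁻¹ ∧ e = α)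

/-- The entries `g y i` are the dehomogenisations of bihomogeneous forms of bidegree `(α, β)`
without common zeros on `ℙ¹ × ℙ¹`. -/
structure IsNormalForm (ρ τ : K) {J : Type} [Fintype J] (y : J → K) (g : K) (α β : ℕ) :
    Prop where
  g_ne : g ≠ 0
  mem : ∀ (u v : K) (e f : ℕ), IsSide ρ α u e → IsSide τ β v f → ∀ i,
    y i * g * u ^ e * v ^ f ∈ Algebra.adjoin ℂ {u, v}
  one : ∀ (u v : K) (e f : ℕ), IsSide ρ α u e → IsSide τ β v f →
    ∃ c : J → K, (∀ i, c i ∈ Algebra.adjoin ℂ {u, v}) ∧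
      ∑ i, c i * (y i * g * u ^ e * v ^ f) = 1

/-- `t` is regular at the point `u = l, v = m` of the chart with coordinates `u, v`. -/
def RegAt (u v : K) (l m : ℂ) (t : K) : Prop :=
  ∃ A B : MvPolynomial (Fin 2) ℂ, MvPolynomial.eval ![l, m] B ≠ 0 ∧
    t * MvPolynomial.aeval ![u, v] B = MvPolynomial.aeval ![u, v] A

/-- Base point freeness of the tuple `y` at all points of the four charts. -/
def BPFree (ρ τ : K) {J : Type} (y : J → K) : Prop :=
  ∀ u v : K, (u = ρ ∨ u = ρ⁻¹) → (v = τ ∨ v = τ⁻¹) → ∀ l m : ℂ,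
    ∃ k, y k ≠ 0 ∧ ∀ i, RegAt u v l m (y i / y k)

end

end Pool.Agent.AHM
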