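import Pool.Agent.AHM.CoreDefs

namespace Pool.Agent.AHM

noncomputable section

open MvPolynomial

variable {K : Type} [Field K] [Algebra ℂ K]

/-- A tuple `y * g` of elements of `ℂ[u, v]` generating the unit ideal. -/
structure CoreNormalChart (u v : K) {J : Type} [Fintype J] (y : J → K) (g : K) : Prop where
  g_ne : g ≠ 0
  mem : ∀ i, y i * g ∈ Algebra.adjoin ℂ {u, v}
  one : ∃ c : J → K, (∀ i, c i ∈ Algebra.adjoin ℂ {u, v}) ∧ ∑ i, c i * (y i * g) = 1

theorem coreNormal_mem_iff (u v x : K) :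
    x ∈ Algebra.adjoin ℂ {u, v} ↔ ∃ P : MvPolynomial (Fin 2) ℂ, aeval ![u, v] P = x := by
  have h : Set.range ![u, v] = {u, v} := by
    simp [Matrix.range_cons, Matrix.range_empty, Set.pair_comm]
  rw [← h, Algebra.adjoin_range_eq_range_aeval]
  exact Iff.rfl

theorem CoreNormalChart.swap {u v : K} {J : Type} [Fintype J] {y : J → K} {g : K}
    (h : CoreNormalChart u v y g) : CoreNormalChart v u y g := by
  obtain ⟨h1, h2, h3⟩ := h
  rw [Set.pair_comm] at h2
  simp only [Set.pair_comm u v] at h3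
  exact ⟨h1, h2, h3⟩

theorem coreNormal_exists_chart {u v : K} (hind : AlgebraicIndependent ℂ ![u, v]) {J : Type}
    [Fintype J] (y : J → K)
    (hy : ∀ l m : ℂ, ∃ k, y k ≠ 0 ∧ ∀ i, RegAt u v l m (y i / y k)) :
    ∃ g : K, CoreNormalChart u v y g := by
  classical
  set φ : MvPolynomial (Fin 2) ℂ →ₐ[ℂ] K := aeval ![u, v] with hφdef
  have hφ : Function.Injective φ := hind
  have hφ0 : ∀ P, P ≠ 0 → φ P ≠ 0 := fun P hP h => hP (hφ (by rw [h, map_zero]))
  obtain ⟨k0, hk0, h0⟩ := hy 0 0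
  choose A B hB hAB using h0
  have hB0 : ∀ i, B i ≠ 0 := fun i h => hB i (by rw [h, map_zero])
  have hBprod : (∏ j, B j) ≠ 0 := Finset.prod_ne_zero_iff.2 fun i _ => hB0 i
  let P : J → MvPolynomial (Fin 2) ℂ := fun i => A i * ∏ j ∈ Finset.univ.erase i, B j
  have hP : ∀ i, y i / y k0 * φ (∏ j, B j) = φ (P i) := by
    intro i
    rw [← Finset.mul_prod_erase Finset.univ B (Finset.mem_univ i), map_mul, map_mul, ← mul_assoc,
      hAB]
  let _ : NormalizedGCDMonoid (MvPolynomial (Fin 2) ℂ) := Classical.arbitrary _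
  obtain ⟨Q, hQ, hQ1⟩ := Finset.extract_gcd P ⟨k0, Finset.mem_univ _⟩
  set D := Finset.univ.gcd P with hDdef
  have hPk0 : P k0 ≠ 0 := by
    intro h
    have := hP k0
    rw [h, map_zero, div_self hk0, one_mul] at this
    exact hφ0 _ hBprod this
  have hD : D ≠ 0 := by
    intro h
    apply hPk0
    rw [hQ k0 (Finset.mem_univ _), h, zero_mul]
  have hφD := hφ0 D hD
  have hφB := hφ0 _ hBprod
  set g : K := φ (∏ j, B j) / y k0 / φ D with hgdef
  have hg0 : g ≠ 0 := div_ne_zero (div_ne_zero hφB hk0) hφD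
  have hg : ∀ i, y i * g = φ (Q i) := by
    intro i
    have h1 := hP i
    rw [hQ i (Finset.mem_univ _), map_mul] at h1
    rw [hgdef]
    field_simp
    field_simp at h1
    linear_combination h1
  have hspan : Ideal.span (Set.range Q) = ⊤ := by
    by_contra hne
    obtain ⟨I, hI, hle⟩ := Ideal.exists_le_maximal _ hne
    obtain ⟨x, hx⟩ := MvPolynomial.isMaximal_iff_eq_vanishingIdeal_singleton.1 hI
    have hQx : ∀ i, MvPolynomial.eval x (Q i) = 0 := by
      intro i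
      have h1 : Q i ∈ I := hle (Ideal.subset_span ⟨i, rfl⟩)
      rw [hx] at h1
      simpa [MvPolynomial.mem_vanishingIdeal_iff] using h1
    obtain ⟨k, hk, hreg⟩ := hy (x 0) (x 1)
    choose A' B' hB' hAB' using hreg
    have hx' : ![x 0, x 1] = x := by
      funext i
      fin_cases i <;> rfl
    rw [hx'] at hB'
    have key : ∀ i, Q i * B' i = A' i * Q k := by
      intro i
      apply hφ
      have h1 : y i / y k * φ (B' i) = φ (A' i) := hAB' i
      rw [map_mul, map_mul, ← hg, ← hg, ← h1]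
      field_simp
    have hQk : Q k ≠ 0 := by
      intro h
      have := hg k
      rw [h, map_zero] at this
      exact (mul_ne_zero hk hg0) this
    obtain ⟨f, hf, w, hw⟩ := UniqueFactorizationMonoid.exists_prime_factors (Q k) hQk
    have h1 : MvPolynomial.eval x f.prod = 0 := by
      have h2 : MvPolynomial.eval x f.prod * MvPolynomial.eval x (w : MvPolynomial (Fin 2) ℂ) = 0 := by
        rw [← map_mul, hw, hQx]
      rcases mul_eq_zero.1 h2 with h3 | h3
      · exact h3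
      · exact absurd h3 ((w.isUnit.map (MvPolynomial.eval x)).ne_zero)
    rw [map_multiset_prod, Multiset.prod_eq_zero_iff] at h1
    obtain ⟨p, hp, hp0⟩ := Multiset.mem_map.1 h1
    have hpr := hf p hp
    have hpk : p ∣ Q k := by
      rw [← hw]
      exact (Multiset.dvd_prod hp).mul_right _
    have hdvd : ∀ i, p ∣ Q i := by
      intro i
      have h2 : p ∣ Q i * B' i := by
        rw [key i]
        exact hpk.mul_left _
      rcases hpr.dvd_or_dvd h2 with h | h
      · exact h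
      · exfalso
        obtain ⟨z, hz⟩ := h
        apply hB' i
        rw [hz, map_mul, hp0, zero_mul]
    have h2 : p ∣ 1 := by
      rw [← hQ1]
      exact Finset.dvd_gcd fun i _ => hdvd i
    exact hpr.not_isUnit (isUnit_of_dvd_one h2)
  obtain ⟨c, hc⟩ := (Ideal.mem_span_range_iff_exists_fun).1
    (show (1 : MvPolynomial (Fin 2) ℂ) ∈ Ideal.span (Set.range Q) by rw [hspan]; trivial)
  refine ⟨g, hg0, fun i => ?_, fun i => φ (c i), fun i => ?_, ?_⟩
  · exact (coreNormal_mem_iff u v _).2 ⟨Q i, (hg i).symm⟩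
  · exact (coreNormal_mem_iff u v _).2 ⟨c i, rfl⟩
  · have : ∑ i, φ (c i) * (y i * g) = φ (∑ i, c i * Q i) := by
      rw [map_sum]
      exact Finset.sum_congr rfl fun i _ => by rw [map_mul, hg]
    rw [this, hc, map_one]

theorem coreNormal_lau {u v : K} (hu : u ≠ 0) {x : K}
    (hx : x ∈ Algebra.adjoin ℂ {u, u⁻¹, v}) :
    ∃ (P : MvPolynomial (Fin 2) ℂ) (a : ℕ), x * u ^ a = aeval ![u, v] P := by
  induction hx using Algebra.adjoin_induction with
  | mem x hx =>
    rcases hx with rfl | rfl | rfl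
    · exact ⟨X 0, 0, by simp⟩
    · exact ⟨1, 1, by simp [hu]⟩
    · exact ⟨X 1, 0, by simp⟩
  | algebraMap r => exact ⟨C r, 0, by simp⟩
  | add x y _ _ ihx ihy =>
    obtain ⟨P, a, h⟩ := ihx
    obtain ⟨Q, b, h'⟩ := ihy
    refine ⟨P * X 0 ^ b + Q * X 0 ^ a, a + b, ?_⟩
    rw [map_add, map_mul, map_mul, ← h, ← h']
    simp only [map_pow, aeval_X, Matrix.cons_val_zero]
    ring
  | mul x y _ _ ihx ihy =>
    obtain ⟨P, a, h⟩ := ihx
    obtain ⟨Q, b, h'⟩ := ihy
    refine ⟨P * Q, a + b, ?_⟩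
    rw [map_mul, ← h, ← h']
    ring

theorem coreNormal_unit {u v : K} (hind : AlgebraicIndependent ℂ ![u, v]) (hu : u ≠ 0) {x : K}
    (hx0 : x ≠ 0) (hx : x ∈ Algebra.adjoin ℂ {u, u⁻¹, v})
    (hx' : x⁻¹ ∈ Algebra.adjoin ℂ {u, u⁻¹, v}) :
    ∃ (c : ℂ) (n : ℤ), c ≠ 0 ∧ x = algebraMap ℂ K c * u ^ n := by
  obtain ⟨P, a, h⟩ := coreNormal_lau hu hx
  obtain ⟨P', b, h'⟩ := coreNormal_lau hu hx'
  have hPP : P * P' = X 0 ^ (a + b) := by
    apply hind
    change aeval ![u, v] (P * P') = aeval ![u, v] (X 0 ^ (a + b))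
    rw [map_mul, ← h, ← h', map_pow, aeval_X, Matrix.cons_val_zero, pow_add]
    field_simp
  have hpr : Prime (X 0 : MvPolynomial (Fin 2) ℂ) := MvPolynomial.X_prime
  obtain ⟨i, -, w, hw⟩ := (dvd_prime_pow hpr _).1 (Dvd.intro _ hPP)
  obtain ⟨r, hr, hwr⟩ := isUnit_iff_eq_C_of_isReduced.1 w.isUnit
  have hr0 : algebraMap ℂ K r ≠ 0 := by
    simpa using hr.ne_zero
  have h1 : x * u ^ a * algebraMap ℂ K r = u ^ i := by
    have h2 := congrArg (aeval ![u, v]) hw
    rw [map_mul, ← h, hwr, map_pow, aeval_X, aeval_C] at h2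
    simpa using h2
  refine ⟨r⁻¹, (i : ℤ) - a, inv_ne_zero hr.ne_zero, ?_⟩
  rw [zpow_sub₀ hu, zpow_natCast, zpow_natCast, ← h1, map_inv₀]
  field_simp

theorem coreNormal_rev (P : MvPolynomial (Fin 2) ℂ) : ∃ (d : ℕ) (P' : MvPolynomial (Fin 2) ℂ),
    P'.degreeOf 0 ≤ d ∧ ∀ (F : Type) [Field F] [Algebra ℂ F] (u v : F), u ≠ 0 →
      aeval ![u⁻¹, v] P * u ^ d = aeval ![u, v] P' := by
  induction P using MvPolynomial.induction_on with
  | C a => exact ⟨0, C a, by simp [degreeOf_C], by intros; simp⟩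
  | add P Q ihP ihQ =>
    obtain ⟨d, P', h1, h2⟩ := ihP
    obtain ⟨e, Q', h3, h4⟩ := ihQ
    refine ⟨d + e, P' * X 0 ^ e + Q' * X 0 ^ d, ?_, ?_⟩
    · refine (degreeOf_add_le _ _ _).trans (max_le ?_ ?_)
      · refine (degreeOf_mul_le _ _ _).trans (add_le_add h1 ?_)
        exact (degreeOf_pow_le _ _ _).trans (by rw [degreeOf_X]; simp)
      · refine (degreeOf_mul_le _ _ _).trans ?_
        rw [add_comm d e]
        refine add_le_add h3 ?_
        exact (degreeOf_pow_le _ _ _).trans (by rw [degreeOf_X]; simp)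
    · intro F _ _ u v hu
      rw [map_add, map_add, map_mul, map_mul, ← h2 F u v hu, ← h4 F u v hu]
      simp only [map_pow, aeval_X, Matrix.cons_val_zero]
      ring
  | mul_X P i ih =>
    obtain ⟨d, P', h1, h2⟩ := ih
    fin_cases i
    · refine ⟨d + 1, P', h1.trans (Nat.le_succ d), ?_⟩
      intro F _ _ u v hu
      rw [← h2 F u v hu, map_mul]
      simp only [Fin.zero_eta, aeval_X, Matrix.cons_val_zero]
      rw [pow_succ, mul_assoc, mul_comm (u ^ d) u, ← mul_assoc u⁻¹, inv_mul_cancel₀ hu, one_mul]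
    · refine ⟨d, P' * X 1, ?_, ?_⟩
      · refine (degreeOf_mul_le _ _ _).trans ?_
        rw [degreeOf_X]
        simpa using h1
      · intro F _ _ u v hu
        rw [map_mul, map_mul, ← h2 F u v hu]
        simp only [Fin.mk_one, aeval_X, Matrix.cons_val_one]
        ring

theorem coreNormal_inv {u v : K} (hind : AlgebraicIndependent ℂ ![u, v]) :
    AlgebraicIndependent ℂ ![u⁻¹, v] := by
  have hu : u ≠ 0 := by simpa using hind.ne_zero 0
  rw [algebraicIndependent_iff]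
  intro P hP
  by_contra hne
  obtain ⟨d, P', -, h⟩ := coreNormal_rev P
  have h0 := h K u v hu
  rw [hP, zero_mul] at h0
  have hP' : P' = 0 := by
    apply hind
    change aeval ![u, v] P' = aeval ![u, v] 0
    rw [← h0, map_zero]
  have h1 : P * X 0 ≠ 0 := mul_ne_zero hne (X_ne_zero 0)
  obtain ⟨x, hx⟩ : ∃ x : Fin 2 → ℂ, eval x (P * X 0) ≠ 0 := by
    by_contra hcon
    push Not at hcon
    exact h1 (MvPolynomial.funext fun x => by rw [hcon x, map_zero])
  rw [map_mul, eval_X] at hx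
  have hx0 : x 0 ≠ 0 := right_ne_zero_of_mul hx
  have h2 := h ℂ (x 0)⁻¹ (x 1) (inv_ne_zero hx0)
  have hx' : ![x 0, x 1] = x := by
    funext i
    fin_cases i <;> rfl
  rw [hP', inv_inv, map_zero, hx'] at h2
  rcases mul_eq_zero.1 h2 with h3 | h3
  · exact left_ne_zero_of_mul hx (by simpa [MvPolynomial.aeval_eq_eval] using h3)
  · exact (pow_ne_zero _ (inv_ne_zero hx0)) h3

theorem coreNormal_swap {u v : K} (hind : AlgebraicIndependent ℂ ![u, v]) :
    AlgebraicIndependent ℂ ![v, u] := by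
  have h := hind.comp ![1, 0] (by decide)
  convert h using 1
  funext i
  fin_cases i <;> rfl

theorem coreNormal_compare {u v : K} (hind : AlgebraicIndependent ℂ ![u, v]) {J : Type}
    [Fintype J] {y : J → K} {g g' : K} (h : CoreNormalChart u v y g)
    (h' : CoreNormalChart u⁻¹ v y g') :
    ∃ (c : ℂ) (n : ℕ), c ≠ 0 ∧ g' = algebraMap ℂ K c * u⁻¹ ^ n * g := by
  have hu : u ≠ 0 := by simpa using hind.ne_zero 0
  have hsub1 : Algebra.adjoin ℂ {u, v} ≤ Algebra.adjoin ℂ {u, u⁻¹, v} :=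
    Algebra.adjoin_mono (by
      rintro x (rfl | rfl)
      · simp
      · simp)
  have hsub2 : Algebra.adjoin ℂ {u⁻¹, v} ≤ Algebra.adjoin ℂ {u, u⁻¹, v} :=
    Algebra.adjoin_mono (by
      rintro x (rfl | rfl)
      · simp
      · simp)
  obtain ⟨c, hc, hc1⟩ := h.one
  obtain ⟨c', hc', hc1'⟩ := h'.one
  have e1 : g' / g = ∑ i, c i * (y i * g') := by
    have h2 : (∑ i, c i * (y i * g)) * (g' / g) = ∑ i, c i * (y i * g') := by
      rw [Finset.sum_mul]
      refine Finset.sum_congr rfl fun i _ => ?_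
      have := h.g_ne
      field_simp
    rw [← h2, hc1, one_mul]
  have e2 : (g' / g)⁻¹ = ∑ i, c' i * (y i * g) := by
    have h2 : (∑ i, c' i * (y i * g')) * (g' / g)⁻¹ = ∑ i, c' i * (y i * g) := by
      rw [Finset.sum_mul]
      refine Finset.sum_congr rfl fun i _ => ?_
      have := h.g_ne
      have := h'.g_ne
      field_simp
    rw [← h2, hc1', one_mul]
  obtain ⟨a, n, ha, hn⟩ := coreNormal_unit hind hu (div_ne_zero h'.g_ne h.g_ne)
    (by rw [e1]; exact Subalgebra.sum_mem _ fun i _ =>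
          Subalgebra.mul_mem _ (hsub1 (hc i)) (hsub2 (h'.mem i)))
    (by rw [e2]; exact Subalgebra.sum_mem _ fun i _ =>
          Subalgebra.mul_mem _ (hsub2 (hc' i)) (hsub1 (h.mem i)))
  have hg' : g' = algebraMap ℂ K a * u ^ n * g := by
    rw [← hn, div_mul_cancel₀ _ h.g_ne]
  have hn0 : n ≤ 0 := by
    by_contra hcon
    obtain ⟨m, rfl⟩ : ∃ m : ℕ, n = m + 1 := ⟨(n - 1).toNat, by omega⟩
    obtain ⟨i, hi⟩ : ∃ i, y i * g ≠ 0 := by
      by_contra hcon2
      push Not at hcon2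
      rw [Finset.sum_eq_zero (fun i _ => by rw [hcon2 i, mul_zero])] at hc1
      exact zero_ne_one hc1
    obtain ⟨Q, hQ⟩ := (coreNormal_mem_iff _ _ _).1 (h.mem i)
    obtain ⟨P, hP⟩ := (coreNormal_mem_iff _ _ _).1 (h'.mem i)
    obtain ⟨d, P', hd, hP'⟩ := coreNormal_rev P
    have h1 := hP' K u v hu
    rw [hP, hg'] at h1
    have h2 : P' = (C a * Q) * X 0 ^ (m + 1 + d) := by
      apply hind
      change aeval ![u, v] P' = aeval ![u, v] _
      rw [← h1, map_mul, map_mul, hQ, aeval_C, map_pow, aeval_X, Matrix.cons_val_zero]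
      have : u ^ ((m : ℤ) + 1) = u ^ (m + 1) := by
        rw [← zpow_natCast]; norm_cast
      rw [this]
      ring
    have hQ0 : Q ≠ 0 := by
      intro h0
      rw [h0, map_zero] at hQ
      exact hi hQ.symm
    have hCQ : C a * Q ≠ 0 := mul_ne_zero (by simpa using ha) hQ0
    have h3 := degreeOf_mul_X_self_pow_eq_add_of_ne_zero (p := C a * Q) (0 : Fin 2) (m + 1 + d) hCQ
    rw [← h2] at h3
    omega
  refine ⟨a, (-n).toNat, ha, ?_⟩
  rw [hg']
  congr 2
  rw [inv_pow, ← zpow_natCast, ← zpow_neg]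
  congr 1
  omega

/-- C1. Existence of the normal form: multiply `y` by `g` so that the entries are polynomials in
`ρ, τ` without common factor; `α, β` are the maximal degrees in `ρ` and in `τ`. -/
theorem exists_normalForm {ρ τ : K} (hind : AlgebraicIndependent ℂ ![ρ, τ])
    {J : Type} [Fintype J] (y : J → K) (hy : BPFree ρ τ y) :
    ∃ (g : K) (α β : ℕ), IsNormalForm ρ τ y g α β := by
  have i1 := hind
  have i2 := coreNormal_inv hind
  have i3 : AlgebraicIndependent ℂ ![τ, ρ] := coreNormal_swap i1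
  have i4 : AlgebraicIndependent ℂ ![τ⁻¹, ρ] := coreNormal_inv i3
  have i5 : AlgebraicIndependent ℂ ![ρ, τ⁻¹] := coreNormal_swap i4
  have i6 : AlgebraicIndependent ℂ ![ρ⁻¹, τ⁻¹] := coreNormal_inv i5
  have i7 : AlgebraicIndependent ℂ ![τ, ρ⁻¹] := coreNormal_swap i2
  obtain ⟨g1, c1⟩ := coreNormal_exists_chart i1 y (hy ρ τ (Or.inl rfl) (Or.inl rfl))
  obtain ⟨g2, c2⟩ := coreNormal_exists_chart i2 y (hy ρ⁻¹ τ (Or.inr rfl) (Or.inl rfl))
  obtain ⟨g3, c3⟩ := coreNormal_exists_chart i5 y (hy ρ τ⁻¹ (Or.inl rfl) (Or.inr rfl))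
  obtain ⟨g4, c4⟩ := coreNormal_exists_chart i6 y (hy ρ⁻¹ τ⁻¹ (Or.inr rfl) (Or.inr rfl))
  obtain ⟨a2, α, ha2, e2⟩ := coreNormal_compare i1 c1 c2
  obtain ⟨a3, β, ha3, e3⟩ := coreNormal_compare i3 c1.swap c3.swap
  obtain ⟨a4, β', ha4, e4⟩ := coreNormal_compare i7 c2.swap c4.swap
  obtain ⟨a5, α', ha5, e5⟩ := coreNormal_compare i5 c3 c4
  have hβ : β' = β := by
    have h1 : algebraMap ℂ K (a4 * a2) * (ρ⁻¹ ^ α * τ⁻¹ ^ β') =
        algebraMap ℂ K (a5 * a3) * (ρ⁻¹ ^ α' * τ⁻¹ ^ β) := by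
      apply mul_right_cancel₀ c1.g_ne
      rw [map_mul, map_mul]
      calc algebraMap ℂ K a4 * algebraMap ℂ K a2 * (ρ⁻¹ ^ α * τ⁻¹ ^ β') * g1 = g4 := by
            rw [e4, e2]; ring
        _ = _ := by rw [e5, e3]; ring
    have h2 : C (a4 * a2) * X 0 ^ α * X 1 ^ β' =
        (C (a5 * a3) * X 0 ^ α' * X 1 ^ β : MvPolynomial (Fin 2) ℂ) := by
      apply i6
      change aeval ![ρ⁻¹, τ⁻¹] _ = aeval ![ρ⁻¹, τ⁻¹] _
      simp only [map_mul, map_pow, aeval_C, aeval_X, Matrix.cons_val_zero, Matrix.cons_val_one]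
      simp only [map_mul] at h1
      linear_combination h1
    have h3 : ∀ (a : ℂ) (n m : ℕ), a ≠ 0 →
        (C a * X 0 ^ n * X 1 ^ m : MvPolynomial (Fin 2) ℂ).degreeOf 1 = m := by
      intro a n m ha
      rw [degreeOf_mul_X_self_pow_eq_add_of_ne_zero (1 : Fin 2) m
        (mul_ne_zero (by simpa using ha) (pow_ne_zero _ (X_ne_zero 0))),
        degreeOf_mul_X_pow_of_ne n (by decide), degreeOf_C, zero_add]
    have h4 := congrArg (degreeOf 1) h2
    rw [h3 _ _ _ (mul_ne_zero ha4 ha2), h3 _ _ _ (mul_ne_zero ha5 ha3)] at h4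
    exact h4
  subst hβ
  have key : ∀ (u v : K) (e f : ℕ), IsSide ρ α u e → IsSide τ β' v f →
      ∃ a : ℂ, a ≠ 0 ∧ CoreNormalChart u v y (algebraMap ℂ K a * (g1 * u ^ e * v ^ f)) := by
    rintro u v e f (⟨rfl, rfl⟩ | ⟨rfl, rfl⟩) (⟨rfl, rfl⟩ | ⟨rfl, rfl⟩)
    · exact ⟨1, one_ne_zero, by simpa using c1⟩
    · refine ⟨a3, ha3, ?_⟩
      convert c3 using 1
      rw [e3]; ring
    · refine ⟨a2, ha2, ?_⟩
      convert c2 using 1
      rw [e2]; ring
    · refine ⟨a4 * a2, mul_ne_zero ha4 ha2, ?_⟩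
      convert c4 using 1
      rw [e4, e2, map_mul]; ring
  refine ⟨g1, α, β', c1.g_ne, ?_, ?_⟩
  · intro u v e f he hf i
    obtain ⟨a, ha, hc⟩ := key u v e f he hf
    have h1 := Subalgebra.mul_mem _ (Subalgebra.algebraMap_mem (Algebra.adjoin ℂ {u, v}) a⁻¹)
      (hc.mem i)
    have ha' : algebraMap ℂ K a ≠ 0 := by simpa using ha
    have h2 : algebraMap ℂ K a⁻¹ * (y i * (algebraMap ℂ K a * (g1 * u ^ e * v ^ f))) =
        y i * g1 * u ^ e * v ^ f := by
      rw [map_inv₀]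
      field_simp
    rwa [h2] at h1
  · intro u v e f he hf
    obtain ⟨a, ha, hc⟩ := key u v e f he hf
    obtain ⟨c, hc1, hc2⟩ := hc.one
    refine ⟨fun i => algebraMap ℂ K a * c i, fun i =>
      Subalgebra.mul_mem _ (Subalgebra.algebraMap_mem _ a) (hc1 i), ?_⟩
    rw [← hc2]
    refine Finset.sum_congr rfl fun i _ => ?_
    ring

end

end Pool.Agent.AHM
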