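import Pool.Agent.AHM.Data

namespace Pool.Agent.AHM

noncomputable section

variable {K : Type} [Field K] [Algebra ℂ K] {L : Type} [Field L] [Algebra ℂ L]

open MvPolynomial in
/-- The polynomial `X₀ (1 + X₁²) - 2 X₁ (1 + X₀²)` in four variables. -/
def curvePoly : MvPolynomial (Fin 4) ℂ :=
  X 0 * (1 + X 1 ^ 2) - 2 * X 1 * (1 + X 0 ^ 2)

open MvPolynomial in
theorem curvePoly_ufd_unit (u v : ℂ) (hv : v ≠ 0)
    (h : (X 0 : MvPolynomial (Fin 3) ℂ) * ((X 0 * C u) ^ 2 + (C v) ^ 2) +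
      2 * (X 0 * C u) * C v * (1 + X 0 ^ 2) = 0) : False := by
  have h1 := congrArg (MvPolynomial.eval ![1, 0, 0]) h
  have h2 := congrArg (MvPolynomial.eval ![2, 0, 0]) h
  simp only [map_add, map_mul, map_pow, map_one, map_ofNat, eval_X, eval_C, map_zero,
    Matrix.cons_val_zero] at h1 h2
  have h3 : u * (u + 2 * v) = 0 := by linear_combination (1 / 6) * h2 - (1 / 3) * h1
  rcases mul_eq_zero.1 h3 with h4 | h4
  · subst h4
    apply hv
    have : v ^ 2 = 0 := by linear_combination h1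
    exact pow_eq_zero_iff (two_ne_zero) |>.1 this
  · have h5 : u = -2 * v := by linear_combination h4
    subst h5
    apply hv
    have : v ^ 2 = 0 := by linear_combination (-1 / 3) * h1
    exact pow_eq_zero_iff (two_ne_zero) |>.1 this

open MvPolynomial in
theorem curvePoly_ufd_half (A B : MvPolynomial (Fin 3) ℂ) (hrel : IsRelPrime A B)
    (h : X 0 * (A ^ 2 + B ^ 2) + 2 * A * B * (1 + X 0 ^ 2) = 0) (hX : X 0 ∣ A) : False := by
  have hA : A ∣ X 0 := by
    have h1 : A ∣ X 0 * B ^ 2 := ⟨-(X 0 * A + 2 * B * (1 + X 0 ^ 2)), by linear_combination h⟩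
    exact (hrel.pow_right (n := 2)).dvd_of_dvd_mul_right h1
  have hB : B ∣ X 0 := by
    have h1 : B ∣ X 0 * A ^ 2 := ⟨-(X 0 * B + 2 * A * (1 + X 0 ^ 2)), by linear_combination h⟩
    exact (hrel.symm.pow_right (n := 2)).dvd_of_dvd_mul_right h1
  obtain ⟨U, rfl⟩ := hX
  have hX0 : (X 0 : MvPolynomial (Fin 3) ℂ) ≠ 0 := X_ne_zero 0
  have hU : IsUnit U := by
    obtain ⟨W, hW⟩ := hA
    refine IsUnit.of_mul_eq_one W ?_
    apply mul_left_cancel₀ hX0
    linear_combination -hW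
  have hBu : IsUnit B := hrel (hB.trans (Dvd.intro _ rfl)) dvd_rfl
  rw [isUnit_iff_eq_C_of_isReduced] at hU hBu
  obtain ⟨u, hu, rfl⟩ := hU
  obtain ⟨v, hv, rfl⟩ := hBu
  exact curvePoly_ufd_unit u v hv.ne_zero h

open MvPolynomial in
theorem curvePoly_ufd (A B : MvPolynomial (Fin 3) ℂ)
    (h : X 0 * (A ^ 2 + B ^ 2) + 2 * A * B * (1 + X 0 ^ 2) = 0) : A = 0 ∧ B = 0 := by
  have hX0 : (X 0 : MvPolynomial (Fin 3) ℂ) ≠ 0 := X_ne_zero 0
  by_cases hA : A = 0
  · subst hA
    refine ⟨rfl, ?_⟩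
    have h1 : X 0 * B ^ 2 = 0 := by linear_combination h
    rcases mul_eq_zero.1 h1 with h2 | h2
    · exact absurd h2 hX0
    · exact pow_eq_zero_iff (two_ne_zero) |>.1 h2
  exfalso
  obtain ⟨A', B', c, hrel, rfl, rfl⟩ := UniqueFactorizationMonoid.exists_reduced_factors A hA B
  have hc : c ≠ 0 := left_ne_zero_of_mul hA
  have h' : X 0 * (A' ^ 2 + B' ^ 2) + 2 * A' * B' * (1 + X 0 ^ 2) = 0 := by
    have h1 : c ^ 2 * (X 0 * (A' ^ 2 + B' ^ 2) + 2 * A' * B' * (1 + X 0 ^ 2)) = 0 := by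
      linear_combination h
    rcases mul_eq_zero.1 h1 with h2 | h2
    · exact absurd (pow_eq_zero_iff (two_ne_zero) |>.1 h2) hc
    · exact h2
  have hp : Prime (X 0 : MvPolynomial (Fin 3) ℂ) := X_prime
  have hdvd : X 0 ∣ 2 * A' * B' * (1 + X 0 ^ 2) :=
    ⟨-(A' ^ 2 + B' ^ 2), by linear_combination h'⟩
  rcases hp.dvd_or_dvd hdvd with h1 | h1
  · rcases hp.dvd_or_dvd h1 with h2 | h2
    · rcases hp.dvd_or_dvd h2 with h3 | h3
      · obtain ⟨W, hW⟩ := h3
        have := congrArg (MvPolynomial.eval (0 : Fin 3 → ℂ)) hW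
        rw [map_ofNat, map_mul, MvPolynomial.eval_X, Pi.zero_apply, zero_mul] at this
        exact two_ne_zero this
      · exact curvePoly_ufd_half A' B' hrel h' h3
    · refine curvePoly_ufd_half B' A' hrel.symm ?_ h2
      linear_combination h'
  · obtain ⟨W, hW⟩ := h1
    have := congrArg (MvPolynomial.eval (0 : Fin 3 → ℂ)) hW
    simp at this

open MvPolynomial in
/-- The embedding of the polynomials in `X₀, X₂, X₃`. -/
def curveEmb : MvPolynomial (Fin 3) ℂ →ₐ[ℂ] MvPolynomial (Fin 4) ℂ :=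
  MvPolynomial.aeval ![X 0, X 2, X 3]

theorem aeval_curveEmb (d : Quad K) (A : MvPolynomial (Fin 3) ℂ) :
    MvPolynomial.aeval ![d.a, d.b, d.r, d.s] (curveEmb A) =
      MvPolynomial.aeval ![d.a, d.r, d.s] A := by
  have h : (MvPolynomial.aeval ![d.a, d.b, d.r, d.s]).comp curveEmb =
      (MvPolynomial.aeval ![d.a, d.r, d.s] : MvPolynomial (Fin 3) ℂ →ₐ[ℂ] K) := by
    apply MvPolynomial.algHom_ext
    intro i
    fin_cases i <;> simp [curveEmb]
  exact congrArg (fun f => f A) h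

/-- `1, b` are linearly independent over `ℂ[a, r, s]`. -/
theorem aeval_lin_indep {d : Quad K} (hd : d.IsData) (A B : MvPolynomial (Fin 3) ℂ)
    (h : MvPolynomial.aeval ![d.a, d.r, d.s] A + MvPolynomial.aeval ![d.a, d.r, d.s] B * d.b = 0) :
    A = 0 ∧ B = 0 := by
  apply curvePoly_ufd
  apply hd.ind
  have ha : MvPolynomial.aeval ![d.a, d.r, d.s] (MvPolynomial.X 0 : MvPolynomial (Fin 3) ℂ) =
      d.a := by simp
  simp only [map_add, map_mul, map_pow, map_one, map_ofNat, ha, map_zero]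
  generalize MvPolynomial.aeval ![d.a, d.r, d.s] A = p at h
  generalize MvPolynomial.aeval ![d.a, d.r, d.s] B = q at h
  have h1 := hd.eq
  have hp : p = - (q * d.b) := by linear_combination h
  rw [hp]
  linear_combination q ^ 2 * h1

open MvPolynomial in
/-- Pseudo-division by `curvePoly` with respect to `X₁`. -/
theorem curvePoly_division (A : MvPolynomial (Fin 4) ℂ) :
    ∃ (N : ℕ) (Q : MvPolynomial (Fin 4) ℂ) (R0 R1 : MvPolynomial (Fin 3) ℂ),
      X 0 ^ N * A = Q * curvePoly + curveEmb R0 + curveEmb R1 * X 1 := by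
  have hX0 : curveEmb (X 0) = X 0 := by simp [curveEmb]
  have hX1 : curveEmb (X 1) = X 2 := by simp [curveEmb]
  have hX2 : curveEmb (X 2) = X 3 := by simp [curveEmb]
  induction A using MvPolynomial.induction_on with
  | C c =>
    refine ⟨0, 0, C c, 0, ?_⟩
    have : curveEmb (C c) = C c := by
      rw [← MvPolynomial.algebraMap_eq, AlgHom.commutes]
      rfl
    rw [this, map_zero]
    ring
  | add A B hA hB =>
    obtain ⟨N, Q, R0, R1, h1⟩ := hA
    obtain ⟨N', Q', R0', R1', h2⟩ := hB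
    refine ⟨N + N', X 0 ^ N' * Q + X 0 ^ N * Q', X 0 ^ N' * R0 + X 0 ^ N * R0',
      X 0 ^ N' * R1 + X 0 ^ N * R1', ?_⟩
    simp only [map_add, map_mul, map_pow, hX0]
    rw [pow_add]
    linear_combination X 0 ^ N' * h1 + X 0 ^ N * h2
  | mul_X A i hA =>
    obtain ⟨N, Q, R0, R1, h1⟩ := hA
    fin_cases i
    · refine ⟨N, Q * X 0, R0 * X 0, R1 * X 0, ?_⟩
      simp only [map_mul, hX0]
      show X 0 ^ N * (A * X 0) = _
      linear_combination X 0 * h1
    · refine ⟨N + 1, X 0 * Q * X 1 + curveEmb R1, - (X 0 * R1),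
        X 0 * R0 + 2 * (1 + X 0 ^ 2) * R1, ?_⟩
      simp only [map_add, map_mul, map_pow, map_neg, map_one, map_ofNat, hX0]
      show X 0 ^ (N + 1) * (A * X 1) = _
      rw [pow_succ]
      have hc : curvePoly = X 0 * (1 + X 1 ^ 2) - 2 * X 1 * (1 + X 0 ^ 2) := rfl
      linear_combination X 0 * X 1 * h1 - curveEmb R1 * hc
    · refine ⟨N, Q * X 2, R0 * X 1, R1 * X 1, ?_⟩
      simp only [map_mul, hX1]
      show X 0 ^ N * (A * X 2) = _
      linear_combination X 2 * h1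
    · refine ⟨N, Q * X 3, R0 * X 2, R1 * X 2, ?_⟩
      simp only [map_mul, hX2]
      show X 0 ^ N * (A * X 3) = _
      linear_combination X 3 * h1

open MvPolynomial in
/-- `X₀`, `X₂`, `X₃` are coprime to `curvePoly`. -/
theorem curvePoly_dvd_of_X_mul {i : Fin 4} (hi : i ≠ 1) {A : MvPolynomial (Fin 4) ℂ} (N : ℕ)
    (h : curvePoly ∣ X i ^ N * A) : curvePoly ∣ A := by
  have hp : Prime (X i : MvPolynomial (Fin 4) ℂ) := X_prime
  have hn : ¬ (X i : MvPolynomial (Fin 4) ℂ) ∣ curvePoly := by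
    rintro ⟨W, hW⟩
    have h1 := congrArg (MvPolynomial.eval (fun j : Fin 4 => if j = 1 then (1 : ℂ) else 0)) hW
    simp [curvePoly, hi] at h1
  induction N with
  | zero => simpa using h
  | succ N ih =>
    obtain ⟨Q, hQ⟩ := h
    have h1 : X i ∣ curvePoly * Q := ⟨X i ^ N * A, by rw [← hQ, pow_succ]; ring⟩
    rcases hp.dvd_or_dvd h1 with h2 | ⟨Q', rfl⟩
    · exact absurd h2 hn
    · refine ih ⟨Q', ?_⟩
      apply mul_left_cancel₀ (X_ne_zero i : (X i : MvPolynomial (Fin 4) ℂ) ≠ 0)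
      rw [pow_succ] at hQ
      linear_combination hQ

/-- A0. The relations between `a, b, r, s` are the multiples of `curvePoly`
(`curvePoly` is irreducible: as a quadratic polynomial in `X₁` its discriminant is
`4 (X₀² + X₀ + 1) (X₀² - X₀ + 1)`, not a square). -/
theorem aeval_eq_zero_iff {d : Quad K} (hd : d.IsData) (A : MvPolynomial (Fin 4) ℂ) :
    MvPolynomial.aeval ![d.a, d.b, d.r, d.s] A = 0 ↔ curvePoly ∣ A := by
  have hc : MvPolynomial.aeval ![d.a, d.b, d.r, d.s] curvePoly = 0 := by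
    simp only [curvePoly, map_sub, map_add, map_mul, map_pow, map_one, map_ofNat,
      MvPolynomial.aeval_X]
    have := hd.eq
    simp
    linear_combination this
  constructor
  · intro h
    obtain ⟨N, Q, R0, R1, h1⟩ := curvePoly_division A
    have h2 := congrArg (MvPolynomial.aeval ![d.a, d.b, d.r, d.s]) h1
    simp only [map_add, map_mul, map_pow, h, hc, aeval_curveEmb] at h2
    have hb : MvPolynomial.aeval ![d.a, d.b, d.r, d.s]
        (MvPolynomial.X 1 : MvPolynomial (Fin 4) ℂ) = d.b := by simp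
    rw [hb, mul_zero, mul_zero, zero_add] at h2
    obtain ⟨h3, h4⟩ := aeval_lin_indep hd R0 R1 h2.symm
    rw [h3, h4, map_zero, zero_mul, add_zero, add_zero] at h1
    exact curvePoly_dvd_of_X_mul (i := 0) (by decide) N ⟨Q, by rw [h1, mul_comm]⟩
  · rintro ⟨B, rfl⟩
    rw [map_mul, hc, zero_mul]

end

end Pool.Agent.AHM
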