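import Mathlib

/-!
# The function fields of the example

`Quad K`: four elements `a, b, r, s` of a field `K`; for the example `a, b` are the coordinates of
the elliptic curve `a (1 + b²) = 2 b (1 + a²)` and `r, s` are fibre coordinates.
`Pair F`: two elements `p, q` of a field `F`; for the example `p = r s b / a`, `q = r / s`.
-/

namespace Pool.Agent.AHM

noncomputable section

variable {K : Type} [Field K] [Algebra ℂ K]

/-- Four elements of `K`. -/
@[ext] structure Quad (K : Type) where
  a : K
  b : K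
  r : K
  s : K

/-- Two elements of `K`. -/
@[ext] structure Pair (K : Type) where
  p : K
  q : K

namespace Quad

/-- The defining conditions of the function field of the example. -/
structure IsData (d : Quad K) : Prop where
  eq : d.a * (1 + d.b ^ 2) = 2 * d.b * (1 + d.a ^ 2)
  ind : AlgebraicIndependent ℂ ![d.a, d.r, d.s]
  gen : IntermediateField.adjoin ℂ ({d.a, d.b, d.r, d.s} : Set K) = ⊤

/-- `κ = a / b`. -/
def kap (d : Quad K) : K := d.a / d.b

/-- The functions `p = r s / κ`, `q = r / s`. -/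
def pair (d : Quad K) : Pair K := ⟨d.r * d.s / d.kap, d.r / d.s⟩

def inva (d : Quad K) : Quad K := ⟨d.a⁻¹, d.b, d.r / d.a, d.s / d.a⟩
def invb (d : Quad K) : Quad K := ⟨d.a, d.b⁻¹, d.r * d.b, d.s * d.b⟩
def invr (d : Quad K) : Quad K := ⟨d.a, d.b, d.kap / d.r, d.s⟩
def invs (d : Quad K) : Quad K := ⟨d.a, d.b, d.r, d.kap / d.s⟩
def swap (d : Quad K) : Quad K := ⟨d.a, d.b, d.s, d.r⟩

/-- The quadruple `(a, b, r, s / r)`. -/
def blow (d : Quad K) : Quad K := ⟨d.a, d.b, d.r, d.s / d.r⟩

/-- The 32 transformed quadruples. -/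
def tw (i j k l m : Bool) (d : Quad K) : Quad K :=
  let d1 := if i then d.inva else d
  let d2 := if j then d1.invb else d1
  let d3 := if k then d2.invr else d2
  let d4 := if l then d3.invs else d3
  if m then d4.swap else d4

/-- The ring `ℂ[a, b, r, s]`. -/
def chartX (d : Quad K) : Subalgebra ℂ K := Algebra.adjoin ℂ {d.a, d.b, d.r, d.s}

/-- The ring `ℂ[a, b, r, s / r]`. -/
def chartG (d : Quad K) : Subalgebra ℂ K := d.blow.chartX

end Quad

namespace Pair

/-- `p, q` are algebraically independent and generate the field. -/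
structure IsPair (P : Pair K) : Prop where
  ind : AlgebraicIndependent ℂ ![P.p, P.q]
  gen : IntermediateField.adjoin ℂ ({P.p, P.q} : Set K) = ⊤

def invr (P : Pair K) : Pair K := ⟨P.q⁻¹, P.p⁻¹⟩
def invs (P : Pair K) : Pair K := ⟨P.q, P.p⟩
def swap (P : Pair K) : Pair K := ⟨P.p, P.q⁻¹⟩

/-- The 8 transformed pairs. -/
def tw (k l m : Bool) (P : Pair K) : Pair K :=
  let P1 := if k then P.invr else P
  let P2 := if l then P1.invs else P1
  if m then P2.swap else P2

/-- The ring `ℂ[p q, 1 / q]`. -/
def chartY (P : Pair K) : Subalgebra ℂ K := Algebra.adjoin ℂ {P.p * P.q, P.q⁻¹}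

end Pair

/-- Image of a quadruple under a map. -/
def Quad.map {K L : Type} (σ : K → L) (d : Quad K) : Quad L := ⟨σ d.a, σ d.b, σ d.r, σ d.s⟩

/-- Image of a pair under a map. -/
def Pair.map {K L : Type} (σ : K → L) (P : Pair K) : Pair L := ⟨σ P.p, σ P.q⟩

section Family

variable {T ι : Type}

/-- The subalgebra generated by the quotients `x t i / x t (k t)`. -/
def famChart (x : T → ι → K) (k : T → ι) : Subalgebra ℂ K :=
  Algebra.adjoin ℂ (Set.range fun ti : T × ι => x ti.1 ti.2 / x ti.1 (k ti.1))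

/-- For each `t`, one entry of the tuple `x t` divides all the others in `R`. -/
def Dom (R : Subalgebra ℂ K) (x : T → ι → K) : Prop := ∀ t, ∃ k, ∀ i, x t i / x t k ∈ R

/-- Every element of `O` is a quotient of elements of `R`, with denominator a unit of `O`. -/
def IsLocOf (O R : Subalgebra ℂ K) : Prop :=
  ∀ f ∈ O, ∃ u ∈ R, ∃ v ∈ R, v ≠ 0 ∧ v⁻¹ ∈ O ∧ f = u / v

end Family

/-- The family of tuples defining the projective model `X`. -/
def famX (d : Quad K) : Fin 4 → Fin 4 → K :=
  ![![1, d.a, 1, d.a], ![1, d.b, 1, d.b], ![1, d.a, d.r, d.b * d.r], ![1, d.a, d.s, d.b * d.s]]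

/-- The family of tuples defining the projective model `Y`. -/
def famY (P : Pair K) : Fin 4 → Fin 4 → K :=
  ![![1, P.p, 1, P.p], ![1, P.q, 1, P.q], ![1, P.p * P.q, 1, P.p * P.q],
    ![1, P.p / P.q, 1, P.p / P.q]]

/-- The family of tuples defining the projective model `Γ`. -/
def famG (d : Quad K) : Fin 4 ⊕ Fin 4 → Fin 4 → K := Sum.elim (famX d) (famY d.pair)

end

end Pool.Agent.AHM
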