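import Pool.Agent.AHM.Base

/-!
# Definitions used in the proof

Differential forms on the function field, local equations of their divisors and multiplicities of
relative canonical divisors.
-/

open CategoryTheory AlgebraicGeometry Order

namespace Pool.Agent.AHM

noncomputable section

/-- The stalks of a complex variety are `ℂ`-algebras, through the structure morphism. -/
instance stalkAlgebra (X : SmoothProjVar) (x : X.X) : Algebra ℂ (X.X.presheaf.stalk x) :=
  RingHom.toAlgebra ((X.X.presheaf.germ ⊤ x trivial).hom.comp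
    (X.str.appTop.hom.comp (Scheme.ΓSpecIso (CommRingCat.of ℂ)).inv.hom))

/-- `t₁, …, tₙ ∈ 𝒪_{X,x}` are local coordinates at `x`: their differentials form a basis of
`Ω_{𝒪_{X,x}/ℂ}`. -/
def IsCoords (X : SmoothProjVar) {n : ℕ} (x : X.X) (t : Fin n → X.X.presheaf.stalk x) : Prop :=
  LinearIndependent (X.X.presheaf.stalk x)
      (fun i => KaehlerDifferential.D ℂ (X.X.presheaf.stalk x) (t i)) ∧
    Submodule.span (X.X.presheaf.stalk x)
      (Set.range fun i => KaehlerDifferential.D ℂ (X.X.presheaf.stalk x) (t i)) = ⊤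

/-- Rational differential `n`-forms on `X`. -/
abbrev RatForms (X : SmoothProjVar) (n : ℕ) : Type :=
  ⋀[X.X.functionField]^n Ω[X.X.functionField⁄ℂ]

/-- The rational form `dt₁ ∧ … ∧ dtₙ` attached to `t₁, …, tₙ ∈ 𝒪_{X,x}`. -/
def coordForm (X : SmoothProjVar) {n : ℕ} (x : X.X) (t : Fin n → X.X.presheaf.stalk x) :
    RatForms X n :=
  exteriorPower.ιMulti X.X.functionField n
    (fun i => KaehlerDifferential.D ℂ X.X.functionField
      (algebraMap (X.X.presheaf.stalk x) X.X.functionField (t i)))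

/-- `f` is a local equation at `x` of the divisor of the rational `n`-form `ω`:
`ω = f dt₁ ∧ … ∧ dtₙ` for local coordinates `t₁, …, tₙ` at `x`. -/
def IsLocalEq (X : SmoothProjVar) (n : ℕ) (ω : RatForms X n) (x : X.X)
    (f : X.X.functionField) : Prop :=
  ∃ t : Fin n → X.X.presheaf.stalk x, IsCoords X x t ∧ ω = f • coordForm X x t

/-- `e` is the multiplicity along the prime divisor with generic point `z` of the relative
canonical divisor `K_{Γ/Y} = div(ωΓ) - φ^* div(ωY)` of the morphism `φ : Γ ⟶ Y`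
(`ωΓ` a rational `n`-form on `Γ`, `ωY` a rational `m`-form on `Y`).  Here `f` is a local
equation of `div(ωΓ)` at `z`, `a / b` is a local equation of `div(ωY)` at `φ(z)` with
`a, b ∈ 𝒪_{Y,φ(z)}`, and its pull back to `Γ` has multiplicity `ord_z(φ^* a) - ord_z(φ^* b)`. -/
def RelCanMult {Γ Y : SmoothProjVar} (φ : Γ.X ⟶ Y.X) (n m : ℕ) (ωΓ : RatForms Γ n)
    (ωY : RatForms Y m) (z : Γ.X) (e : ℤ) : Prop :=
  ∃ (f : Γ.X.functionField) (a b : Y.X.presheaf.stalk (φ z)),
    f ≠ 0 ∧ (φ.stalkMap z).hom a ≠ 0 ∧ (φ.stalkMap z).hom b ≠ 0 ∧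
    IsLocalEq Γ n ωΓ z f ∧
    IsLocalEq Y m ωY (φ z)
      (algebraMap (Y.X.presheaf.stalk (φ z)) Y.X.functionField a /
        algebraMap (Y.X.presheaf.stalk (φ z)) Y.X.functionField b) ∧
    e = Scheme.ord f z -
      (Scheme.ord (algebraMap (Γ.X.presheaf.stalk z) Γ.X.functionField
          ((φ.stalkMap z).hom a)) z -
        Scheme.ord (algebraMap (Γ.X.presheaf.stalk z) Γ.X.functionField
          ((φ.stalkMap z).hom b)) z)

end

end Pool.Agent.AHM
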