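import Mathlib

/-!
# Differentials of a transcendence basis in characteristic zero
-/

namespace Pool.Agent.AHM

noncomputable section

open KaehlerDifferential TensorProduct

section

variable {k K ι : Type} [Field k] [CharZero k] [Field K] [Algebra k K]

open scoped IntermediateField.algebraAdjoinAdjoin in
/-- Algebraic extensions of rational function fields are formally étale over the ring generated
by the variables. -/
theorem diffBasis_formallyEtale (v : ι → K)
    [Algebra.IsAlgebraic (IntermediateField.adjoin k (Set.range v)) K] :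
    Algebra.FormallyEtale (Algebra.adjoin k (Set.range v)) K := by
  have h1 : Algebra.FormallyEtale (Algebra.adjoin k (Set.range v))
      (IntermediateField.adjoin k (Set.range v)) :=
    .of_isLocalization (nonZeroDivisors _)
  have : CharZero (IntermediateField.adjoin k (Set.range v)) :=
    charZero_of_injective_algebraMap (algebraMap k _).injective
  have h2 : Algebra.FormallyEtale (IntermediateField.adjoin k (Set.range v)) K :=
    Algebra.FormallyEtale.of_isSeparable _ K
  exact .comp _ (IntermediateField.adjoin k (Set.range v)) _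

/-- The differentials of a transcendence basis form a basis of the Kähler differentials. -/
theorem diffBasis_exists {v : ι → K} (hv : AlgebraicIndependent k v)
    [Algebra.IsAlgebraic (IntermediateField.adjoin k (Set.range v)) K] :
    ∃ b : Module.Basis ι K (Ω[K⁄k]), ∀ i, b i = D k K (v i) := by
  classical
  let algS : Algebra (MvPolynomial ι k) K := (MvPolynomial.aeval v).toAlgebra
  have hmap : ∀ p : MvPolynomial ι k, algebraMap (MvPolynomial ι k) K p =
      MvPolynomial.aeval v p := fun p => rfl
  have : IsScalarTower k (MvPolynomial ι k) K := IsScalarTower.of_algebraMap_eq fun c => by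
    rw [hmap, MvPolynomial.algebraMap_eq, MvPolynomial.aeval_C]
  let algT : Algebra (MvPolynomial ι k) (Algebra.adjoin k (Set.range v)) :=
    (hv.aevalEquiv : MvPolynomial ι k →+* Algebra.adjoin k (Set.range v)).toAlgebra
  have : IsScalarTower (MvPolynomial ι k) (Algebra.adjoin k (Set.range v)) K :=
    IsScalarTower.of_algebraMap_eq fun p => by
      rw [hmap]
      exact (hv.algebraMap_aevalEquiv p).symm
  have h0 : Algebra.FormallyEtale (MvPolynomial ι k) (Algebra.adjoin k (Set.range v)) := by
    let e : MvPolynomial ι k ≃ₐ[MvPolynomial ι k] Algebra.adjoin k (Set.range v) :=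
      { (hv.aevalEquiv : MvPolynomial ι k ≃+* Algebra.adjoin k (Set.range v)) with
        commutes' := fun p => rfl }
    exact Algebra.FormallyEtale.of_equiv e
  have h1 := diffBasis_formallyEtale (k := k) v
  have h2 : Algebra.FormallyEtale (MvPolynomial ι k) K :=
    .comp _ (Algebra.adjoin k (Set.range v)) _
  let E := KaehlerDifferential.tensorKaehlerEquivOfFormallyEtale k (MvPolynomial ι k) K
  refine ⟨((mvPolynomialBasis k ι).baseChange K).map E, fun i => ?_⟩
  rw [Module.Basis.map_apply, Module.Basis.baseChange_apply, mvPolynomialBasis_apply]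
  have := KaehlerDifferential.tensorKaehlerEquivOfFormallyEtale_symm_D_algebraMap k
    (MvPolynomial ι k) K (MvPolynomial.X i)
  rw [← this]
  rw [LinearEquiv.apply_symm_apply, hmap, MvPolynomial.aeval_X]

theorem diffBasis_linearIndependent {v : ι → K} (hv : AlgebraicIndependent k v)
    [Algebra.IsAlgebraic (IntermediateField.adjoin k (Set.range v)) K] :
    LinearIndependent K (fun i => D k K (v i)) := by
  obtain ⟨b, hb⟩ := diffBasis_exists hv
  have : (fun i => D k K (v i)) = b := by
    funext i
    exact (hb i).symm
  rw [this]
  exact b.linearIndependent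

theorem diffBasis_span {v : ι → K} (hv : AlgebraicIndependent k v)
    [Algebra.IsAlgebraic (IntermediateField.adjoin k (Set.range v)) K] :
    Submodule.span K (Set.range fun i => D k K (v i)) = ⊤ := by
  obtain ⟨b, hb⟩ := diffBasis_exists hv
  have : (fun i => D k K (v i)) = b := by
    funext i
    exact (hb i).symm
  rw [this]
  exact b.span_eq

end

/-- If the differentials of the elements of `S` are in `N` and every element is a quotient of
elements of the algebra generated by `S`, then `N` is everything. -/
theorem diffBasis_span_loc {O : Type} [CommRing O] [Algebra ℂ O] (S : Set O)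
    (N : Submodule O (Ω[O⁄ℂ])) (hS : ∀ x ∈ S, D ℂ O x ∈ N)
    (hloc : ∀ x : O, ∃ u ∈ Algebra.adjoin ℂ S, ∃ v ∈ Algebra.adjoin ℂ S, ∃ w : O,
      v * w = 1 ∧ x = u * w) : N = ⊤ := by
  have hA : ∀ x ∈ Algebra.adjoin ℂ S, D ℂ O x ∈ N := by
    intro x hx
    induction hx using Algebra.adjoin_induction with
    | mem x hx => exact hS x hx
    | algebraMap r => rw [Derivation.map_algebraMap]; exact N.zero_mem
    | add x y _ _ hx hy => rw [map_add]; exact N.add_mem hx hy
    | mul x y _ _ hx hy =>
      rw [Derivation.leibniz]
      exact N.add_mem (N.smul_mem _ hy) (N.smul_mem _ hx)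
  rw [← top_le_iff, ← KaehlerDifferential.span_range_derivation ℂ O, Submodule.span_le]
  rintro _ ⟨x, rfl⟩
  obtain ⟨u, hu, v, hv, w, hvw, rfl⟩ := hloc x
  have hw : D ℂ O w = - (w ^ 2) • D ℂ O v := by
    have h1 : D ℂ O (v * w) = 0 := by rw [hvw, Derivation.map_one_eq_zero]
    rw [Derivation.leibniz] at h1
    have h2 : w • (v • D ℂ O w + w • D ℂ O v) = 0 := by rw [h1, smul_zero]
    rw [smul_add, smul_smul, smul_smul, mul_comm w v, hvw, one_smul] at h2
    rw [neg_smul, pow_two]
    exact eq_neg_of_add_eq_zero_left h2
  change D ℂ O (u * w) ∈ N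
  rw [Derivation.leibniz, hw]
  exact N.add_mem (N.smul_mem _ (N.smul_mem _ (hA v hv))) (N.smul_mem _ (hA u hu))

/-- Linear independence of differentials can be checked in a larger field. -/
theorem diffBasis_li_of_map {O K : Type} [CommRing O] [Algebra ℂ O] [Field K] [Algebra ℂ K]
    (j : O →ₐ[ℂ] K) (hj : Function.Injective j) {n : ℕ} (t : Fin n → O)
    (h : LinearIndependent K (fun i => D ℂ K (j (t i)))) :
    LinearIndependent O (fun i => D ℂ O (t i)) := by
  let alg : Algebra O K := j.toRingHom.toAlgebra
  have hmap : ∀ x : O, algebraMap O K x = j x := fun x => rfl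
  have tow : IsScalarTower ℂ O K := IsScalarTower.of_algebraMap_eq fun c => by
    rw [hmap, AlgHom.commutes]
  rw [Fintype.linearIndependent_iff] at h ⊢
  intro g hg i
  have h1 : KaehlerDifferential.map ℂ ℂ O K (∑ i, g i • D ℂ O (t i)) = 0 := by
    rw [hg, map_zero]
  rw [map_sum] at h1
  simp only [map_smul, KaehlerDifferential.map_D, hmap] at h1
  have h2 := h (fun i => j (g i)) (by
    rw [← h1]
    refine Finset.sum_congr rfl fun i _ => ?_
    rw [← hmap, algebraMap_smul]) i
  exact hj (by rw [map_zero]; exact h2)

end

end Pool.Agent.AHM
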