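import Mathlib

/-!
Differentials of algebraically independent elements are linearly independent (characteristic zero).
-/

open scoped TensorProduct

namespace Pool.Agent.AHM

noncomputable section

variable {K : Type} [Field K] [Algebra ℂ K]

open scoped IntermediateField.algebraAdjoinAdjoin in
/-- The differentials of the elements of a transcendence basis are a basis of `Ω[K⁄ℂ]`. -/
theorem diffInd_basis {ι : Type} (v : ι → K) (hv : IsTranscendenceBasis ℂ v) :
    ∃ b : Module.Basis ι K (Ω[K⁄ℂ]), ∀ i, b i = KaehlerDifferential.D ℂ K (v i) := by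
  classical
  have hind := hv.1
  have halg0 : Algebra.IsAlgebraic (Algebra.adjoin ℂ (Set.range v)) K := hv.isAlgebraic
  have halg : Algebra.IsAlgebraic (IntermediateField.adjoin ℂ (Set.range v)) K :=
    hv.isAlgebraic_field
  have h1 : Algebra.FormallyEtale (IntermediateField.adjoin ℂ (Set.range v)) K :=
    Algebra.FormallyEtale.of_isSeparable _ K
  have h2 : Algebra.FormallyEtale (Algebra.adjoin ℂ (Set.range v))
      (IntermediateField.adjoin ℂ (Set.range v)) :=
    .of_isLocalization (nonZeroDivisors _)
  have h3 : Algebra.FormallyEtale (Algebra.adjoin ℂ (Set.range v)) K :=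
    .comp _ (IntermediateField.adjoin ℂ (Set.range v)) _
  let i1 : Algebra (MvPolynomial ι ℂ) (Algebra.adjoin ℂ (Set.range v)) :=
    (hind.aevalEquiv : MvPolynomial ι ℂ →+* Algebra.adjoin ℂ (Set.range v)).toAlgebra
  let i2 : Algebra (MvPolynomial ι ℂ) K := (MvPolynomial.aeval v : _ →ₐ[ℂ] K).toRingHom.toAlgebra
  have : IsScalarTower ℂ (MvPolynomial ι ℂ) K :=
    IsScalarTower.of_algebraMap_eq fun c => ((MvPolynomial.aeval v).commutes c).symm
  have : IsScalarTower (MvPolynomial ι ℂ) (Algebra.adjoin ℂ (Set.range v)) K :=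
    IsScalarTower.of_algebraMap_eq fun p => by
      change MvPolynomial.aeval v p = ((hind.aevalEquiv p : Algebra.adjoin ℂ (Set.range v)) : K)
      simp
  have h4 : Algebra.FormallyEtale (MvPolynomial ι ℂ) (Algebra.adjoin ℂ (Set.range v)) := by
    let e : MvPolynomial ι ℂ ≃ₐ[MvPolynomial ι ℂ] Algebra.adjoin ℂ (Set.range v) :=
      { (hind.aevalEquiv : MvPolynomial ι ℂ ≃+* Algebra.adjoin ℂ (Set.range v)) with
        commutes' := fun _ => rfl }
    exact Algebra.FormallyEtale.of_equiv e
  have h5 : Algebra.FormallyEtale (MvPolynomial ι ℂ) K :=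
    .comp _ (Algebra.adjoin ℂ (Set.range v)) _
  let E := KaehlerDifferential.tensorKaehlerEquivOfFormallyEtale ℂ (MvPolynomial ι ℂ) K
  let b0 := (KaehlerDifferential.mvPolynomialBasis ℂ ι).baseChange K
  refine ⟨b0.map E, fun i => ?_⟩
  rw [Module.Basis.map_apply, Module.Basis.baseChange_apply,
    KaehlerDifferential.mvPolynomialBasis_apply]
  change KaehlerDifferential.tensorKaehlerEquivOfFormallyEtale ℂ (MvPolynomial ι ℂ) K _ = _
  rw [KaehlerDifferential.tensorKaehlerEquivOfFormallyEtale_apply,
    KaehlerDifferential.mapBaseChange_tmul, one_smul, KaehlerDifferential.map_D]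
  congr 1
  change MvPolynomial.aeval v (MvPolynomial.X i) = v i
  rw [MvPolynomial.aeval_X]

/-- The differentials of algebraically independent elements are linearly independent. -/
theorem diffInd_linearIndependent {ι : Type} (v : ι → K) (hv : AlgebraicIndependent ℂ v) :
    LinearIndependent K (fun i => KaehlerDifferential.D ℂ K (v i)) := by
  obtain ⟨t, hst, ht⟩ := exists_isTranscendenceBasis_superset (R := ℂ) (s := Set.range v)
    hv.to_subtype_range
  obtain ⟨b, hb⟩ := diffInd_basis (fun x : t => (x : K)) ht
  have h := b.linearIndependent.comp (fun i : ι => (⟨v i, hst ⟨i, rfl⟩⟩ : t)) (by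
    intro i j hij
    exact hv.injective (congrArg Subtype.val hij))
  convert h using 1
  funext i
  exact (hb ⟨v i, hst ⟨i, rfl⟩⟩).symm

end

end Pool.Agent.AHM
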