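import Pool.Agent.AHM.Forms
import Pool.Agent.AHM.DiffInd

/-!
Differentials of a local ring inside `K` which is a localisation of a finitely generated ring.
-/

namespace Pool.Agent.AHM

noncomputable section

variable {K : Type} [Field K] [Algebra ℂ K]

/-- A submodule of `Ω[O⁄ℂ]` which contains the differentials of the generators is everything. -/
theorem diffLoc_span (S : Set K) (O : Type) [CommRing O] [Algebra ℂ O] (j : O →ₐ[ℂ] K)
    (hj : Function.Injective j) (h1 : Algebra.adjoin ℂ S ≤ j.range)
    (h2 : IsLocOf j.range (Algebra.adjoin ℂ S)) (N : Submodule O (Ω[O⁄ℂ]))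
    (hN : ∀ x : O, j x ∈ S → KaehlerDifferential.D ℂ O x ∈ N) : N = ⊤ := by
  have key : ∀ y ∈ Algebra.adjoin ℂ S, ∀ x : O, j x = y → KaehlerDifferential.D ℂ O x ∈ N := by
    intro y hy
    induction hy using Algebra.adjoin_induction with
    | mem y hy => exact fun x hx => hN x (hx ▸ hy)
    | algebraMap c =>
      intro x hx
      have : x = algebraMap ℂ O c := hj (by rw [hx, j.commutes])
      rw [this, Derivation.map_algebraMap]
      exact N.zero_mem
    | add a b ha hb iha ihb =>
      intro x hx
      obtain ⟨xa, hxa⟩ := h1 ha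
      obtain ⟨xb, hxb⟩ := h1 hb
      have : x = xa + xb := hj (by rw [hx, map_add]; exact congrArg₂ _ hxa.symm hxb.symm)
      rw [this, map_add]
      exact N.add_mem (iha xa hxa) (ihb xb hxb)
    | mul a b ha hb iha ihb =>
      intro x hx
      obtain ⟨xa, hxa⟩ := h1 ha
      obtain ⟨xb, hxb⟩ := h1 hb
      have : x = xa * xb := hj (by rw [hx, map_mul]; exact congrArg₂ _ hxa.symm hxb.symm)
      rw [this, Derivation.leibniz]
      exact N.add_mem (N.smul_mem _ (ihb xb hxb)) (N.smul_mem _ (iha xa hxa))
  rw [eq_top_iff, ← KaehlerDifferential.span_range_derivation ℂ O, Submodule.span_le]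
  rintro _ ⟨x, rfl⟩
  obtain ⟨u, hu, v, hv, hv0, hvi, hx⟩ := h2 (j x) ⟨x, rfl⟩
  obtain ⟨U, hU⟩ := h1 hu
  obtain ⟨V, hV⟩ := h1 hv
  obtain ⟨W, hW⟩ := hvi
  have hU' : j U = u := hU
  have hV' : j V = v := hV
  have hW' : j W = v⁻¹ := hW
  have hVW : V * W = 1 := hj (by rw [map_mul, hV', hW', mul_inv_cancel₀ hv0, map_one])
  have hxUW : x = U * W := hj (by rw [map_mul, hx, hU', hW', div_eq_mul_inv])
  have hDV := key v hv V hV'
  have hDU := key u hu U hU'
  have hDW : KaehlerDifferential.D ℂ O W ∈ N := by
    have h3 : KaehlerDifferential.D ℂ O (V * W) = 0 := by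
      rw [hVW]
      exact Derivation.map_one_eq_zero _
    rw [Derivation.leibniz] at h3
    have h4 : W • (V • KaehlerDifferential.D ℂ O W) = - (W • (W • KaehlerDifferential.D ℂ O V)) := by
      rw [← smul_neg, eq_neg_of_add_eq_zero_left h3]
    rw [smul_smul, mul_comm W V, hVW, one_smul] at h4
    rw [h4]
    exact N.neg_mem (N.smul_mem _ (N.smul_mem _ hDV))
  change KaehlerDifferential.D ℂ O x ∈ N
  rw [hxUW, Derivation.leibniz]
  exact N.add_mem (N.smul_mem _ hDW) (N.smul_mem _ hDU)

/-- Differentials of elements with algebraically independent images are linearly independent. -/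
theorem diffLoc_linearIndependent (O : Type) [CommRing O] [Algebra ℂ O] (j : O →ₐ[ℂ] K)
    (hj : Function.Injective j) {n : ℕ} (t : Fin n → O)
    (ht : AlgebraicIndependent ℂ (fun i => j (t i))) :
    LinearIndependent O (fun i => KaehlerDifferential.D ℂ O (t i)) := by
  let _ : Algebra O K := j.toRingHom.toAlgebra
  have : IsScalarTower ℂ O K := IsScalarTower.of_algebraMap_eq fun c => (j.commutes c).symm
  rw [Fintype.linearIndependent_iff]
  intro c hc i
  have h := congrArg (KaehlerDifferential.map ℂ ℂ O K) hc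
  rw [map_sum, map_zero] at h
  have h5 : ∑ i, j (c i) • KaehlerDifferential.D ℂ K (j (t i)) = 0 := by
    rw [← h]
    refine Finset.sum_congr rfl fun i _ => ?_
    rw [map_smul, KaehlerDifferential.map_D]
    rfl
  have h6 := Fintype.linearIndependent_iff.1 (diffInd_linearIndependent _ ht) _ h5 i
  exact hj (by rw [h6, map_zero])

end

end Pool.Agent.AHM
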