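import Pool.Agent.AHM.Data

namespace Pool.Agent.AHM

noncomputable section

variable {K : Type} [Field K] [Algebra ℂ K] {L : Type} [Field L] [Algebra ℂ L]

theorem exists_closure (R : Type) [CommRing R] [IsDomain R] [Algebra ℂ R] :
    ∃ (Ω : Type) (_ : Field Ω) (_ : Algebra ℂ Ω) (_ : IsAlgClosed Ω) (f : R →ₐ[ℂ] Ω),
      Function.Injective f := by
  refine ⟨AlgebraicClosure (FractionRing R), inferInstance, inferInstance, inferInstance,
    (IsScalarTower.toAlgHom ℂ (FractionRing R) (AlgebraicClosure (FractionRing R))).comp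
      (IsScalarTower.toAlgHom ℂ R (FractionRing R)), ?_⟩
  have h3 : Function.Injective (algebraMap R (FractionRing R)) := IsFractionRing.injective R _
  have h4 : Function.Injective (algebraMap (FractionRing R) (AlgebraicClosure (FractionRing R))) :=
    (algebraMap (FractionRing R) (AlgebraicClosure (FractionRing R))).injective
  exact h4.comp h3

theorem exists_indep : ∃ (Ω : Type) (_ : Field Ω) (_ : Algebra ℂ Ω) (_ : IsAlgClosed Ω)
    (X : Fin 3 → Ω), AlgebraicIndependent ℂ X := by
  obtain ⟨Ω, i1, i2, i3, f, hf⟩ := exists_closure (MvPolynomial (Fin 3) ℂ)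
  exact ⟨Ω, i1, i2, i3, f ∘ MvPolynomial.X,
    (MvPolynomial.algebraicIndependent_X (Fin 3) ℂ).map' hf⟩

theorem exists_root_quad (Ω : Type) [Field Ω] [IsAlgClosed Ω] (a : Ω) (ha0 : a ≠ 0) :
    ∃ b : Ω, a * (1 + b ^ 2) = 2 * b * (1 + a ^ 2) := by
  have hdeg : (Polynomial.C a * Polynomial.X ^ 2 +
      Polynomial.C (-(2 * (1 + a ^ 2))) * Polynomial.X + Polynomial.C a).degree = 2 :=
    Polynomial.degree_quadratic ha0
  obtain ⟨b, hb⟩ := IsAlgClosed.exists_root (Polynomial.C a * Polynomial.X ^ 2 +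
      Polynomial.C (-(2 * (1 + a ^ 2))) * Polynomial.X + Polynomial.C a) (by rw [hdeg]; decide)
  refine ⟨b, ?_⟩
  have h1 : (Polynomial.C a * Polynomial.X ^ 2 +
      Polynomial.C (-(2 * (1 + a ^ 2))) * Polynomial.X + Polynomial.C a).eval b = 0 := hb
  simp only [Polynomial.eval_add, Polynomial.eval_mul, Polynomial.eval_C, Polynomial.eval_pow,
    Polynomial.eval_X] at h1
  linear_combination h1

theorem exists_data_of (Ω : Type) [Field Ω] [Algebra ℂ Ω] (X : Fin 3 → Ω)
    (hind : AlgebraicIndependent ℂ X) (b : Ω)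
    (hb : X 0 * (1 + b ^ 2) = 2 * b * (1 + X 0 ^ 2)) :
    ∃ (K : Type) (_ : Field K) (_ : Algebra ℂ K) (d : Quad K), d.IsData := by
  have hmem : ∀ x ∈ ({X 0, b, X 1, X 2} : Set Ω),
      x ∈ IntermediateField.adjoin ℂ ({X 0, b, X 1, X 2} : Set Ω) :=
    fun x hx => IntermediateField.subset_adjoin ℂ _ hx
  refine ⟨IntermediateField.adjoin ℂ ({X 0, b, X 1, X 2} : Set Ω), inferInstance, inferInstance,
    ⟨⟨X 0, hmem _ (by simp)⟩, ⟨b, hmem b (by simp)⟩, ⟨X 1, hmem _ (by simp)⟩,
      ⟨X 2, hmem _ (by simp)⟩⟩, ?_, ?_, ?_⟩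
  · apply Subtype.ext
    exact hb
  · refine AlgebraicIndependent.of_comp
      (IntermediateField.adjoin ℂ ({X 0, b, X 1, X 2} : Set Ω)).val ?_
    convert hind using 1
    funext i
    fin_cases i
    · rfl
    · rfl
    · rfl
  · apply IntermediateField.lift_injective
    rw [IntermediateField.lift_adjoin, IntermediateField.lift_top]
    congr 1
    simp only [Set.image_insert_eq, Set.image_singleton]

/-- A2. Existence of the data (for example inside the algebraic closure of the field of rational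
functions in three variables). -/
theorem exists_data : ∃ (K : Type) (_ : Field K) (_ : Algebra ℂ K) (d : Quad K), d.IsData := by
  obtain ⟨Ω, i1, i2, i3, X, hind⟩ := exists_indep
  obtain ⟨b, hb⟩ := exists_root_quad Ω (X 0) (hind.ne_zero 0)
  exact exists_data_of Ω X hind b hb

end

end Pool.Agent.AHM
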