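import Pool.Agent.AHM.Model

open CategoryTheory AlgebraicGeometry Order

namespace Pool.Agent.AHM

noncomputable section

variable {K : Type} [Field K] [Algebra ℂ K] {L : Type} [Field L] [Algebra ℂ L]

/-! S3. Existence and uniqueness of morphisms. -/

instance existsHom_isSeparated_pstr (n : ℕ) : IsSeparated (PSpace.str n) := by
  unfold PSpace.str
  infer_instance

instance existsHom_isSeparated_str (V : SmoothProjVar) : IsSeparated V.str := by
  obtain ⟨n, i, hi, h⟩ := V.projective
  rw [← h]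
  infer_instance

theorem existsHom_isSeparated (V : SmoothProjVar) : V.X.IsSeparated := by
  constructor
  have : IsSeparated (V.str ≫ Limits.terminal.from SpecC) := inferInstance
  rwa [Limits.terminal.comp_from] at this

/-- A ring homomorphism as a morphism in the category of rings. -/
def existsHom_cat {R S : CommRingCat.{0}} (f : R →+* S) : R ⟶ S := CommRingCat.ofHom f

theorem existsHom_cat_apply {R S : CommRingCat.{0}} (f : R →+* S) (r : R) :
    (existsHom_cat f).hom r = f r := rfl

/-- The structure morphism on local rings. -/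
theorem existsHom_fromSpecStalk_str (V : SmoothProjVar) (z : V.X) :
    V.X.fromSpecStalk z ≫ V.str = Spec.map (existsHom_cat (R := CommRingCat.of ℂ)
      (S := V.X.presheaf.stalk z) (algebraMap ℂ (V.X.presheaf.stalk z))) := by
  have h1 : V.str = V.X.toSpecΓ ≫ Spec.map ((Scheme.ΓSpecIso (CommRingCat.of ℂ)).inv ≫
      V.str.appTop) := by
    rw [Spec.map_comp, ← Scheme.toSpecΓ_naturality_assoc, ← SpecMap_ΓSpecIso_hom,
      ← Spec.map_comp, Iso.inv_hom_id, Spec.map_id, Category.comp_id]
  rw [h1, Scheme.fromSpecStalk_toSpecΓ_assoc, ← Spec.map_comp]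
  rfl

theorem existsHom_gen_str (M : Mod K) :
    M.gen ≫ M.V.str = Spec.map (existsHom_cat (R := CommRingCat.of ℂ)
      (S := CommRingCat.of K) (algebraMap ℂ K)) := by
  have h : M.gen = Spec.map (existsHom_cat (R := M.V.X.presheaf.stalk (genericPoint M.V.X))
      (S := CommRingCat.of K) (M.e : M.V.X.functionField →+* K)) ≫
      M.V.X.fromSpecStalk (genericPoint M.V.X) := rfl
  rw [h, Category.assoc, existsHom_fromSpecStalk_str, ← Spec.map_comp]
  congr 1
  ext c
  exact M.e.commutes c

/-- `Spec K ⟶ X` factors through `Spec` of the local rings. -/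
theorem existsHom_gen_eq (M : Mod K) (z : M.V.X) :
    M.gen = Spec.map (existsHom_cat (R := M.V.X.presheaf.stalk z)
      (S := CommRingCat.of K) (M.stalkEmb z : M.V.X.presheaf.stalk z →+* K)) ≫
      M.V.X.fromSpecStalk z := by
  have h : genericPoint M.V.X ⤳ z := (genericPoint_spec M.V.X).specializes (Set.mem_univ z)
  have h2 : M.gen = Spec.map (existsHom_cat (R := M.V.X.presheaf.stalk (genericPoint M.V.X))
      (S := CommRingCat.of K) (M.e : M.V.X.functionField →+* K)) ≫
      M.V.X.fromSpecStalk (genericPoint M.V.X) := rfl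
  rw [h2, ← Scheme.SpecMap_stalkSpecializes_fromSpecStalk h, ← Category.assoc,
    ← Spec.map_comp]
  rfl

/-- If `σ` maps the local ring at `y` to the local ring at `x` it is induced by a `ℂ`-homomorphism
of the stalks. -/
theorem existsHom_stalkHom (M : Mod K) (N : Mod L) (σ : L →ₐ[ℂ] K) (x : M.V.X) (y : N.V.X)
    (h : ∀ t ∈ N.loc y, σ t ∈ M.loc x) :
    ∃ θ : N.V.X.presheaf.stalk y →ₐ[ℂ] M.V.X.presheaf.stalk x,
      ∀ g, M.stalkEmb x (θ g) = σ (N.stalkEmb y g) := by
  let E := AlgEquiv.ofInjective (M.stalkEmb x) (M.stalkEmb_injective x)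
  have h' : ∀ g, σ (N.stalkEmb y g) ∈ (M.stalkEmb x).range := fun g => h _ ⟨g, rfl⟩
  refine ⟨(E.symm : (M.stalkEmb x).range →ₐ[ℂ] M.V.X.presheaf.stalk x).comp
    ((σ.comp (N.stalkEmb y)).codRestrict (M.stalkEmb x).range h'), fun g => ?_⟩
  have h2 : E (E.symm ⟨σ (N.stalkEmb y g), h' g⟩) = ⟨σ (N.stalkEmb y g), h' g⟩ :=
    E.apply_symm_apply _
  exact congrArg Subtype.val h2

/-- The restriction of a partial map to the spectra of two local rings. -/
theorem existsHom_fromSpecStalkOfMem_specializes {X Y : Scheme.{0}} (p : X.PartialMap Y) {x y : X}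
    (h : x ⤳ y) (hx : x ∈ p.domain) (hy : y ∈ p.domain) :
    p.fromSpecStalkOfMem hx = Spec.map (X.presheaf.stalkSpecializes h) ≫
      p.fromSpecStalkOfMem hy := by
  have : p.domain.fromSpecStalkOfMem x hx = Spec.map (X.presheaf.stalkSpecializes h) ≫
      p.domain.fromSpecStalkOfMem y hy := by
    rw [← cancel_mono p.domain.ι, Category.assoc, Scheme.Opens.fromSpecStalkOfMem_ι,
      Scheme.Opens.fromSpecStalkOfMem_ι, Scheme.SpecMap_stalkSpecializes_fromSpecStalk]
  rw [Scheme.PartialMap.fromSpecStalkOfMem, this, Category.assoc]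
  rfl

theorem existsHom_dense (X : Scheme.{0}) [IsIntegral X] (U : X.Opens) (hU : genericPoint X ∈ U) :
    Dense (U : Set X) :=
  U.2.dense ⟨_, hU⟩

theorem exists_homOn (M : Mod K) (N : Mod L) (σ : L →ₐ[ℂ] K) (U : M.V.X.Opens)
    (hU : genericPoint M.V.X ∈ U)
    (h : ∀ x ∈ U, ∃ y : N.V.X, ∀ t ∈ N.loc y, σ t ∈ M.loc x) :
    ∃ f : U.toScheme ⟶ N.V.X, f ≫ N.V.str = U.ι ≫ M.V.str ∧
      Spec.map (CommRingCat.ofHom (M.e : M.V.X.functionField →+* K)) ≫
        U.fromSpecStalkOfMem (genericPoint M.V.X) hU ≫ f =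
      Spec.map (CommRingCat.ofHom (σ : L →+* K)) ≫ N.gen := by
  let _ : M.V.X.Over SpecC := ⟨M.V.str⟩
  let _ : N.V.X.Over SpecC := ⟨N.V.str⟩
  have : N.V.X.IsSeparated := existsHom_isSeparated N.V
  -- the morphism at the generic point
  let φ : Spec (M.V.X.presheaf.stalk (genericPoint M.V.X)) ⟶ N.V.X :=
    Spec.map (existsHom_cat (R := CommRingCat.of L)
      (S := M.V.X.presheaf.stalk (genericPoint M.V.X))
      ((M.e.symm : K →+* M.V.X.functionField).comp (σ : L →+* K))) ≫ N.gen
  have hφ : φ ≫ N.V.str = M.V.X.fromSpecStalk (genericPoint M.V.X) ≫ M.V.str := by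
    rw [existsHom_fromSpecStalk_str, Category.assoc, existsHom_gen_str, ← Spec.map_comp]
    congr 1
    ext c
    change M.e.symm (σ (algebraMap ℂ L c)) = algebraMap ℂ M.V.X.functionField c
    rw [AlgHom.commutes, AlgEquiv.commutes]
  let R : M.V.X ⤏ N.V.X := Scheme.RationalMap.ofFunctionField M.V.str N.V.str φ hφ
  have hR : R.fromFunctionField = φ :=
    Scheme.RationalMap.fromFunctionField_ofFunctionField M.V.str N.V.str φ hφ
  have hRover : R.IsOver SpecC := by
    rw [Scheme.RationalMap.isOver_iff]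
    exact (Scheme.RationalMap.equivFunctionField M.V.str N.V.str ⟨φ, hφ⟩).2
  have hUR : U ≤ R.domain := by
    intro x hx
    obtain ⟨y, hy⟩ := h x hx
    obtain ⟨θ, hθ⟩ := existsHom_stalkHom M N σ x y hy
    let ψ : Spec (M.V.X.presheaf.stalk x) ⟶ N.V.X :=
      Spec.map (existsHom_cat (R := N.V.X.presheaf.stalk y) (S := M.V.X.presheaf.stalk x)
        (θ : N.V.X.presheaf.stalk y →+* M.V.X.presheaf.stalk x)) ≫ N.V.X.fromSpecStalk y
    have hψ : ψ ≫ N.V.str = M.V.X.fromSpecStalk x ≫ M.V.str := by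
      rw [existsHom_fromSpecStalk_str, Category.assoc, existsHom_fromSpecStalk_str,
        ← Spec.map_comp]
      congr 1
      ext c
      exact θ.commutes c
    have hsp : genericPoint M.V.X ⤳ x := (genericPoint_spec M.V.X).specializes (Set.mem_univ x)
    rw [Scheme.RationalMap.mem_domain]
    refine ⟨Scheme.PartialMap.ofFromSpecStalk M.V.str N.V.str ψ hψ,
      Scheme.PartialMap.mem_domain_ofFromSpecStalk M.V.str N.V.str ψ hψ, ?_⟩
    apply Scheme.RationalMap.eq_of_fromFunctionField_eq
    rw [hR, Scheme.RationalMap.fromFunctionField_toRationalMap,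
      Scheme.PartialMap.fromFunctionField,
      existsHom_fromSpecStalkOfMem_specializes _ hsp _
        (Scheme.PartialMap.mem_domain_ofFromSpecStalk M.V.str N.V.str ψ hψ),
      Scheme.PartialMap.fromSpecStalkOfMem_ofFromSpecStalk]
    simp only [ψ, φ]
    rw [existsHom_gen_eq N y, ← Category.assoc, ← Category.assoc, ← Spec.map_comp,
      ← Spec.map_comp]
    congr 2
    ext g
    change algebraMap (M.V.X.presheaf.stalk x) M.V.X.functionField (θ g) =
      M.e.symm (σ (N.stalkEmb y g))
    rw [← hθ g, Mod.stalkEmb_apply, AlgEquiv.symm_apply_apply]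
  have hd : Dense (U : Set M.V.X) := existsHom_dense M.V.X U hU
  have hUR' : U ≤ R.toPartialMap.domain := hUR
  let p : M.V.X.PartialMap N.V.X := R.toPartialMap.restrict U hd hUR'
  have hp0 : R.toPartialMap.IsOver SpecC := inferInstance
  have hp : p.IsOver SpecC := by
    change (R.toPartialMap.restrict U hd hUR').IsOver SpecC
    infer_instance
  have hpR : p.toRationalMap = R := by
    change (R.toPartialMap.restrict U hd hUR').toRationalMap = R
    rw [Scheme.PartialMap.restrict_toRationalMap, Scheme.RationalMap.toRationalMap_toPartialMap]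
  refine ⟨p.hom, ?_, ?_⟩
  · exact hp.1
  · have h1 : p.fromFunctionField = φ := by
      rw [← Scheme.RationalMap.fromFunctionField_toRationalMap, hpR, hR]
    have h2 : U.fromSpecStalkOfMem (genericPoint M.V.X) hU ≫ p.hom = φ := h1
    rw [h2]
    simp only [φ]
    have h3 : Spec.map (existsHom_cat (R := M.V.X.presheaf.stalk (genericPoint M.V.X))
        (S := CommRingCat.of K) (M.e : M.V.X.functionField →+* K)) ≫
        Spec.map (existsHom_cat (R := CommRingCat.of L)
          (S := M.V.X.presheaf.stalk (genericPoint M.V.X))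
          ((M.e.symm : K →+* M.V.X.functionField).comp (σ : L →+* K))) =
        Spec.map (CommRingCat.ofHom (σ : L →+* K)) := by
      rw [← Spec.map_comp]
      congr 1
      ext t
      exact M.e.apply_symm_apply (σ t)
    rw [← h3, Category.assoc]
    rfl

theorem exists_hom (M : Mod K) (N : Mod L) (σ : L →ₐ[ℂ] K)
    (h : ∀ x : M.V.X, ∃ y : N.V.X, ∀ t ∈ N.loc y, σ t ∈ M.loc x) :
    ∃ f : M.V.X ⟶ N.V.X, M.Realizes N σ f := by
  obtain ⟨f, hf1, hf2⟩ := exists_homOn M N σ ⊤ (TopologicalSpace.Opens.mem_top _) (fun x _ => h x)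
  refine ⟨M.V.X.topIso.inv ≫ f, ?_, ?_⟩
  · rw [Category.assoc, hf1]
    simp
  · rw [← hf2, Mod.gen, Category.assoc]
    congr 1
    rw [← Category.assoc]
    congr 1
    rw [← cancel_mono (⊤ : M.V.X.Opens).ι, Category.assoc, Scheme.Opens.fromSpecStalkOfMem_ι]
    simp

/-- Two `ℂ`-morphisms from an open subscheme of a model which agree at the generic point. -/
theorem homOn_ext (M : Mod K) (Z : SmoothProjVar) (U : M.V.X.Opens)
    (hU : genericPoint M.V.X ∈ U) (f g : U.toScheme ⟶ Z.X)
    (hf : f ≫ Z.str = U.ι ≫ M.V.str) (hg : g ≫ Z.str = U.ι ≫ M.V.str)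
    (h : U.fromSpecStalkOfMem (genericPoint M.V.X) hU ≫ f =
      U.fromSpecStalkOfMem (genericPoint M.V.X) hU ≫ g) : f = g := by
  let _ : M.V.X.Over SpecC := ⟨M.V.str⟩
  let _ : Z.X.Over SpecC := ⟨Z.str⟩
  have hs : IsSeparated (Z.X ↘ SpecC) := existsHom_isSeparated_str Z
  have hd : Dense (U : Set M.V.X) := existsHom_dense M.V.X U hU
  let p : M.V.X.PartialMap Z.X := ⟨U, hd, f⟩
  let q : M.V.X.PartialMap Z.X := ⟨U, hd, g⟩
  have hp : p.IsOver SpecC := ⟨hf⟩
  have hq : q.IsOver SpecC := ⟨hg⟩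
  have he : p.equiv q :=
    Scheme.PartialMap.equiv_of_fromSpecStalkOfMem_eq p q (x := genericPoint M.V.X) hU hU h
  have hpq : p = q :=
    (Scheme.PartialMap.equiv_iff_of_domain_eq_of_isSeparated (S := SpecC) (f := p) (g := q)
      rfl).1 he
  simpa [p, q] using hpq

theorem hom_ext (M : Mod K) (Z : SmoothProjVar) (f g : M.V.X ⟶ Z.X)
    (hf : f ≫ Z.str = M.V.str) (hg : g ≫ Z.str = M.V.str)
    (h : M.gen ≫ f = M.gen ≫ g) : f = g := by
  have hiso : IsIso (Spec.map (existsHom_cat (R := M.V.X.presheaf.stalk (genericPoint M.V.X))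
      (S := CommRingCat.of K) (M.e : M.V.X.functionField →+* K))) := by
    have : IsIso (existsHom_cat (R := M.V.X.presheaf.stalk (genericPoint M.V.X))
      (S := CommRingCat.of K) (M.e : M.V.X.functionField →+* K)) :=
      (ConcreteCategory.isIso_iff_bijective _).2 M.e.bijective
    infer_instance
  have h1 : M.V.X.fromSpecStalk (genericPoint M.V.X) ≫ f =
      M.V.X.fromSpecStalk (genericPoint M.V.X) ≫ g := by
    rw [← cancel_epi (Spec.map (existsHom_cat (R := M.V.X.presheaf.stalk (genericPoint M.V.X))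
      (S := CommRingCat.of K) (M.e : M.V.X.functionField →+* K)))]
    exact h
  have h2 : (⊤ : M.V.X.Opens).ι ≫ f = (⊤ : M.V.X.Opens).ι ≫ g := by
    apply homOn_ext M Z ⊤ (TopologicalSpace.Opens.mem_top _)
    · rw [Category.assoc, hf]
    · rw [Category.assoc, hg]
    · rw [← Category.assoc, ← Category.assoc, Scheme.Opens.fromSpecStalkOfMem_ι, h1]
  rwa [← Scheme.topIso_hom, cancel_epi] at h2

end

end Pool.Agent.AHM
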