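import Pool.Agent.AHM.DataOps

namespace Pool.Agent.AHM

noncomputable section

variable {K : Type} [Field K] [Algebra ℂ K] {L : Type} [Field L] [Algebra ℂ L]

/-! A4. The charts of `Y`. -/

theorem famY_famChart_le {T ι : Type} (x : T → ι → K) (k : T → ι) (R : Subalgebra ℂ K) :
    famChart x k ≤ R ↔ ∀ t i, x t i / x t (k t) ∈ R := by
  rw [famChart, Algebra.adjoin_le_iff]
  constructor
  · intro h t i
    exact h ⟨(t, i), rfl⟩
  · rintro h _ ⟨⟨t, i⟩, rfl⟩
    exact h t i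

theorem famY_mem_famChart {T ι : Type} (x : T → ι → K) (k : T → ι) (t : T) (i : ι) :
    x t i / x t (k t) ∈ famChart x k :=
  Algebra.subset_adjoin ⟨(t, i), rfl⟩

theorem famY_chartY_le (P : Pair K) (R : Subalgebra ℂ K) :
    P.chartY ≤ R ↔ P.p * P.q ∈ R ∧ P.q⁻¹ ∈ R := by
  rw [Pair.chartY, Algebra.adjoin_le_iff]
  constructor
  · intro h
    exact ⟨h (by simp), h (by simp)⟩
  · rintro ⟨h1, h2⟩ x hx
    simp only [Set.mem_insert_iff, Set.mem_singleton_iff] at hx
    rcases hx with rfl | rfl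
    · exact h1
    · exact h2

theorem famY_mem_chartY (P : Pair K) : P.p * P.q ∈ P.chartY ∧ P.q⁻¹ ∈ P.chartY :=
  (famY_chartY_le P P.chartY).1 le_rfl

/-- The index attached to a sign. -/
def famYIdx (e : Bool) : Fin 4 := if e then 1 else 0

theorem famY_le_of {P : Pair K} (hp : P.p ≠ 0) (hq : P.q ≠ 0) (R : Subalgebra ℂ K)
    (e : Fin 4 → Bool)
    (h0 : (if e 0 then P.p⁻¹ else P.p) ∈ R) (h1 : (if e 1 then P.q⁻¹ else P.q) ∈ R)
    (h2 : (if e 2 then (P.p * P.q)⁻¹ else P.p * P.q) ∈ R)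
    (h3 : (if e 3 then (P.p / P.q)⁻¹ else P.p / P.q) ∈ R) :
    famChart (famY P) (fun t => famYIdx (e t)) ≤ R := by
  rw [famY_famChart_le]
  have hpq : P.p * P.q ≠ 0 := mul_ne_zero hp hq
  have hpd : P.p / P.q ≠ 0 := div_ne_zero hp hq
  have one : (1 : K) ∈ R := one_mem R
  intro t i
  fin_cases t
  · cases h : e 0 <;> rw [h] at h0 <;> fin_cases i <;>
      simp_all [famY, famYIdx]
  · cases h : e 1 <;> rw [h] at h1 <;> fin_cases i <;>
      simp_all [famY, famYIdx]
  · cases h : e 2 <;> rw [h] at h2 <;> fin_cases i <;>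
      simp_all [famY, famYIdx]
  · cases h : e 3 <;> rw [h] at h3 <;> fin_cases i <;>
      simp_all [famY, famYIdx]

theorem famY_mem (P : Pair K) (e : Fin 4 → Bool) :
    (if e 0 then P.p⁻¹ else P.p) ∈ famChart (famY P) (fun t => famYIdx (e t)) ∧
    (if e 1 then P.q⁻¹ else P.q) ∈ famChart (famY P) (fun t => famYIdx (e t)) ∧
    (if e 2 then (P.p * P.q)⁻¹ else P.p * P.q) ∈ famChart (famY P) (fun t => famYIdx (e t)) ∧
    (if e 3 then (P.p / P.q)⁻¹ else P.p / P.q) ∈ famChart (famY P) (fun t => famYIdx (e t)) := by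
  have key := famY_mem_famChart (famY P) (fun t => famYIdx (e t))
  refine ⟨?_, ?_, ?_, ?_⟩
  · cases h : e 0
    · have := key 0 1
      simpa [famY, famYIdx, h] using this
    · have := key 0 0
      simpa [famY, famYIdx, h] using this
  · cases h : e 1
    · have := key 1 1
      simpa [famY, famYIdx, h] using this
    · have := key 1 0
      simpa [famY, famYIdx, h] using this
  · cases h : e 2
    · have := key 2 1
      simpa [famY, famYIdx, h] using this
    · have := key 2 0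
      simpa [famY, famYIdx, h] using this
  · cases h : e 3
    · have := key 3 1
      simpa [famY, famYIdx, h] using this
    · have := key 3 0
      simpa [famY, famYIdx, h] using this

theorem famY_chart_aux {P : Pair K} (hp : P.p ≠ 0) (hq : P.q ≠ 0) (e : Fin 4 → Bool)
    (Q : Pair K)
    (h0 : (if e 0 then P.p⁻¹ else P.p) ∈ Q.chartY) (h1 : (if e 1 then P.q⁻¹ else P.q) ∈ Q.chartY)
    (h2 : (if e 2 then (P.p * P.q)⁻¹ else P.p * P.q) ∈ Q.chartY)
    (h3 : (if e 3 then (P.p / P.q)⁻¹ else P.p / P.q) ∈ Q.chartY)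
    (h4 : ∀ R : Subalgebra ℂ K, (if e 0 then P.p⁻¹ else P.p) ∈ R →
      (if e 1 then P.q⁻¹ else P.q) ∈ R → (if e 2 then (P.p * P.q)⁻¹ else P.p * P.q) ∈ R →
      (if e 3 then (P.p / P.q)⁻¹ else P.p / P.q) ∈ R → Q.p * Q.q ∈ R ∧ Q.q⁻¹ ∈ R) :
    ∃ k' : Fin 4 → Fin 4, famChart (famY P) k' = Q.chartY := by
  refine ⟨fun t => famYIdx (e t), le_antisymm (famY_le_of hp hq _ e h0 h1 h2 h3) ?_⟩
  rw [famY_chartY_le]
  obtain ⟨g0, g1, g2, g3⟩ := famY_mem P e
  exact h4 _ g0 g1 g2 g3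

theorem famY_mem4 {Q : Pair K} (_hp : Q.p ≠ 0) (hq : Q.q ≠ 0) :
    Q.p ∈ Q.chartY ∧ Q.q⁻¹ ∈ Q.chartY ∧ Q.p * Q.q ∈ Q.chartY ∧ Q.p * Q.q⁻¹ ∈ Q.chartY := by
  obtain ⟨hu, hv⟩ := famY_mem_chartY Q
  have h1 : Q.p ∈ Q.chartY := by
    have := mul_mem hu hv
    rwa [mul_assoc, mul_inv_cancel₀ hq, mul_one] at this
  exact ⟨h1, hv, hu, mul_mem h1 hv⟩

theorem famY_chart' {P : Pair K} (hp : P.p ≠ 0) (hq : P.q ≠ 0) (k l m : Bool) :
    ∃ k' : Fin 4 → Fin 4, famChart (famY P) k' = (P.tw k l m).chartY := by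
  cases k <;> cases l <;> cases m
  · -- base
    obtain ⟨a1, a2, a3, a4⟩ := famY_mem4 (Q := P) hp hq
    exact famY_chart_aux hp hq ![false, true, false, false] P (by simpa using a1)
      (by simpa using a2) (by simpa using a3) (by simpa [div_eq_mul_inv] using a4)
      (fun R g0 g1 g2 g3 => ⟨by simpa using g2, by simpa using g1⟩)
  · obtain ⟨a1, a2, a3, a4⟩ := famY_mem4 (Q := ⟨P.p, P.q⁻¹⟩) hp (inv_ne_zero hq)
    exact famY_chart_aux hp hq ![false, false, false, false] ⟨P.p, P.q⁻¹⟩ (by simpa using a1)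
      (by simpa using a2) (by simpa using a4) (by simpa [div_eq_mul_inv] using a3)
      (fun R g0 g1 g2 g3 => ⟨by simpa [div_eq_mul_inv] using g3, by simpa using g1⟩)
  · obtain ⟨a1, a2, a3, a4⟩ := famY_mem4 (Q := ⟨P.q, P.p⟩) hq hp
    exact famY_chart_aux hp hq ![true, false, false, true] ⟨P.q, P.p⟩ (by simpa using a2)
      (by simpa using a1) (by simpa [mul_comm] using a3)
      (by simpa [div_eq_mul_inv, mul_comm] using a4)
      (fun R g0 g1 g2 g3 => ⟨by simpa [mul_comm] using g2, by simpa using g0⟩)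
  · obtain ⟨a1, a2, a3, a4⟩ := famY_mem4 (Q := ⟨P.q, P.p⁻¹⟩) hq (inv_ne_zero hp)
    exact famY_chart_aux hp hq ![false, false, false, true] ⟨P.q, P.p⁻¹⟩ (by simpa using a2)
      (by simpa using a1) (by simpa [mul_comm] using a4)
      (by simpa [div_eq_mul_inv, mul_comm] using a3)
      (fun R g0 g1 g2 g3 => ⟨by simpa [div_eq_mul_inv, mul_comm] using g3, by simpa using g0⟩)
  · obtain ⟨a1, a2, a3, a4⟩ := famY_mem4 (Q := ⟨P.q⁻¹, P.p⁻¹⟩) (inv_ne_zero hq) (inv_ne_zero hp)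
    exact famY_chart_aux hp hq ![false, true, true, false] ⟨P.q⁻¹, P.p⁻¹⟩ (by simpa using a2)
      (by simpa using a1) (by simpa [mul_comm] using a3)
      (by simpa [div_eq_mul_inv, mul_comm] using a4)
      (fun R g0 g1 g2 g3 => ⟨by simpa [mul_comm] using g2, by simpa using g0⟩)
  · obtain ⟨a1, a2, a3, a4⟩ := famY_mem4 (Q := ⟨P.q⁻¹, P.p⟩) (inv_ne_zero hq) hp
    have hE : P.tw true false true = ⟨P.q⁻¹, P.p⟩ := by
      simp [Pair.tw, Pair.swap, Pair.invr]
    rw [hE]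
    exact famY_chart_aux hp hq ![true, true, true, false] ⟨P.q⁻¹, P.p⟩ (by simpa using a2)
      (by simpa using a1) (by simpa [mul_comm] using a4)
      (by simpa [div_eq_mul_inv, mul_comm] using a3)
      (fun R g0 g1 g2 g3 => ⟨by simpa [div_eq_mul_inv, mul_comm] using g3, by simpa using g0⟩)
  · obtain ⟨a1, a2, a3, a4⟩ := famY_mem4 (Q := ⟨P.p⁻¹, P.q⁻¹⟩) (inv_ne_zero hp) (inv_ne_zero hq)
    exact famY_chart_aux hp hq ![true, false, true, true] ⟨P.p⁻¹, P.q⁻¹⟩ (by simpa using a1)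
      (by simpa using a2) (by simpa [mul_comm] using a3)
      (by simpa [div_eq_mul_inv, mul_comm] using a4)
      (fun R g0 g1 g2 g3 => ⟨by simpa [mul_comm] using g2, by simpa using g1⟩)
  · obtain ⟨a1, a2, a3, a4⟩ := famY_mem4 (Q := ⟨P.p⁻¹, P.q⟩) (inv_ne_zero hp) hq
    have hE : P.tw true true true = ⟨P.p⁻¹, P.q⟩ := by
      simp [Pair.tw, Pair.swap, Pair.invr, Pair.invs]
    rw [hE]
    exact famY_chart_aux hp hq ![true, true, true, true] ⟨P.p⁻¹, P.q⟩ (by simpa using a1)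
      (by simpa using a2) (by simpa [mul_comm] using a4)
      (by simpa [div_eq_mul_inv, mul_comm] using a3)
      (fun R g0 g1 g2 g3 => ⟨by simpa [div_eq_mul_inv, mul_comm] using g3, by simpa using g1⟩)

theorem famY_ne_zero {P : Pair K} (hP : P.IsPair) : P.p ≠ 0 ∧ P.q ≠ 0 := by
  constructor
  · simpa using hP.ind.ne_zero 0
  · simpa using hP.ind.ne_zero 1

theorem famY_chart {P : Pair K} (hP : P.IsPair) (k l m : Bool) :
    ∃ k' : Fin 4 → Fin 4, famChart (famY P) k' = (P.tw k l m).chartY :=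
  famY_chart' (famY_ne_zero hP).1 (famY_ne_zero hP).2 k l m

/-- The four alternatives given by `Dom`. -/
theorem famY_dom {P : Pair K} (_hp : P.p ≠ 0) (_hq : P.q ≠ 0) (R : Subalgebra ℂ K)
    (h : Dom R (famY P)) :
    (P.p ∈ R ∨ P.p⁻¹ ∈ R) ∧ (P.q ∈ R ∨ P.q⁻¹ ∈ R) ∧
      (P.p * P.q ∈ R ∨ P.p⁻¹ * P.q⁻¹ ∈ R) ∧ (P.p * P.q⁻¹ ∈ R ∨ P.p⁻¹ * P.q ∈ R) := by
  refine ⟨?_, ?_, ?_, ?_⟩
  · obtain ⟨k, hk⟩ := h 0
    fin_cases k
    · left; simpa [famY] using hk 1
    · right; simpa [famY] using hk 0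
    · left; simpa [famY] using hk 1
    · right; simpa [famY] using hk 0
  · obtain ⟨k, hk⟩ := h 1
    fin_cases k
    · left; simpa [famY] using hk 1
    · right; simpa [famY] using hk 0
    · left; simpa [famY] using hk 1
    · right; simpa [famY] using hk 0
  · obtain ⟨k, hk⟩ := h 2
    fin_cases k
    · left; simpa [famY] using hk 1
    · right; simpa [famY, mul_comm] using hk 0
    · left; simpa [famY] using hk 1
    · right; simpa [famY, mul_comm] using hk 0
  · obtain ⟨k, hk⟩ := h 3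
    fin_cases k
    · left; simpa [famY, div_eq_mul_inv] using hk 1
    · right; simpa [famY, div_eq_mul_inv, mul_comm] using hk 0
    · left; simpa [famY, div_eq_mul_inv] using hk 1
    · right; simpa [famY, div_eq_mul_inv, mul_comm] using hk 0

theorem famY_cover' {P : Pair K} (hp : P.p ≠ 0) (hq : P.q ≠ 0) (R : Subalgebra ℂ K)
    (h : Dom R (famY P)) : ∃ k l m : Bool, (P.tw k l m).chartY ≤ R := by
  obtain ⟨h0, h1, h2, h3⟩ := famY_dom hp hq R h
  rcases h2 with h2 | h2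
  · rcases h1 with h1 | h1
    · rcases h0 with h0 | h0
      · rcases h3 with h3 | h3
        · refine ⟨false, false, true, (famY_chartY_le _ R).2 ?_⟩
          exact ⟨h3, by simpa [Pair.tw, Pair.swap] using h1⟩
        · refine ⟨false, true, true, (famY_chartY_le _ R).2 ?_⟩
          exact ⟨by simpa [Pair.tw, Pair.swap, Pair.invs, mul_comm] using h3,
            by simpa [Pair.tw, Pair.swap, Pair.invs] using h0⟩
      · refine ⟨false, true, false, (famY_chartY_le _ R).2 ?_⟩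
        exact ⟨by simpa [Pair.tw, Pair.swap, Pair.invs, mul_comm] using h2,
          by simpa [Pair.tw, Pair.swap, Pair.invs] using h0⟩
    · exact ⟨false, false, false, (famY_chartY_le _ R).2 ⟨h2, h1⟩⟩
  · rcases h0 with h0 | h0
    · refine ⟨true, false, false, (famY_chartY_le _ R).2 ?_⟩
      exact ⟨by simpa [Pair.tw, Pair.swap, Pair.invs, Pair.invr, mul_comm] using h2,
        by simpa [Pair.tw, Pair.swap, Pair.invs, Pair.invr] using h0⟩
    · rcases h1 with h1 | h1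
      · refine ⟨true, true, false, (famY_chartY_le _ R).2 ?_⟩
        exact ⟨by simpa [Pair.tw, Pair.swap, Pair.invs, Pair.invr, mul_comm] using h2,
          by simpa [Pair.tw, Pair.swap, Pair.invs, Pair.invr] using h1⟩
      · rcases h3 with h3 | h3
        · refine ⟨true, false, true, (famY_chartY_le _ R).2 ?_⟩
          exact ⟨by simpa [Pair.tw, Pair.swap, Pair.invs, Pair.invr, mul_comm] using h3,
            by simpa [Pair.tw, Pair.swap, Pair.invs, Pair.invr] using h0⟩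
        · refine ⟨true, true, true, (famY_chartY_le _ R).2 ?_⟩
          exact ⟨by simpa [Pair.tw, Pair.swap, Pair.invs, Pair.invr, mul_comm] using h3,
            by simpa [Pair.tw, Pair.swap, Pair.invs, Pair.invr] using h1⟩

theorem famY_cover {P : Pair K} (hP : P.IsPair) (R : Subalgebra ℂ K) (h : Dom R (famY P)) :
    ∃ k l m : Bool, (P.tw k l m).chartY ≤ R :=
  famY_cover' (famY_ne_zero hP).1 (famY_ne_zero hP).2 R h

/-- If `p', q'` are units of `R` for one transformed pair then `p, q` are units of `R`. -/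
theorem tw_unit_iff {P : Pair K} (hp : P.p ≠ 0) (hq : P.q ≠ 0) (R : Subalgebra ℂ K)
    (k l m : Bool) :
    ((P.tw k l m).p ∈ R ∧ (P.tw k l m).p⁻¹ ∈ R ∧ (P.tw k l m).q ∈ R ∧ (P.tw k l m).q⁻¹ ∈ R) ↔
      (P.p ∈ R ∧ P.p⁻¹ ∈ R ∧ P.q ∈ R ∧ P.q⁻¹ ∈ R) := by
  cases k <;> cases l <;> cases m <;>
    simp only [Pair.tw, Pair.swap, Pair.invs, Pair.invr, if_true, if_false, Bool.false_eq_true,
      inv_inv] <;> tauto

theorem famY_gen {P : Pair K} (hP : P.IsPair) : IntermediateField.adjoin ℂ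
    (Set.range fun u : Fin 4 × Fin 4 × Fin 4 => famY P u.1 u.2.1 / famY P u.1 u.2.2) = ⊤ := by
  rw [eq_top_iff, ← hP.gen, IntermediateField.adjoin_le_iff]
  intro x hx
  simp only [Set.mem_insert_iff, Set.mem_singleton_iff] at hx
  rcases hx with rfl | rfl
  · exact IntermediateField.subset_adjoin _ _ ⟨(0, 1, 0), by simp [famY]⟩
  · exact IntermediateField.subset_adjoin _ _ ⟨(1, 1, 0), by simp [famY]⟩

end

end Pool.Agent.AHM
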