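import Pool.Agent.AHM.FamX
import Pool.Agent.AHM.FamY

namespace Pool.Agent.AHM

noncomputable section

variable {K : Type} [Field K] [Algebra ℂ K] {L : Type} [Field L] [Algebra ℂ L]

/-! A5. The charts of `Γ`. -/

theorem famG_chartX_le (d : Quad K) (R : Subalgebra ℂ K) :
    d.chartX ≤ R ↔ d.a ∈ R ∧ d.b ∈ R ∧ d.r ∈ R ∧ d.s ∈ R := by
  rw [Quad.chartX, Algebra.adjoin_le_iff]
  constructor
  · intro h
    exact ⟨h (by simp), h (by simp), h (by simp), h (by simp)⟩
  · rintro ⟨h1, h2, h3, h4⟩ x hx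
    simp only [Set.mem_insert_iff, Set.mem_singleton_iff] at hx
    rcases hx with rfl | rfl | rfl | rfl <;> assumption

theorem famG_mem_chartX (d : Quad K) :
    d.a ∈ d.chartX ∧ d.b ∈ d.chartX ∧ d.r ∈ d.chartX ∧ d.s ∈ d.chartX :=
  (famG_chartX_le d d.chartX).1 le_rfl

/-- `ℂ[a, b, r, s / r]` is generated by `ℂ[a, b, r, s]` and `ℂ[p q, 1 / q]`. -/
theorem famG_sup {d : Quad K} (hd : d.IsData) : d.chartX ⊔ d.pair.chartY = d.chartG := by
  obtain ⟨ha, hb, hr, hs⟩ := hd.ne_zero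
  obtain ⟨m1, m2, m3, m4⟩ := famG_mem_chartX d.blow
  have m4' : d.s / d.r ∈ d.blow.chartX := m4
  have m3' : d.r ∈ d.blow.chartX := m3
  obtain ⟨k1, k2⟩ := Quad.kap_mem hd d.blow.chartX m1 m2
  apply le_antisymm
  · refine sup_le ?_ ?_
    · rw [famG_chartX_le]
      refine ⟨m1, m2, m3, ?_⟩
      have := mul_mem m4' m3'
      rwa [div_mul_cancel₀ _ hr] at this
    · rw [famY_chartY_le]
      constructor
      · have h1 : d.pair.p * d.pair.q = d.r * d.r * d.kap⁻¹ := by
          simp only [Quad.pair]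
          field_simp
        rw [h1]
        exact mul_mem (mul_mem m3' m3') k2
      · have h1 : d.pair.q⁻¹ = d.s / d.r := by simp [Quad.pair]
        rw [h1]
        exact m4'
  · rw [Quad.chartG, famG_chartX_le]
    obtain ⟨n1, n2, n3, n4⟩ := famG_mem_chartX d
    have hle : d.chartX ≤ d.chartX ⊔ d.pair.chartY := le_sup_left
    refine ⟨hle n1, hle n2, hle n3, ?_⟩
    have h1 : d.pair.q⁻¹ = d.s / d.r := by simp [Quad.pair]
    have h2 : d.s / d.r ∈ d.pair.chartY := h1 ▸ (famY_mem_chartY d.pair).2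
    exact (le_sup_right : d.pair.chartY ≤ d.chartX ⊔ d.pair.chartY) h2

theorem famG_famChart (d : Quad K) (k : Fin 4 ⊕ Fin 4 → Fin 4) :
    famChart (famG d) k = famChart (famX d) (fun t => k (Sum.inl t)) ⊔
      famChart (famY d.pair) (fun t => k (Sum.inr t)) := by
  apply le_antisymm
  · rw [famY_famChart_le]
    rintro (t | t) i
    · exact (le_sup_left : famChart (famX d) (fun t => k (Sum.inl t)) ≤ _)
        (famY_mem_famChart (famX d) (fun t => k (Sum.inl t)) t i)
    · exact (le_sup_right : famChart (famY d.pair) (fun t => k (Sum.inr t)) ≤ _)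
        (famY_mem_famChart (famY d.pair) (fun t => k (Sum.inr t)) t i)
  · refine sup_le ?_ ?_
    · rw [famY_famChart_le]
      intro t i
      exact famY_mem_famChart (famG d) k (Sum.inl t) i
    · rw [famY_famChart_le]
      intro t i
      exact famY_mem_famChart (famG d) k (Sum.inr t) i

theorem famG_pair_ne_zero {d : Quad K} (hd : d.IsData) : d.pair.p ≠ 0 ∧ d.pair.q ≠ 0 := by
  obtain ⟨ha, hb, hr, hs⟩ := hd.ne_zero
  exact ⟨div_ne_zero (mul_ne_zero hr hs) (div_ne_zero ha hb), div_ne_zero hr hs⟩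

theorem famG_chart {d : Quad K} (hd : d.IsData) (i j k l m : Bool) :
    ∃ k' : Fin 4 ⊕ Fin 4 → Fin 4, famChart (famG d) k' = (d.tw i j k l m).chartG := by
  obtain ⟨k1, h1⟩ := famX_chart hd i j k l m
  obtain ⟨k2, h2⟩ := famY_chart' (famG_pair_ne_zero hd).1 (famG_pair_ne_zero hd).2 k l m
  refine ⟨Sum.elim k1 k2, ?_⟩
  rw [famG_famChart, ← famG_sup (hd.tw i j k l m), Quad.pair_tw hd, ← h1, ← h2]
  rfl

theorem famG_dom {d : Quad K} {R : Subalgebra ℂ K} (h : Dom R (famG d)) :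
    Dom R (famX d) ∧ Dom R (famY d.pair) :=
  ⟨fun t => h (Sum.inl t), fun t => h (Sum.inr t)⟩

/-- `q'` or its inverse is in `R` for each transformed pair. -/
theorem famG_q {P : Pair K} (hp : P.p ≠ 0) (hq : P.q ≠ 0) {R : Subalgebra ℂ K}
    (h : Dom R (famY P)) (k l : Bool) :
    (P.tw k l false).q ∈ R ∨ (P.tw k l false).q⁻¹ ∈ R := by
  obtain ⟨h0, h1, -, -⟩ := famY_dom hp hq R h
  cases k <;> cases l <;>
    simp only [Pair.tw, Pair.swap, Pair.invs, Pair.invr, if_true, if_false, Bool.false_eq_true,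
      inv_inv] <;> tauto

theorem famG_cover {d : Quad K} (hd : d.IsData) (R : Subalgebra ℂ K) (h : Dom R (famG d)) :
    ∃ i j k l m : Bool, (d.tw i j k l m).chartG ≤ R := by
  obtain ⟨hX, hY⟩ := famG_dom h
  obtain ⟨i, j, k, l, hle⟩ := famX_cover hd R hX
  have hq := famG_q (famG_pair_ne_zero hd).1 (famG_pair_ne_zero hd).2 hY k l
  rw [← Quad.pair_tw hd i j k l false] at hq
  have h1 := (famG_chartX_le _ R).1 (hle false)
  have h2 := (famG_chartX_le _ R).1 (hle true)
  rcases hq with hq | hq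
  · refine ⟨i, j, k, l, true, ?_⟩
    rw [Quad.chartG, famG_chartX_le]
    exact ⟨h2.1, h2.2.1, h2.2.2.1, hq⟩
  · refine ⟨i, j, k, l, false, ?_⟩
    rw [Quad.chartG, famG_chartX_le]
    refine ⟨h1.1, h1.2.1, h1.2.2.1, ?_⟩
    have h3 : (d.tw i j k l false).pair.q⁻¹ =
        (d.tw i j k l false).s / (d.tw i j k l false).r := by
      simp [Quad.pair]
    rw [h3] at hq
    exact hq

theorem famG_gen {d : Quad K} (hd : d.IsData) : IntermediateField.adjoin ℂ
    (Set.range fun u : (Fin 4 ⊕ Fin 4) × Fin 4 × Fin 4 =>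
      famG d u.1 u.2.1 / famG d u.1 u.2.2) = ⊤ := by
  rw [eq_top_iff, ← hd.gen, IntermediateField.adjoin_le_iff]
  intro x hx
  simp only [Set.mem_insert_iff, Set.mem_singleton_iff] at hx
  rcases hx with rfl | rfl | rfl | rfl
  · exact IntermediateField.subset_adjoin _ _ ⟨(Sum.inl 0, 1, 0), by simp [famG, famX]⟩
  · exact IntermediateField.subset_adjoin _ _ ⟨(Sum.inl 1, 1, 0), by simp [famG, famX]⟩
  · exact IntermediateField.subset_adjoin _ _ ⟨(Sum.inl 2, 2, 0), by simp [famG, famX]⟩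
  · exact IntermediateField.subset_adjoin _ _ ⟨(Sum.inl 3, 2, 0), by simp [famG, famX]⟩

end

end Pool.Agent.AHM
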