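import Pool.Agent.AHM.DataOps

namespace Pool.Agent.AHM

noncomputable section

variable {K : Type} [Field K] [Algebra ℂ K] {L : Type} [Field L] [Algebra ℂ L]

/-! A3. The charts of `X`. -/

/-- the transformed base coordinate -/
private def famX_b (i : Bool) (a : K) : K := if i then a⁻¹ else a

/-- the transformed fibre coordinate, before inversion -/
private def famX_f (i j : Bool) (a b r : K) : K :=
  if j then (if i then r / a else r) * b else if i then r / a else r

/-- the transformed fibre coordinate -/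
private def famX_r (i j k : Bool) (a b r : K) : K :=
  if k then (famX_b i a / famX_b j b) / famX_f i j a b r else famX_f i j a b r

omit [Algebra ℂ K] in
private theorem famX_tw_a (d : Quad K) (i j k l m : Bool) :
    (d.tw i j k l m).a = famX_b i d.a := by
  cases i <;> cases j <;> cases k <;> cases l <;> cases m <;> rfl

omit [Algebra ℂ K] in
private theorem famX_tw_b (d : Quad K) (i j k l m : Bool) :
    (d.tw i j k l m).b = famX_b j d.b := by
  cases i <;> cases j <;> cases k <;> cases l <;> cases m <;> rfl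

omit [Algebra ℂ K] in
private theorem famX_tw_r (d : Quad K) (i j k l : Bool) :
    (d.tw i j k l false).r = famX_r i j k d.a d.b d.r := by
  cases i <;> cases j <;> cases k <;> cases l <;> rfl

omit [Algebra ℂ K] in
private theorem famX_tw_s (d : Quad K) (i j k l : Bool) :
    (d.tw i j k l false).s = famX_r i j l d.a d.b d.s := by
  cases i <;> cases j <;> cases k <;> cases l <;> rfl

omit [Algebra ℂ K] in
private theorem famX_tw_r' (d : Quad K) (i j k l : Bool) :
    (d.tw i j k l true).r = famX_r i j l d.a d.b d.s := by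
  cases i <;> cases j <;> cases k <;> cases l <;> rfl

omit [Algebra ℂ K] in
private theorem famX_tw_s' (d : Quad K) (i j k l : Bool) :
    (d.tw i j k l true).s = famX_r i j k d.a d.b d.r := by
  cases i <;> cases j <;> cases k <;> cases l <;> rfl

/-- the entry to be chosen in the first two rows -/
private def famX_k0 (i : Bool) : Fin 4 := if i then 1 else 0

/-- the entry to be chosen in the last two rows -/
private def famX_k2 (i j k : Bool) : Fin 4 := if k then (if j then 3 else 2) else if i then 1 else 0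

private theorem famX_row0 {a : K} (ha : a ≠ 0) (R : Subalgebra ℂ K) (i : Bool) :
    (∀ t, (![1, a, 1, a] : Fin 4 → K) t / (![1, a, 1, a] : Fin 4 → K) (famX_k0 i) ∈ R) ↔
      famX_b i a ∈ R := by
  cases i
  · constructor
    · intro h
      simpa [famX_k0, famX_b] using h 1
    · intro h t
      fin_cases t <;> simp_all [famX_k0, famX_b]
  · constructor
    · intro h
      simpa [famX_k0, famX_b] using h 0
    · intro h t
      fin_cases t <;> simp_all [famX_k0, famX_b]

private theorem famX_row2 {a b r : K} (ha : a ≠ 0) (hb : b ≠ 0) (hr : r ≠ 0)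
    (R : Subalgebra ℂ K) (i j k : Bool) (haR : famX_b i a ∈ R) (hbR : famX_b j b ∈ R)
    (hκ : famX_b i a / famX_b j b ∈ R) (hκ' : (famX_b i a / famX_b j b)⁻¹ ∈ R) :
    (∀ t, (![1, a, r, b * r] : Fin 4 → K) t / (![1, a, r, b * r] : Fin 4 → K)
      (famX_k2 i j k) ∈ R) ↔ famX_r i j k a b r ∈ R := by
  constructor
  · intro h
    cases i <;> cases j <;> cases k <;> simp only [famX_b, famX_k2, famX_r, famX_f,
      Bool.false_eq_true, if_true, if_false] at *
    · simpa using h 2
    · have := R.mul_mem hκ (h 0)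
      simp only [Matrix.cons_val] at this
      convert this using 1
      field_simp
    · have := h 3
      simp only [Matrix.cons_val] at this
      convert this using 1
      field_simp
    · have := R.mul_mem hκ (h 0)
      simp only [Matrix.cons_val] at this
      convert this using 1
      field_simp
    · have := h 2
      simp only [Matrix.cons_val] at this
      convert this using 1
    · have := R.mul_mem hκ (h 1)
      simp only [Matrix.cons_val] at this
      convert this using 1
      field_simp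
    · have := h 3
      simp only [Matrix.cons_val] at this
      convert this using 1
      field_simp
    · have := R.mul_mem hκ (h 1)
      simp only [Matrix.cons_val] at this
      convert this using 1
      field_simp
  · intro h t
    cases i <;> cases j <;> cases k <;> simp only [famX_b, famX_k2, famX_r, famX_f,
      Bool.false_eq_true, if_true, if_false] at * <;> fin_cases t <;>
      simp only [Fin.zero_eta, Fin.mk_one, Fin.reduceFinMk, Matrix.cons_val] <;>
      first
      | (convert R.one_mem using 1 <;> field_simp; done)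
      | (convert haR using 1 <;> field_simp; done)
      | (convert hbR using 1 <;> field_simp; done)
      | (convert h using 1 <;> field_simp; done)
      | (convert R.mul_mem h hbR using 1 <;> field_simp; done)
      | (convert R.mul_mem h hκ' using 1 <;> field_simp; done)
      | (convert R.mul_mem haR (R.mul_mem h hκ') using 1 <;> field_simp; done)

private theorem famX_kap {d : Quad K} (hd : d.IsData) (R : Subalgebra ℂ K) (i j : Bool)
    (ha : famX_b i d.a ∈ R) (hb : famX_b j d.b ∈ R) :
    famX_b i d.a / famX_b j d.b ∈ R ∧ (famX_b i d.a / famX_b j d.b)⁻¹ ∈ R := by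
  have h := Quad.kap_mem (hd.tw i j false false false) R (by rw [famX_tw_a]; exact ha)
    (by rw [famX_tw_b]; exact hb)
  rw [Quad.kap, famX_tw_a, famX_tw_b] at h
  exact h

/-- the chart of `X` as condition on subalgebras -/
private theorem famX_le {d : Quad K} (hd : d.IsData) (R : Subalgebra ℂ K) (i j k l : Bool) :
    (∀ t u, famX d t u / famX d t ((![famX_k0 i, famX_k0 j, famX_k2 i j k, famX_k2 i j l] :
      Fin 4 → Fin 4) t) ∈ R) ↔
    (famX_b i d.a ∈ R ∧ famX_b j d.b ∈ R ∧ famX_r i j k d.a d.b d.r ∈ R ∧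
      famX_r i j l d.a d.b d.s ∈ R) := by
  obtain ⟨ha, hb, hr, hs⟩ := hd.ne_zero
  constructor
  · intro h
    have h0 := (famX_row0 ha R i).mp (h 0)
    have h1 := (famX_row0 hb R j).mp (h 1)
    obtain ⟨hκ, hκ'⟩ := famX_kap hd R i j h0 h1
    exact ⟨h0, h1, (famX_row2 ha hb hr R i j k h0 h1 hκ hκ').mp (h 2),
      (famX_row2 ha hb hs R i j l h0 h1 hκ hκ').mp (h 3)⟩
  · rintro ⟨h0, h1, h2, h3⟩ t
    obtain ⟨hκ, hκ'⟩ := famX_kap hd R i j h0 h1
    fin_cases t
    · exact (famX_row0 ha R i).mpr h0
    · exact (famX_row0 hb R j).mpr h1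
    · exact (famX_row2 ha hb hr R i j k h0 h1 hκ hκ').mpr h2
    · exact (famX_row2 ha hb hs R i j l h0 h1 hκ hκ').mpr h3

/-- the charts contained in a subalgebra -/
private theorem famX_chartX_le (d : Quad K) (R : Subalgebra ℂ K) (i j k l m : Bool) :
    (d.tw i j k l m).chartX ≤ R ↔
    (famX_b i d.a ∈ R ∧ famX_b j d.b ∈ R ∧ famX_r i j k d.a d.b d.r ∈ R ∧
      famX_r i j l d.a d.b d.s ∈ R) := by
  rw [Quad.chartX, Algebra.adjoin_le_iff]
  simp only [Set.insert_subset_iff, Set.singleton_subset_iff, SetLike.mem_coe]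
  rw [famX_tw_a, famX_tw_b]
  cases m
  · rw [famX_tw_r, famX_tw_s]
  · rw [famX_tw_r', famX_tw_s']
    tauto

theorem famX_chart {d : Quad K} (hd : d.IsData) (i j k l m : Bool) :
    ∃ k' : Fin 4 → Fin 4, famChart (famX d) k' = (d.tw i j k l m).chartX := by
  refine ⟨![famX_k0 i, famX_k0 j, famX_k2 i j k, famX_k2 i j l], ?_⟩
  have h : ∀ R : Subalgebra ℂ K, famChart (famX d)
      ![famX_k0 i, famX_k0 j, famX_k2 i j k, famX_k2 i j l] ≤ R ↔
      (d.tw i j k l m).chartX ≤ R := by
    intro R
    rw [famX_chartX_le, ← famX_le hd, famChart, Algebra.adjoin_le_iff, Set.range_subset_iff]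
    exact Prod.forall
  exact le_antisymm ((h _).mpr le_rfl) ((h _).mp le_rfl)

/-- one of the two fibre coordinates is in the subalgebra -/
private theorem famX_fib {a b r : K} (ha : a ≠ 0) (hb : b ≠ 0) (hr : r ≠ 0)
    (R : Subalgebra ℂ K) (i j : Bool) (haR : famX_b i a ∈ R) (hbR : famX_b j b ∈ R)
    (h : ∃ k, ∀ t, (![1, a, r, b * r] : Fin 4 → K) t / (![1, a, r, b * r] : Fin 4 → K) k ∈ R) :
    famX_f i j a b r ∈ R ∨ (famX_f i j a b r)⁻¹ ∈ R := by
  obtain ⟨k, h⟩ := h
  have h0 := h 0
  have h1 := h 1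
  have h2 := h 2
  have h3 := h 3
  cases i <;> cases j <;> fin_cases k <;> simp only [famX_b, famX_f, Fin.zero_eta, Fin.mk_one,
    Fin.reduceFinMk, Matrix.cons_val,
      Bool.false_eq_true, if_true, if_false] at * <;>
      first
      | (left; convert h2 using 1 <;> field_simp; done)
      | (left; convert h3 using 1 <;> field_simp; done)
      | (left; convert R.mul_mem haR h2 using 1 <;> field_simp; done)
      | (left; convert R.mul_mem haR h3 using 1 <;> field_simp; done)
      | (right; convert h0 using 1 <;> field_simp; done)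
      | (right; convert h1 using 1 <;> field_simp; done)
      | (right; convert R.mul_mem hbR h0 using 1 <;> field_simp; done)
      | (right; convert R.mul_mem hbR h1 using 1 <;> field_simp; done)

private theorem famX_base {a : K} (R : Subalgebra ℂ K)
    (h : ∃ k, ∀ t, (![1, a, 1, a] : Fin 4 → K) t / (![1, a, 1, a] : Fin 4 → K) k ∈ R) :
    ∃ i, famX_b i a ∈ R := by
  obtain ⟨k, h⟩ := h
  have h0 := h 0
  have h1 := h 1
  fin_cases k
  · exact ⟨false, by simpa [famX_b] using h1⟩
  · exact ⟨true, by simpa [famX_b] using h0⟩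
  · exact ⟨false, by simpa [famX_b] using h1⟩
  · exact ⟨true, by simpa [famX_b] using h0⟩

/-- choice of the last two bits -/
private theorem famX_fib' {a b r : K} (R : Subalgebra ℂ K) (i j : Bool)
    (hκ : famX_b i a / famX_b j b ∈ R)
    (h : famX_f i j a b r ∈ R ∨ (famX_f i j a b r)⁻¹ ∈ R) : ∃ k, famX_r i j k a b r ∈ R := by
  rcases h with h | h
  · exact ⟨false, h⟩
  · refine ⟨true, ?_⟩
    show (famX_b i a / famX_b j b) / famX_f i j a b r ∈ R
    rw [div_eq_mul_inv]
    exact R.mul_mem hκ h

theorem famX_cover {d : Quad K} (hd : d.IsData) (R : Subalgebra ℂ K) (h : Dom R (famX d)) :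
    ∃ i j k l : Bool, ∀ m : Bool, (d.tw i j k l m).chartX ≤ R := by
  obtain ⟨ha, hb, hr, hs⟩ := hd.ne_zero
  obtain ⟨i, hi⟩ := famX_base R (h 0)
  obtain ⟨j, hj⟩ := famX_base R (h 1)
  obtain ⟨hκ, hκ'⟩ := famX_kap hd R i j hi hj
  obtain ⟨k, hk⟩ := famX_fib' R i j hκ (famX_fib ha hb hr R i j hi hj (h 2))
  obtain ⟨l, hl⟩ := famX_fib' R i j hκ (famX_fib ha hb hs R i j hi hj (h 3))
  exact ⟨i, j, k, l, fun m => (famX_chartX_le d R i j k l m).mpr ⟨hi, hj, hk, hl⟩⟩

/-- the transformed fibre coordinate or its inverse -/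
private theorem famX_r_or {a b r : K} (R : Subalgebra ℂ K) (i j k : Bool)
    (hκ : famX_b i a / famX_b j b ∈ R) (hκ' : (famX_b i a / famX_b j b)⁻¹ ∈ R)
    (h : famX_f i j a b r ∈ R ∨ (famX_f i j a b r)⁻¹ ∈ R) :
    famX_r i j k a b r ∈ R ∨ (famX_r i j k a b r)⁻¹ ∈ R := by
  cases k
  · exact h
  · show (famX_b i a / famX_b j b) / famX_f i j a b r ∈ R ∨
      ((famX_b i a / famX_b j b) / famX_f i j a b r)⁻¹ ∈ R
    rw [inv_div, div_eq_mul_inv, div_eq_mul_inv (famX_f i j a b r)]
    rcases h with h | h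
    · exact Or.inr (R.mul_mem h hκ')
    · exact Or.inl (R.mul_mem hκ h)

theorem famX_dom {d : Quad K} (hd : d.IsData) (R : Subalgebra ℂ K) (h : Dom R (famX d))
    (i j k l m : Bool) :
    ((d.tw i j k l m).a ∈ R ∨ (d.tw i j k l m).a⁻¹ ∈ R) ∧
    ((d.tw i j k l m).b ∈ R ∨ (d.tw i j k l m).b⁻¹ ∈ R) ∧
    ((d.tw i j k l m).a ∈ R → (d.tw i j k l m).b ∈ R →
      ((d.tw i j k l m).r ∈ R ∨ (d.tw i j k l m).r⁻¹ ∈ R) ∧
      ((d.tw i j k l m).s ∈ R ∨ (d.tw i j k l m).s⁻¹ ∈ R)) := by
  obtain ⟨ha, hb, hr, hs⟩ := hd.ne_zero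
  rw [famX_tw_a, famX_tw_b]
  have key : ∀ (a : K), (∃ i, famX_b i a ∈ R) → ∀ i, famX_b i a ∈ R ∨ (famX_b i a)⁻¹ ∈ R := by
    rintro a ⟨i', hi'⟩ i
    cases i <;> cases i'
    · exact Or.inl hi'
    · exact Or.inr hi'
    · refine Or.inr ?_
      show (a⁻¹)⁻¹ ∈ R
      rw [inv_inv]; exact hi'
    · exact Or.inl hi'
  refine ⟨key _ (famX_base R (h 0)) i, key _ (famX_base R (h 1)) j, fun hi hj => ?_⟩
  obtain ⟨hκ, hκ'⟩ := famX_kap hd R i j hi hj
  have h2 := famX_r_or R i j k hκ hκ' (famX_fib ha hb hr R i j hi hj (h 2))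
  have h3 := famX_r_or R i j l hκ hκ' (famX_fib ha hb hs R i j hi hj (h 3))
  cases m
  · rw [famX_tw_r, famX_tw_s]
    exact ⟨h2, h3⟩
  · rw [famX_tw_r', famX_tw_s']
    exact ⟨h3, h2⟩

theorem famX_gen {d : Quad K} (hd : d.IsData) : IntermediateField.adjoin ℂ
    (Set.range fun u : Fin 4 × Fin 4 × Fin 4 => famX d u.1 u.2.1 / famX d u.1 u.2.2) = ⊤ := by
  rw [eq_top_iff, ← hd.gen, IntermediateField.adjoin_le_iff]
  have key : ∀ (t i j : Fin 4) (x : K), famX d t i / famX d t j = x →
      x ∈ IntermediateField.adjoin ℂ (Set.range fun u : Fin 4 × Fin 4 × Fin 4 =>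
        famX d u.1 u.2.1 / famX d u.1 u.2.2) := by
    intro t i j x hx
    exact IntermediateField.subset_adjoin ℂ _ ⟨(t, i, j), hx⟩
  rintro x (rfl | rfl | rfl | rfl)
  · exact key 0 1 0 _ (by simp [famX])
  · exact key 1 1 0 _ (by simp [famX])
  · exact key 2 2 0 _ (by simp [famX])
  · exact key 3 2 0 _ (by simp [famX])

end

end Pool.Agent.AHM
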