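import Pool.Agent.AHM.CurvePoly
import Pool.Agent.AHM.DataOps
import Pool.Agent.AHM.CoreDefs

namespace Pool.Agent.AHM

noncomputable section

variable {K : Type} [Field K] [Algebra ℂ K] {L : Type} [Field L] [Algebra ℂ L]

private theorem fibreLink_half (R : Type) [Field R] [Algebra ℂ R] :
    algebraMap ℂ R (1 / 2) * 2 = 1 := by
  have h : (2 : R) = algebraMap ℂ R 2 := (map_ofNat (algebraMap ℂ R) 2).symm
  rw [h, ← map_mul]
  norm_num

open MvPolynomial in
/-- `s ^ N * G (r s k, r / s)` is a polynomial in `a, b, r, s`, where `k = (1 + b² - 2 a b) / 2`. -/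
private theorem fibreLink_lift (G : MvPolynomial (Fin 2) ℂ) : ∃ N0 : ℕ, ∀ N ≥ N0,
    ∃ G1 : MvPolynomial (Fin 4) ℂ, ∀ (R : Type) [Field R] [Algebra ℂ R] (a b r s : R), s ≠ 0 →
      aeval ![a, b, r, s] G1 =
        s ^ N * aeval ![r * s * (algebraMap ℂ R (1 / 2) * (1 + b ^ 2 - 2 * a * b)), r / s] G := by
  induction G using MvPolynomial.induction_on with
  | C c =>
    refine ⟨0, fun N _ => ⟨C c * X 3 ^ N, ?_⟩⟩
    intro R _ _ a b r s hs
    simp [algHom_C, mul_comm]
  | add F G hF hG =>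
    obtain ⟨N1, h1⟩ := hF
    obtain ⟨N2, h2⟩ := hG
    refine ⟨max N1 N2, fun N hN => ?_⟩
    obtain ⟨F1, hF1⟩ := h1 N (le_trans (le_max_left _ _) hN)
    obtain ⟨G1, hG1⟩ := h2 N (le_trans (le_max_right _ _) hN)
    refine ⟨F1 + G1, ?_⟩
    intro R _ _ a b r s hs
    rw [map_add, map_add, hF1 R a b r s hs, hG1 R a b r s hs]
    ring
  | mul_X F i hF =>
    obtain ⟨N1, h1⟩ := hF
    fin_cases i
    · refine ⟨N1, fun N hN => ?_⟩
      obtain ⟨F1, hF1⟩ := h1 N hN
      refine ⟨F1 * (X 2 * X 3 * (C (1 / 2) * (1 + X 1 ^ 2 - 2 * X 0 * X 1))), ?_⟩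
      intro R _ _ a b r s hs
      rw [map_mul, map_mul, hF1 R a b r s hs]
      simp only [map_mul, map_add, map_sub, map_pow, map_one, aeval_X, algHom_C, map_ofNat,
        Matrix.cons_val, Fin.zero_eta, Fin.isValue]
      ring
    · refine ⟨N1 + 1, fun N hN => ?_⟩
      obtain ⟨M, rfl⟩ : ∃ M, N = M + 1 := ⟨N - 1, by omega⟩
      obtain ⟨F1, hF1⟩ := h1 M (by omega)
      refine ⟨F1 * X 2, ?_⟩
      intro R _ _ a b r s hs
      rw [map_mul, map_mul, hF1 R a b r s hs]
      simp only [aeval_X, Matrix.cons_val, Fin.mk_one, Fin.isValue]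
      generalize (aeval ![r * s * ((algebraMap ℂ R) (1 / 2) * (1 + b ^ 2 - 2 * a * b)),
        r / s]) F = W
      field_simp
      ring

open MvPolynomial in
/-- The untwisted case. -/
private theorem fibreLink_main {E : Type} [Field E] [Algebra ℂ E] {d : Quad K} (hd : d.IsData)
    (σ : L →ₐ[ℂ] K) (P : Pair L) (hP : P.IsPair) (hPd : P.map σ = d.pair)
    (c : ℂ) (hc : c ^ 2 = 2) (θ : L →ₐ[ℂ] E) (u v : E) (hu : u ≠ 0) (hv : v ≠ 0)
    (hp : θ P.p = u * v) (hq : θ P.q = u / v)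
    (x y : ℂ) (t : L)
    (ht : ∃ A B : MvPolynomial (Fin 4) ℂ, MvPolynomial.eval ![0, 0, c * x, c * y] B ≠ 0 ∧
      σ t * MvPolynomial.aeval ![d.a, d.b, d.r, d.s] B =
      MvPolynomial.aeval ![d.a, d.b, d.r, d.s] A) :
    RegAt u v x y (θ t) := by
  obtain ⟨A, B, hB, hAB⟩ := ht
  obtain ⟨ha0, hb0, hr0, hs0⟩ := hd.ne_zero
  have hc0 : c ≠ 0 := by
    rintro rfl
    norm_num at hc
  have hcE : algebraMap ℂ E c ≠ 0 := (map_ne_zero _).2 hc0
  have hc2 : algebraMap ℂ E c ^ 2 = 2 := by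
    rw [← map_pow, hc]
    exact map_ofNat (algebraMap ℂ E) 2
  -- representation of `t`
  obtain ⟨F, G, hG0, hFG⟩ : ∃ F G : MvPolynomial (Fin 2) ℂ, aeval ![P.p, P.q] G ≠ 0 ∧
      t * aeval ![P.p, P.q] G = aeval ![P.p, P.q] F := by
    have ht : t ∈ IntermediateField.adjoin ℂ (Set.range ![P.p, P.q]) := by
      have h : Set.range ![P.p, P.q] = ({P.p, P.q} : Set L) := by
        rw [Matrix.range_cons, Matrix.range_cons, Matrix.range_empty, Set.union_empty]
        rfl
      rw [h, hP.gen]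
      exact IntermediateField.mem_top
    obtain ⟨F, G, h⟩ := (IntermediateField.mem_adjoin_range_iff ℂ ![P.p, P.q] t).1 ht
    by_cases hG : aeval ![P.p, P.q] G = 0
    · refine ⟨0, 1, by simp, ?_⟩
      rw [h, hG]
      simp
    · exact ⟨F, G, hG, by rw [h]; field_simp⟩
  obtain ⟨N1, h1⟩ := fibreLink_lift F
  obtain ⟨N2, h2⟩ := fibreLink_lift G
  obtain ⟨F1, hF1⟩ := h1 (max N1 N2) (le_max_left _ _)
  obtain ⟨G1, hG1⟩ := h2 (max N1 N2) (le_max_right _ _)
  generalize max N1 N2 = N at hF1 hG1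
  -- the relation in `K`
  have hkap : algebraMap ℂ K (1 / 2) * (1 + d.b ^ 2 - 2 * d.a * d.b) = (d.kap)⁻¹ := by
    have h := hd.eq
    have h2 := fibreLink_half K
    rw [Quad.kap, inv_div, eq_div_iff ha0]
    linear_combination algebraMap ℂ K (1 / 2) * h + d.b * h2
  have hσp : σ P.p = d.r * d.s * (d.kap)⁻¹ := by
    have h := congrArg Pair.p hPd
    simpa [Pair.map, Quad.pair, div_eq_mul_inv] using h
  have hσq : σ P.q = d.r / d.s := by
    have h := congrArg Pair.q hPd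
    simpa [Pair.map, Quad.pair] using h
  have hσ : ∀ H : MvPolynomial (Fin 2) ℂ, σ (aeval ![P.p, P.q] H) =
      aeval ![d.r * d.s * (algebraMap ℂ K (1 / 2) * (1 + d.b ^ 2 - 2 * d.a * d.b)),
        d.r / d.s] H := by
    intro H
    rw [← AlgHom.comp_apply]
    congr 1
    refine MvPolynomial.algHom_ext fun i => ?_
    fin_cases i
    · simp only [AlgHom.comp_apply, aeval_X, Matrix.cons_val, Fin.zero_eta, Fin.isValue, hσp, hkap]
    · simp only [AlgHom.comp_apply, aeval_X, Matrix.cons_val, Fin.mk_one, Fin.isValue, hσq]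
  have hθ : ∀ H : MvPolynomial (Fin 2) ℂ, θ (aeval ![P.p, P.q] H) =
      aeval ![(algebraMap ℂ E c * u) * (algebraMap ℂ E c * v) *
        (algebraMap ℂ E (1 / 2) * (1 + (0 : E) ^ 2 - 2 * 0 * 0)),
        (algebraMap ℂ E c * u) / (algebraMap ℂ E c * v)] H := by
    intro H
    rw [← AlgHom.comp_apply]
    congr 1
    refine MvPolynomial.algHom_ext fun i => ?_
    fin_cases i
    · simp only [AlgHom.comp_apply, aeval_X, Matrix.cons_val, Fin.zero_eta, Fin.isValue, hp]
      linear_combination (-(u * v * algebraMap ℂ E (1 / 2))) * hc2 - (u * v) * fibreLink_half E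
    · simp only [AlgHom.comp_apply, aeval_X, Matrix.cons_val, Fin.mk_one, Fin.isValue, hq]
      field_simp
  have hrel : aeval ![d.a, d.b, d.r, d.s] (F1 * B - A * G1) = 0 := by
    rw [map_sub, map_mul, map_mul, hF1 K d.a d.b d.r d.s hs0, hG1 K d.a d.b d.r d.s hs0,
      ← hσ, ← hσ, ← hAB, ← hFG, map_mul]
    ring
  obtain ⟨D, hD⟩ := (aeval_eq_zero_iff hd _).1 hrel
  have hcv : algebraMap ℂ E c * v ≠ 0 := mul_ne_zero hcE hv
  have hrel2 : aeval ![0, 0, algebraMap ℂ E c * u, algebraMap ℂ E c * v] F1 *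
      aeval ![0, 0, algebraMap ℂ E c * u, algebraMap ℂ E c * v] B =
      aeval ![0, 0, algebraMap ℂ E c * u, algebraMap ℂ E c * v] A *
      aeval ![0, 0, algebraMap ℂ E c * u, algebraMap ℂ E c * v] G1 := by
    have h := congrArg (aeval ![0, 0, algebraMap ℂ E c * u, algebraMap ℂ E c * v]) hD
    rw [map_sub, map_mul, map_mul, map_mul] at h
    have h0 : aeval ![0, 0, algebraMap ℂ E c * u, algebraMap ℂ E c * v] curvePoly = 0 := by
      simp [curvePoly]
    rw [h0, zero_mul] at h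
    exact sub_eq_zero.1 h
  have hG10 : aeval ![0, 0, algebraMap ℂ E c * u, algebraMap ℂ E c * v] G1 ≠ 0 := by
    rw [hG1 E 0 0 _ _ hcv, ← hθ]
    exact mul_ne_zero (pow_ne_zero _ hcv) ((map_ne_zero θ).2 hG0)
  have hθt : θ t * aeval ![0, 0, algebraMap ℂ E c * u, algebraMap ℂ E c * v] G1 =
      aeval ![0, 0, algebraMap ℂ E c * u, algebraMap ℂ E c * v] F1 := by
    rw [hG1 E 0 0 _ _ hcv, hF1 E 0 0 _ _ hcv, ← hθ, ← hθ, ← hFG, map_mul]
    ring
  have hsub : ∀ H : MvPolynomial (Fin 4) ℂ,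
      aeval ![u, v] (aeval ![0, 0, C c * X 0, C c * X 1] H : MvPolynomial (Fin 2) ℂ) =
      aeval ![0, 0, algebraMap ℂ E c * u, algebraMap ℂ E c * v] H := by
    intro H
    rw [← AlgHom.comp_apply]
    congr 1
    refine MvPolynomial.algHom_ext fun i => ?_
    fin_cases i <;> simp [algHom_C]
  have hsub2 : ∀ H : MvPolynomial (Fin 4) ℂ,
      eval ![x, y] (aeval ![0, 0, C c * X 0, C c * X 1] H : MvPolynomial (Fin 2) ℂ) =
      eval ![0, 0, c * x, c * y] H := by
    intro H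
    rw [← coe_aeval_eq_eval, ← coe_aeval_eq_eval, RingHom.coe_coe, RingHom.coe_coe,
      ← AlgHom.comp_apply]
    congr 1
    refine MvPolynomial.algHom_ext fun i => ?_
    fin_cases i <;> simp
  refine ⟨aeval ![0, 0, C c * X 0, C c * X 1] A, aeval ![0, 0, C c * X 0, C c * X 1] B, ?_, ?_⟩
  · rw [hsub2]
    exact hB
  · rw [hsub, hsub]
    have h : (θ t * aeval ![0, 0, algebraMap ℂ E c * u, algebraMap ℂ E c * v] B) *
        aeval ![0, 0, algebraMap ℂ E c * u, algebraMap ℂ E c * v] G1 =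
        aeval ![0, 0, algebraMap ℂ E c * u, algebraMap ℂ E c * v] A *
        aeval ![0, 0, algebraMap ℂ E c * u, algebraMap ℂ E c * v] G1 := by
      rw [← hrel2, ← hθt]
      ring
    exact mul_right_cancel₀ hG10 h

/-- C7. Restriction of the rational functions in `σ (L)` to the fibre over `(a, b) = (0, 0)`. -/
theorem fibre_link {E : Type} [Field E] [Algebra ℂ E] {d : Quad K} (hd : d.IsData)
    (σ : L →ₐ[ℂ] K) (P : Pair L) (hP : P.IsPair) (hPd : P.map σ = d.pair)
    (c : ℂ) (hc : c ^ 2 = 2) (ρ τ : E) (hind : AlgebraicIndependent ℂ ![ρ, τ])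
    (θ : L →ₐ[ℂ] E) (hp : θ P.p = ρ * τ) (hq : θ P.q = ρ / τ)
    (k l : Bool) (u v : E) (hu : u = if k then ρ⁻¹ else ρ) (hv : v = if l then τ⁻¹ else τ)
    (x y : ℂ) (t : L)
    (ht : ∃ A B : MvPolynomial (Fin 4) ℂ, MvPolynomial.eval ![0, 0, c * x, c * y] B ≠ 0 ∧
      σ t * MvPolynomial.aeval ![(d.tw false false k l false).a, (d.tw false false k l false).b,
        (d.tw false false k l false).r, (d.tw false false k l false).s] B =
      MvPolynomial.aeval ![(d.tw false false k l false).a, (d.tw false false k l false).b,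
        (d.tw false false k l false).r, (d.tw false false k l false).s] A) :
    RegAt u v x y (θ t) := by
  have hρ : ρ ≠ 0 := by simpa using hind.ne_zero 0
  have hτ : τ ≠ 0 := by simpa using hind.ne_zero 1
  refine fibreLink_main (hd.tw false false k l false) σ (P.tw k l false) (hP.tw k l false) ?_
    c hc θ u v ?_ ?_ ?_ ?_ x y t ht
  · rw [Pair.map_tw, hPd, Quad.pair_tw hd]
  · subst hu
    split_ifs
    · exact inv_ne_zero hρ
    · exact hρ
  · subst hv
    split_ifs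
    · exact inv_ne_zero hτ
    · exact hτ
  · subst hu hv
    cases k <;> cases l <;> simp [Pair.tw, Pair.invr, Pair.invs, hp, hq] <;> field_simp
  · subst hu hv
    cases k <;> cases l <;> simp [Pair.tw, Pair.invr, Pair.invs, hp, hq] <;> field_simp

end

end Pool.Agent.AHM
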