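import Pool.Agent.AHM.Forms
import Pool.Agent.AHM.DiffInd

namespace Pool.Agent.AHM

noncomputable section

variable {K : Type} [Field K] [Algebra ℂ K] {L : Type} [Field L] [Algebra ℂ L]

/-! A9. The forms are non-zero. -/

omit [Algebra ℂ K] in
/-- The wedge product of linearly independent vectors is not zero. -/
theorem formsNZ_wedge_ne_zero {E : Type*} [AddCommGroup E] [Module K E] {n : ℕ} (v : Fin n → E)
    (hv : LinearIndependent K v) : exteriorPower.ιMulti K n v ≠ 0 := by
  classical
  intro h0
  have hinj : LinearMap.ker (Fintype.linearCombination K v) = ⊥ :=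
    LinearMap.ker_eq_bot'.2 fun c hc => by
      rw [Fintype.linearCombination_apply] at hc
      exact funext (Fintype.linearIndependent_iff.1 hv c hc)
  obtain ⟨g, hg⟩ := (Fintype.linearCombination K v).exists_leftInverse_of_injective hinj
  let f : E [⋀^Fin n]→ₗ[K] K := (Matrix.detRowAlternating (R := K) (n := Fin n)).compLinearMap g
  have hf : f v = 1 := by
    have hgv : ∀ i, g (v i) = Pi.single i 1 := by
      intro i
      have h1 := congrArg (fun l => l (Pi.single i 1)) hg
      simpa using h1
    change Matrix.detRowAlternating (fun i => g (v i)) = 1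
    have h2 : (fun i => g (v i)) = (1 : Matrix (Fin n) (Fin n) K) := by
      funext i
      rw [hgv i]
      funext j
      rw [Matrix.one_apply, Pi.single_apply]
      simp [eq_comm]
    rw [h2]
    exact Matrix.det_one
  have h3 : exteriorPower.alternatingMapLinearEquiv f (exteriorPower.ιMulti K n v) = f v :=
    exteriorPower.alternatingMapLinearEquiv_apply_ιMulti f v
  rw [h0, map_zero, hf] at h3
  exact zero_ne_one h3

theorem form3_ne_zero {d : Quad K} (hd : d.IsData) : form3 d ≠ 0 := by
  have ht : ∀ i, Transcendental ℂ (![d.a, d.r, d.s] i) := fun i => hd.ind.transcendental i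
  have ha : Transcendental ℂ d.a := ht 0
  have hr : d.r ≠ 0 := fun h => (ht 1) (by
    change IsAlgebraic ℂ d.r
    rw [h]
    exact isAlgebraic_zero)
  have hs : d.s ≠ 0 := fun h => (ht 2) (by
    change IsAlgebraic ℂ d.s
    rw [h]
    exact isAlgebraic_zero)
  have ha0 : d.a ≠ 0 := fun h => ha (by rw [h]; exact isAlgebraic_zero)
  have hfb : d.fb ≠ 0 := by
    intro h
    have : CharZero K := charZero_of_injective_algebraMap (algebraMap ℂ K).injective
    have h2 : (2 : K) ≠ 0 := two_ne_zero
    have h3 : d.a * d.b = 1 + d.a ^ 2 := by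
      have : (2 : K) * (d.a * d.b - (1 + d.a ^ 2)) = 0 := by
        have h4 : d.fb = 2 * (d.a * d.b - (1 + d.a ^ 2)) := by
          unfold Quad.fb
          ring
        rw [← h4]
        exact h
      have h5 := (mul_eq_zero.1 this).resolve_left h2
      linear_combination h5
    have h6 : d.a ^ 2 = (1 + d.a ^ 2) ^ 2 := by
      have h7 := hd.eq
      linear_combination (d.a) * h7 - (d.a * d.b - (1 + d.a ^ 2)) * h3 + 0 * h3
    apply ha
    refine ⟨(1 + Polynomial.X ^ 2) ^ 2 - Polynomial.X ^ 2, ?_, ?_⟩
    · intro h8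
      have h9 := congrArg (fun p : Polynomial ℂ => p.eval 0) h8
      simp at h9
    · simp only [map_sub, map_pow, map_add, map_one, Polynomial.aeval_X]
      rw [← h6]
      ring
  unfold form3
  rw [smul_ne_zero_iff]
  refine ⟨inv_ne_zero (mul_ne_zero (mul_ne_zero hfb hr) hs), formsNZ_wedge_ne_zero _ ?_⟩
  have h := diffInd_linearIndependent _ hd.ind
  convert h using 1
  funext i
  fin_cases i <;> rfl

theorem form2_ne_zero {P : Pair K} (hP : P.IsPair) : form2 P ≠ 0 := by
  have ht : ∀ i, Transcendental ℂ (![P.p, P.q] i) := fun i => hP.ind.transcendental i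
  have hp : P.p ≠ 0 := fun h => (ht 0) (by
    change IsAlgebraic ℂ P.p
    rw [h]
    exact isAlgebraic_zero)
  have hq : P.q ≠ 0 := fun h => (ht 1) (by
    change IsAlgebraic ℂ P.q
    rw [h]
    exact isAlgebraic_zero)
  unfold form2
  rw [smul_ne_zero_iff]
  refine ⟨inv_ne_zero (mul_ne_zero hp hq), formsNZ_wedge_ne_zero _ ?_⟩
  have h := diffInd_linearIndependent _ hP.ind
  convert h using 1
  funext i
  fin_cases i <;> rfl

end

end Pool.Agent.AHM
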