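import Pool.Agent.AHM.Data

/-!
# The differential forms of the example
-/

namespace Pool.Agent.AHM

noncomputable section

variable {K : Type} [Field K] [Algebra ℂ K]

/-- The derivative `∂f/∂b` of `f = a (1 + b²) - 2 b (1 + a²)`. -/
def Quad.fb (d : Quad K) : K := 2 * d.a * d.b - 2 * (1 + d.a ^ 2)

/-- The derivative `∂f/∂a`. -/
def Quad.fa (d : Quad K) : K := (1 + d.b ^ 2) - 4 * d.a * d.b

/-- The `3`-form `(da / f_b) ∧ dr/r ∧ ds/s`. -/
def form3 (d : Quad K) : ⋀[K]^3 Ω[K⁄ℂ] :=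
  (d.fb * d.r * d.s)⁻¹ • exteriorPower.ιMulti K 3
    ![KaehlerDifferential.D ℂ K d.a, KaehlerDifferential.D ℂ K d.r, KaehlerDifferential.D ℂ K d.s]

/-- The `2`-form `dp/p ∧ dq/q`. -/
def form2 (P : Pair K) : ⋀[K]^2 Ω[K⁄ℂ] :=
  (P.p * P.q)⁻¹ • exteriorPower.ιMulti K 2
    ![KaehlerDifferential.D ℂ K P.p, KaehlerDifferential.D ℂ K P.q]

/-- `dt₁, …, dtₙ` is a basis of the differentials of `O`. -/
def IsDBasis (O : Type) [CommRing O] [Algebra ℂ O] {n : ℕ} (t : Fin n → O) : Prop :=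
  LinearIndependent O (fun i => KaehlerDifferential.D ℂ O (t i)) ∧
    Submodule.span O (Set.range fun i => KaehlerDifferential.D ℂ O (t i)) = ⊤

end

end Pool.Agent.AHM
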