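import Pool.Agent.AHM.DataOps
import Pool.Agent.AHM.Forms

namespace Pool.Agent.AHM

noncomputable section

variable {K : Type} [Field K] [Algebra ℂ K] {L : Type} [Field L] [Algebra ℂ L]

/-! A8. Invariance of the forms up to sign. -/

section aux

set_option linter.unusedSectionVars false

variable {F M N : Type} [Field F] [AddCommGroup M] [Module F M] [AddCommGroup N] [Module F N]

theorem FormsTw_upd0 (u v w u' : M) : Function.update ![u, v, w] 0 u' = ![u', v, w] := by
  ext i; fin_cases i <;> simp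

theorem FormsTw_upd1 (u v w v' : M) : Function.update ![u, v, w] 1 v' = ![u, v', w] := by
  ext i; fin_cases i <;> simp

theorem FormsTw_upd2 (u v w w' : M) : Function.update ![u, v, w] 2 w' = ![u, v, w'] := by
  ext i; fin_cases i <;> simp

theorem FormsTw_smul0 (f : M [⋀^Fin 3]→ₗ[F] N) (c : F) (u v w : M) :
    f ![c • u, v, w] = c • f ![u, v, w] := by
  have h := f.map_update_smul ![u, v, w] 0 c u
  rwa [FormsTw_upd0, FormsTw_upd0] at h

theorem FormsTw_smul1 (f : M [⋀^Fin 3]→ₗ[F] N) (c : F) (u v w : M) :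
    f ![u, c • v, w] = c • f ![u, v, w] := by
  have h := f.map_update_smul ![u, v, w] 1 c v
  rwa [FormsTw_upd1, FormsTw_upd1] at h

theorem FormsTw_smul2 (f : M [⋀^Fin 3]→ₗ[F] N) (c : F) (u v w : M) :
    f ![u, v, c • w] = c • f ![u, v, w] := by
  have h := f.map_update_smul ![u, v, w] 2 c w
  rwa [FormsTw_upd2, FormsTw_upd2] at h

theorem FormsTw_add1 (f : M [⋀^Fin 3]→ₗ[F] N) (u v v' w : M) :
    f ![u, v + v', w] = f ![u, v, w] + f ![u, v', w] := by
  have h := f.map_update_add ![u, v, w] 1 v v'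
  rwa [FormsTw_upd1, FormsTw_upd1, FormsTw_upd1] at h

theorem FormsTw_add2 (f : M [⋀^Fin 3]→ₗ[F] N) (u v w w' : M) :
    f ![u, v, w + w'] = f ![u, v, w] + f ![u, v, w'] := by
  have h := f.map_update_add ![u, v, w] 2 w w'
  rwa [FormsTw_upd2, FormsTw_upd2, FormsTw_upd2] at h

theorem FormsTw_eq01 (f : M [⋀^Fin 3]→ₗ[F] N) (u w : M) : f ![u, u, w] = 0 :=
  f.map_eq_zero_of_eq _ (i := 0) (j := 1) (by simp) (by decide)

theorem FormsTw_eq02 (f : M [⋀^Fin 3]→ₗ[F] N) (u v : M) : f ![u, v, u] = 0 :=
  f.map_eq_zero_of_eq _ (i := 0) (j := 2) (by simp) (by decide)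

/-- The main computation for `3`-forms. -/
theorem FormsTw_main (f : M [⋀^Fin 3]→ₗ[F] N) (x y y' z z' : F) (u v w : M) :
    f ![x • u, y • v + y' • u, z • w + z' • u] = (x * y * z) • f ![u, v, w] := by
  simp only [FormsTw_smul0, FormsTw_smul1, FormsTw_smul2, FormsTw_add1, FormsTw_add2,
    FormsTw_eq01, FormsTw_eq02, smul_zero, add_zero, smul_smul]
  congr 1
  ring

theorem FormsTw_fin {c c' : F} (t : N) (h : c = -c') : c • t = -(c' • t) := by
  rw [h, neg_smul]

theorem FormsTw_fin2 {c c' e : F} (t : N) (h : c * e = c') : c • (e • (-t)) = -(c' • t) := by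
  rw [← h, smul_smul, smul_neg]

theorem FormsTw_swap12 (f : M [⋀^Fin 3]→ₗ[F] N) (u v w : M) :
    f ![u, w, v] = - f ![u, v, w] := by
  have h := f.map_swap ![u, v, w] (i := 1) (j := 2) (by decide)
  rw [← h]
  congr 1
  ext i; fin_cases i <;> simp [Equiv.swap_apply_def]

theorem FormsTw_upd20 (u v u' : M) : Function.update ![u, v] 0 u' = ![u', v] := by
  ext i; fin_cases i <;> simp

theorem FormsTw_upd21 (u v v' : M) : Function.update ![u, v] 1 v' = ![u, v'] := by
  ext i; fin_cases i <;> simp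

theorem FormsTw_main2 (f : M [⋀^Fin 2]→ₗ[F] N) (x y : F) (u v : M) :
    f ![x • u, y • v] = (x * y) • f ![u, v] := by
  have h := f.map_update_smul ![u, y • v] 0 x u
  rw [FormsTw_upd20, FormsTw_upd20] at h
  have h' := f.map_update_smul ![u, v] 1 y v
  rw [FormsTw_upd21, FormsTw_upd21] at h'
  rw [h, h', smul_smul]

theorem FormsTw_swap2 (f : M [⋀^Fin 2]→ₗ[F] N) (u v : M) :
    f ![v, u] = - f ![u, v] := by
  have h := f.map_swap ![u, v] (i := 0) (j := 1) (by decide)
  rw [← h]
  congr 1
  ext i; fin_cases i <;> simp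

end aux

/-- The relation between `da` and `db`. -/
theorem FormsTw_rel {d : Quad K} (hd : d.IsData) :
    d.fb • KaehlerDifferential.D ℂ K d.b = (-d.fa) • KaehlerDifferential.D ℂ K d.a := by
  have h := congrArg (fun x => KaehlerDifferential.D ℂ K x) hd.eq
  have h1 : KaehlerDifferential.D ℂ K (1 : K) = 0 := Derivation.map_one_eq_zero _
  have h2 : KaehlerDifferential.D ℂ K (2 : K) = 0 := by
    have : (2 : K) = algebraMap ℂ K 2 := (map_ofNat (algebraMap ℂ K) 2).symm
    rw [this, Derivation.map_algebraMap]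
  simp only [Derivation.leibniz, map_add, h1, h2, Derivation.leibniz_pow, zero_add, smul_zero,
    add_zero, Nat.reduceSub, pow_one, ← Nat.cast_smul_eq_nsmul K, smul_smul, Nat.cast_ofNat] at h
  unfold Quad.fb Quad.fa
  have h3 : (d.a * (2 * d.b) - (1 + d.a ^ 2) * 2) • KaehlerDifferential.D ℂ K d.b
      = (2 * d.b * (2 * d.a) - (1 + d.b ^ 2)) • KaehlerDifferential.D ℂ K d.a := by
    rw [sub_smul, sub_smul, sub_eq_sub_iff_add_eq_add]
    exact h
  convert h3 using 2 <;> ring

/-- `db` is a multiple of `da` if `f_b ≠ 0`. -/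
theorem FormsTw_db {d : Quad K} (hd : d.IsData) (hb : d.fb ≠ 0) :
    KaehlerDifferential.D ℂ K d.b = (-d.fa / d.fb) • KaehlerDifferential.D ℂ K d.a := by
  have h := congrArg (fun x => d.fb⁻¹ • x) (FormsTw_rel hd)
  simp only [smul_smul, inv_mul_cancel₀ hb, one_smul] at h
  rw [h]
  congr 1
  field_simp

theorem FormsTw_inva {d : Quad K} (hd : d.IsData) : form3 d.inva = - form3 d := by
  obtain ⟨ha, hb, hr, hs⟩ := hd.ne_zero
  have hfb : d.inva.fb = d.fb / d.a ^ 2 := by
    unfold Quad.fb Quad.inva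
    field_simp
    ring
  have hD : ∀ x : K, KaehlerDifferential.D ℂ K (x / d.a)
      = d.a⁻¹ • KaehlerDifferential.D ℂ K x + (-x / d.a ^ 2) • KaehlerDifferential.D ℂ K d.a := by
    intro x
    rw [Derivation.leibniz_div, smul_sub, smul_smul, smul_smul, sub_eq_add_neg, ← neg_smul]
    congr 2 <;> field_simp
  unfold form3
  rw [hfb]
  simp only [Quad.inva]
  rw [hD, hD, Derivation.leibniz_inv, FormsTw_main, smul_smul]
  refine FormsTw_fin _ ?_
  by_cases h0 : d.fb = 0
  · simp [h0]
  · field_simp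

theorem FormsTw_invb {d : Quad K} (hd : d.IsData) : form3 d.invb = - form3 d := by
  obtain ⟨ha, hb, hr, hs⟩ := hd.ne_zero
  have hfb : d.invb.fb = - d.fb := by
    unfold Quad.fb Quad.invb
    have := hd.eq
    field_simp
    linear_combination 2 * this
  unfold form3
  rw [hfb]
  by_cases h0 : d.fb = 0
  · simp [h0]
  have hD : ∀ x : K, KaehlerDifferential.D ℂ K (x * d.b)
      = d.b • KaehlerDifferential.D ℂ K x +
        (x * (-d.fa / d.fb)) • KaehlerDifferential.D ℂ K d.a := by
    intro x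
    rw [Derivation.leibniz, FormsTw_db hd h0, smul_smul, add_comm]
  simp only [Quad.invb]
  have h1 : KaehlerDifferential.D ℂ K d.a = (1 : K) • KaehlerDifferential.D ℂ K d.a := by simp
  rw [hD, hD]
  nth_rw 1 [h1]
  rw [FormsTw_main, smul_smul]
  refine FormsTw_fin _ ?_
  field_simp

theorem FormsTw_kap {d : Quad K} (hd : d.IsData) (h0 : d.fb ≠ 0) :
    ∃ e : K, KaehlerDifferential.D ℂ K d.kap = e • KaehlerDifferential.D ℂ K d.a := by
  refine ⟨d.b⁻¹ ^ 2 * (d.b - d.a * (-d.fa / d.fb)), ?_⟩
  unfold Quad.kap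
  rw [Derivation.leibniz_div, FormsTw_db hd h0, smul_smul, ← sub_smul, smul_smul]

theorem FormsTw_invr {d : Quad K} (hd : d.IsData) : form3 d.invr = - form3 d := by
  obtain ⟨ha, hb, hr, hs⟩ := hd.ne_zero
  have hk : d.kap ≠ 0 := div_ne_zero ha hb
  have hfb : d.invr.fb = d.fb := rfl
  unfold form3
  rw [hfb]
  by_cases h0 : d.fb = 0
  · simp [h0]
  obtain ⟨e, he⟩ := FormsTw_kap hd h0
  simp only [Quad.invr]
  have hD : KaehlerDifferential.D ℂ K (d.kap / d.r)
      = (-d.kap / d.r ^ 2) • KaehlerDifferential.D ℂ K d.r +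
        (e / d.r) • KaehlerDifferential.D ℂ K d.a := by
    rw [Derivation.leibniz_div, smul_sub, smul_smul, smul_smul, he, smul_smul, sub_eq_add_neg,
      ← neg_smul, add_comm]
    congr 2 <;> field_simp
  have h1 : KaehlerDifferential.D ℂ K d.a = (1 : K) • KaehlerDifferential.D ℂ K d.a := by simp
  have h2 : KaehlerDifferential.D ℂ K d.s = (1 : K) • KaehlerDifferential.D ℂ K d.s
      + (0 : K) • KaehlerDifferential.D ℂ K d.a := by simp
  rw [hD]
  nth_rw 1 [h1]
  nth_rw 1 [h2]
  rw [FormsTw_main, smul_smul]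
  refine FormsTw_fin _ ?_
  field_simp

theorem FormsTw_invs {d : Quad K} (hd : d.IsData) : form3 d.invs = - form3 d := by
  obtain ⟨ha, hb, hr, hs⟩ := hd.ne_zero
  have hk : d.kap ≠ 0 := div_ne_zero ha hb
  have hfb : d.invs.fb = d.fb := rfl
  unfold form3
  rw [hfb]
  by_cases h0 : d.fb = 0
  · simp [h0]
  obtain ⟨e, he⟩ := FormsTw_kap hd h0
  simp only [Quad.invs]
  have hD : KaehlerDifferential.D ℂ K (d.kap / d.s)
      = (-d.kap / d.s ^ 2) • KaehlerDifferential.D ℂ K d.s +
        (e / d.s) • KaehlerDifferential.D ℂ K d.a := by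
    rw [Derivation.leibniz_div, smul_sub, smul_smul, smul_smul, he, smul_smul, sub_eq_add_neg,
      ← neg_smul, add_comm]
    congr 2 <;> field_simp
  have h1 : KaehlerDifferential.D ℂ K d.a = (1 : K) • KaehlerDifferential.D ℂ K d.a := by simp
  have h2 : KaehlerDifferential.D ℂ K d.r = (1 : K) • KaehlerDifferential.D ℂ K d.r
      + (0 : K) • KaehlerDifferential.D ℂ K d.a := by simp
  rw [hD]
  nth_rw 1 [h1]
  nth_rw 1 [h2]
  rw [FormsTw_main, smul_smul]
  refine FormsTw_fin _ ?_
  field_simp

theorem FormsTw_swap (d : Quad K) : form3 d.swap = - form3 d := by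
  unfold form3
  have hfb : d.swap.fb = d.fb := rfl
  rw [hfb]
  simp only [Quad.swap]
  rw [FormsTw_swap12, smul_neg]
  congr 3
  ring

theorem FormsTw_step {V : Type} [AddGroup V] {x y z : V}
    (h1 : x = y ∨ x = -y) (h2 : y = z ∨ y = -z) : x = z ∨ x = -z := by
  rcases h1 with rfl | rfl <;> rcases h2 with rfl | rfl <;> simp

theorem form3_tw {d : Quad K} (hd : d.IsData) (i j k l m : Bool) :
    form3 (d.tw i j k l m) = form3 d ∨ form3 (d.tw i j k l m) = - form3 d := by
  have h1 := hd.tw i false false false false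
  have h2 := hd.tw i j false false false
  have h3 := hd.tw i j k false false
  have h4 := hd.tw i j k l false
  have e1 : form3 (d.tw i false false false false) = form3 d ∨
      form3 (d.tw i false false false false) = - form3 d := by
    cases i
    · exact Or.inl rfl
    · exact Or.inr (FormsTw_inva hd)
  have e2 : form3 (d.tw i j false false false) = form3 (d.tw i false false false false) ∨
      form3 (d.tw i j false false false) = - form3 (d.tw i false false false false) := by
    cases j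
    · exact Or.inl rfl
    · exact Or.inr (FormsTw_invb h1)
  have e3 : form3 (d.tw i j k false false) = form3 (d.tw i j false false false) ∨
      form3 (d.tw i j k false false) = - form3 (d.tw i j false false false) := by
    cases k
    · exact Or.inl rfl
    · exact Or.inr (FormsTw_invr h2)
  have e4 : form3 (d.tw i j k l false) = form3 (d.tw i j k false false) ∨
      form3 (d.tw i j k l false) = - form3 (d.tw i j k false false) := by
    cases l
    · exact Or.inl rfl
    · exact Or.inr (FormsTw_invs h3)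
  have e5 : form3 (d.tw i j k l m) = form3 (d.tw i j k l false) ∨
      form3 (d.tw i j k l m) = - form3 (d.tw i j k l false) := by
    cases m
    · exact Or.inl rfl
    · exact Or.inr (FormsTw_swap _)
  exact FormsTw_step e5 (FormsTw_step e4 (FormsTw_step e3 (FormsTw_step e2 e1)))

theorem FormsTw_ne {P : Pair K} (hP : P.IsPair) : P.p ≠ 0 ∧ P.q ≠ 0 :=
  ⟨hP.ind.ne_zero 0, hP.ind.ne_zero 1⟩

theorem FormsTw2_invr {P : Pair K} (hP : P.IsPair) : form2 P.invr = - form2 P := by
  obtain ⟨hp, hq⟩ := FormsTw_ne hP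
  unfold form2
  simp only [Pair.invr]
  rw [Derivation.leibniz_inv, Derivation.leibniz_inv, FormsTw_main2, FormsTw_swap2]
  refine FormsTw_fin2 _ ?_
  field_simp

theorem FormsTw2_invs (P : Pair K) : form2 P.invs = - form2 P := by
  unfold form2
  simp only [Pair.invs]
  rw [FormsTw_swap2, smul_neg, mul_comm]

theorem FormsTw2_swap {P : Pair K} (hP : P.IsPair) : form2 P.swap = - form2 P := by
  obtain ⟨hp, hq⟩ := FormsTw_ne hP
  unfold form2
  simp only [Pair.swap]
  have h1 : KaehlerDifferential.D ℂ K P.p = (1 : K) • KaehlerDifferential.D ℂ K P.p := by simp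
  rw [Derivation.leibniz_inv]
  nth_rw 1 [h1]
  rw [FormsTw_main2, smul_smul]
  refine FormsTw_fin _ ?_
  field_simp

theorem form2_tw {P : Pair K} (hP : P.IsPair) (k l m : Bool) :
    form2 (P.tw k l m) = form2 P ∨ form2 (P.tw k l m) = - form2 P := by
  have h2 := hP.tw k l false
  have e1 : form2 (P.tw k false false) = form2 P ∨ form2 (P.tw k false false) = - form2 P := by
    cases k
    · exact Or.inl rfl
    · exact Or.inr (FormsTw2_invr hP)
  have e2 : form2 (P.tw k l false) = form2 (P.tw k false false) ∨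
      form2 (P.tw k l false) = - form2 (P.tw k false false) := by
    cases l
    · exact Or.inl rfl
    · exact Or.inr (FormsTw2_invs _)
  have e3 : form2 (P.tw k l m) = form2 (P.tw k l false) ∨
      form2 (P.tw k l m) = - form2 (P.tw k l false) := by
    cases m
    · exact Or.inl rfl
    · exact Or.inr (FormsTw2_swap h2)
  exact FormsTw_step e3 (FormsTw_step e2 e1)

end

end Pool.Agent.AHM
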