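import Pool.Agent.AHM.Stalk
import Pool.Agent.AHM.ExistsHom

open CategoryTheory AlgebraicGeometry Order

namespace Pool.Agent.AHM

noncomputable section

variable {K : Type} [Field K] [Algebra ℂ K] {L : Type} [Field L] [Algebra ℂ L]

theorem IsoRestrict.isIso_specE (M : Mod K) :
    IsIso (Spec.map (CommRingCat.ofHom (M.e : M.V.X.functionField →+* K))) := by
  have : CommRingCat.ofHom (M.e : M.V.X.functionField →+* K) =
      (RingEquiv.toCommRingCatIso (M.e : M.V.X.functionField ≃+* K)).hom := rfl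
  rw [this]
  infer_instance

theorem IsoRestrict.gen_eq (M : Mod K) (U : M.V.X.Opens) (hU : genericPoint M.V.X ∈ U) :
    (Spec.map (CommRingCat.ofHom (M.e : M.V.X.functionField →+* K)) ≫
      U.fromSpecStalkOfMem (genericPoint M.V.X) hU) ≫ U.ι = M.gen := by
  rw [Category.assoc, Scheme.Opens.fromSpecStalkOfMem_ι]
  rfl

theorem IsoRestrict.id_comp (N : Mod K) :
    Spec.map (CommRingCat.ofHom (AlgHom.id ℂ K : K →+* K)) ≫ N.gen = N.gen := by
  have : CommRingCat.ofHom (AlgHom.id ℂ K : K →+* K) = 𝟙 (CommRingCat.of K) := rfl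
  rw [this, Spec.map_id, Category.id_comp]

theorem IsoRestrict.genericPoint_eq (M : Mod K) (x : Spec (CommRingCat.of K)) :
    M.gen x = genericPoint M.V.X := by
  haveI := IsoRestrict.isIso_specE M
  have h : (M.V.X.fromSpecStalk (genericPoint M.V.X))
      ((Spec.map (CommRingCat.ofHom (M.e : M.V.X.functionField →+* K))) x) =
      genericPoint M.V.X := by
    have h1 : (Spec.map (CommRingCat.ofHom (M.e : M.V.X.functionField →+* K))) x =
        IsLocalRing.closedPoint M.V.X.functionField := by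
      haveI : Subsingleton (Spec (M.V.X.functionField : CommRingCat)) := by
        change Subsingleton (PrimeSpectrum M.V.X.functionField)
        infer_instance
      exact Subsingleton.elim _ _
    rw [h1]
    exact Scheme.fromSpecStalk_closedPoint
  exact h

/-- S5. A birational morphism is an isomorphism over the points whose local ring dominates a local
ring upstairs. -/
theorem isIso_restrict (M N : Mod K) (f : M.V.X ⟶ N.V.X)
    (hf : M.Realizes N (AlgHom.id ℂ K) f) (U : N.V.X.Opens) (hU : genericPoint N.V.X ∈ U)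
    (h : ∀ x ∈ U, ∃ z : M.V.X, M.loc z ≤ N.loc x) : IsIso (f ∣_ U) := by
  haveI := IsoRestrict.isIso_specE M
  haveI := IsoRestrict.isIso_specE N
  obtain ⟨hf1, hf2⟩ := hf
  rw [IsoRestrict.id_comp] at hf2
  obtain ⟨g, hg1, hg2⟩ := exists_homOn N M (AlgHom.id ℂ K) U hU (fun x hx => by
    obtain ⟨z, hz⟩ := h x hx
    exact ⟨z, fun t ht => hz ht⟩)
  rw [IsoRestrict.id_comp] at hg2
  have hgf : g ≫ f = U.ι := by
    refine homOn_ext N N.V U hU (g ≫ f) U.ι ?_ rfl ?_
    · rw [Category.assoc, hf1, hg1]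
    · rw [← cancel_epi (Spec.map (CommRingCat.ofHom (N.e : N.V.X.functionField →+* K)))]
      have h1 := IsoRestrict.gen_eq N U hU
      rw [Category.assoc] at h1
      rw [h1, ← hf2, ← hg2]
      simp only [Category.assoc]
  have hη : genericPoint M.V.X ∈ f ⁻¹ᵁ U := by
    change f (genericPoint M.V.X) ∈ U
    have hx : ∃ x : Spec (CommRingCat.of K), True := ⟨(⊥ : PrimeSpectrum K), trivial⟩
    obtain ⟨x, -⟩ := hx
    have h1 : f (M.gen x) = N.gen x := by
      rw [← hf2]; rfl
    rw [IsoRestrict.genericPoint_eq, IsoRestrict.genericPoint_eq] at h1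
    rw [h1]
    exact hU
  have hrange : Set.range g ⊆ Set.range (f ⁻¹ᵁ U).ι := by
    rintro _ ⟨x, rfl⟩
    rw [Scheme.Opens.range_ι]
    change f (g x) ∈ U
    have h1 : f (g x) = U.ι x := by
      rw [← hgf]; rfl
    rw [h1]
    exact x.2
  let g' : U.toScheme ⟶ (f ⁻¹ᵁ U).toScheme := IsOpenImmersion.lift (f ⁻¹ᵁ U).ι g hrange
  have hg' : g' ≫ (f ⁻¹ᵁ U).ι = g := IsOpenImmersion.lift_fac _ _ _
  have e1 : g' ≫ (f ∣_ U) = 𝟙 _ := by
    rw [← cancel_mono U.ι, Category.assoc, morphismRestrict_ι, ← Category.assoc, hg', hgf,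
      Category.id_comp]
  have e2 : (f ∣_ U) ≫ g' = 𝟙 _ := by
    rw [← cancel_mono (f ⁻¹ᵁ U).ι, Category.assoc, hg', Category.id_comp]
    refine homOn_ext M M.V (f ⁻¹ᵁ U) hη _ _ ?_ rfl ?_
    · rw [Category.assoc, hg1, ← Category.assoc, morphismRestrict_ι, Category.assoc, hf1]
    · rw [← cancel_epi (Spec.map (CommRingCat.ofHom (M.e : M.V.X.functionField →+* K)))]
      have h1 := IsoRestrict.gen_eq M (f ⁻¹ᵁ U) hη
      have h2 : (Spec.map (CommRingCat.ofHom (M.e : M.V.X.functionField →+* K)) ≫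
          (f ⁻¹ᵁ U).fromSpecStalkOfMem (genericPoint M.V.X) hη) ≫ (f ∣_ U) =
          Spec.map (CommRingCat.ofHom (N.e : N.V.X.functionField →+* K)) ≫
            U.fromSpecStalkOfMem (genericPoint N.V.X) hU := by
        rw [← cancel_mono U.ι, IsoRestrict.gen_eq N U hU, Category.assoc, morphismRestrict_ι,
          ← Category.assoc, h1, hf2]
      have h3 : Spec.map (CommRingCat.ofHom (M.e : M.V.X.functionField →+* K)) ≫
          (f ⁻¹ᵁ U).fromSpecStalkOfMem (genericPoint M.V.X) hη ≫ (f ∣_ U) ≫ g = M.gen := by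
        rw [← Category.assoc, ← Category.assoc, h2, Category.assoc, hg2]
      rw [h3, ← h1, Category.assoc]
  exact ⟨g', e2, e1⟩

end

end Pool.Agent.AHM
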