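import Pool.Agent.AHM.Model

open CategoryTheory AlgebraicGeometry Order

namespace Pool.Agent.AHM

noncomputable section

variable {K : Type} [Field K] [Algebra ℂ K] {L : Type} [Field L] [Algebra ℂ L]

theorem Link.str_eq (V : SmoothProjVar) : V.str = V.X.toSpecΓ ≫ Spec.map V.str.appTop ≫
    Spec.map (Scheme.ΓSpecIso (CommRingCat.of ℂ)).inv := by
  rw [← Category.assoc, ← Scheme.toSpecΓ_naturality, Category.assoc,
    ← SpecMap_ΓSpecIso_hom, ← Spec.map_comp, Iso.inv_hom_id, Spec.map_id,
    Category.comp_id]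

theorem Link.fromSpecStalk_str (V : SmoothProjVar) (z : V.X) :
    V.X.fromSpecStalk z ≫ V.str =
      Spec.map (CommRingCat.ofHom (algebraMap ℂ (V.X.presheaf.stalk z))) := by
  conv_lhs => rw [Link.str_eq V]
  rw [← Category.assoc, Scheme.fromSpecStalk_toSpecΓ, ← Spec.map_comp, ← Spec.map_comp]
  rfl

/-- Composition of partial maps at the generic point. -/
theorem Link.fromFunctionField_comp_partial {X Y Z : Scheme.{0}} [IsIntegral X] [IsIntegral Y]
    (f : X.PartialMap Y) [IsDominant f.hom] (g : Y.PartialMap Z)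
    (s : Spec X.functionField ⟶ Spec Y.functionField)
    (hs : f.fromFunctionField = s ≫ Y.fromSpecStalk (genericPoint Y)) :
    (f.comp g).fromFunctionField = s ≫ g.fromFunctionField := by
  let D : X.Opens := f.domain.ι ''ᵁ f.hom ⁻¹ᵁ g.domain
  have hη : genericPoint X ∈ D :=
    (genericPoint_specializes _).mem_open (f.comp g).domain.2
      (f.comp g).dense_domain.nonempty.choose_spec
  have hηf : genericPoint X ∈ f.domain :=
    (genericPoint_specializes _).mem_open f.domain.2
      f.dense_domain.nonempty.choose_spec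
  have hηg : genericPoint Y ∈ g.domain :=
    (genericPoint_specializes _).mem_open g.domain.2
      g.dense_domain.nonempty.choose_spec
  let h : D.toScheme ⟶ g.domain.toScheme := (f.domain.ι.isoImage _).inv ≫ f.hom ∣_ g.domain
  have hh : h ≫ g.domain.ι = ((f.domain.ι.isoImage (f.hom ⁻¹ᵁ g.domain)).inv ≫
      (f.hom ⁻¹ᵁ g.domain).ι) ≫ f.hom := by
    simp only [h, Category.assoc, morphismRestrict_ι]
  have h1 : D.fromSpecStalkOfMem _ hη ≫ ((f.domain.ι.isoImage (f.hom ⁻¹ᵁ g.domain)).inv ≫
      (f.hom ⁻¹ᵁ g.domain).ι) = f.domain.fromSpecStalkOfMem _ hηf := by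
    rw [← cancel_mono f.domain.ι]
    simp only [Category.assoc]
    rw [Scheme.Hom.isoImage_inv_ι, Scheme.Opens.fromSpecStalkOfMem_ι]
    exact (Scheme.Opens.fromSpecStalkOfMem_ι _ _ _).symm
  have h2 : D.fromSpecStalkOfMem _ hη ≫ h = s ≫ g.domain.fromSpecStalkOfMem _ hηg := by
    rw [← cancel_mono g.domain.ι, Category.assoc, hh, ← Category.assoc, h1, Category.assoc,
      Scheme.Opens.fromSpecStalkOfMem_ι, ← hs]
    rfl
  change D.fromSpecStalkOfMem _ hη ≫ (h ≫ g.hom) = s ≫ (g.domain.fromSpecStalkOfMem _ hηg ≫ g.hom)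
  rw [← Category.assoc, h2, Category.assoc]

theorem Link.fromFunctionField_comp {X Y Z : Scheme.{0}} [IsIntegral X] [IsIntegral Y]
    (f : X ⤏ Y) [f.IsDominant] (g : Y ⤏ Z)
    (s : Spec X.functionField ⟶ Spec Y.functionField)
    (hs : f.fromFunctionField = s ≫ Y.fromSpecStalk (genericPoint Y)) :
    (f.comp g).fromFunctionField = s ≫ g.fromFunctionField := by
  obtain ⟨g, rfl⟩ := g.exists_rep
  rw [Scheme.RationalMap.comp_def, Scheme.RationalMap.fromFunctionField_toRationalMap,
    Scheme.RationalMap.fromFunctionField_toRationalMap]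
  refine Link.fromFunctionField_comp_partial f.representative g s ?_
  rw [← hs, ← Scheme.RationalMap.fromFunctionField_toRationalMap,
    f.toRationalMap_representative]

theorem Link.fromFunctionField_hom {X Y : Scheme.{0}} [IsIntegral X] (f : X ⟶ Y) :
    f.toRationalMap.fromFunctionField = X.fromSpecStalk (genericPoint X) ≫ f := by
  rw [Scheme.RationalMap.fromFunctionField_toRationalMap]
  exact Scheme.PartialMap.fromSpecStalkOfMem_toPartialMap f _

/-- The generic point of the target of a partial isomorphism. -/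
theorem Link.partialIso_generic {Y Y' : Scheme.{0}} [IsIntegral Y] [IsIntegral Y']
    (β : Y.PartialIso Y') : ∃ δ : Y'.functionField ≅ Y.functionField,
      β.toRationalMap.fromFunctionField = Spec.map δ.hom ≫ Y'.fromSpecStalk (genericPoint Y') := by
  have hη : genericPoint Y ∈ β.source :=
    (genericPoint_specializes _).mem_open β.source.2 β.dense_source.nonempty.choose_spec
  let j : β.source.toScheme ⟶ Y' := β.iso.hom ≫ β.target.ι
  haveI : Nonempty β.source.toScheme := ⟨⟨genericPoint Y, hη⟩⟩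
  haveI : IsIntegral β.source.toScheme := isIntegral_of_isOpenImmersion β.source.ι
  have hj : j ⟨genericPoint Y, hη⟩ = genericPoint Y' := by
    have h1 : genericPoint β.source.toScheme = ⟨genericPoint Y, hη⟩ := by
      apply Subtype.ext
      exact genericPoint_eq_of_isOpenImmersion β.source.ι
    rw [← h1]
    exact genericPoint_eq_of_isOpenImmersion j
  let a := inv (β.source.ι.stalkMap ⟨genericPoint Y, hη⟩)
  have hs : genericPoint Y' ⤳ j ⟨genericPoint Y, hη⟩ := specializes_of_eq hj.symm
  have hs' : j ⟨genericPoint Y, hη⟩ ⤳ genericPoint Y' := specializes_of_eq hj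
  let c := Y'.presheaf.stalkSpecializes hs'
  haveI : IsIso c := by
    refine ⟨Y'.presheaf.stalkSpecializes hs, ?_, ?_⟩
    · simp [c]
    · simp [c]
  haveI : IsOpenImmersion j := inferInstanceAs (IsOpenImmersion (β.iso.hom ≫ β.target.ι))
  haveI : IsIso (j.stalkMap ⟨genericPoint Y, hη⟩) := inferInstance
  haveI : IsIso a := inferInstanceAs (IsIso (inv (β.source.ι.stalkMap ⟨genericPoint Y, hη⟩)))
  haveI : IsIso (j.stalkMap ⟨genericPoint Y, hη⟩ ≫ a) := IsIso.comp_isIso
  have hiso : IsIso (c ≫ j.stalkMap ⟨genericPoint Y, hη⟩ ≫ a) := IsIso.comp_isIso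
  let δ : Y'.functionField ⟶ Y.functionField := c ≫ j.stalkMap ⟨genericPoint Y, hη⟩ ≫ a
  have hδ : IsIso δ := hiso
  refine ⟨@asIso _ _ _ _ δ hδ, ?_⟩
  rw [Scheme.RationalMap.fromFunctionField_toRationalMap]
  change β.source.fromSpecStalkOfMem _ hη ≫ j = _
  have e1 : Spec.map c ≫ Y'.fromSpecStalk (genericPoint Y') = Y'.fromSpecStalk _ :=
    Scheme.SpecMap_stalkSpecializes_fromSpecStalk hs'
  have e2 : Spec.map δ ≫ Y'.fromSpecStalk (genericPoint Y') =
      Spec.map a ≫ Spec.map (j.stalkMap ⟨genericPoint Y, hη⟩) ≫ Spec.map c ≫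
        Y'.fromSpecStalk (genericPoint Y') := by
    change Spec.map (c ≫ j.stalkMap ⟨genericPoint Y, hη⟩ ≫ a) ≫ _ = _
    rw [Spec.map_comp, Spec.map_comp, Category.assoc, Category.assoc]
  rw [asIso_hom, e2, e1, Scheme.SpecMap_stalkMap_fromSpecStalk, ← Category.assoc]
  rfl

theorem Link.partialIso_over {Y Y' : SmoothProjVar} (β : Y.X.PartialIso Y'.X)
    (hβ : β.IsOver Y.str Y'.str) :
    β.toRationalMap.fromFunctionField ≫ Y'.str =
      Y.X.fromSpecStalk (genericPoint Y.X) ≫ Y.str := by
  have hη : genericPoint Y.X ∈ β.source :=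
    (genericPoint_specializes _).mem_open β.source.2 β.dense_source.nonempty.choose_spec
  rw [Scheme.RationalMap.fromFunctionField_toRationalMap]
  change (β.source.fromSpecStalkOfMem _ hη ≫ β.iso.hom ≫ β.target.ι) ≫ Y'.str = _
  rw [Category.assoc, Category.assoc, hβ, ← Category.assoc, Scheme.Opens.fromSpecStalkOfMem_ι]

theorem Link.isIso_specE (M : Mod K) :
    IsIso (Spec.map (CommRingCat.ofHom (M.e : M.V.X.functionField →+* K))) := by
  have : CommRingCat.ofHom (M.e : M.V.X.functionField →+* K) =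
      (RingEquiv.toCommRingCatIso (M.e : M.V.X.functionField ≃+* K)).hom := rfl
  rw [this]
  infer_instance

/-- The map of function fields induced by a morphism which realizes `σ`. -/
theorem Link.gen_realizes (M : Mod K) (N : Mod L) (σ : L →ₐ[ℂ] K) (f : M.V.X ⟶ N.V.X)
    (hf : M.Realizes N σ f) :
    M.V.X.fromSpecStalk (genericPoint M.V.X) ≫ f =
      Spec.map (CommRingCat.ofHom ((M.e.symm : K →+* M.V.X.functionField).comp
        ((σ : L →+* K).comp (N.e : N.V.X.functionField →+* L)))) ≫
        N.V.X.fromSpecStalk (genericPoint N.V.X) := by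
  haveI := Link.isIso_specE M
  rw [← cancel_epi (Spec.map (CommRingCat.ofHom (M.e : M.V.X.functionField →+* K))),
    ← Category.assoc, ← Category.assoc, ← Spec.map_comp]
  have h1 : CommRingCat.ofHom ((M.e.symm : K →+* M.V.X.functionField).comp
        ((σ : L →+* K).comp (N.e : N.V.X.functionField →+* L))) ≫
      CommRingCat.ofHom (M.e : M.V.X.functionField →+* K) =
      CommRingCat.ofHom (N.e : N.V.X.functionField →+* L) ≫ CommRingCat.ofHom (σ : L →+* K) := by
    ext t
    exact M.e.apply_symm_apply _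
  rw [h1, Spec.map_comp, Category.assoc]
  exact hf.2

/-- S8. A birational modification of the target which makes the rational map regular is a model of
the same field. -/
theorem exists_realizes (X G : Mod K) (Y : Mod L) (σ : L →ₐ[ℂ] K)
    (π : G.V.X ⟶ X.V.X) [IsDominant π] (hπ : G.Realizes X (AlgHom.id ℂ K) π)
    (φΓ : G.V.X ⟶ Y.V.X) (hφΓ : G.Realizes Y σ φΓ)
    (φ : X.V.X ⤏ Y.V.X) [φ.IsDominant] (hφ : π.toRationalMap.comp φ = φΓ.toRationalMap)
    (Y' : SmoothProjVar) (β : Y.V.X.PartialIso Y'.X) (hβ : β.IsOver Y.V.str Y'.str)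
    (ψ : X.V.X ⟶ Y'.X) (hψ : ψ ≫ Y'.str = X.V.str)
    (h : φ.comp β.toRationalMap = ψ.toRationalMap) :
    ∃ e' : Y'.X.functionField ≃ₐ[ℂ] L, X.Realizes ⟨Y', e'⟩ σ ψ := by
  haveI := Link.isIso_specE G
  haveI := Link.isIso_specE X
  obtain ⟨δ, hδ⟩ := Link.partialIso_generic β
  -- the isomorphism is over `ℂ`
  have hδc : CommRingCat.ofHom (algebraMap ℂ Y'.X.functionField) ≫ δ.hom =
      CommRingCat.ofHom (algebraMap ℂ Y.V.X.functionField) := by
    apply Spec.map_injective
    rw [Spec.map_comp]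
    have h1 := Link.partialIso_over β hβ
    rw [hδ, Category.assoc, Link.fromSpecStalk_str, Link.fromSpecStalk_str] at h1
    exact h1
  let e₀ : Y'.X.functionField ≃+* Y.V.X.functionField := δ.commRingCatIsoToRingEquiv
  have he₀ : ∀ t, e₀ t = δ.hom.hom t := fun t => rfl
  have he₀c : ∀ c : ℂ, e₀ (algebraMap ℂ Y'.X.functionField c) =
      algebraMap ℂ Y.V.X.functionField c := by
    intro c
    have := congrArg (fun f => f.hom c) hδc
    exact this
  let e' : Y'.X.functionField ≃ₐ[ℂ] L := (AlgEquiv.ofRingEquiv (f := e₀) he₀c).trans Y.e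
  refine ⟨e', hψ, ?_⟩
  -- the function field map of `φ`
  have h1 := Link.gen_realizes G X (AlgHom.id ℂ K) π hπ
  have h2 := Link.gen_realizes G Y σ φΓ hφΓ
  have h3 := Link.fromFunctionField_comp π.toRationalMap φ _
    ((Link.fromFunctionField_hom π).trans h1)
  rw [hφ, Link.fromFunctionField_hom, h2] at h3
  have h4 : φ.fromFunctionField = Spec.map (CommRingCat.ofHom
      ((X.e.symm : K →+* X.V.X.functionField).comp
        ((σ : L →+* K).comp (Y.e : Y.V.X.functionField →+* L)))) ≫
        Y.V.X.fromSpecStalk (genericPoint Y.V.X) := by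
    -- cancel the isomorphism
    have h6 : CommRingCat.ofHom ((G.e.symm : K →+* G.V.X.functionField).comp
        (((AlgHom.id ℂ K : K →ₐ[ℂ] K) : K →+* K).comp (X.e : X.V.X.functionField →+* K))) ≫
        CommRingCat.ofHom ((X.e.symm : K →+* X.V.X.functionField).comp
        (G.e : G.V.X.functionField →+* K)) = 𝟙 _ := by
      ext t
      change X.e.symm (G.e (G.e.symm (X.e t))) = t
      simp
    have h7 : φ.fromFunctionField = Spec.map (CommRingCat.ofHom
        ((X.e.symm : K →+* X.V.X.functionField).comp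
        (G.e : G.V.X.functionField →+* K))) ≫
        Spec.map (CommRingCat.ofHom ((G.e.symm : K →+* G.V.X.functionField).comp
        (((AlgHom.id ℂ K : K →ₐ[ℂ] K) : K →+* K).comp (X.e : X.V.X.functionField →+* K)))) ≫
        φ.fromFunctionField := by
      rw [← Category.assoc, ← Spec.map_comp, h6, Spec.map_id, Category.id_comp]
    rw [h7, ← h3, ← Category.assoc, ← Spec.map_comp]
    congr 2
    ext t
    change X.e.symm (G.e (G.e.symm (σ (Y.e t)))) = X.e.symm (σ (Y.e t))
    simp
  have h8 := Link.fromFunctionField_comp φ β.toRationalMap _ h4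
  rw [h, Link.fromFunctionField_hom, hδ] at h8
  change (Spec.map (CommRingCat.ofHom (X.e : X.V.X.functionField →+* K)) ≫
    X.V.X.fromSpecStalk (genericPoint X.V.X)) ≫ ψ = _
  rw [Category.assoc, h8]
  change _ = Spec.map (CommRingCat.ofHom (σ : L →+* K)) ≫
    (Spec.map (CommRingCat.ofHom (e' : Y'.X.functionField →+* L)) ≫
      Y'.X.fromSpecStalk (genericPoint Y'.X))
  rw [← Category.assoc, ← Category.assoc, ← Category.assoc, ← Spec.map_comp, ← Spec.map_comp,
    ← Spec.map_comp]
  congr 2
  ext t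
  change X.e (X.e.symm (σ (Y.e (δ.hom.hom t)))) = σ (Y.e (e₀ t))
  rw [X.e.apply_symm_apply]
  rfl

end

end Pool.Agent.AHM
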