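import Pool.Agent.AHM.Model
import Pool.Agent.AHM.CurvePoly

open CategoryTheory AlgebraicGeometry Order

namespace Pool.Agent.AHM

noncomputable section

variable {K : Type} [Field K] [Algebra ℂ K] {L : Type} [Field L] [Algebra ℂ L]

theorem noCoheight_r_ne_zero {d : Quad K} (hd : d.IsData) : d.r ≠ 0 := by
  intro h
  have h1 : MvPolynomial.aeval ![d.a, d.r, d.s] (MvPolynomial.X 1 : MvPolynomial (Fin 3) ℂ) =
      MvPolynomial.aeval ![d.a, d.r, d.s] (0 : MvPolynomial (Fin 3) ℂ) := by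
    rw [map_zero, MvPolynomial.aeval_X]
    exact h
  exact MvPolynomial.X_ne_zero _ (hd.ind h1)

theorem mem_chartX_iff (d : Quad K) (t : K) :
    t ∈ d.chartX ↔ ∃ A : MvPolynomial (Fin 4) ℂ,
      MvPolynomial.aeval ![d.a, d.b, d.r, d.s] A = t := by
  have h : ({d.a, d.b, d.r, d.s} : Set K) = Set.range ![d.a, d.b, d.r, d.s] := by
    simp only [Matrix.range_cons, Matrix.range_empty, Set.union_empty, Set.singleton_union]
  rw [Quad.chartX, h, Algebra.adjoin_range_eq_range_aeval]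
  exact AlgHom.mem_range _

open MvPolynomial in
/-- The substitution `X₂ ↦ 0`. -/
def killX2 : MvPolynomial (Fin 4) ℂ →ₐ[ℂ] MvPolynomial (Fin 4) ℂ :=
  MvPolynomial.aeval ![X 0, X 1, 0, X 3]

open MvPolynomial in
theorem X2_dvd_sub_killX2 (A : MvPolynomial (Fin 4) ℂ) : X 2 ∣ A - killX2 A := by
  have hX0 : killX2 (X 0) = X 0 := by simp [killX2]
  have hX1 : killX2 (X 1) = X 1 := by simp [killX2]
  have hX2 : killX2 (X 2) = 0 := by simp [killX2]
  have hX3 : killX2 (X 3) = X 3 := by simp [killX2]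
  induction A using MvPolynomial.induction_on with
  | C c =>
    have : killX2 (C c) = C c := by
      rw [← MvPolynomial.algebraMap_eq, AlgHom.commutes]
    rw [this, sub_self]
    exact dvd_zero _
  | add A B hA hB =>
    rw [map_add]
    have : A + B - (killX2 A + killX2 B) = (A - killX2 A) + (B - killX2 B) := by ring
    rw [this]
    exact dvd_add hA hB
  | mul_X A i hA =>
    rw [map_mul]
    have key : ∀ j : Fin 4, X 2 ∣ (X j : MvPolynomial (Fin 4) ℂ) - killX2 (X j) := by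
      intro j
      fin_cases j
      · show X 2 ∣ (X 0 : MvPolynomial (Fin 4) ℂ) - killX2 (X 0)
        rw [hX0, sub_self]; exact dvd_zero _
      · show X 2 ∣ (X 1 : MvPolynomial (Fin 4) ℂ) - killX2 (X 1)
        rw [hX1, sub_self]; exact dvd_zero _
      · show X 2 ∣ (X 2 : MvPolynomial (Fin 4) ℂ) - killX2 (X 2)
        rw [hX2, sub_zero]
      · show X 2 ∣ (X 3 : MvPolynomial (Fin 4) ℂ) - killX2 (X 3)
        rw [hX3, sub_self]; exact dvd_zero _
    have : A * X i - killX2 A * killX2 (X i) =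
        (A - killX2 A) * X i + killX2 A * (X i - killX2 (X i)) := by ring
    rw [this]
    exact dvd_add (dvd_mul_of_dvd_left hA _) (dvd_mul_of_dvd_right (key i) _)

open MvPolynomial in
/-- If `s ^ n v = r u` in `ℂ[a, b, r, s]` then `r` divides `v`. -/
theorem r_dvd_of_mul {d : Quad K} (hd : d.IsData) (n : ℕ) {u v : K} (hu : u ∈ d.chartX)
    (hv : v ∈ d.chartX) (h : d.s ^ n * v = d.r * u) : ∃ w ∈ d.chartX, v = d.r * w := by
  obtain ⟨U, rfl⟩ := (mem_chartX_iff d u).1 hu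
  obtain ⟨V, rfl⟩ := (mem_chartX_iff d v).1 hv
  have hX2 : MvPolynomial.aeval ![d.a, d.b, d.r, d.s]
        (MvPolynomial.X 2 : MvPolynomial (Fin 4) ℂ) = d.r := by simp
  have hX3 : MvPolynomial.aeval ![d.a, d.b, d.r, d.s]
        (MvPolynomial.X 3 : MvPolynomial (Fin 4) ℂ) = d.s := by simp
  have h1 : curvePoly ∣ X 3 ^ n * V - X 2 * U := by
    rw [← aeval_eq_zero_iff hd, map_sub, map_mul, map_mul, map_pow, hX2, hX3, h, sub_self]
  obtain ⟨Q, hQ⟩ := h1
  have hk2 : killX2 (X 2) = 0 := by simp [killX2]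
  have hk3 : killX2 (X 3) = X 3 := by simp [killX2]
  have hkc : killX2 curvePoly = curvePoly := by
    have hk0 : killX2 (X 0) = X 0 := by simp [killX2]
    have hk1 : killX2 (X 1) = X 1 := by simp [killX2]
    simp only [curvePoly, map_sub, map_add, map_mul, map_pow, map_one, map_ofNat, hk0, hk1]
  have h2 := congrArg killX2 hQ
  rw [map_sub, map_mul, map_mul, map_mul, map_pow, hk2, hk3, hkc, zero_mul, sub_zero] at h2
  obtain ⟨Q', hQ'⟩ := curvePoly_dvd_of_X_mul (i := 3) (by decide) n ⟨_, h2⟩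
  obtain ⟨W, hW⟩ := X2_dvd_sub_killX2 V
  refine ⟨MvPolynomial.aeval ![d.a, d.b, d.r, d.s] W, (mem_chartX_iff d _).2 ⟨W, rfl⟩, ?_⟩
  have h3 : V = X 2 * W + curvePoly * Q' := by rw [← hW, ← hQ']; ring
  have hc : MvPolynomial.aeval ![d.a, d.b, d.r, d.s] curvePoly = 0 :=
    (aeval_eq_zero_iff hd _).2 dvd_rfl
  have h4 := congrArg (MvPolynomial.aeval ![d.a, d.b, d.r, d.s]) h3
  rw [map_add, map_mul, map_mul, hc, hX2, zero_mul, add_zero] at h4
  exact h4

/-- S10. `r, s` cannot both be non-units at a point of codimension one. -/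
theorem not_coheight_one (M : Mod K) (x : M.V.X) (hx : coheight x = 1) (d : Quad K)
    (hd : d.IsData) (h1 : d.chartX ≤ M.loc x) (h2 : IsLocOf (M.loc x) d.chartX)
    (hr : d.r⁻¹ ∉ M.loc x) (hs : d.s⁻¹ ∉ M.loc x) : False := by
  have hdim : Ring.KrullDimLE 1 (M.V.X.presheaf.stalk x) := krullDimLE_of_coheight_le hx.le
  have hrm : d.r ∈ d.chartX := Algebra.subset_adjoin (by simp)
  have hsm : d.s ∈ d.chartX := Algebra.subset_adjoin (by simp)
  have hr0 := noCoheight_r_ne_zero hd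
  obtain ⟨gr, hgr⟩ := Mod.mem_loc.1 (h1 hrm)
  obtain ⟨gs, hgs⟩ := Mod.mem_loc.1 (h1 hsm)
  have hnu : ∀ (g : M.V.X.presheaf.stalk x) (t : K), M.stalkEmb x g = t → t⁻¹ ∉ M.loc x →
      g ∈ IsLocalRing.maximalIdeal (M.V.X.presheaf.stalk x) := by
    intro g t hg ht
    rw [IsLocalRing.mem_maximalIdeal, mem_nonunits_iff]
    intro hu
    obtain ⟨g', hg'⟩ := hu.exists_right_inv
    apply ht
    rw [Mod.mem_loc]
    refine ⟨g', ?_⟩
    have h3 := congrArg (M.stalkEmb x) hg'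
    rw [map_mul, map_one, hg] at h3
    exact eq_inv_of_mul_eq_one_right h3
  have hgrm := hnu gr _ hgr hr
  have hgsm := hnu gs _ hgs hs
  have hgr0 : gr ≠ 0 := by
    rintro rfl
    rw [map_zero] at hgr
    exact hr0 hgr.symm
  have hrad : gs ∈ (Ideal.span {gr}).radical := by
    rw [Ideal.radical_eq_sInf, Submodule.mem_sInf]
    rintro (J : Ideal (M.V.X.presheaf.stalk x)) ⟨hJ1, hJ2⟩
    have hJ0 : J ≠ ⊥ := by
      rintro rfl
      have h3 : gr ∈ (⊥ : Ideal (M.V.X.presheaf.stalk x)) :=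
        hJ1 (Ideal.subset_span (Set.mem_singleton _))
      exact hgr0 ((Submodule.mem_bot _).1 h3)
    have hJm : J.IsMaximal := hJ2.isMaximal_of_ne_bot hJ0
    rw [IsLocalRing.eq_maximalIdeal hJm]
    exact hgsm
  obtain ⟨n, hn⟩ := hrad
  rw [Ideal.mem_span_singleton'] at hn
  obtain ⟨g, hg⟩ := hn
  have h3 := congrArg (M.stalkEmb x) hg
  rw [map_mul, map_pow, hgr, hgs] at h3
  obtain ⟨u, hu, v, hv, hv0, hvi, huv⟩ := h2 (M.stalkEmb x g) ⟨g, rfl⟩
  rw [huv] at h3
  have h4 : d.s ^ n * v = d.r * u := by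
    rw [← h3]
    field_simp
  obtain ⟨w, hw, hvw⟩ := r_dvd_of_mul hd n hu hv h4
  apply hr
  have h5 : d.r⁻¹ = w * v⁻¹ := by
    have hw0 : w ≠ 0 := by
      rintro rfl
      rw [mul_zero] at hvw
      exact hv0 hvw
    rw [hvw, mul_inv, mul_comm d.r⁻¹, mul_inv_cancel_left₀ hw0]
  rw [h5]
  exact Subalgebra.mul_mem _ (h1 hw) hvi

end

end Pool.Agent.AHM
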