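import Pool.Agent.AHM.Stalk
import Pool.Agent.AHM.Coords
import Pool.Agent.AHM.FamX
import Pool.Agent.AHM.FibreLink
import Pool.Agent.AHM.Core

open CategoryTheory AlgebraicGeometry Order

namespace Pool.Agent.AHM

noncomputable section

variable {K : Type} [Field K] [Algebra ℂ K] {L : Type} [Field L] [Algebra ℂ L]

/-! ### The local ring of the point `a = b = 0, r = c₁, s = c₂` -/

theorem NoRegular.aeval_ne_zero {d : Quad K} (hd : d.IsData) {c₁ c₂ : ℂ}
    {B : MvPolynomial (Fin 4) ℂ} (hB : MvPolynomial.eval ![0, 0, c₁, c₂] B ≠ 0) :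
    MvPolynomial.aeval ![d.a, d.b, d.r, d.s] B ≠ 0 := by
  intro h
  obtain ⟨C, rfl⟩ := (aeval_eq_zero_iff hd B).1 h
  apply hB
  simp [curvePoly]

/-- The local ring at the point `a = b = 0, r = c₁, s = c₂`. -/
def NoRegular.ptRing (d : Quad K) (c₁ c₂ : ℂ) : Subalgebra ℂ K where
  carrier := {w | ∃ A B : MvPolynomial (Fin 4) ℂ, MvPolynomial.eval ![0, 0, c₁, c₂] B ≠ 0 ∧
    w * MvPolynomial.aeval ![d.a, d.b, d.r, d.s] B =
      MvPolynomial.aeval ![d.a, d.b, d.r, d.s] A}
  mul_mem' := by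
    rintro w w' ⟨A, B, hB, h⟩ ⟨A', B', hB', h'⟩
    refine ⟨A * A', B * B', ?_, ?_⟩
    · rw [map_mul]; exact mul_ne_zero hB hB'
    · rw [map_mul, map_mul, ← h, ← h']; ring
  add_mem' := by
    rintro w w' ⟨A, B, hB, h⟩ ⟨A', B', hB', h'⟩
    refine ⟨A * B' + A' * B, B * B', ?_, ?_⟩
    · rw [map_mul]; exact mul_ne_zero hB hB'
    · rw [map_mul, map_add, map_mul, map_mul, ← h, ← h']; ring
  algebraMap_mem' := by
    intro r
    refine ⟨MvPolynomial.C r, 1, ?_, ?_⟩
    · simp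
    · simp [MvPolynomial.algHom_C]

theorem NoRegular.chartX_le (d : Quad K) (c₁ c₂ : ℂ) :
    d.chartX ≤ NoRegular.ptRing d c₁ c₂ := by
  refine Algebra.adjoin_le ?_
  rintro t (rfl | rfl | rfl | rfl)
  · exact ⟨MvPolynomial.X 0, 1, by simp, by simp⟩
  · exact ⟨MvPolynomial.X 1, 1, by simp, by simp⟩
  · exact ⟨MvPolynomial.X 2, 1, by simp, by simp⟩
  · exact ⟨MvPolynomial.X 3, 1, by simp, by simp⟩

theorem NoRegular.isLocalRing_ptRing {d : Quad K} (hd : d.IsData) (c₁ c₂ : ℂ) :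
    IsLocalRing (NoRegular.ptRing d c₁ c₂) := by
  refine IsLocalRing.of_isUnit_or_isUnit_one_sub_self fun w => ?_
  obtain ⟨w, A, B, hB, h⟩ := w
  have hB0 := NoRegular.aeval_ne_zero hd hB
  have key : ∀ (w : K) (A : MvPolynomial (Fin 4) ℂ)
      (hw : w ∈ NoRegular.ptRing d c₁ c₂) (_ : w * MvPolynomial.aeval ![d.a, d.b, d.r, d.s] B =
      MvPolynomial.aeval ![d.a, d.b, d.r, d.s] A)
      (_ : MvPolynomial.eval ![0, 0, c₁, c₂] A ≠ 0),
      IsUnit (⟨w, hw⟩ : NoRegular.ptRing d c₁ c₂) := by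
    intro w A hw h hA
    have hA0 := NoRegular.aeval_ne_zero hd hA
    have hw0 : w ≠ 0 := by
      rintro rfl
      rw [zero_mul] at h
      exact hA0 h.symm
    refine IsUnit.of_mul_eq_one ⟨w⁻¹, B, A, hA, ?_⟩ ?_
    · rw [← h]; field_simp
    · ext; simp [hw0]
  by_cases hA : MvPolynomial.eval ![0, 0, c₁, c₂] A = 0
  · right
    have h1 : (1 - w) * MvPolynomial.aeval ![d.a, d.b, d.r, d.s] B =
        MvPolynomial.aeval ![d.a, d.b, d.r, d.s] (B - A) := by
      rw [map_sub, ← h]; ring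
    have h2 : MvPolynomial.eval ![0, 0, c₁, c₂] (B - A) ≠ 0 := by
      rw [map_sub, hA, sub_zero]; exact hB
    exact key (1 - w) (B - A) ⟨B - A, B, hB, h1⟩ h1 h2
  · left
    exact key w A _ h hA

/-! ### The field of functions on `ℙ¹ × ℙ¹` -/

open IntermediateField.algebraAdjoinAdjoin in
theorem NoRegular.exists_theta {P : Pair L} (hP : P.IsPair) :
    ∃ (E : Type) (_ : Field E) (_ : Algebra ℂ E) (ρ τ : E) (θ : L →ₐ[ℂ] E),
      AlgebraicIndependent ℂ ![ρ, τ] ∧ θ P.p = ρ * τ ∧ θ P.q = ρ / τ := by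
  have hinj := hP.ind
  have hp0 : P.p ≠ 0 := by simpa using hinj.ne_zero 0
  have hq0 : P.q ≠ 0 := by simpa using hinj.ne_zero 1
  let E := AlgebraicClosure L
  let θ : L →ₐ[ℂ] E := IsScalarTower.toAlgHom ℂ L E
  obtain ⟨ρ, hρ⟩ := IsAlgClosed.exists_pow_nat_eq (θ (P.p * P.q)) (n := 2) (by norm_num)
  have hp0' : θ P.p ≠ 0 := (map_ne_zero θ).2 hp0
  have hq0' : θ P.q ≠ 0 := (map_ne_zero θ).2 hq0
  have hρ0 : ρ ≠ 0 := by
    rintro rfl
    rw [map_mul] at hρ
    exact mul_ne_zero hp0' hq0' (by rw [← hρ]; simp)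
  let τ := ρ / θ P.q
  have hτ0 : τ ≠ 0 := div_ne_zero hρ0 hq0'
  have e1 : θ P.p = ρ * τ := by
    have : ρ * τ = ρ ^ 2 / θ P.q := by simp only [τ]; ring
    rw [this, hρ, map_mul, mul_div_assoc, div_self hq0', mul_one]
  have e2 : θ P.q = ρ / τ := by simp only [τ]; rw [div_div_cancel₀ hρ0]
  refine ⟨E, inferInstance, inferInstance, ρ, τ, θ, ?_, e1, e2⟩
  -- `E` is algebraic over `ℂ[ρ, τ]`
  have halg : Algebra.IsAlgebraic (Algebra.adjoin ℂ (Set.range ![ρ, τ])) E := by
    let F₀ := IntermediateField.adjoin ℂ (Set.range ![ρ, τ])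
    have hρF : ρ ∈ F₀ := IntermediateField.subset_adjoin _ _ ⟨0, rfl⟩
    have hτF : τ ∈ F₀ := IntermediateField.subset_adjoin _ _ ⟨1, rfl⟩
    have hL : ∀ t : L, θ t ∈ F₀ := by
      have h1 : (⊤ : IntermediateField ℂ L) ≤ F₀.comap θ := by
        rw [← hP.gen, IntermediateField.adjoin_le_iff]
        rintro t (rfl | rfl)
        · change θ P.p ∈ F₀
          rw [e1]; exact mul_mem hρF hτF
        · change θ P.q ∈ F₀
          rw [e2]; exact div_mem hρF hτF
      intro t
      exact h1 (IntermediateField.mem_top : t ∈ ⊤)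
    haveI : Algebra.IsAlgebraic F₀ E := by
      refine ⟨fun x => ?_⟩
      obtain ⟨f, hf, hfx⟩ := (AlgebraicClosure.isAlgebraic L).isAlgebraic x
      let g : L →+* F₀ :=
        { toFun := fun t => ⟨θ t, hL t⟩
          map_one' := by ext; simp
          map_mul' := by intro a b; ext; simp
          map_zero' := by ext; simp
          map_add' := by intro a b; ext; simp }
      refine ⟨f.map g, (Polynomial.map_ne_zero_iff g.injective).2 hf, ?_⟩
      rw [Polynomial.aeval_def, Polynomial.eval₂_map]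
      exact hfx
    exact Algebra.IsAlgebraic.trans (Algebra.adjoin ℂ (Set.range ![ρ, τ])) F₀ E
  have hcard : Cardinal.mk (Fin 2) ≤ Algebra.trdeg ℂ E := by
    have h1 : AlgebraicIndependent ℂ (θ ∘ ![P.p, P.q]) := hinj.map' θ.toRingHom.injective
    exact h1.cardinalMk_le_trdeg
  exact (Algebra.IsAlgebraic.isTranscendenceBasis_of_le_trdeg_of_finite ℂ ![ρ, τ] hcard).1

/-- C8. No smooth projective model of `L = ℂ(p, q)` receives a morphism from `X`. -/
theorem no_regular_model (X : Mod K) (N : Mod L) (σ : L →ₐ[ℂ] K) {d : Quad K} (hd : d.IsData)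
    (P : Pair L) (hP : P.IsPair) (hPd : P.map σ = d.pair) (hX : IsModelOf X (famX d))
    (ψ : X.V.X ⟶ N.V.X) (hψ : X.Realizes N σ ψ) : False := by
  obtain ⟨E, _, _, ρ, τ, θ, hind, hp, hq⟩ := NoRegular.exists_theta hP
  obtain ⟨n, y, hy1, hy2⟩ := exists_coords N
  obtain ⟨c, hc⟩ := IsAlgClosed.exists_pow_nat_eq (2 : ℂ) (n := 2) (by norm_num)
  have hθ : ∀ k, θ (y k) ≠ 0 ↔ y k ≠ 0 := fun k => (map_ne_zero θ)
  refine core hind (fun i => θ (y i)) ?_ ?_ ?_
  · -- base point freeness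
    intro u v hu hv x z
    obtain ⟨k, hk⟩ : ∃ k : Bool, u = if k then ρ⁻¹ else ρ := by
      rcases hu with h | h
      · exact ⟨false, by simpa using h⟩
      · exact ⟨true, by simpa using h⟩
    obtain ⟨l, hl⟩ : ∃ l : Bool, v = if l then τ⁻¹ else τ := by
      rcases hv with h | h
      · exact ⟨false, by simpa using h⟩
      · exact ⟨true, by simpa using h⟩
    have hdd : (d.tw false false k l false).IsData := hd.tw false false k l false
    obtain ⟨k', hk'⟩ := famX_chart hd false false k l false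
    obtain ⟨w, hw⟩ := hX.center k' (NoRegular.ptRing (d.tw false false k l false) (c * x) (c * z))
      (NoRegular.isLocalRing_ptRing hdd _ _)
      (by rw [hk']; exact NoRegular.chartX_le _ _ _)
    obtain ⟨k₀, hk₀, hi⟩ := hy1 (ψ w)
    refine ⟨k₀, (hθ k₀).2 hk₀, fun i => ?_⟩
    have h1 := hw (map_mem_loc X N σ ψ hψ w (hi i))
    have h2 := fibre_link hd σ P hP hPd c hc ρ τ hind θ hp hq k l u v hk hl x z (y i / y k₀) h1
    rwa [map_div₀] at h2
  · -- generation
    intro k hk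
    have hk0 := (hθ k).1 hk
    have h1 := congrArg (IntermediateField.map θ) (hy2 k hk0).2
    have h2 : θ '' (Set.range fun i => y i / y k) = Set.range fun i => θ (y i) / θ (y k) := by
      rw [← Set.range_comp]
      congr 1
      ext i
      simp
    have h3 := congrArg (IntermediateField.map θ) hP.gen
    have h4 : θ '' ({P.p, P.q} : Set L) = {ρ * τ, ρ / τ} := by
      rw [Set.image_pair, hp, hq]
    rw [IntermediateField.adjoin_map] at h1 h3
    rw [← h4, h3, ← h1, h2]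
  · -- smoothness
    intro k hk
    have hk0 := (hθ k).1 hk
    have h2 : θ '' (Set.range fun i => y i / y k) = Set.range fun i => θ (y i) / θ (y k) := by
      rw [← Set.range_comp]
      congr 1
      ext i
      simp
    have h3 : (Algebra.adjoin ℂ (Set.range fun i => y i / y k)).map θ =
        Algebra.adjoin ℂ (Set.range fun i => θ (y i) / θ (y k)) := by
      rw [← h2, AlgHom.map_adjoin]
    rw [← h3]
    haveI := (hy2 k hk0).1
    exact Algebra.Smooth.of_equiv ((Algebra.adjoin ℂ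
      (Set.range fun i => y i / y k)).equivMapOfInjective θ θ.toRingHom.injective)

end

end Pool.Agent.AHM
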