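import Pool.Agent.AHM.Forms
import Pool.Agent.AHM.DiffLoc

namespace Pool.Agent.AHM

noncomputable section

variable {K : Type} [Field K] [Algebra ℂ K] {L : Type} [Field L] [Algebra ℂ L]

/-! A7. Smoothness and local coordinates on the charts of `Y`. -/

open scoped IntermediateField.algebraAdjoinAdjoin in
/-- Two elements which generate a field of transcendence degree two are algebraically
independent. -/
theorem smoothY_ind {x y u v : K} (hind : AlgebraicIndependent ℂ ![x, y])
    (hgen : IntermediateField.adjoin ℂ ({u, v} : Set K) = ⊤) :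
    AlgebraicIndependent ℂ ![u, v] := by
  have hr : Set.range ![u, v] = {u, v} := by
    rw [Matrix.range_cons, Matrix.range_cons, Matrix.range_empty, Set.union_empty]
    rfl
  have h1 : Algebra.IsAlgebraic (Algebra.adjoin ℂ (Set.range ![u, v])) K := by
    rw [hr]
    have h2 : Algebra.IsAlgebraic (Algebra.adjoin ℂ ({u, v} : Set K))
      (IntermediateField.adjoin ℂ ({u, v} : Set K)) := inferInstance
    constructor
    intro z
    have hz : z ∈ IntermediateField.adjoin ℂ ({u, v} : Set K) := by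
      rw [hgen]
      trivial
    obtain ⟨p, hp0, hp⟩ := h2.isAlgebraic ⟨z, hz⟩
    refine ⟨p, hp0, ?_⟩
    have h3 := congrArg (algebraMap (IntermediateField.adjoin ℂ ({u, v} : Set K)) K) hp
    rw [map_zero, ← Polynomial.aeval_algebraMap_apply] at h3
    exact h3
  refine (Algebra.IsAlgebraic.isTranscendenceBasis_of_le_trdeg_of_finite ℂ ![u, v] ?_).1
  exact hind.cardinalMk_le_trdeg

theorem chartY_ind {P : Pair K} (hP : P.IsPair) :
    AlgebraicIndependent ℂ ![P.p * P.q, P.q⁻¹] := by
  refine smoothY_ind hP.ind ?_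
  have hq : P.q ≠ 0 := fun h => (hP.ind.transcendental 1) (by
    change IsAlgebraic ℂ P.q
    rw [h]
    exact isAlgebraic_zero)
  rw [eq_top_iff, ← hP.gen, IntermediateField.adjoin_le_iff]
  have hu : P.p * P.q ∈ IntermediateField.adjoin ℂ ({P.p * P.q, P.q⁻¹} : Set K) :=
    IntermediateField.subset_adjoin _ _ (Set.mem_insert _ _)
  have hv : P.q⁻¹ ∈ IntermediateField.adjoin ℂ ({P.p * P.q, P.q⁻¹} : Set K) :=
    IntermediateField.subset_adjoin _ _ (Set.mem_insert_of_mem _ rfl)
  rintro z (rfl | rfl)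
  · have h := mul_mem hu hv
    rwa [mul_assoc, mul_inv_cancel₀ hq, mul_one] at h
  · have h := inv_mem hv
    rwa [inv_inv] at h

theorem chartY_smooth {P : Pair K} (hP : P.IsPair) : Algebra.Smooth ℂ P.chartY := by
  have hind := chartY_ind hP
  have h : Algebra.adjoin ℂ (Set.range ![P.p * P.q, P.q⁻¹]) = P.chartY := by
    rw [Matrix.range_cons, Matrix.range_cons, Matrix.range_empty, Set.union_empty]
    rfl
  rw [← h]
  have h1 : Algebra.Smooth ℂ (MvPolynomial (Fin 2) ℂ) := ⟨inferInstance, inferInstance⟩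
  exact Algebra.Smooth.of_equiv hind.aevalEquiv

theorem chartY_coords {P : Pair K} (hP : P.IsPair) (O : Type) [CommRing O] [Algebra ℂ O]
    [IsLocalRing O] (j : O →ₐ[ℂ] K) (hj : Function.Injective j) (h1 : P.chartY ≤ j.range)
    (h2 : IsLocOf j.range P.chartY) :
    ∃ u v : O, j u = P.p * P.q ∧ j v = P.q⁻¹ ∧ IsDBasis O ![u, v] := by
  obtain ⟨u, hu⟩ := h1 (Algebra.subset_adjoin (Set.mem_insert _ _) : P.p * P.q ∈ P.chartY)
  obtain ⟨v, hv⟩ := h1 (Algebra.subset_adjoin (Set.mem_insert_of_mem _ rfl) : P.q⁻¹ ∈ P.chartY)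
  have hu' : j u = P.p * P.q := hu
  have hv' : j v = P.q⁻¹ := hv
  refine ⟨u, v, hu', hv', ?_, ?_⟩
  · apply diffLoc_linearIndependent O j hj ![u, v]
    convert chartY_ind hP using 1
    funext i
    fin_cases i
    · exact hu'
    · exact hv'
  · apply diffLoc_span {P.p * P.q, P.q⁻¹} O j hj h1 h2
    rintro x (hx | hx)
    · have : x = u := hj (hx.trans hu'.symm)
      rw [this]
      exact Submodule.subset_span ⟨0, rfl⟩
    · have : x = v := hj (hx.trans hv'.symm)
      rw [this]
      exact Submodule.subset_span ⟨1, rfl⟩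

end

end Pool.Agent.AHM
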