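import Pool.Agent.AHM.Model

open CategoryTheory AlgebraicGeometry Order

namespace Pool.Agent.AHM

noncomputable section

variable {K : Type} [Field K] [Algebra ℂ K] {L : Type} [Field L] [Algebra ℂ L]

/-! S4. Local rings and morphisms. -/

theorem stalk_SpecMap_stalkEmb (M : Mod K) (z : M.V.X) :
    Spec.map (CommRingCat.ofHom (M.stalkEmb z : M.V.X.presheaf.stalk z →+* K)) ≫
      M.V.X.fromSpecStalk z = M.gen := by
  have h : CommRingCat.ofHom (M.stalkEmb z : M.V.X.presheaf.stalk z →+* K) =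
      M.V.X.presheaf.stalkSpecializes ((genericPoint_spec M.V.X).specializes trivial) ≫
        CommRingCat.ofHom (M.e : M.V.X.functionField →+* K) := by
    ext g
    rfl
  rw [h, Spec.map_comp, Category.assoc, Scheme.SpecMap_stalkSpecializes_fromSpecStalk]
  rfl

theorem stalkEmb_stalkMap (M : Mod K) (N : Mod L) (σ : L →ₐ[ℂ] K) (f : M.V.X ⟶ N.V.X)
    (hf : M.Realizes N σ f) (z : M.V.X) (g : N.V.X.presheaf.stalk (f z)) :
    M.stalkEmb z ((f.stalkMap z).hom g) = σ (N.stalkEmb (f z) g) := by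
  have h1 : Spec.map (f.stalkMap z ≫
        CommRingCat.ofHom (M.stalkEmb z : M.V.X.presheaf.stalk z →+* K)) ≫
        N.V.X.fromSpecStalk (f z) =
      Spec.map (CommRingCat.ofHom (N.stalkEmb (f z) : N.V.X.presheaf.stalk (f z) →+* L) ≫
        CommRingCat.ofHom (σ : L →+* K)) ≫ N.V.X.fromSpecStalk (f z) := by
    rw [Spec.map_comp, Spec.map_comp, Category.assoc, Category.assoc,
      stalk_SpecMap_stalkEmb, Scheme.SpecMap_stalkMap_fromSpecStalk, ← Category.assoc]
    exact (congrArg (fun F => F ≫ f) (stalk_SpecMap_stalkEmb M z)).trans hf.2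
  have h2 := Spec.map_injective ((cancel_mono _).mp h1)
  exact congrArg (fun F => F.hom g) h2

theorem map_mem_loc (M : Mod K) (N : Mod L) (σ : L →ₐ[ℂ] K) (f : M.V.X ⟶ N.V.X)
    (hf : M.Realizes N σ f) (z : M.V.X) {t : L} (ht : t ∈ N.loc (f z)) : σ t ∈ M.loc z := by
  obtain ⟨g, rfl⟩ := Mod.mem_loc.mp ht
  exact Mod.mem_loc.mpr ⟨_, stalkEmb_stalkMap M N σ f hf z g⟩

theorem isUnit_stalk_iff (M : Mod K) (z : M.V.X) (g : M.V.X.presheaf.stalk z) (hg : g ≠ 0) :
    IsUnit g ↔ (M.stalkEmb z g)⁻¹ ∈ M.loc z := by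
  have hg' : M.stalkEmb z g ≠ 0 := fun h =>
    hg (M.stalkEmb_injective z (h.trans (map_zero _).symm))
  constructor
  · rintro ⟨u, rfl⟩
    refine Mod.mem_loc.mpr ⟨((u⁻¹ : (M.V.X.presheaf.stalk z)ˣ) : M.V.X.presheaf.stalk z), ?_⟩
    refine eq_inv_of_mul_eq_one_left ?_
    rw [← map_mul, Units.inv_mul, map_one]
  · intro h
    obtain ⟨g', hg2⟩ := Mod.mem_loc.mp h
    refine IsUnit.of_mul_eq_one g' (M.stalkEmb_injective z ?_)
    rw [map_mul, hg2, mul_inv_cancel₀ hg', map_one]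

theorem inv_mem_loc (M : Mod K) (N : Mod L) (σ : L →ₐ[ℂ] K) (f : M.V.X ⟶ N.V.X)
    (hf : M.Realizes N σ f) (z : M.V.X) {t : L} (ht : t ∈ N.loc (f z))
    (ht2 : (σ t)⁻¹ ∈ M.loc z) : t⁻¹ ∈ N.loc (f z) := by
  obtain ⟨g, rfl⟩ := Mod.mem_loc.mp ht
  by_cases hg : g = 0
  · rw [hg, map_zero, inv_zero]
    exact Subalgebra.zero_mem _
  · rw [← stalkEmb_stalkMap M N σ f hf z g] at ht2
    have hne : (f.stalkMap z).hom g ≠ 0 := by
      intro h
      have h2 := stalkEmb_stalkMap M N σ f hf z g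
      rw [h, map_zero] at h2
      have h3 : N.stalkEmb (f z) g = 0 := σ.toRingHom.injective (h2.symm.trans (map_zero _).symm)
      exact hg (N.stalkEmb_injective _ (h3.trans (map_zero _).symm))
    have hu := (isUnit_stalk_iff M z _ hne).mpr ht2
    exact (isUnit_stalk_iff N (f z) g hg).mp (isUnit_of_map_unit (f.stalkMap z).hom g hu)

theorem stalk_gen_apply (M : Mod K) (x : Spec (CommRingCat.of K)) :
    M.gen x = genericPoint M.V.X := by
  have h : IsLocalHom (M.e : M.V.X.functionField →+* K) := inferInstance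
  have hx : x = IsLocalRing.closedPoint K := Subsingleton.elim _ _
  rw [hx]
  rw [Mod.gen, Scheme.Hom.comp_apply]
  have h2 : (Spec.map (CommRingCat.ofHom (M.e : M.V.X.functionField →+* K)))
      (IsLocalRing.closedPoint K) = IsLocalRing.closedPoint M.V.X.functionField :=
    IsLocalRing.comap_closedPoint (M.e : M.V.X.functionField →+* K)
  rw [h2]
  exact Scheme.fromSpecStalk_closedPoint

theorem stalk_map_genericPoint (M : Mod K) (N : Mod L) (σ : L →ₐ[ℂ] K) (f : M.V.X ⟶ N.V.X)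
    (hf : M.Realizes N σ f) : f (genericPoint M.V.X) = genericPoint N.V.X := by
  have h := congrArg (fun F => F (IsLocalRing.closedPoint K)) hf.2
  simp only [Scheme.Hom.comp_apply] at h
  rw [stalk_gen_apply, stalk_gen_apply] at h
  exact h

theorem isDominant_of_realizes (M : Mod K) (N : Mod L) (σ : L →ₐ[ℂ] K) (f : M.V.X ⟶ N.V.X)
    (hf : M.Realizes N σ f) : IsDominant f := by
  refine ⟨?_⟩
  have h : Dense ({genericPoint N.V.X} : Set N.V.X) :=
    dense_iff_closure_eq.mpr (genericPoint_closure _)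
  refine Dense.mono ?_ h
  rintro _ rfl
  exact ⟨_, stalk_map_genericPoint M N σ f hf⟩

theorem isOpen_mem_loc (M : Mod K) (t : K) : IsOpen {z : M.V.X | t ∈ M.loc z} := by
  rw [isOpen_iff_forall_mem_open]
  intro z hz
  obtain ⟨g, hg⟩ := Mod.mem_loc.mp hz
  obtain ⟨U, hU, s, rfl⟩ := M.V.X.presheaf.exists_germ_eq g
  refine ⟨U, fun z' hz' => ?_, U.isOpen, hU⟩
  have : Nonempty U := ⟨⟨z, hU⟩⟩
  refine Mod.mem_loc.mpr ⟨M.V.X.presheaf.germ U z' hz' s, ?_⟩
  rw [← hg, Mod.stalkEmb_apply, Mod.stalkEmb_apply, Scheme.algebraMap_germ_eq_germToFunctionField,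
    Scheme.algebraMap_germ_eq_germToFunctionField]

theorem loc_genericPoint (M : Mod K) : M.loc (genericPoint M.V.X) = ⊤ := by
  rw [eq_top_iff]
  rintro t -
  refine Mod.mem_loc.mpr ⟨M.e.symm t, ?_⟩
  have h : (M.V.X.presheaf.stalkSpecializes
      ((genericPoint_spec M.V.X).specializes (y := genericPoint M.V.X) trivial)) =
      𝟙 (M.V.X.presheaf.stalk (genericPoint M.V.X)) := by
    exact TopCat.Presheaf.stalkSpecializes_refl _ _
  have h2 : M.e ((M.V.X.presheaf.stalkSpecializes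
      ((genericPoint_spec M.V.X).specializes (y := genericPoint M.V.X) trivial)).hom
        (M.e.symm t)) = t := by
    rw [h]
    exact M.e.apply_symm_apply t
  exact h2

theorem isLocalRing_loc (M : Mod K) (z : M.V.X) : IsLocalRing (M.loc z) :=
  IsLocalRing.of_surjective' (M.stalkEmb z).rangeRestrict.toRingHom
    (M.stalkEmb z).rangeRestrict_surjective

theorem isLocalRing_comap (σ : L →ₐ[ℂ] K) (O : Subalgebra ℂ K) (hO : IsLocalRing O) :
    IsLocalRing (O.comap σ) := by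
  let φ : O.comap σ →+* O :=
    { toFun := fun t => ⟨σ t.1, t.2⟩
      map_one' := Subtype.ext (map_one σ)
      map_mul' := fun a b => Subtype.ext (map_mul σ a.1 b.1)
      map_zero' := Subtype.ext (map_zero σ)
      map_add' := fun a b => Subtype.ext (map_add σ a.1 b.1) }
  have hφ : IsLocalHom φ := by
    refine ⟨fun a ha => ?_⟩
    obtain ⟨b, hb⟩ := ha.exists_right_inv
    have hb' : σ a.1 * b.1 = 1 := congrArg Subtype.val hb
    have ha0 : a.1 ≠ 0 := by
      intro h
      rw [h, map_zero, zero_mul] at hb'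
      exact zero_ne_one hb'
    have hb2 : b.1 = σ (a.1)⁻¹ := by
      rw [map_inv₀]
      exact eq_inv_of_mul_eq_one_right hb'
    refine IsUnit.of_mul_eq_one ⟨(a.1)⁻¹, ?_⟩ (Subtype.ext (mul_inv_cancel₀ ha0))
    rw [Subalgebra.mem_comap, ← hb2]
    exact b.2
  exact φ.domain_isLocalRing

end

end Pool.Agent.AHM
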