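import Pool.Agent.AHM.SmoothX
import Pool.Agent.AHM.SmoothY
import Pool.Agent.AHM.Stalk
import Pool.Agent.AHM.DataOps

open CategoryTheory AlgebraicGeometry Order

namespace Pool.Agent.AHM

noncomputable section

variable {K : Type} [Field K] [Algebra ℂ K] {L : Type} [Field L] [Algebra ℂ L]

/-! Auxiliary lemmas on alternating maps. -/

section RelCanAux

variable {F : Type} [Field F] [Algebra ℂ F]

theorem relCan_alt2 {V W : Type} [AddCommGroup V] [Module F V] [AddCommGroup W] [Module F W]
    (f : V [⋀^Fin 2]→ₗ[F] W) (x y : V) (a b c : F) :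
    f ![a • x + b • y, c • y] = (a * c) • f ![x, y] := by
  have h1 : ∀ v w : V, f ![v, w] = f (Function.update ![0, w] 0 v) := by
    intro v w
    congr 1
    funext i
    fin_cases i <;> simp
  have h2 : ∀ v w : V, f ![v, w] = f (Function.update ![v, 0] 1 w) := by
    intro v w
    congr 1
    funext i
    fin_cases i <;> simp
  have h0 : f ![y, y] = 0 :=
    f.map_eq_zero_of_eq ![y, y] (i := 0) (j := 1) (by simp) (by decide)
  rw [h2, AlternatingMap.map_update_smul, ← h2, h1, AlternatingMap.map_update_add,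
    AlternatingMap.map_update_smul, AlternatingMap.map_update_smul, ← h1, ← h1, h0, smul_zero,
    add_zero, smul_smul, mul_comm]

theorem relCan_alt3 {V W : Type} [AddCommGroup V] [Module F V] [AddCommGroup W] [Module F W]
    (f : V [⋀^Fin 3]→ₗ[F] W) (x y z : V) (a b : F) :
    f ![x, y, a • z + b • y] = a • f ![x, y, z] := by
  have h2 : ∀ v : V, f ![x, y, v] = f (Function.update ![x, y, 0] 2 v) := by
    intro v
    congr 1
    funext i
    fin_cases i <;> simp
  have h0 : f ![x, y, y] = 0 :=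
    f.map_eq_zero_of_eq ![x, y, y] (i := 1) (j := 2) (by simp) (by decide)
  rw [h2, AlternatingMap.map_update_add, AlternatingMap.map_update_smul,
    AlternatingMap.map_update_smul, ← h2, ← h2, h0, smul_zero, add_zero]

theorem relCan_alt3_smul {V W : Type} [AddCommGroup V] [Module F V] [AddCommGroup W] [Module F W]
    (f : V [⋀^Fin 3]→ₗ[F] W) (x y z : V) (a : F) :
    f ![a • x, y, z] = a • f ![x, y, z] := by
  have h2 : ∀ v : V, f ![v, y, z] = f (Function.update ![0, y, z] 0 v) := by
    intro v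
    congr 1
    funext i
    fin_cases i <;> simp
  rw [h2, AlternatingMap.map_update_smul, ← h2]

/-- The form `dp/p ∧ dq/q` in the coordinates `p q`, `1 / q`. -/
theorem relCan_form2 (P : Pair F) (hp : P.p ≠ 0) (hq : P.q ≠ 0) :
    form2 P = (-(P.p)⁻¹) • exteriorPower.ιMulti F 2
      ![KaehlerDifferential.D ℂ F (P.p * P.q), KaehlerDifferential.D ℂ F (P.q⁻¹)] := by
  have h1 : KaehlerDifferential.D ℂ F (P.p * P.q) =
      P.q • KaehlerDifferential.D ℂ F P.p + P.p • KaehlerDifferential.D ℂ F P.q := by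
    rw [Derivation.leibniz, add_comm]
  have h2 : KaehlerDifferential.D ℂ F (P.q⁻¹) =
      (-(P.q⁻¹) ^ 2) • KaehlerDifferential.D ℂ F P.q := Derivation.leibniz_inv _ _
  rw [h1, h2, relCan_alt2, smul_smul, form2]
  congr 1
  field_simp

/-- The form `(da / f_b) ∧ dr/r ∧ ds/s` in the coordinates `a, r, s / r`. -/
theorem relCan_form3_a (d : Quad F) (hr : d.r ≠ 0) (hs : d.s ≠ 0) :
    form3 d = (d.fb * d.s)⁻¹ • exteriorPower.ιMulti F 3
      ![KaehlerDifferential.D ℂ F d.a, KaehlerDifferential.D ℂ F d.r,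
        KaehlerDifferential.D ℂ F (d.s / d.r)] := by
  have h1 : KaehlerDifferential.D ℂ F d.s =
      d.r • KaehlerDifferential.D ℂ F (d.s / d.r) +
        (d.s / d.r) • KaehlerDifferential.D ℂ F d.r := by
    rw [← Derivation.leibniz, mul_div_cancel₀ _ hr]
  rw [form3]
  conv_lhs => rw [h1]
  rw [relCan_alt3, smul_smul]
  congr 1
  field_simp

/-- The relation between `da` and `db`. -/
theorem relCan_rel (d : Quad F) (he : d.a * (1 + d.b ^ 2) = 2 * d.b * (1 + d.a ^ 2)) :
    d.fa • KaehlerDifferential.D ℂ F d.a + d.fb • KaehlerDifferential.D ℂ F d.b = 0 := by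
  have h := congrArg (KaehlerDifferential.D ℂ F) he
  have e1 : (2 : F) * d.b * (1 + d.a ^ 2) = (2 : ℂ) • (d.b * (1 + d.a ^ 2)) := by
    rw [Algebra.smul_def, map_ofNat, mul_assoc]
  rw [e1] at h
  simp only [Derivation.leibniz, Derivation.map_smul, map_add, Derivation.map_one_eq_zero,
    Derivation.leibniz_pow, zero_add] at h
  rw [← sub_eq_zero] at h
  rw [← h, Quad.fa, Quad.fb]
  simp only [← Nat.cast_smul_eq_nsmul F, ← algebraMap_smul F (2 : ℂ), map_ofNat, smul_smul,
    smul_add]
  push_cast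
  module

/-- The form `(da / f_b) ∧ dr/r ∧ ds/s` in the coordinates `b, r, s / r`. -/
theorem relCan_form3_b (d : Quad F) (hr : d.r ≠ 0) (hs : d.s ≠ 0) (hfa : d.fa ≠ 0)
    (hfb : d.fb ≠ 0) (he : d.a * (1 + d.b ^ 2) = 2 * d.b * (1 + d.a ^ 2)) :
    form3 d = (-(d.fa * d.s)⁻¹) • exteriorPower.ιMulti F 3
      ![KaehlerDifferential.D ℂ F d.b, KaehlerDifferential.D ℂ F d.r,
        KaehlerDifferential.D ℂ F (d.s / d.r)] := by
  have h := relCan_rel d he
  have h1 : KaehlerDifferential.D ℂ F d.a =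
      (-(d.fa⁻¹ * d.fb)) • KaehlerDifferential.D ℂ F d.b := by
    have h2 : d.fa • KaehlerDifferential.D ℂ F d.a =
        -(d.fb • KaehlerDifferential.D ℂ F d.b) := eq_neg_of_add_eq_zero_left h
    calc KaehlerDifferential.D ℂ F d.a
        = d.fa⁻¹ • (d.fa • KaehlerDifferential.D ℂ F d.a) := by
          rw [smul_smul, inv_mul_cancel₀ hfa, one_smul]
      _ = _ := by rw [h2, smul_neg, smul_smul, neg_smul]
  rw [relCan_form3_a d hr hs]
  conv_lhs => rw [h1]
  rw [relCan_alt3_smul, smul_smul]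
  congr 1
  field_simp

end RelCanAux

/-- `f_b` does not vanish. -/
theorem relCan_fb_ne {d : Quad K} (hd : d.IsData) : d.fb ≠ 0 := by
  intro h0
  have : CharZero K := charZero_of_injective_algebraMap (algebraMap ℂ K).injective
  have ha0 : d.a ≠ 0 := hd.ne_zero.1
  have htr : Transcendental ℂ d.a := by
    have := hd.ind.transcendental 0
    simpa using this
  have h1 : d.a * d.b = 1 + d.a ^ 2 := by
    have h2 : (2 : K) ≠ 0 := two_ne_zero' K
    have h3 : 2 * (d.a * d.b - (1 + d.a ^ 2)) = 0 := by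
      rw [← h0, Quad.fb]; ring
    have h4 := (mul_eq_zero.mp h3).resolve_left h2
    linear_combination h4
  have he := hd.eq
  have h5 : d.b ^ 2 = 1 := by
    have h6 : d.a * (1 - d.b ^ 2) = 0 := by
      have : 2 * d.b * (1 + d.a ^ 2) = 2 * d.b * (d.a * d.b) := by rw [h1]
      rw [this] at he
      linear_combination he
    have h7 := (mul_eq_zero.mp h6).resolve_left ha0
    linear_combination -h7
  have h8 : d.a ^ 4 + d.a ^ 2 + 1 = 0 := by
    have h9 : (d.a * d.b) ^ 2 = (1 + d.a ^ 2) ^ 2 := by rw [h1]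
    rw [mul_pow, h5] at h9
    linear_combination -h9
  apply htr
  refine ⟨Polynomial.X ^ 4 + Polynomial.X ^ 2 + 1, ?_, ?_⟩
  · intro h
    have := congrArg (Polynomial.eval 0) h
    simp at this
  · simpa using h8

/-- Local coordinates in the function field. -/
theorem relCan_coordForm (V : SmoothProjVar) {n : ℕ} (x : V.X)
    (t : Fin n → V.X.presheaf.stalk x) :
    coordForm V x t = exteriorPower.ιMulti V.X.functionField n
      (fun i => KaehlerDifferential.D ℂ V.X.functionField
        (algebraMap (V.X.presheaf.stalk x) V.X.functionField (t i))) := rfl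

/-- Units of the local ring have order zero. -/
theorem relCan_ord_unit (V : SmoothProjVar) (z : V.X) (hz : coheight z = 1)
    (u : V.X.presheaf.stalk z) (hu : IsUnit u) :
    Scheme.ord (algebraMap (V.X.presheaf.stalk z) V.X.functionField u) z = 0 := by
  have : Ring.KrullDimLE 1 (V.X.presheaf.stalk z) := krullDimLE_of_coheight_le hz.le
  have h0 : algebraMap (V.X.presheaf.stalk z) V.X.functionField u ≠ 0 :=
    (hu.map (algebraMap (V.X.presheaf.stalk z) V.X.functionField)).ne_zero
  rw [Scheme.ord_eq_iff hz h0]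
  exact Ring.ordFrac_of_isUnit hu

theorem relCan_ord_inv (V : SmoothProjVar) (z : V.X) (f : V.X.functionField) (hf : f ≠ 0) :
    Scheme.ord f⁻¹ z = - Scheme.ord f z := by
  have h := Scheme.ord_mul (x := z) hf (inv_ne_zero hf)
  rw [mul_inv_cancel₀ hf] at h
  have h1 := Scheme.ord_mul (X := V.X) (x := z) (one_ne_zero (α := V.X.functionField))
    (one_ne_zero (α := V.X.functionField))
  rw [mul_one] at h1
  omega

/-- S11. The multiplicity of the relative canonical divisor in a chart. -/
theorem relCanMult_zero (G : Mod K) (Y : Mod L) (σ : L →ₐ[ℂ] K) (φ : G.V.X ⟶ Y.V.X)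
    (hφ : G.Realizes Y σ φ) (z : G.V.X) (hz : coheight z = 1)
    (d : Quad K) (hd : d.IsData) (P : Pair L) (hP : P.IsPair) (hPd : P.map σ = d.pair)
    (h1 : d.chartG ≤ G.loc z) (h2 : IsLocOf (G.loc z) d.chartG)
    (h3 : P.chartY ≤ Y.loc (φ z)) (h4 : IsLocOf (Y.loc (φ z)) P.chartY)
    (hr : d.r⁻¹ ∈ G.loc z)
    (ωG : RatForms G.V 3) (ωY : RatForms Y.V 2)
    (hG : ωG = form3 (d.map G.e.symm) ∨ ωG = - form3 (d.map G.e.symm))
    (hY : ωY = form2 (P.map Y.e.symm) ∨ ωY = - form2 (P.map Y.e.symm)) :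
    RelCanMult φ 3 2 ωG ωY z 0 := by
  classical
  obtain ⟨ha0, hb0, hr0, hs0⟩ := hd.ne_zero
  have hk0 : d.kap ≠ 0 := div_ne_zero ha0 hb0
  obtain ⟨a, b, r, w, ja, jb, jr, jw, hcase⟩ := chartX_coords hd.blow
    (G.V.X.presheaf.stalk z) (G.stalkEmb z) (G.stalkEmb_injective z) h1 h2
  obtain ⟨u, v, ju, jv, hYc⟩ := chartY_coords hP (Y.V.X.presheaf.stalk (φ z))
    (Y.stalkEmb (φ z)) (Y.stalkEmb_injective (φ z)) h3 h4
  have ja' : G.stalkEmb z a = d.a := ja
  have jb' : G.stalkEmb z b = d.b := jb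
  have jr' : G.stalkEmb z r = d.r := jr
  have jw' : G.stalkEmb z w = d.s / d.r := jw
  have hp : σ P.p = d.r * d.s / d.kap := congrArg Pair.p hPd
  have hq : σ P.q = d.r / d.s := congrArg Pair.q hPd
  have hp0 : P.p ≠ 0 := by
    intro h
    rw [h, map_zero] at hp
    exact (div_ne_zero (mul_ne_zero hr0 hs0) hk0) hp.symm
  have hq0 : P.q ≠ 0 := by
    intro h
    rw [h, map_zero] at hq
    exact (div_ne_zero hr0 hs0) hq.symm
  have keyG : ∀ x : G.V.X.presheaf.stalk z,
      algebraMap (G.V.X.presheaf.stalk z) G.V.X.functionField x =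
        G.e.symm (G.stalkEmb z x) := by
    intro x
    rw [Mod.stalkEmb_apply, AlgEquiv.symm_apply_apply]
  have keyY : ∀ x : Y.V.X.presheaf.stalk (φ z),
      algebraMap (Y.V.X.presheaf.stalk (φ z)) Y.V.X.functionField x =
        Y.e.symm (Y.stalkEmb (φ z) x) := by
    intro x
    rw [Mod.stalkEmb_apply, AlgEquiv.symm_apply_apply]
  -- the signs
  obtain ⟨ε, hε, hωG⟩ : ∃ ε : G.V.X.presheaf.stalk z, IsUnit ε ∧
      ωG = algebraMap (G.V.X.presheaf.stalk z) G.V.X.functionField ε •
        form3 (d.map G.e.symm) := by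
    rcases hG with h | h
    · exact ⟨1, isUnit_one, by rw [map_one, one_smul, h]⟩
    · refine ⟨-1, isUnit_one.neg, ?_⟩
      rw [h, map_neg, map_one]
      exact (neg_one_smul G.V.X.functionField (form3 (d.map G.e.symm))).symm
  obtain ⟨δ, hδ, hδ1, hωY⟩ : ∃ δ : Y.V.X.presheaf.stalk (φ z), IsUnit δ ∧ True ∧
      ωY = algebraMap (Y.V.X.presheaf.stalk (φ z)) Y.V.X.functionField δ •
        form2 (P.map Y.e.symm) := by
    rcases hY with h | h
    · exact ⟨1, isUnit_one, trivial, by rw [map_one, one_smul, h]⟩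
    · refine ⟨-1, isUnit_one.neg, trivial, ?_⟩
      rw [h, map_neg, map_one]
      exact (neg_one_smul Y.V.X.functionField (form2 (P.map Y.e.symm))).symm
  -- nonvanishing in the function field
  have hfb0 : d.fb ≠ 0 := relCan_fb_ne hd
  have hr1 : (d.map G.e.symm).r ≠ 0 := by
    show G.e.symm d.r ≠ 0
    simpa using hr0
  have hs1 : (d.map G.e.symm).s ≠ 0 := by
    show G.e.symm d.s ≠ 0
    simpa using hs0
  have hrw : G.stalkEmb z (r * w) = d.s := by
    rw [map_mul, jr', jw', mul_div_cancel₀ _ hr0]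
  -- the local equation of the 3-form
  obtain ⟨t, g, ht, hg, hform⟩ : ∃ (t : Fin 3 → G.V.X.presheaf.stalk z)
      (g : G.V.X.presheaf.stalk z), IsCoords G.V z t ∧ IsUnit g ∧
      form3 (d.map G.e.symm) =
        (algebraMap (G.V.X.presheaf.stalk z) G.V.X.functionField g *
          algebraMap (G.V.X.presheaf.stalk z) G.V.X.functionField (r * w))⁻¹ •
        coordForm G.V z t := by
    rcases hcase with ⟨hu, hb⟩ | ⟨hu, hb⟩
    · refine ⟨![a, r, w], 2 * a * b - 2 * (1 + a ^ 2), hb, hu, ?_⟩
      rw [relCan_form3_a _ hr1 hs1, relCan_coordForm]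
      congr 1
      · congr 2
        · rw [keyG]
          simp only [Quad.fb, Quad.map, map_sub, map_mul, map_add, map_pow, map_one, map_ofNat,
            ja', jb']
        · rw [keyG, hrw]
          rfl
      · congr 1
        funext i
        fin_cases i
        · show KaehlerDifferential.D ℂ _ (G.e.symm d.a) = KaehlerDifferential.D ℂ _
            (algebraMap (G.V.X.presheaf.stalk z) G.V.X.functionField a)
          rw [keyG, ja']
        · show KaehlerDifferential.D ℂ _ (G.e.symm d.r) = KaehlerDifferential.D ℂ _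
            (algebraMap (G.V.X.presheaf.stalk z) G.V.X.functionField r)
          rw [keyG, jr']
        · show KaehlerDifferential.D ℂ _ (G.e.symm d.s / G.e.symm d.r) =
            KaehlerDifferential.D ℂ _
            (algebraMap (G.V.X.presheaf.stalk z) G.V.X.functionField w)
          rw [keyG, jw', map_div₀ G.e.symm]
    · refine ⟨![b, r, w], -((1 + b ^ 2) - 4 * a * b), hb, hu.neg, ?_⟩
      have hfa : (d.map G.e.symm).fa ≠ 0 := by
        have h5 := (hu.map (algebraMap (G.V.X.presheaf.stalk z) G.V.X.functionField)).ne_zero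
        rw [keyG] at h5
        simpa only [Quad.fa, Quad.map, map_sub, map_mul, map_add, map_pow, map_one, map_ofNat,
            ja', jb'] using h5
      have hfb : (d.map G.e.symm).fb ≠ 0 := by
        have h5 : G.e.symm d.fb ≠ 0 := by simpa using hfb0
        simpa only [Quad.fb, Quad.map, map_sub, map_mul, map_add, map_pow, map_one, map_ofNat]
          using h5
      have heq : (d.map G.e.symm).a * (1 + (d.map G.e.symm).b ^ 2) =
          2 * (d.map G.e.symm).b * (1 + (d.map G.e.symm).a ^ 2) := by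
        have h5 := congrArg G.e.symm hd.eq
        simpa only [Quad.map, map_mul, map_add, map_pow, map_one, map_ofNat] using h5
      rw [relCan_form3_b _ hr1 hs1 hfa hfb heq, relCan_coordForm]
      congr 1
      · rw [← inv_neg, ← neg_mul]
        congr 2
        · rw [keyG]
          simp only [Quad.fa, Quad.map, map_sub, map_mul, map_add, map_pow, map_one, map_ofNat,
            map_neg, ja', jb']
        · rw [keyG, hrw]
          rfl
      · congr 1
        funext i
        fin_cases i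
        · show KaehlerDifferential.D ℂ _ (G.e.symm d.b) = KaehlerDifferential.D ℂ _
            (algebraMap (G.V.X.presheaf.stalk z) G.V.X.functionField b)
          rw [keyG, jb']
        · show KaehlerDifferential.D ℂ _ (G.e.symm d.r) = KaehlerDifferential.D ℂ _
            (algebraMap (G.V.X.presheaf.stalk z) G.V.X.functionField r)
          rw [keyG, jr']
        · show KaehlerDifferential.D ℂ _ (G.e.symm d.s / G.e.symm d.r) =
            KaehlerDifferential.D ℂ _
            (algebraMap (G.V.X.presheaf.stalk z) G.V.X.functionField w)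
          rw [keyG, jw', map_div₀ G.e.symm]
  -- the unit kappa
  have hamem : d.a ∈ G.loc z := ⟨a, ja'⟩
  have hbmem : d.b ∈ G.loc z := ⟨b, jb'⟩
  obtain ⟨hk1, hk2⟩ := Quad.kap_mem hd (G.loc z) hamem hbmem
  obtain ⟨k, hk⟩ := hk1
  obtain ⟨k', hk'⟩ := hk2
  have hkk : k * k' = 1 := by
    apply G.stalkEmb_injective z
    show G.stalkEmb z (k * k') = G.stalkEmb z 1
    rw [map_mul, map_one]
    have e1 : G.stalkEmb z k = d.kap := hk
    have e2 : G.stalkEmb z k' = d.kap⁻¹ := hk'
    rw [e1, e2, mul_inv_cancel₀ hk0]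
  have hku : IsUnit k := IsUnit.of_mul_eq_one k' hkk
  obtain ⟨r', hr'⟩ := hr
  have hrr : r * r' = 1 := by
    apply G.stalkEmb_injective z
    rw [map_mul, map_one]
    have e2 : G.stalkEmb z r' = d.r⁻¹ := hr'
    rw [jr', e2, mul_inv_cancel₀ hr0]
  have hru : IsUnit r := IsUnit.of_mul_eq_one r' hrr
  -- pull back
  have hpb : ∀ y : Y.V.X.presheaf.stalk (φ z), G.stalkEmb z ((φ.stalkMap z).hom y) =
      σ (Y.stalkEmb (φ z) y) := fun y => stalkEmb_stalkMap G Y σ φ hφ z y
  have hδ' : IsUnit ((φ.stalkMap z).hom δ) := hδ.map (φ.stalkMap z).hom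
  have huv : Y.stalkEmb (φ z) (u * v) = P.p := by
    rw [map_mul, ju, jv, mul_assoc, mul_inv_cancel₀ hq0, mul_one]
  have hb1 : G.stalkEmb z ((φ.stalkMap z).hom (u * v)) = d.r * d.s / d.kap := by
    rw [hpb, huv, hp]
  have hrw0 : algebraMap (G.V.X.presheaf.stalk z) G.V.X.functionField (r * w) ≠ 0 := by
    rw [keyG, hrw]
    simpa using hs0
  have hr0' : algebraMap (G.V.X.presheaf.stalk z) G.V.X.functionField r ≠ 0 :=
    (hru.map (algebraMap (G.V.X.presheaf.stalk z) G.V.X.functionField)).ne_zero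
  have hk0' : algebraMap (G.V.X.presheaf.stalk z) G.V.X.functionField k ≠ 0 :=
    (hku.map (algebraMap (G.V.X.presheaf.stalk z) G.V.X.functionField)).ne_zero
  have hg0' : algebraMap (G.V.X.presheaf.stalk z) G.V.X.functionField g ≠ 0 :=
    (hg.map (algebraMap (G.V.X.presheaf.stalk z) G.V.X.functionField)).ne_zero
  have hε0' : algebraMap (G.V.X.presheaf.stalk z) G.V.X.functionField ε ≠ 0 :=
    (hε.map (algebraMap (G.V.X.presheaf.stalk z) G.V.X.functionField)).ne_zero
  have hb2 : algebraMap (G.V.X.presheaf.stalk z) G.V.X.functionField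
      ((φ.stalkMap z).hom (u * v)) =
      algebraMap (G.V.X.presheaf.stalk z) G.V.X.functionField r *
        algebraMap (G.V.X.presheaf.stalk z) G.V.X.functionField (r * w) *
        (algebraMap (G.V.X.presheaf.stalk z) G.V.X.functionField k)⁻¹ := by
    have e1 : G.stalkEmb z k = d.kap := hk
    rw [keyG, hb1, keyG, keyG, keyG, hrw, jr', e1, ← map_inv₀, ← map_mul, ← map_mul,
      div_eq_mul_inv]
  refine ⟨algebraMap (G.V.X.presheaf.stalk z) G.V.X.functionField ε *
      (algebraMap (G.V.X.presheaf.stalk z) G.V.X.functionField g *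
          algebraMap (G.V.X.presheaf.stalk z) G.V.X.functionField (r * w))⁻¹, -δ, u * v,
      ?_, ?_, ?_, ?_, ?_, ?_⟩
  · exact mul_ne_zero hε0' (inv_ne_zero (mul_ne_zero hg0' hrw0))
  · exact (hδ.neg.map (φ.stalkMap z).hom).ne_zero
  · intro h
    rw [h, map_zero] at hb1
    exact (div_ne_zero (mul_ne_zero hr0 hs0) hk0) hb1.symm
  · refine ⟨t, ht, ?_⟩
    rw [hωG, hform, smul_smul]
  · refine ⟨![u, v], hYc, ?_⟩
    have hp1 : (P.map Y.e.symm).p ≠ 0 := by
      show Y.e.symm P.p ≠ 0
      simpa using hp0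
    have hq1 : (P.map Y.e.symm).q ≠ 0 := by
      show Y.e.symm P.q ≠ 0
      simpa using hq0
    rw [hωY, relCan_form2 _ hp1 hq1, relCan_coordForm, smul_smul]
    congr 1
    · rw [keyY (u * v), huv, map_neg]
      show _ * -(Y.e.symm P.p)⁻¹ = _
      rw [mul_neg, neg_div, div_eq_mul_inv]
    · congr 1
      funext i
      fin_cases i
      · show KaehlerDifferential.D ℂ _ (Y.e.symm P.p * Y.e.symm P.q) = KaehlerDifferential.D ℂ _
            (algebraMap (Y.V.X.presheaf.stalk (φ z)) Y.V.X.functionField u)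
        rw [keyY, ju, map_mul Y.e.symm]
      · show KaehlerDifferential.D ℂ _ (Y.e.symm P.q)⁻¹ = KaehlerDifferential.D ℂ _
            (algebraMap (Y.V.X.presheaf.stalk (φ z)) Y.V.X.functionField v)
        rw [keyY, jv, map_inv₀ Y.e.symm]
  · have o1 : Scheme.ord (algebraMap (G.V.X.presheaf.stalk z) G.V.X.functionField
        ((φ.stalkMap z).hom (-δ))) z = 0 :=
      relCan_ord_unit G.V z hz _ (hδ.neg.map (φ.stalkMap z).hom)
    have o2 := relCan_ord_unit G.V z hz _ hru
    have o3 := relCan_ord_unit G.V z hz _ hku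
    have o4 := relCan_ord_unit G.V z hz _ hg
    have o5 := relCan_ord_unit G.V z hz _ hε
    have o6 := relCan_ord_inv G.V z _ hk0'
    have o7 := relCan_ord_inv G.V z _ (mul_ne_zero hg0' hrw0)
    rw [hb2, o1, Scheme.ord_mul hε0' (inv_ne_zero (mul_ne_zero hg0' hrw0)), o7,
      Scheme.ord_mul hg0' hrw0, Scheme.ord_mul (mul_ne_zero hr0' hrw0) (inv_ne_zero hk0'),
      Scheme.ord_mul hr0' hrw0, o6, o2, o3, o4, o5]
    ring

end

end Pool.Agent.AHM
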