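import Pool.Agent.AHM.ProjModel
import Pool.Agent.AHM.IsoRestrict
import Pool.Agent.AHM.AlmostHol
import Pool.Agent.AHM.Link
import Pool.Agent.AHM.NoCoheight
import Pool.Agent.AHM.FamG
import Pool.Agent.AHM.FormsTw
import Pool.Agent.AHM.FormsNZ
import Pool.Agent.AHM.ExistsData
import Pool.Agent.AHM.RelCan
import Pool.Agent.AHM.AlgClosedIn
import Pool.Agent.AHM.NoRegular

open CategoryTheory AlgebraicGeometry Order

namespace Pool.Agent.AHM

noncomputable section

variable {K : Type} [Field K] [Algebra ℂ K] {L : Type} [Field L] [Algebra ℂ L]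

/-! ### Transport of the data -/

theorem Final.quad_map_tw (σ : K →ₐ[ℂ] L) (d : Quad K) (i j k l m : Bool) :
    (d.tw i j k l m).map σ = (d.map σ).tw i j k l m := by
  cases i <;> cases j <;> cases k <;> cases l <;> cases m <;>
    simp [Quad.tw, Quad.inva, Quad.invb, Quad.invr, Quad.invs, Quad.swap, Quad.map, Quad.kap]

theorem Quad.IsData.map {d : Quad K} (hd : d.IsData) (e : K ≃ₐ[ℂ] L) : (d.map e).IsData where
  eq := by
    have := congrArg e hd.eq
    have h2 : e 2 = 2 := map_ofNat e 2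
    simpa [Quad.map, h2] using this
  ind := by
    have h := hd.ind.map' (f := (e : K →ₐ[ℂ] L)) e.injective
    have h2 : ⇑(e : K →ₐ[ℂ] L) ∘ ![d.a, d.r, d.s] = ![(d.map e).a, (d.map e).r, (d.map e).s] := by
      ext i; fin_cases i <;> rfl
    rwa [h2] at h
  gen := by
    have h := congrArg (IntermediateField.map (e : K →ₐ[ℂ] L)) hd.gen
    rw [IntermediateField.adjoin_map] at h
    have h2 : (e : K →ₐ[ℂ] L) '' ({d.a, d.b, d.r, d.s} : Set K) =
        {(d.map e).a, (d.map e).b, (d.map e).r, (d.map e).s} := by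
      simp [Set.image_insert_eq, Quad.map]
    rw [h2] at h
    rw [h, eq_top_iff]
    rintro t -
    exact ⟨e.symm t, trivial, e.apply_symm_apply t⟩

theorem Pair.IsPair.map {P : Pair K} (hP : P.IsPair) (e : K ≃ₐ[ℂ] L) : (P.map e).IsPair where
  ind := by
    have h := hP.ind.map' (f := (e : K →ₐ[ℂ] L)) e.injective
    have h2 : ⇑(e : K →ₐ[ℂ] L) ∘ ![P.p, P.q] = ![(P.map e).p, (P.map e).q] := by
      ext i; fin_cases i <;> rfl
    rwa [h2] at h
  gen := by
    have h := congrArg (IntermediateField.map (e : K →ₐ[ℂ] L)) hP.gen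
    rw [IntermediateField.adjoin_map] at h
    have h2 : (e : K →ₐ[ℂ] L) '' ({P.p, P.q} : Set K) = {(P.map e).p, (P.map e).q} := by
      simp [Set.image_insert_eq, Set.image_singleton, Pair.map]
    rw [h2] at h
    rw [h, eq_top_iff]
    rintro t -
    exact ⟨e.symm t, trivial, e.apply_symm_apply t⟩

/-! ### Models of the three families -/

theorem Final.famX_ne {d : Quad K} (hd : d.IsData) (t i : Fin 4) : famX d t i ≠ 0 := by
  obtain ⟨ha, hb, hr, hs⟩ := hd.ne_zero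
  fin_cases t <;> fin_cases i <;> simp [famX, ha, hb, hr, hs]

theorem Final.famY_ne {P : Pair K} (hp : P.p ≠ 0) (hq : P.q ≠ 0) (t i : Fin 4) :
    famY P t i ≠ 0 := by
  fin_cases t <;> fin_cases i <;> simp [famY, hp, hq]

theorem Final.pair_ne {d : Quad K} (hd : d.IsData) : d.pair.p ≠ 0 ∧ d.pair.q ≠ 0 := by
  obtain ⟨ha, hb, hr, hs⟩ := hd.ne_zero
  constructor
  · exact div_ne_zero (mul_ne_zero hr hs) (div_ne_zero ha hb)
  · exact div_ne_zero hr hs

theorem Final.famG_ne {d : Quad K} (hd : d.IsData) (t : Fin 4 ⊕ Fin 4) (i : Fin 4) :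
    famG d t i ≠ 0 := by
  rcases t with t | t
  · exact Final.famX_ne hd t i
  · exact Final.famY_ne (Final.pair_ne hd).1 (Final.pair_ne hd).2 t i

theorem exists_modX {d : Quad K} (hd : d.IsData) : ∃ M : Mod K, IsModelOf M (famX d) := by
  refine exists_mod (famX d) (Final.famX_ne hd) (famX_gen hd)
    {k' | ∃ i j k l m : Bool, famChart (famX d) k' = (d.tw i j k l m).chartX} ?_ ?_
  · intro R hR
    obtain ⟨i, j, k, l, h⟩ := famX_cover hd R hR
    obtain ⟨k', hk'⟩ := famX_chart hd i j k l false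
    exact ⟨k', ⟨i, j, k, l, false, hk'⟩, hk' ▸ h false⟩
  · rintro k' ⟨i, j, k, l, m, hk'⟩
    rw [hk']
    exact chartX_smooth (hd.tw i j k l m)

theorem exists_modG {d : Quad K} (hd : d.IsData) : ∃ M : Mod K, IsModelOf M (famG d) := by
  refine exists_mod (famG d) (Final.famG_ne hd) (famG_gen hd)
    {k' | ∃ i j k l m : Bool, famChart (famG d) k' = (d.tw i j k l m).chartG} ?_ ?_
  · intro R hR
    obtain ⟨i, j, k, l, m, h⟩ := famG_cover hd R hR
    obtain ⟨k', hk'⟩ := famG_chart hd i j k l m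
    exact ⟨k', ⟨i, j, k, l, m, hk'⟩, hk' ▸ h⟩
  · rintro k' ⟨i, j, k, l, m, hk'⟩
    rw [hk']
    exact chartX_smooth (hd.tw i j k l m).blow

theorem exists_modY {P : Pair L} (hP : P.IsPair) (hp : P.p ≠ 0) (hq : P.q ≠ 0) :
    ∃ M : Mod L, IsModelOf M (famY P) := by
  refine exists_mod (famY P) (Final.famY_ne hp hq) (famY_gen hP)
    {k' | ∃ k l m : Bool, famChart (famY P) k' = (P.tw k l m).chartY} ?_ ?_
  · intro R hR
    obtain ⟨k, l, m, h⟩ := famY_cover hP R hR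
    obtain ⟨k', hk'⟩ := famY_chart hP k l m
    exact ⟨k', ⟨k, l, m, hk'⟩, hk' ▸ h⟩
  · rintro k' ⟨k, l, m, hk'⟩
    rw [hk']
    exact chartY_smooth (hP.tw k l m)

theorem Final.famChart_le {T ι : Type} {x : T → ι → K} {k : T → ι} {R : Subalgebra ℂ K}
    (h : ∀ t i, x t i / x t (k t) ∈ R) : famChart x k ≤ R :=
  Algebra.adjoin_le (by rintro _ ⟨⟨t, i⟩, rfl⟩; exact h t i)

theorem Final.mem_famChart {T ι : Type} (x : T → ι → K) (k : T → ι) (t : T) (i : ι) :
    x t i / x t (k t) ∈ famChart x k :=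
  Algebra.subset_adjoin ⟨(t, i), rfl⟩

theorem IsModelOf.center' {T ι : Type} {M : Mod K} {x : T → ι → K} (hM : IsModelOf M x)
    (O : Subalgebra ℂ K) (hO : IsLocalRing O) (h : Dom O x) : ∃ z, M.loc z ≤ O := by
  choose k hk using h
  exact hM.center k O hO (Final.famChart_le hk)

/-- The morphism `π : Γ ⟶ X`. -/
theorem exists_pi {d : Quad K} (MX MG : Mod K) (hX : IsModelOf MX (famX d))
    (hG : IsModelOf MG (famG d)) :
    ∃ π : MG.V.X ⟶ MX.V.X, MG.Realizes MX (AlgHom.id ℂ K) π := by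
  refine exists_hom MG MX (AlgHom.id ℂ K) fun z => ?_
  obtain ⟨x, hx⟩ := hX.center' (MG.loc z) (isLocalRing_loc MG z)
    (fun t => hG.dom z (Sum.inl t))
  exact ⟨x, fun t ht => hx ht⟩

theorem Final.famY_map (σ : L →ₐ[ℂ] K) (P : Pair L) (t i : Fin 4) :
    famY (P.map σ) t i = σ (famY P t i) := by
  fin_cases t <;> fin_cases i <;> simp [famY, Pair.map]

/-- The morphism `φΓ : Γ ⟶ Y`. -/
theorem exists_phi {d : Quad K} {P : Pair L} (σ : L →ₐ[ℂ] K) (hPd : P.map σ = d.pair)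
    (MG : Mod K) (MY : Mod L) (hG : IsModelOf MG (famG d)) (hY : IsModelOf MY (famY P)) :
    ∃ φ : MG.V.X ⟶ MY.V.X, MG.Realizes MY σ φ := by
  refine exists_hom MG MY σ fun z => ?_
  obtain ⟨y, hy⟩ := hY.center' ((MG.loc z).comap σ)
    (isLocalRing_comap σ _ (isLocalRing_loc MG z)) (fun t => by
      obtain ⟨k, hk⟩ := hG.dom z (Sum.inr t)
      refine ⟨k, fun i => ?_⟩
      have := hk i
      rw [Subalgebra.mem_comap, map_div₀, ← Final.famY_map, ← Final.famY_map, hPd]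
      exact this)
  exact ⟨y, fun t ht => hy ht⟩

/-- The open subset of a model where `p, q` are units. -/
def unitOpen (M : Mod K) (P : Pair K) : M.V.X.Opens where
  carrier := {x | P.p ∈ M.loc x ∧ P.p⁻¹ ∈ M.loc x ∧ P.q ∈ M.loc x ∧ P.q⁻¹ ∈ M.loc x}
  is_open' := (isOpen_mem_loc M _).inter ((isOpen_mem_loc M _).inter
    ((isOpen_mem_loc M _).inter (isOpen_mem_loc M _)))

theorem mem_unitOpen {M : Mod K} {P : Pair K} {x : M.V.X} : x ∈ unitOpen M P ↔
    P.p ∈ M.loc x ∧ P.p⁻¹ ∈ M.loc x ∧ P.q ∈ M.loc x ∧ P.q⁻¹ ∈ M.loc x := Iff.rfl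

theorem genericPoint_mem_unitOpen (M : Mod K) (P : Pair K) :
    genericPoint M.V.X ∈ unitOpen M P := by
  rw [mem_unitOpen, loc_genericPoint]
  exact ⟨trivial, trivial, trivial, trivial⟩

theorem Final.mem_or_inv {x : Fin 4 → Fin 4 → K} {R : Subalgebra ℂ K} (h : Dom R x) (t : Fin 4)
    {f : K} (hf : x t = ![1, f, 1, f]) : f ∈ R ∨ f⁻¹ ∈ R := by
  obtain ⟨k, hk⟩ := h t
  have h0 := hk 0
  have h1 := hk 1
  rw [hf] at h0 h1
  fin_cases k
  · left; simpa using h1
  · right; simpa using h0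
  · left; simpa using h1
  · right; simpa using h0

/-- The preimage of the torus under `φΓ`. -/
theorem mem_unitOpen_phi {P : Pair L} (σ : L →ₐ[ℂ] K) (MG : Mod K) (MY : Mod L)
    (hY : IsModelOf MY (famY P)) (φ : MG.V.X ⟶ MY.V.X) (hφ : MG.Realizes MY σ φ) (z : MG.V.X) :
    φ z ∈ unitOpen MY P ↔ z ∈ unitOpen MG (P.map σ) := by
  rw [mem_unitOpen, mem_unitOpen]
  have key : ∀ f : L, (f ∈ MY.loc (φ z) ∨ f⁻¹ ∈ MY.loc (φ z)) →
      ((f ∈ MY.loc (φ z) ∧ f⁻¹ ∈ MY.loc (φ z)) ↔ (σ f ∈ MG.loc z ∧ (σ f)⁻¹ ∈ MG.loc z)) := by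
    intro f hf
    constructor
    · rintro ⟨h1, h2⟩
      refine ⟨map_mem_loc MG MY σ φ hφ z h1, ?_⟩
      rw [← map_inv₀]
      exact map_mem_loc MG MY σ φ hφ z h2
    · rintro ⟨h1, h2⟩
      rcases hf with hf | hf
      · exact ⟨hf, inv_mem_loc MG MY σ φ hφ z hf h2⟩
      · refine ⟨?_, hf⟩
        have := inv_mem_loc MG MY σ φ hφ z hf (by rwa [map_inv₀, inv_inv])
        rwa [inv_inv] at this
  have hp := key P.p (Final.mem_or_inv (hY.dom (φ z)) 0 rfl)
  have hq := key P.q (Final.mem_or_inv (hY.dom (φ z)) 1 rfl)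
  constructor
  · rintro ⟨h1, h2, h3, h4⟩
    exact ⟨(hp.1 ⟨h1, h2⟩).1, (hp.1 ⟨h1, h2⟩).2, (hq.1 ⟨h3, h4⟩).1, (hq.1 ⟨h3, h4⟩).2⟩
  · rintro ⟨h1, h2, h3, h4⟩
    exact ⟨(hp.2 ⟨h1, h2⟩).1, (hp.2 ⟨h1, h2⟩).2, (hq.2 ⟨h3, h4⟩).1, (hq.2 ⟨h3, h4⟩).2⟩

/-- The preimage of the unit locus under `π`. -/
theorem mem_unitOpen_pi {d : Quad K} (hd : d.IsData) (MX MG : Mod K)
    (hX : IsModelOf MX (famX d)) (π : MG.V.X ⟶ MX.V.X)
    (hπ : MG.Realizes MX (AlgHom.id ℂ K) π) (z : MG.V.X) :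
    π z ∈ unitOpen MX d.pair ↔ z ∈ unitOpen MG d.pair := by
  rw [mem_unitOpen, mem_unitOpen]
  have hmap : ∀ t : K, t ∈ MX.loc (π z) → t ∈ MG.loc z :=
    fun t ht => map_mem_loc MG MX (AlgHom.id ℂ K) π hπ z ht
  have hinv : ∀ t : K, t ∈ MX.loc (π z) → t⁻¹ ∈ MG.loc z → t⁻¹ ∈ MX.loc (π z) :=
    fun t ht h => inv_mem_loc MG MX (AlgHom.id ℂ K) π hπ z ht h
  constructor
  · rintro ⟨h1, h2, h3, h4⟩
    exact ⟨hmap _ h1, hmap _ h2, hmap _ h3, hmap _ h4⟩
  · intro h
    obtain ⟨i, j, k, l, hc⟩ := famX_cover hd (MX.loc (π z)) (hX.dom (π z))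
    replace hc := hc false
    set d' := d.tw i j k l false with hd'
    have hdd : d'.IsData := hd.tw i j k l false
    obtain ⟨ha0, hb0, hr0, hs0⟩ := hdd.ne_zero
    have hpt : d'.pair = d.pair.tw k l false := Quad.pair_tw hd i j k l false
    have ha : d'.a ∈ MX.loc (π z) := hc (Algebra.subset_adjoin (by simp))
    have hb : d'.b ∈ MX.loc (π z) := hc (Algebra.subset_adjoin (by simp))
    have hr : d'.r ∈ MX.loc (π z) := hc (Algebra.subset_adjoin (by simp))
    have hs : d'.s ∈ MX.loc (π z) := hc (Algebra.subset_adjoin (by simp))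
    obtain ⟨hk1, hk2⟩ := Quad.kap_mem hdd (MX.loc (π z)) ha hb
    have hk0 : d'.kap ≠ 0 := div_ne_zero ha0 hb0
    obtain ⟨u1, u2, u3, u4⟩ := (tw_unit_iff (Final.pair_ne hd).1 (Final.pair_ne hd).2
      (MG.loc z) k l false).2 h
    rw [← hpt] at u1 u2 u3 u4
    have e1 : d'.r⁻¹ = d'.r * (d'.pair.p⁻¹ * d'.pair.q⁻¹ * d'.kap⁻¹) := by
      simp only [Quad.pair]
      field_simp
    have e2 : d'.s⁻¹ = d'.s * (d'.pair.p⁻¹ * d'.pair.q * d'.kap⁻¹) := by
      simp only [Quad.pair]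
      field_simp
    have hr' : d'.r⁻¹ ∈ MX.loc (π z) := by
      refine hinv _ hr ?_
      rw [e1]
      exact mul_mem (hmap _ hr) (mul_mem (mul_mem u2 u4) (hmap _ hk2))
    have hs' : d'.s⁻¹ ∈ MX.loc (π z) := by
      refine hinv _ hs ?_
      rw [e2]
      exact mul_mem (hmap _ hs) (mul_mem (mul_mem u2 u3) (hmap _ hk2))
    refine (tw_unit_iff (Final.pair_ne hd).1 (Final.pair_ne hd).2 (MX.loc (π z)) k l false).1 ?_
    rw [← hpt]
    refine ⟨?_, ?_, ?_, ?_⟩
    · simp only [Quad.pair, div_eq_mul_inv]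
      exact mul_mem (mul_mem hr hs) hk2
    · simp only [Quad.pair, div_eq_mul_inv, mul_inv, inv_inv]
      exact mul_mem (mul_mem hr' hs') hk1
    · simp only [Quad.pair, div_eq_mul_inv]
      exact mul_mem hr hs'
    · simp only [Quad.pair, div_eq_mul_inv, mul_inv, inv_inv]
      exact mul_mem hr' hs

theorem isIso_pi {d : Quad K} (MX MG : Mod K)
    (hX : IsModelOf MX (famX d)) (hG : IsModelOf MG (famG d)) (π : MG.V.X ⟶ MX.V.X)
    (hπ : MG.Realizes MX (AlgHom.id ℂ K) π) : IsIso (π ∣_ (unitOpen MX d.pair)) := by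
  refine isIso_restrict MG MX π hπ _ (genericPoint_mem_unitOpen MX _) fun x hx => ?_
  refine hG.center' (MX.loc x) (isLocalRing_loc MX x) ?_
  obtain ⟨h1, h2, h3, h4⟩ := hx
  rintro (t | t)
  · exact hX.dom x t
  · refine ⟨0, fun i => ?_⟩
    have h5 : d.pair.p * d.pair.q ∈ MX.loc x := mul_mem h1 h3
    have h6 : d.pair.p / d.pair.q ∈ MX.loc x := by
      rw [div_eq_mul_inv]; exact mul_mem h1 h4
    change famY d.pair t i / famY d.pair t 0 ∈ MX.loc x
    fin_cases t <;> fin_cases i <;> simp [famY, h1, h3, h5, h6, one_mem]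

/-- The function field of `Y` is algebraically closed in the function field of `Γ`. -/
theorem connected_phi {d : Quad K} (hd : d.IsData) (MG : Mod K) (MY : Mod L)
    (σ : L →ₐ[ℂ] K)
    (hσ : σ.range = (IntermediateField.adjoin ℂ {d.pair.p, d.pair.q}).toSubalgebra)
    (φ : MG.V.X ⟶ MY.V.X) (hφ : MG.Realizes MY σ φ)
    (f : MG.V.X.functionField)
    (hf : (φ.stalkMap (genericPoint MG.V.X)).hom.IsIntegralElem f) :
    f ∈ (φ.stalkMap (genericPoint MG.V.X)).hom.range := by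
  set η := genericPoint MG.V.X with hη
  have htop : MY.loc (φ η) = ⊤ := by
    rw [eq_top_iff]
    intro t _
    obtain ⟨u, v, hv, huv⟩ := IsFractionRing.div_surjective
      (A := MY.V.X.presheaf.stalk (φ η)) (MY.e.symm t)
    have h1 : t = MY.stalkEmb (φ η) u / MY.stalkEmb (φ η) v := by
      rw [Mod.stalkEmb_apply, Mod.stalkEmb_apply, ← map_div₀, huv]
      simp
    have hv' : (MY.stalkEmb (φ η) v)⁻¹ ∈ MY.loc (φ η) := by
      refine inv_mem_loc MG MY σ φ hφ η ⟨v, rfl⟩ ?_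
      have hηt : MG.loc η = ⊤ := loc_genericPoint MG
      rw [hηt]
      trivial
    rw [h1, div_eq_mul_inv]
    exact mul_mem ⟨u, rfl⟩ hv'
  have halg : IsAlgebraic (IntermediateField.adjoin ℂ {d.pair.p, d.pair.q})
      (MG.stalkEmb η f) := by
    obtain ⟨p, hp, hpf⟩ := hf
    have hint : IsIntegral (IntermediateField.adjoin ℂ {d.pair.p, d.pair.q})
        (MG.stalkEmb η f) := by
      let g : MY.V.X.presheaf.stalk (φ η) →+*
          IntermediateField.adjoin ℂ {d.pair.p, d.pair.q} :=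
        { toFun := fun a => ⟨σ (MY.stalkEmb (φ η) a), by
            have : σ (MY.stalkEmb (φ η) a) ∈ σ.range := ⟨_, rfl⟩
            rw [hσ] at this
            exact this⟩
          map_one' := by ext; simp
          map_mul' := by intro a b; ext; simp
          map_zero' := by ext; simp
          map_add' := by intro a b; ext; simp }
      refine ⟨p.map g, hp.map g, ?_⟩
      rw [Polynomial.eval₂_map]
      have hcomp : (algebraMap (IntermediateField.adjoin ℂ {d.pair.p, d.pair.q}) K).comp g =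
          (MG.stalkEmb η : MG.V.X.presheaf.stalk η →+* K).comp (φ.stalkMap η).hom := by
        ext a
        exact (stalkEmb_stalkMap MG MY σ φ hφ η a).symm
      rw [hcomp]
      have := congrArg (MG.stalkEmb η : MG.V.X.presheaf.stalk η →+* K) hpf
      rw [Polynomial.hom_eval₂, map_zero] at this
      exact this
    exact hint.isAlgebraic
  have hmem := algClosed_in hd _ halg
  have hmem2 : MG.stalkEmb η f ∈ σ.range := by rw [hσ]; exact hmem
  obtain ⟨t, ht⟩ := hmem2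
  have ht2 : t ∈ MY.loc (φ η) := by rw [htop]; trivial
  obtain ⟨g, hg⟩ := ht2
  refine ⟨g, MG.stalkEmb_injective η ?_⟩
  rw [stalkEmb_stalkMap MG MY σ φ hφ η g]
  rw [← ht]
  exact congrArg σ hg

/-- At a point of `Γ` of codimension one whose image in `X` has codimension one, the relative
canonical divisor has multiplicity zero. -/
theorem relCan_phi {d : Quad K} (hd : d.IsData) {P : Pair L} (hP : P.IsPair)
    (σ : L →ₐ[ℂ] K) (hPd : P.map σ = d.pair) (MX MG : Mod K) (MY : Mod L)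
    (hX : IsModelOf MX (famX d)) (hG : IsModelOf MG (famG d)) (hY : IsModelOf MY (famY P))
    (π : MG.V.X ⟶ MX.V.X) (hπ : MG.Realizes MX (AlgHom.id ℂ K) π)
    (φ : MG.V.X ⟶ MY.V.X) (hφ : MG.Realizes MY σ φ) (z : MG.V.X)
    (hz : coheight z = 1) (hπz : coheight (π z) = 1)
    (hdm : (d.map MG.e.symm).IsData) (hPm : (P.map MY.e.symm).IsPair) :
    RelCanMult φ 3 2 (form3 (d.map MG.e.symm)) (form2 (P.map MY.e.symm)) z 0 := by
  have hmap : ∀ t : K, t ∈ MX.loc (π z) → t ∈ MG.loc z :=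
    fun t ht => map_mem_loc MG MX (AlgHom.id ℂ K) π hπ z ht
  have hinv : ∀ t : K, t ∈ MX.loc (π z) → t⁻¹ ∈ MG.loc z → t⁻¹ ∈ MX.loc (π z) :=
    fun t ht h => inv_mem_loc MG MX (AlgHom.id ℂ K) π hπ z ht h
  -- if `t` is regular upstairs and `t` or `t⁻¹` is regular downstairs then `t` is
  have hdown : ∀ t : K, t ∈ MG.loc z → (t ∈ MX.loc (π z) ∨ t⁻¹ ∈ MX.loc (π z)) →
      t ∈ MX.loc (π z) := by
    intro t ht h
    rcases h with h | h
    · exact h
    · have := hinv _ h (by rwa [inv_inv])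
      rwa [inv_inv] at this
  have hdownY : ∀ t : L, σ t ∈ MG.loc z → (t ∈ MY.loc (φ z) ∨ t⁻¹ ∈ MY.loc (φ z)) →
      t ∈ MY.loc (φ z) := by
    intro t ht h
    rcases h with h | h
    · exact h
    · have := inv_mem_loc MG MY σ φ hφ z h (by rwa [map_inv₀, inv_inv])
      rwa [inv_inv] at this
  obtain ⟨i, j, k, l, m, hc⟩ := famG_cover hd (MG.loc z) (hG.dom z)
  obtain ⟨kG, hkG⟩ := famG_chart hd i j k l m
  obtain ⟨kX, hkX⟩ := famX_chart hd i j k l m
  obtain ⟨kY, hkY⟩ := famY_chart hP k l m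
  have hdomX := famX_dom hd (MX.loc (π z)) (hX.dom (π z)) i j k l m
  have hpt : (d.tw i j k l m).pair = d.pair.tw k l m := Quad.pair_tw hd i j k l m
  have hpm : (P.tw k l m).map σ = (d.tw i j k l m).pair := by
    rw [hpt, Pair.map_tw, hPd]
  set d' := d.tw i j k l m with hd'
  have hdd : d'.IsData := hd.tw i j k l m
  obtain ⟨ha0, hb0, hr0, hs0⟩ := hdd.ne_zero
  have ha : d'.a ∈ MG.loc z := hc (Algebra.subset_adjoin (by simp [Quad.blow]))
  have hb : d'.b ∈ MG.loc z := hc (Algebra.subset_adjoin (by simp [Quad.blow]))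
  have hr : d'.r ∈ MG.loc z := hc (Algebra.subset_adjoin (by simp [Quad.blow]))
  have hw : d'.s / d'.r ∈ MG.loc z := hc (Algebra.subset_adjoin (by simp [Quad.blow]))
  have hs : d'.s ∈ MG.loc z := by
    have : d'.s = d'.r * (d'.s / d'.r) := by field_simp
    rw [this]
    exact mul_mem hr hw
  -- the chart of `X`
  have haX := hdown _ ha hdomX.1
  have hbX := hdown _ hb hdomX.2.1
  have hrX := hdown _ hr (hdomX.2.2 haX hbX).1
  have hsX := hdown _ hs (hdomX.2.2 haX hbX).2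
  have hcX : d'.chartX ≤ MX.loc (π z) := by
    refine Algebra.adjoin_le ?_
    rintro t (rfl | rfl | rfl | rfl)
    · exact haX
    · exact hbX
    · exact hrX
    · exact hsX
  have hlX : IsLocOf (MX.loc (π z)) d'.chartX := by
    have := hX.locn (π z) kX (by rw [hkX]; exact hcX)
    rwa [hkX] at this
  have hr' : d'.r⁻¹ ∈ MG.loc z := by
    by_contra hcon
    refine not_coheight_one MX (π z) hπz d' hdd hcX hlX (fun h => hcon (hmap _ h)) ?_
    intro h
    refine hcon ?_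
    have h1 := hmap _ h
    have : d'.r⁻¹ = (d'.s / d'.r) * d'.s⁻¹ := by field_simp
    rw [this]
    exact mul_mem hw h1
  have hlG : IsLocOf (MG.loc z) d'.chartG := by
    have := hG.locn z kG (by rw [hkG]; exact hc)
    rwa [hkG] at this
  -- the chart of `Y`
  have hk := Quad.kap_mem hdd (MG.loc z) ha hb
  have hp0 : P.p ≠ 0 := by
    intro h
    apply (Final.pair_ne hd).1
    rw [← hPd, Pair.map, h, map_zero]
  have hq0 : P.q ≠ 0 := by
    intro h
    apply (Final.pair_ne hd).2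
    rw [← hPd, Pair.map, h, map_zero]
  have hY1 : (P.tw k l m).chartY ≤ MY.loc (φ z) := by
    have hpe : σ (P.tw k l m).p = d'.pair.p := congrArg Pair.p hpm
    have hqe : σ (P.tw k l m).q = d'.pair.q := congrArg Pair.q hpm
    have hσ1 : σ ((P.tw k l m).p * (P.tw k l m).q) ∈ MG.loc z := by
      rw [map_mul, hpe, hqe]
      have : d'.pair.p * d'.pair.q = d'.r * d'.r * d'.kap⁻¹ := by
        have hk0 : d'.kap ≠ 0 := div_ne_zero ha0 hb0
        simp only [Quad.pair]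
        field_simp
      rw [this]
      exact mul_mem (mul_mem hr hr) hk.2
    have hσ2 : σ (P.tw k l m).q⁻¹ ∈ MG.loc z := by
      rw [map_inv₀, hqe]
      simp only [Quad.pair, inv_div]
      exact hw
    have hd0 := Final.mem_or_inv (hY.dom (φ z)) 0 rfl
    have hd1 := Final.mem_or_inv (hY.dom (φ z)) 1 rfl
    have hd2 := Final.mem_or_inv (hY.dom (φ z)) 2 rfl
    have hd3 := Final.mem_or_inv (hY.dom (φ z)) 3 rfl
    refine Algebra.adjoin_le ?_
    rintro t (rfl | rfl)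
    · refine hdownY _ hσ1 ?_
      cases k <;> cases l <;> cases m <;>
        simp only [Pair.tw, Pair.invr, Pair.invs, Pair.swap, if_true, if_false,
          Bool.false_eq_true, mul_inv, inv_inv, div_eq_mul_inv] at hd0 hd1 hd2 hd3 ⊢ <;>
        first
        | exact hd2 | exact hd3 | exact hd2.symm | exact hd3.symm
        | (rw [mul_comm P.q P.p, mul_comm P.q⁻¹ P.p⁻¹]; exact hd2)
        | (rw [mul_comm P.q⁻¹ P.p⁻¹, mul_comm P.q P.p]; exact hd2.symm)
        | (rw [mul_comm P.q⁻¹ P.p, mul_comm P.q P.p⁻¹]; exact hd3)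
        | (rw [mul_comm P.q P.p⁻¹, mul_comm P.q⁻¹ P.p]; exact hd3.symm)
    · refine hdownY _ hσ2 ?_
      rcases hd0 with h0 | h0 <;> rcases hd1 with h1 | h1 <;>
      cases k <;> cases l <;> cases m <;>
        simp [Pair.tw, Pair.invr, Pair.invs, Pair.swap, h0, h1]
  have hlY : IsLocOf (MY.loc (φ z)) (P.tw k l m).chartY := by
    have := hY.locn (φ z) kY (by rw [hkY]; exact hY1)
    rwa [hkY] at this
  refine relCanMult_zero MG MY σ φ hφ z hz d' hdd (P.tw k l m) (hP.tw k l m) hpm hc hlG hY1 hlY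
    hr' _ _ ?_ ?_
  · have h1 : d'.map MG.e.symm = (d.map MG.e.symm).tw i j k l m := by
      rw [hd']
      exact Final.quad_map_tw (MG.e.symm : K →ₐ[ℂ] MG.V.X.functionField) d i j k l m
    rw [h1]
    rcases form3_tw hdm i j k l m with h | h
    · exact Or.inl h.symm
    · right; rw [h, neg_neg]
  · have h1 : (P.tw k l m).map MY.e.symm = (P.map MY.e.symm).tw k l m :=
      Pair.map_tw (MY.e.symm : L →ₐ[ℂ] MY.V.X.functionField) P k l m
    rw [h1]
    rcases form2_tw hPm k l m with h | h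
    · exact Or.inl h.symm
    · right; rw [h, neg_neg]

/-- The statement of the disproof. -/
def Statement : Prop :=
  ∃ (X Y Γ : SmoothProjVar) (φ : X.X ⤏ Y.X) (_ : φ.IsDominant) (π : Γ.X ⟶ X.X)
    (_ : IsDominant π) (φΓ : Γ.X ⟶ Y.X),
    φ.compHom Y.str = X.str.toRationalMap ∧ π ≫ X.str = Γ.str ∧ φΓ ≫ Y.str = Γ.str ∧
    IsAlmostHolomorphic φ ∧ IsBirationalMorphism π ∧
    π.toRationalMap.comp φ = φΓ.toRationalMap ∧
    (∀ f : Γ.X.functionField, (φΓ.stalkMap (genericPoint Γ.X)).hom.IsIntegralElem f →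
      f ∈ (φΓ.stalkMap (genericPoint Γ.X)).hom.range) ∧
    (∃ (ωΓ : RatForms Γ 3) (ωY : RatForms Y 2), ωΓ ≠ 0 ∧ ωY ≠ 0 ∧
      ∀ z : Γ.X, coheight z = 1 → coheight (π z) = 1 → RelCanMult φΓ 3 2 ωΓ ωY z 0) ∧
    ∀ (Y' : SmoothProjVar) (β : Y.X.PartialIso Y'.X) (ψ : X.X ⟶ Y'.X),
      β.IsOver Y.str Y'.str → ψ ≫ Y'.str = X.str →
        φ.comp β.toRationalMap ≠ ψ.toRationalMap

theorem main : Statement := by
  obtain ⟨K, _, _, d, hd⟩ := exists_data
  obtain ⟨L, _, _, σ, P, hP, hPd, hσ⟩ := exists_pair hd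
  have hp0 : P.p ≠ 0 := by
    intro h
    apply (Final.pair_ne hd).1
    rw [← hPd, Pair.map, h, map_zero]
  have hq0 : P.q ≠ 0 := by
    intro h
    apply (Final.pair_ne hd).2
    rw [← hPd, Pair.map, h, map_zero]
  obtain ⟨MX, hX⟩ := exists_modX hd
  obtain ⟨MG, hG⟩ := exists_modG hd
  obtain ⟨MY, hY⟩ := exists_modY hP hp0 hq0
  obtain ⟨π, hπ⟩ := exists_pi MX MG hX hG
  obtain ⟨φ, hφ⟩ := exists_phi σ hPd MG MY hG hY
  haveI : IsDominant φ := isDominant_of_realizes MG MY σ φ hφ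
  have hW : π ⁻¹ᵁ (unitOpen MX d.pair) = φ ⁻¹ᵁ (unitOpen MY P) := by
    ext z
    change π z ∈ unitOpen MX d.pair ↔ φ z ∈ unitOpen MY P
    rw [mem_unitOpen_pi hd MX MG hX π hπ z, mem_unitOpen_phi σ MG MY hY φ hφ z, hPd]
  obtain ⟨Φ, hΦ1, hΦ2, h1, h2, h3, h4⟩ := almostHol MG.V MX.V MY.V π φ hπ.1 hφ.1
    (unitOpen MX d.pair) (unitOpen MY P) ⟨_, genericPoint_mem_unitOpen MX _⟩
    ⟨_, genericPoint_mem_unitOpen MY _⟩ hW (isIso_pi MX MG hX hG π hπ)
  refine ⟨MX.V, MY.V, MG.V, Φ, hΦ1, π, hΦ2, φ, h1, hπ.1, hφ.1, h2, h3, h4,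
    fun f hf => connected_phi hd MG MY σ hσ φ hφ f hf,
    ⟨form3 (d.map MG.e.symm), form2 (P.map MY.e.symm), form3_ne_zero (hd.map MG.e.symm),
      form2_ne_zero (hP.map MY.e.symm), fun z hz hπz =>
        relCan_phi hd hP σ hPd MX MG MY hX hG hY π hπ φ hφ z hz hπz (hd.map MG.e.symm)
          (hP.map MY.e.symm)⟩, ?_⟩
  intro Y' β ψ hβ hψ hcomp
  obtain ⟨e', hψ'⟩ := exists_realizes MX MG MY σ π hπ φ hφ Φ h4 Y' β hβ ψ hψ hcomp
  exact no_regular_model MX ⟨Y', e'⟩ σ hd P hP hPd hX ψ hψ'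

end

end Pool.Agent.AHM
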