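import Pool.Agent.AHM.CoordAlg
import Pool.Agent.AHM.FormsNZ

/-!
# The Jacobian determinant of a birational map between rings with local coordinates
-/

set_option autoImplicit false

open CategoryTheory AlgebraicGeometry Order

namespace Pool.Agent.AHM.Stmt

noncomputable section

/-- Exterior products of linear combinations. -/
theorem ιMulti_sum {F M : Type} [CommRing F] [AddCommGroup M] [Module F M] {n : ℕ}
    (v : Fin n → M) (c : Matrix (Fin n) (Fin n) F) :
    exteriorPower.ιMulti F n (fun i => ∑ j, c i j • v j) =
      c.det • exteriorPower.ιMulti F n v := by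
  classical
  let g : (Fin n → F) →ₗ[F] M := Fintype.linearCombination F v
  let f1 : (Fin n → F) [⋀^Fin n]→ₗ[F] (⋀[F]^n M) := (exteriorPower.ιMulti F n).compLinearMap g
  let f2 : (Fin n → F) [⋀^Fin n]→ₗ[F] (⋀[F]^n M) :=
    (LinearMap.toSpanSingleton F (⋀[F]^n M) (exteriorPower.ιMulti F n v)).compAlternatingMap
      Matrix.detRowAlternating
  have hf : f1 = f2 := by
    refine Module.Basis.ext_alternating (Pi.basisFun F (Fin n)) fun σ hσ => ?_
    have hb : Function.Bijective σ := Finite.injective_iff_bijective.1 hσ
    let e : Equiv.Perm (Fin n) := Equiv.ofBijective σ hb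
    have h1 : f1 (fun i => Pi.basisFun F (Fin n) (σ i)) =
        exteriorPower.ιMulti F n (v ∘ e) := by
      change exteriorPower.ιMulti F n (fun i => g (Pi.basisFun F (Fin n) (σ i))) = _
      congr 1
      funext i
      simp [g, e, Fintype.linearCombination_apply]
    have h2 : f2 (fun i => Pi.basisFun F (Fin n) (σ i)) =
        (Matrix.det (fun i => Pi.basisFun F (Fin n) (σ i))) • exteriorPower.ιMulti F n v := rfl
    rw [h1, h2, AlternatingMap.map_perm]
    have h3 : Matrix.det (fun i => Pi.basisFun F (Fin n) (σ i)) =
        ((Equiv.Perm.sign e : ℤ) : F) := by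
      have : (fun i => Pi.basisFun F (Fin n) (σ i) : Matrix (Fin n) (Fin n) F) =
          (1 : Matrix (Fin n) (Fin n) F).submatrix e id := by
        ext i j
        simp [Matrix.one_apply, Pi.single_apply, e, eq_comm]
      rw [this, Matrix.det_permute]
      simp
    rw [h3, Units.smul_def, ← Int.cast_smul_eq_zsmul F]
  have h := congrArg (fun f => f c) hf
  have h1 : f1 c = exteriorPower.ιMulti F n (fun i => ∑ j, c i j • v j) := by
    change exteriorPower.ιMulti F n (fun i => g (c i)) = _
    congr 1
  have h2 : f2 c = c.det • exteriorPower.ιMulti F n v := rfl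
  rw [← h1, ← h2]
  exact h

variable {O B L : Type} [CommRing O] [IsDomain O] [CommRing B] [IsDomain B] [Field L]
  [Algebra ℂ O] [Algebra ℂ B] [Algebra ℂ L] [Algebra O B] [Algebra O L] [Algebra B L]
  [IsScalarTower ℂ O L] [IsScalarTower ℂ B L] [IsScalarTower O B L]
  [IsFractionRing O L] [IsFractionRing B L]

variable (L) in
include L in
/-- Coordinates of `O` and of `B` have the same cardinality. -/
theorem card_eq {n m : ℕ} {s : Fin n → O} {t : Fin m → B} (hs : IsCoordinates s)
    (ht : IsCoordinates t) : n = m := by
  obtain ⟨h1, h2⟩ := hs.localization (B := L) (nonZeroDivisors O)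
  obtain ⟨h3, h4⟩ := ht.localization (B := L) (nonZeroDivisors B)
  let b1 := Module.Basis.mk h1 h2.ge
  let b2 := Module.Basis.mk h3 h4.ge
  simpa using Fintype.card_congr (b1.indexEquiv b2)

/-- The Jacobian determinant lies in `B` and is not zero. -/
theorem exists_jacobian {n : ℕ} {s : Fin n → O} {t : Fin n → B} (hs : IsCoordinates s)
    (ht : IsCoordinates t) :
    ∃ J : B, J ≠ 0 ∧
      wedge (fun i => algebraMap O L (s i)) =
        scale (algebraMap B L J) (wedge fun i => algebraMap B L (t i)) := by
  have hspan : ∀ i, KaehlerDifferential.D ℂ B (algebraMap O B (s i)) ∈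
      Submodule.span B (Set.range fun i => KaehlerDifferential.D ℂ B (t i)) := by
    intro i
    rw [ht.2]
    trivial
  choose c hc using fun i => (Submodule.mem_span_range_iff_exists_fun B).1 (hspan i)
  let C : Matrix (Fin n) (Fin n) B := c
  have key : wedge (fun i => algebraMap O L (s i)) =
      scale (algebraMap B L C.det) (wedge fun i => algebraMap B L (t i)) := by
    change exteriorPower.ιMulti L n (fun i => KaehlerDifferential.D ℂ L (algebraMap O L (s i))) =
      algebraMap B L C.det • exteriorPower.ιMulti L n
        (fun i => KaehlerDifferential.D ℂ L (algebraMap B L (t i)))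
    rw [RingHom.map_det, ← ιMulti_sum]
    congr 1
    funext i
    have h := congrArg (KaehlerDifferential.map ℂ ℂ B L) (hc i)
    rw [map_sum, KaehlerDifferential.map_D, ← IsScalarTower.algebraMap_apply O B L] at h
    rw [← h]
    refine Finset.sum_congr rfl fun j _ => ?_
    rw [map_smul, KaehlerDifferential.map_D, ← algebraMap_smul L]
    rfl
  refine ⟨C.det, fun h0 => ?_, key⟩
  rw [h0, map_zero] at key
  have h1 := (hs.localization (B := L) (nonZeroDivisors O)).1
  apply formsNZ_wedge_ne_zero _ h1
  change wedge (fun i => algebraMap O L (s i)) = 0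
  rw [key]
  exact zero_smul L _

end

end Pool.Agent.AHM.Stmt
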