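import Pool.Agent.AHM.Bir

/-!
# Smooth varieties are klt, the zero divisor is nef
-/

set_option autoImplicit false

open CategoryTheory AlgebraicGeometry Order

namespace Pool.Agent.AHM.Stmt

noncomputable section

theorem mult_one (X : SmoothProjVar) (x : Pt X) : mult X x 1 = 0 := by
  have h1 := Scheme.ord_mul (X := X.X) (x := x) (one_ne_zero (α := X.X.functionField))
    (one_ne_zero (α := X.X.functionField))
  rw [mul_one] at h1
  change Scheme.ord (1 : X.X.functionField) x = 0
  omega

theorem mult_nonneg (X : SmoothProjVar) (x : Pt X) (hx : IsPrimeDivisor X x) (J : Loc X x)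
    (hJ : J ≠ 0) : 0 ≤ mult X x (toFunField X x J) := by
  have : Ring.KrullDimLE 1 (X.X.presheaf.stalk x) := krullDimLE_of_coheight_le (le_of_eq hx)
  have h0 : algebraMap (X.X.presheaf.stalk x) X.X.functionField J ≠ 0 := by
    intro h
    exact hJ (IsFractionRing.injective (X.X.presheaf.stalk x) X.X.functionField
      (h.trans (map_zero _).symm))
  change 0 ≤ Scheme.ord (algebraMap (X.X.presheaf.stalk x) X.X.functionField J) x
  rw [Scheme.le_ord_iff hx h0]
  exact Ring.ordFrac_ge_one_of_ne_zero hJ

theorem toFunField_one (X : SmoothProjVar) (x : Pt X) : toFunField X x 1 = 1 := map_one _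

theorem pullMult_zero {W X : SmoothProjVar} (f : Mor W X) (w : Pt W) :
    PullMult f (0 : QDivisor X) 1 1 w 0 := by
  refine ⟨1, 1, ?_, ?_, fun P _ => ?_, ?_⟩
  · rw [map_one]
    exact one_ne_zero
  · rw [map_one]
    exact one_ne_zero
  · rw [sub_self, mult_one]
    simp
  · rw [sub_self]

theorem isNef_zero (X : SmoothProjVar) : IsNef X (0 : QDivisor X) := by
  intro C ν _
  refine ⟨1, 1, 0, one_ne_zero, ?_, fun p => pullMult_zero ν p.1, ?_⟩
  · exact one_ne_zero (α := X.X.functionField)
  · simp

theorem const_toFunField (W : SmoothProjVar) (w : Pt W) :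
    const W w ≫ toFunField W w = const W (gen W) := by
  simp only [const, toFunField, Category.assoc]
  congr 2
  exact W.X.presheaf.germ_stalkSpecializes (U := ⊤) (y := w) trivial
    ((genericPoint_spec W.X).specializes trivial)

theorem const_pull {W X : SmoothProjVar} (f : Mor W X) (w : Pt W) :
    const X (img f w) ≫ f.hom.stalkMap w = const W w := by
  simp only [const, Category.assoc]
  congr 1
  have h1 : X.X.presheaf.germ ⊤ (f.hom w) trivial ≫ f.hom.stalkMap w =
      f.hom.appTop ≫ W.X.presheaf.germ ⊤ w trivial := Scheme.Hom.germ_stalkMap f.hom ⊤ w trivial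
  have h2 : W.str.appTop = X.str.appTop ≫ f.hom.appTop := by
    rw [← Scheme.Hom.comp_appTop, f.w]
  rw [h2, Category.assoc]
  congr 1

theorem exists_discrepancy {W X : SmoothProjVar} (f : Mor W X)
    (hf : IsBirationalMorphism f.hom) (w : Pt W) (hw : IsPrimeDivisor W w) :
    ∃ e : ℤ, Discrepancy f w e ∧ 0 ≤ e := by
  obtain ⟨n, s, hs⟩ := exists_isCoordinates X (img f w)
  obtain ⟨m, t, ht⟩ := exists_isCoordinates W w
  letI : Field (FunField W) := inferInstanceAs (Field W.X.functionField)
  letI a1 : Algebra (Loc X (img f w)) (Loc W w) := (pull f w).toAlgebra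
  letI a2 : Algebra (Loc X (img f w)) (FunField W) :=
    ((toFunField W w).hom.comp (pull f w)).toAlgebra
  haveI i1 : IsFractionRing (Loc X (img f w)) (FunField W) := bir_isFractionRing f.hom hf w
  haveI i2 : IsFractionRing (Loc W w) (FunField W) :=
    (inferInstance : IsFractionRing (W.X.presheaf.stalk w) W.X.functionField)
  haveI : IsScalarTower (Loc X (img f w)) (Loc W w) (FunField W) :=
    IsScalarTower.of_algebraMap_eq' rfl
  haveI : IsScalarTower ℂ (Loc W w) (FunField W) := by
    refine IsScalarTower.of_algebraMap_eq' ?_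
    exact (congrArg CommRingCat.Hom.hom (const_toFunField W w)).symm
  haveI : IsScalarTower ℂ (Loc X (img f w)) (FunField W) := by
    refine IsScalarTower.of_algebraMap_eq' ?_
    refine (congrArg CommRingCat.Hom.hom (const_toFunField W w)).symm.trans ?_
    rw [← const_pull f w]
    rfl
  haveI : IsDomain (Loc X (img f w)) := inferInstanceAs (IsDomain (X.X.presheaf.stalk _))
  haveI : IsDomain (Loc W w) := inferInstanceAs (IsDomain (W.X.presheaf.stalk _))
  obtain rfl := card_eq (FunField W) hs ht
  obtain ⟨J, hJ, h⟩ := exists_jacobian (L := FunField W) hs ht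
  refine ⟨mult W w (toFunField W w J), ⟨n, s, toFunField W w J, hs, ?_, ⟨t, ht, ?_⟩, rfl⟩,
    mult_nonneg W w hw J hJ⟩
  · intro h0
    apply hJ
    apply IsFractionRing.injective (Loc W w) (FunField W)
    exact h0.trans (map_zero _).symm
  · have h1 : (1 : FunField W) • wedge (fun i => algebraMap (Loc X (img f w)) (FunField W) (s i)) =
        scale (algebraMap (Loc W w) (FunField W) J)
          (wedge fun i => algebraMap (Loc W w) (FunField W) (t i)) := by
      rw [one_smul]
      exact h
    exact h1

/-- Smooth varieties are klt. -/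
theorem isKlt_zero (X : SmoothProjVar) : IsKlt X (0 : QDivisor X) := by
  intro W f hf w hw
  obtain ⟨e, he, he0⟩ := exists_discrepancy f hf w hw
  refine ⟨e, 1, 0, he, one_ne_zero, pullMult_zero f w, ?_⟩
  have : (0 : ℚ) ≤ e := by exact_mod_cast he0
  simp
  linarith

end

end Pool.Agent.AHM.Stmt
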