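import Pool.Agent.AHM.Defs
import Pool.Agent.AHM.Data

/-!
# Models of function fields

A model of a field `K` over `ℂ` is a smooth projective variety together with an identification of
its function field with `K`.  The local rings of the variety are then subalgebras of `K`.
-/

open CategoryTheory AlgebraicGeometry Order

namespace Pool.Agent.AHM

noncomputable section

/-- A smooth projective variety with function field identified with `K`. -/
structure Mod (K : Type) [Field K] [Algebra ℂ K] where
  /-- the variety -/
  V : SmoothProjVar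
  /-- the identification of the function field with `K` -/
  e : V.X.functionField ≃ₐ[ℂ] K

variable {K : Type} [Field K] [Algebra ℂ K] {L : Type} [Field L] [Algebra ℂ L]

theorem algebraMap_stalk_algebraMap (V : SmoothProjVar) (z : V.X) (c : ℂ) :
    algebraMap (V.X.presheaf.stalk z) V.X.functionField
      (algebraMap ℂ (V.X.presheaf.stalk z) c) = algebraMap ℂ V.X.functionField c := by
  have h := TopCat.Presheaf.germ_stalkSpecializes V.X.presheaf (U := ⊤) (y := z) trivial
    ((genericPoint_spec V.X).specializes trivial)
  have h2 := congrArg (fun f => f.hom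
    ((V.str.appTop.hom.comp (Scheme.ΓSpecIso (CommRingCat.of ℂ)).inv.hom) c)) h
  exact h2

instance stalkTower (V : SmoothProjVar) (z : V.X) :
    IsScalarTower ℂ (V.X.presheaf.stalk z) V.X.functionField :=
  IsScalarTower.of_algebraMap_eq fun c => (algebraMap_stalk_algebraMap V z c).symm

namespace Mod

/-- The morphism `Spec K ⟶ X` onto the generic point. -/
def gen (M : Mod K) : Spec (CommRingCat.of K) ⟶ M.V.X :=
  Spec.map (CommRingCat.ofHom (M.e : M.V.X.functionField →+* K)) ≫
    M.V.X.fromSpecStalk (genericPoint M.V.X)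

/-- The embedding of the local ring at `z` into `K`. -/
def stalkEmb (M : Mod K) (z : M.V.X) : M.V.X.presheaf.stalk z →ₐ[ℂ] K :=
  (M.e : M.V.X.functionField →ₐ[ℂ] K).comp
    (IsScalarTower.toAlgHom ℂ (M.V.X.presheaf.stalk z) M.V.X.functionField)

/-- The local ring at `z` as a subalgebra of `K`. -/
def loc (M : Mod K) (z : M.V.X) : Subalgebra ℂ K := (M.stalkEmb z).range

theorem stalkEmb_apply (M : Mod K) (z : M.V.X) (g : M.V.X.presheaf.stalk z) :
    M.stalkEmb z g = M.e (algebraMap _ M.V.X.functionField g) := rfl

theorem stalkEmb_injective (M : Mod K) (z : M.V.X) : Function.Injective (M.stalkEmb z) :=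
  M.e.injective.comp (IsFractionRing.injective (M.V.X.presheaf.stalk z) M.V.X.functionField)

theorem mem_loc {M : Mod K} {z : M.V.X} {t : K} :
    t ∈ M.loc z ↔ ∃ g : M.V.X.presheaf.stalk z, M.stalkEmb z g = t := Iff.rfl

/-- `f : X ⟶ Y` is a morphism over `ℂ` inducing `σ` on the function fields. -/
def Realizes (M : Mod K) (N : Mod L) (σ : L →ₐ[ℂ] K) (f : M.V.X ⟶ N.V.X) : Prop :=
  f ≫ N.V.str = M.V.str ∧
    M.gen ≫ f = Spec.map (CommRingCat.ofHom (σ : L →+* K)) ≫ N.gen

end Mod

/-- `M` is the projective model defined by the family of tuples `x`. -/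
structure IsModelOf {T ι : Type} (M : Mod K) (x : T → ι → K) : Prop where
  dom : ∀ z, Dom (M.loc z) x
  locn : ∀ z k, famChart x k ≤ M.loc z → IsLocOf (M.loc z) (famChart x k)
  center : ∀ k (O : Subalgebra ℂ K), IsLocalRing O → famChart x k ≤ O → ∃ z, M.loc z ≤ O

end

end Pool.Agent.AHM
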