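import Pool.Agent.AHM.ProjPieceAux4

open CategoryTheory AlgebraicGeometry Order

namespace Pool.Agent.AHM

noncomputable section

namespace ProjPiece

variable {K : Type} [Field K] [Algebra ℂ K]

open MvPolynomial HomogeneousLocalization IsLocalRing

/-- The embedding of the function field of the image. -/
def emb {X : Scheme.{0}} (φ : Spec (CommRingCat.of K) ⟶ X) :
    φ.image.functionField ⟶ CommRingCat.of K :=
  φ.image.presheaf.stalkSpecializes (specializes_of_eq (toImage_generic φ)) ≫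
    Scheme.stalkClosedPointTo φ.toImage

omit [Algebra ℂ K] in
theorem germ_emb {X : Scheme.{0}} (φ : Spec (CommRingCat.of K) ⟶ X) (U : φ.image.Opens)
    (hU : genericPoint φ.image ∈ U) :
    φ.image.presheaf.germ U _ hU ≫ emb φ =
      tau φ.toImage U (by rw [toImage_generic]; exact hU) := by
  rw [emb, ← germ_tau, ← Category.assoc]
  congr 1
  exact TopCat.Presheaf.germ_stalkSpecializes _ _ _

omit [Algebra ℂ K] in
theorem mem_of_generic {X : Scheme.{0}} (φ : Spec (CommRingCat.of K) ⟶ X) (V : X.Opens)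
    (hV : genericPoint φ.image ∈ φ.imageι ⁻¹ᵁ V) : φ (closedPoint K) ∈ V := by
  rw [← toImage_generic] at hV
  have h := congrArg (fun f => f (closedPoint K)) φ.toImage_imageι
  rw [← h]
  exact hV

omit [Algebra ℂ K] in
theorem app_germ_emb {X : Scheme.{0}} (φ : Spec (CommRingCat.of K) ⟶ X) (V : X.Opens)
    (hV : genericPoint φ.image ∈ φ.imageι ⁻¹ᵁ V) :
    φ.imageι.app V ≫ φ.image.presheaf.germ (φ.imageι ⁻¹ᵁ V) _ hV ≫ emb φ =
      tau φ V (mem_of_generic φ V hV) := by
  rw [germ_emb, tau_congr φ.toImage_imageι.symm, tau_comp]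

omit [Algebra ℂ K] in
theorem tau_Spec {R : Type} [CommRing R] (ψ : R →+* K) :
    tau (Spec.map (CommRingCat.ofHom ψ)) ⊤ trivial =
      (Scheme.ΓSpecIso (CommRingCat.of R)).hom ≫ CommRingCat.ofHom ψ := by
  rw [tau, ← Scheme.ΓSpecIso_naturality]
  congr 1

theorem pt_str {n : ℕ} (y : Fin (n + 1) → K) (hy : ∀ k, ev y (X k) ≠ 0) :
    pt y hy ≫ PSpace.str n = Spec.map (CommRingCat.ofHom (algebraMap ℂ K)) := by
  rw [pt, PSpace.str, Category.assoc, Proj.awayι_toSpecZero_assoc, ← Spec.map_comp,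
    ← Spec.map_comp]
  congr 1
  ext c
  change rho y (X 0) (hy 0) (fromZeroRingHom (gr n) _ (algebraMap ℂ (gr n 0) c)) = algebraMap ℂ K c
  have h : fromZeroRingHom (gr n) (Submonoid.powers (X 0 : MvPolynomial (Fin (n + 1)) ℂ))
      (algebraMap ℂ (gr n 0) c) = Away.mk (gr n) (X_mem 0) 0 (C c)
        (by rw [zero_smul]; exact isHomogeneous_C _ c) := by
    apply HomogeneousLocalization.val_injective
    rw [Away.val_mk]
    change Localization.mk (C c) _ = _
    congr 1
  rw [h, rho_mk, ev_C, pow_zero, div_one]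

theorem generic_mem {n : ℕ} (y : Fin (n + 1) → K) (hy : ∀ k, ev y (X k) ≠ 0)
    (k : Fin (n + 1)) : genericPoint (pt y hy).image ∈ (pt y hy).imageι ⁻¹ᵁ chart n k := by
  rw [← toImage_generic]
  have h := congrArg (fun f => f (closedPoint K)) (pt y hy).toImage_imageι
  have h2 := pt_mem y hy k
  rw [← h] at h2
  exact h2

theorem emb_chart {n : ℕ} (y : Fin (n + 1) → K) (hy : ∀ k, ev y (X k) ≠ 0)
    (k : Fin (n + 1)) (a : Away (gr n) (X k)) :
    emb (pt y hy) ((pt y hy).image.presheaf.germ ((pt y hy).imageι ⁻¹ᵁ chart n k) _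
      (generic_mem y hy k) ((pt y hy).imageι.app (chart n k)
        (Proj.awayToSection (gr n) (X k) a))) = rho y (X k) (hy k) a := by
  have h1 := app_germ_emb (pt y hy) (chart n k) (generic_mem y hy k)
  have h2 := tau_pt y hy k
  have h3 := congrArg (fun f => f.hom (Proj.awayToSection (gr n) (X k) a)) h1
  have h4 := congrArg (fun f => f.hom a) h2
  exact h3.trans h4

theorem awayToSection_surjective {n : ℕ} (k : Fin (n + 1)) :
    Function.Surjective (Proj.awayToSection (gr n) (X k)) := by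
  have h := Proj.basicOpenIsoAway_hom (gr n) (X k) (X_mem k) one_pos
  intro s
  refine ⟨(Proj.basicOpenIsoAway (gr n) (X k) (X_mem k) one_pos).inv s, ?_⟩
  rw [← h]
  exact congrArg (fun f => f.hom s) (Proj.basicOpenIsoAway (gr n) (X k) (X_mem k) one_pos).inv_hom_id

theorem mem_adjoin_iff {n : ℕ} (y : Fin (n + 1) → K) (hy : ∀ k, ev y (X k) ≠ 0)
    (k : Fin (n + 1)) (t : K) : t ∈ Algebra.adjoin ℂ (Set.range fun j => y j / y k) ↔
      ∃ g : Γ((pt y hy).image, (pt y hy).imageι ⁻¹ᵁ chart n k),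
        emb (pt y hy) ((pt y hy).image.presheaf.germ ((pt y hy).imageι ⁻¹ᵁ chart n k) _
      (generic_mem y hy k) g) = t := by
  rw [rho_range y k (hy k)]
  constructor
  · rintro ⟨a, rfl⟩
    exact ⟨_, emb_chart y hy k a⟩
  · rintro ⟨g, rfl⟩
    obtain ⟨s, rfl⟩ := Scheme.IdealSheafData.subschemeι_app_surjective (pt y hy).ker
      ⟨chart n k, isAffineOpen_chart n k⟩ g
    obtain ⟨a, rfl⟩ := awayToSection_surjective k s
    exact ⟨a, (emb_chart y hy k a).symm⟩

theorem emb_surjective {n : ℕ} (y : Fin (n + 1) → K) (hy : ∀ k, ev y (X k) ≠ 0)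
    (hgen : IntermediateField.adjoin ℂ
      (Set.range fun u : Fin (n + 1) × Fin (n + 1) => y u.1 / y u.2) = ⊤) :
    Function.Surjective (emb (pt y hy)) := by
  let F : Subfield K := RingHom.fieldRange (emb (pt y hy)).hom
  have hF : ∀ k, ∀ t ∈ Algebra.adjoin ℂ (Set.range fun j => y j / y k), t ∈ F := by
    intro k t ht
    obtain ⟨g, hg⟩ := (mem_adjoin_iff y hy k t).1 ht
    exact ⟨_, hg⟩
  let I : IntermediateField ℂ K := F.toIntermediateField fun c =>
    hF 0 _ (Subalgebra.algebraMap_mem _ c)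
  have hI : IntermediateField.adjoin ℂ
      (Set.range fun u : Fin (n + 1) × Fin (n + 1) => y u.1 / y u.2) ≤ I := by
    rw [IntermediateField.adjoin_le_iff]
    rintro _ ⟨u, rfl⟩
    exact hF u.2 _ (Algebra.subset_adjoin ⟨u.1, rfl⟩)
  intro t
  have ht : t ∈ I := hI (by rw [hgen]; trivial)
  exact ht

theorem tau_const {X : Scheme.{0}} (φ : Spec (CommRingCat.of K) ⟶ X) (ψ : X ⟶ SpecC)
    (h : φ ≫ ψ = Spec.map (CommRingCat.ofHom (algebraMap ℂ K))) (c : ℂ) :
    tau φ ⊤ trivial (ψ.appTop ((Scheme.ΓSpecIso (CommRingCat.of ℂ)).inv c)) =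
      algebraMap ℂ K c := by
  have h1 := tau_comp φ ψ ⊤ trivial
  rw [tau_congr h, tau_Spec] at h1
  have h2 : (Scheme.ΓSpecIso (CommRingCat.of ℂ)).inv ≫ ψ.app ⊤ ≫ tau φ (ψ ⁻¹ᵁ ⊤) trivial =
      CommRingCat.ofHom (algebraMap ℂ K) := by
    rw [← h1, Iso.inv_hom_id_assoc]
  have h3 := congrArg (fun f => f.hom c) h2
  exact h3

theorem emb_const {X : Scheme.{0}} (φ : Spec (CommRingCat.of K) ⟶ X) (ψ : φ.image ⟶ SpecC)
    (h : φ.toImage ≫ ψ = Spec.map (CommRingCat.ofHom (algebraMap ℂ K))) (c : ℂ) :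
    emb φ (φ.image.presheaf.germ ⊤ (genericPoint φ.image) trivial
      (ψ.appTop ((Scheme.ΓSpecIso (CommRingCat.of ℂ)).inv c))) = algebraMap ℂ K c := by
  rw [← tau_const φ.toImage ψ h c, ← CommRingCat.comp_apply, germ_emb]

/-- The identification of the function field of the image. -/
def embEquiv {n : ℕ} (y : Fin (n + 1) → K) (hy : ∀ k, ev y (X k) ≠ 0)
    (hgen : IntermediateField.adjoin ℂ
      (Set.range fun u : Fin (n + 1) × Fin (n + 1) => y u.1 / y u.2) = ⊤) :
    (pt y hy).image.functionField ≃+* K :=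
  RingEquiv.ofBijective (emb (pt y hy)).hom
    ⟨(emb (pt y hy)).hom.injective, emb_surjective y hy hgen⟩

theorem embEquiv_apply {n : ℕ} (y : Fin (n + 1) → K) (hy : ∀ k, ev y (X k) ≠ 0)
    (hgen : IntermediateField.adjoin ℂ
      (Set.range fun u : Fin (n + 1) × Fin (n + 1) => y u.1 / y u.2) = ⊤)
    (z : (pt y hy).image.functionField) : embEquiv y hy hgen z = emb (pt y hy) z := rfl

end ProjPiece

open ProjPiece MvPolynomial HomogeneousLocalization in
/-- S1a. The closed subscheme of projective space which is the closure of the `K`-point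
`(y 0 : ... : y n)`, with its standard affine charts. -/
theorem exists_proj {K : Type} [Field K] [Algebra ℂ K] (n : ℕ) (y : Fin (n + 1) → K)
    (hy : ∀ i, y i ≠ 0)
    (hgen : IntermediateField.adjoin ℂ
      (Set.range fun u : Fin (n + 1) × Fin (n + 1) => y u.1 / y u.2) = ⊤) :
    ∃ (X : Scheme.{0}) (_ : IsIntegral X) (str : X ⟶ SpecC) (i : X ⟶ PSpace n)
      (e : X.functionField ≃+* K) (U : Fin (n + 1) → X.Opens)
      (hU : ∀ k, genericPoint X ∈ U k),
      IsClosedImmersion i ∧ i ≫ PSpace.str n = str ∧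
      (∀ k, IsAffineOpen (U k)) ∧ (⨆ k, U k = ⊤) ∧
      (∀ c : ℂ, e (X.presheaf.germ ⊤ (genericPoint X) trivial
        (str.appTop ((Scheme.ΓSpecIso (CommRingCat.of ℂ)).inv c))) = algebraMap ℂ K c) ∧
      (∀ k, ∀ t : K, t ∈ Algebra.adjoin ℂ (Set.range fun j => y j / y k) ↔
        ∃ g : Γ(X, U k), e (X.presheaf.germ (U k) (genericPoint X) (hU k) g) = t) ∧
      (∀ k l, ∃ g : Γ(X, U k), e (X.presheaf.germ (U k) (genericPoint X) (hU k) g) = y l / y k ∧
        X.basicOpen g = U k ⊓ U l) := by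
  have hyk : ∀ k, ev y (X k) ≠ 0 := fun k => by rw [ev_X]; exact hy k
  refine ⟨(pt y hyk).image, inferInstance, (pt y hyk).imageι ≫ PSpace.str n, (pt y hyk).imageι,
    embEquiv y hyk hgen, fun k => (pt y hyk).imageι ⁻¹ᵁ chart n k, generic_mem y hyk,
    inferInstance, rfl, fun k => (isAffineOpen_chart n k).preimage _, ?_, ?_, ?_, ?_⟩
  · have h2 := congrArg (fun W => (pt y hyk).imageι ⁻¹ᵁ W) (iSup_chart n)
    simpa only [Scheme.Hom.preimage_iSup, Scheme.Hom.preimage_top] using h2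
  · intro c
    rw [embEquiv_apply]
    exact emb_const (pt y hyk) _ (by rw [Scheme.Hom.toImage_imageι_assoc, pt_str]) c
  · intro k t
    exact mem_adjoin_iff y hyk k t
  · intro k l
    refine ⟨(pt y hyk).imageι.app (chart n k) (Proj.awayToSection (gr n) (X k)
      (Away.mk (gr n) (X_mem k) 1 (X l) (X_mem l))), ?_, ?_⟩
    · rw [embEquiv_apply, emb_chart, rho_mk, ev_X, ev_X, pow_one]
    · rw [← Scheme.preimage_basicOpen, basicOpen_awayToSection]
      rfl

end

end Pool.Agent.AHM
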