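import Pool.Agent.AHM.Model
import Pool.Agent.AHM.ProjPiece

set_option linter.unusedSectionVars false

open CategoryTheory AlgebraicGeometry Order

namespace Pool.Agent.AHM

noncomputable section

variable {K : Type} [Field K] [Algebra ℂ K] {L : Type} [Field L] [Algebra ℂ L]

/-! ### Algebra of the Segre product -/

section segre

variable {T ι : Type} [Fintype T] [Fintype ι] [DecidableEq T] (x : T → ι → K)

/-- The Segre product of the family `x`. -/
def projModelSegre (k : T → ι) : K := ∏ t, x t (k t)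

theorem projModelSegre_ne_zero (hx : ∀ t i, x t i ≠ 0) (k : T → ι) : projModelSegre x k ≠ 0 :=
  Finset.prod_ne_zero_iff.mpr fun t _ => hx t (k t)

theorem projModelSegre_update (hx : ∀ t i, x t i ≠ 0) (k : T → ι) (t : T) (i : ι) :
    projModelSegre x (Function.update k t i) / projModelSegre x k = x t i / x t (k t) := by
  unfold projModelSegre
  rw [← Finset.prod_div_distrib, Finset.prod_eq_single t]
  · simp
  · intro s _ hs
    rw [Function.update_of_ne hs, div_self (hx s (k s))]
  · simp

theorem projModelSegre_div_mem (k l : T → ι) :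
    projModelSegre x l / projModelSegre x k ∈ famChart x k := by
  unfold projModelSegre
  rw [← Finset.prod_div_distrib]
  exact Subalgebra.prod_mem _ fun t _ => Algebra.subset_adjoin ⟨(t, l t), rfl⟩

theorem projModel_adjoin_eq {J : Type} (ε : J ≃ (T → ι)) (hx : ∀ t i, x t i ≠ 0) (m : J) :
    Algebra.adjoin ℂ (Set.range fun j => projModelSegre x (ε j) / projModelSegre x (ε m)) =
      famChart x (ε m) := by
  apply le_antisymm
  · rw [Algebra.adjoin_le_iff]
    rintro _ ⟨j, rfl⟩
    exact projModelSegre_div_mem x _ _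
  · unfold famChart
    rw [Algebra.adjoin_le_iff]
    rintro _ ⟨⟨t, i⟩, rfl⟩
    refine Algebra.subset_adjoin ⟨ε.symm (Function.update (ε m) t i), ?_⟩
    simp only [Equiv.apply_symm_apply]
    exact projModelSegre_update x hx (ε m) t i

theorem projModel_gen {J : Type} (ε : J ≃ (T → ι)) (hx : ∀ t i, x t i ≠ 0)
    (hgen : IntermediateField.adjoin ℂ
      (Set.range fun u : T × ι × ι => x u.1 u.2.1 / x u.1 u.2.2) = ⊤) :
    IntermediateField.adjoin ℂ
      (Set.range fun u : J × J => projModelSegre x (ε u.1) / projModelSegre x (ε u.2)) = ⊤ := by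
  rw [eq_top_iff, ← hgen, IntermediateField.adjoin_le_iff]
  rintro _ ⟨⟨t, i, j⟩, rfl⟩
  refine IntermediateField.subset_adjoin _ _ ?_
  refine ⟨(ε.symm (Function.update (fun _ => j) t i), ε.symm (fun _ => j)), ?_⟩
  simp only [Equiv.apply_symm_apply]
  exact projModelSegre_update x hx (fun _ => j) t i

end segre

/-! ### Local rings of an integral scheme with a chart -/

section chart

variable {X : Scheme.{0}} [IsIntegral X] (e : X.functionField ≃+* K)

/-- Embedding of the local ring at `z` in `K`. -/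
def projModelEmb (z : X) : X.presheaf.stalk z →+* K :=
  (e : X.functionField →+* K).comp (algebraMap (X.presheaf.stalk z) X.functionField)

theorem projModelEmb_injective (z : X) : Function.Injective (projModelEmb e z) :=
  e.injective.comp (IsFractionRing.injective (X.presheaf.stalk z) X.functionField)

theorem projModelEmb_germ (U : X.Opens) (hU : genericPoint X ∈ U) (z : X) (hz : z ∈ U)
    (g : Γ(X, U)) :
    projModelEmb e z (X.presheaf.germ U z hz g) =
      e (X.presheaf.germ U (genericPoint X) hU g) := by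
  have : Nonempty U := ⟨⟨_, hz⟩⟩
  unfold projModelEmb
  rw [RingHom.comp_apply, Scheme.algebraMap_germ_eq_germToFunctionField]
  rfl

/-- Elements of the local ring are fractions of sections over an affine open set. -/
theorem projModel_frac (U : X.Opens) (haff : IsAffineOpen U) (hU : genericPoint X ∈ U) (z : X)
    (hz : z ∈ U) (f : X.presheaf.stalk z) :
    ∃ g h : Γ(X, U), IsUnit (X.presheaf.germ U z hz h) ∧
      projModelEmb e z f = e (X.presheaf.germ U (genericPoint X) hU g) /
        e (X.presheaf.germ U (genericPoint X) hU h) := by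
  let : Algebra Γ(X, U) (X.presheaf.stalk z) := (X.presheaf.germ U z hz).hom.toAlgebra
  have hloc : IsLocalization.AtPrime (X.presheaf.stalk z)
      (haff.primeIdealOf ⟨z, hz⟩).asIdeal := haff.isLocalization_stalk ⟨z, hz⟩
  obtain ⟨⟨g, h⟩, hgh⟩ := IsLocalization.surj (haff.primeIdealOf ⟨z, hz⟩).asIdeal.primeCompl f
  have hu : IsUnit (X.presheaf.germ U z hz h.1) := IsLocalization.map_units _ h
  refine ⟨g, h.1, hu, ?_⟩
  have h0 : e (X.presheaf.germ U (genericPoint X) hU h.1) ≠ 0 := by
    rw [← projModelEmb_germ e U hU z hz]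
    exact (hu.map (projModelEmb e z)).ne_zero
  rw [eq_div_iff h0, ← projModelEmb_germ e U hU z hz, ← projModelEmb_germ e U hU z hz, ← map_mul]
  exact congrArg _ hgh

/-- Every prime ideal of the ring of an affine chart is a point. -/
theorem projModel_point (U : X.Opens) (haff : IsAffineOpen U) (P : Ideal Γ(X, U)) (hP : P.IsPrime) :
    ∃ (z : X) (hz : z ∈ U), ∀ h : Γ(X, U), IsUnit (X.presheaf.germ U z hz h) ↔ h ∉ P := by
  let y : PrimeSpectrum Γ(X, U) := ⟨P, hP⟩
  have hz : haff.fromSpec y ∈ U := by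
    have := haff.range_fromSpec
    have h2 : haff.fromSpec y ∈ Set.range haff.fromSpec := ⟨y, rfl⟩
    rw [this] at h2
    exact h2
  refine ⟨haff.fromSpec y, hz, fun h => ?_⟩
  let : Algebra Γ(X, U) (X.presheaf.stalk (haff.fromSpec y)) :=
    (TopCat.Presheaf.algebra_section_stalk X.presheaf ⟨haff.fromSpec y, hz⟩)
  have hloc : IsLocalization.AtPrime (X.presheaf.stalk (haff.fromSpec y)) P :=
    haff.isLocalization_stalk' y hz
  exact IsLocalization.AtPrime.isUnit_to_map_iff (X.presheaf.stalk (haff.fromSpec y)) P h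

/-- The local ring at `z` as a subalgebra of `K`. -/
def projModelLoc (str : X ⟶ SpecC)
    (hec : ∀ c : ℂ, e (X.presheaf.germ ⊤ (genericPoint X) trivial
        (str.appTop ((Scheme.ΓSpecIso (CommRingCat.of ℂ)).inv c))) = algebraMap ℂ K c) (z : X) :
    Subalgebra ℂ K :=
  { (projModelEmb e z).range with
    algebraMap_mem' := fun c => by
      refine ⟨X.presheaf.germ ⊤ z trivial
        (str.appTop ((Scheme.ΓSpecIso (CommRingCat.of ℂ)).inv c)), ?_⟩
      rw [projModelEmb_germ e ⊤ trivial z trivial, hec c] }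

theorem mem_projModelLoc (str : X ⟶ SpecC)
    (hec : ∀ c : ℂ, e (X.presheaf.germ ⊤ (genericPoint X) trivial
        (str.appTop ((Scheme.ΓSpecIso (CommRingCat.of ℂ)).inv c))) = algebraMap ℂ K c) (z : X)
    (t : K) : t ∈ projModelLoc e str hec z ↔ ∃ g, projModelEmb e z g = t := Iff.rfl

/-- Smoothness over an affine chart. -/
theorem projModel_smooth (str : X ⟶ SpecC)
    (hec : ∀ c : ℂ, e (X.presheaf.germ ⊤ (genericPoint X) trivial
        (str.appTop ((Scheme.ΓSpecIso (CommRingCat.of ℂ)).inv c))) = algebraMap ℂ K c)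
    (U : X.Opens) (hU : genericPoint X ∈ U) (A : Subalgebra ℂ K)
    (hA : ∀ t, t ∈ A ↔ ∃ g : Γ(X, U), e (X.presheaf.germ U (genericPoint X) hU g) = t)
    (hsm : Algebra.Smooth ℂ A) : (str.appLE ⊤ U le_top).hom.Smooth := by
  have : Nonempty U := ⟨⟨_, hU⟩⟩
  let φ0 : Γ(X, U) →+* K :=
    (e : X.functionField →+* K).comp (X.presheaf.germ U (genericPoint X) hU).hom
  have hφ0 : ∀ g, φ0 g = e (X.presheaf.germ U (genericPoint X) hU g) := fun g => rfl
  let φ : Γ(X, U) →+* A := φ0.codRestrict A.toSubring (fun g => (hA _).mpr ⟨g, rfl⟩)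
  have hφ : Function.Bijective φ := by
    constructor
    · intro g h hgh
      have h1 : φ0 g = φ0 h := congrArg Subtype.val hgh
      exact germ_injective_of_isIntegral X (genericPoint X) hU (e.injective h1)
    · rintro ⟨t, ht⟩
      obtain ⟨g, hg⟩ := (hA t).mp ht
      exact ⟨g, Subtype.ext hg⟩
  let Φ : Γ(X, U) ≃+* A := RingEquiv.ofBijective φ hφ
  let Ψ : Γ(SpecC, ⊤) ≃+* ℂ := (Scheme.ΓSpecIso (CommRingCat.of ℂ)).commRingCatIsoToRingEquiv
  have hcomp : (str.appLE ⊤ U le_top).hom =
      (Φ.symm.toRingHom.comp (algebraMap ℂ A)).comp Ψ.toRingHom := by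
    ext c
    apply Φ.injective
    apply Subtype.ext
    have h1 : (Φ ((str.appLE ⊤ U le_top).hom c) : K) =
        e (X.presheaf.germ ⊤ (genericPoint X) trivial (str.appTop c)) := by
      change e (X.presheaf.germ U (genericPoint X) hU ((str.appLE ⊤ U le_top).hom c)) = _
      congr 1
      rw [Scheme.Hom.appLE, CommRingCat.comp_apply]
      exact X.presheaf.germ_res_apply _ _ hU _
    rw [h1]
    have h2 : (Scheme.ΓSpecIso (CommRingCat.of ℂ)).inv (Ψ c) = c :=
      (Scheme.ΓSpecIso (CommRingCat.of ℂ)).commRingCatIsoToRingEquiv.symm_apply_apply c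
    have h3 : (Φ (((Φ.symm.toRingHom.comp (algebraMap ℂ A)).comp Ψ.toRingHom) c) : K) =
        algebraMap ℂ K (Ψ c) :=
      congrArg Subtype.val (Φ.apply_symm_apply (algebraMap ℂ A (Ψ c)))
    rw [h3, ← hec (Ψ c), h2]
  rw [hcomp]
  have h0 : (algebraMap ℂ A).Smooth := RingHom.smooth_algebraMap.mpr hsm
  exact (RingHom.Smooth.of_bijective Ψ.bijective).comp
    (h0.comp (RingHom.Smooth.of_bijective Φ.symm.bijective))

end chart

/-- A model from a ring isomorphism of the function field. -/
def projModelMk (V : SmoothProjVar) (e : V.X.functionField ≃+* K)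
    (hec : ∀ c : ℂ, e (V.X.presheaf.germ ⊤ (genericPoint V.X) trivial
        (V.str.appTop ((Scheme.ΓSpecIso (CommRingCat.of ℂ)).inv c))) = algebraMap ℂ K c) : Mod K :=
  ⟨V, AlgEquiv.ofRingEquiv (f := e) (fun c => hec c)⟩

theorem projModelMk_loc (V : SmoothProjVar) (e : V.X.functionField ≃+* K)
    (hec : ∀ c : ℂ, e (V.X.presheaf.germ ⊤ (genericPoint V.X) trivial
        (V.str.appTop ((Scheme.ΓSpecIso (CommRingCat.of ℂ)).inv c))) = algebraMap ℂ K c)
    (z : V.X) : (projModelMk V e hec).loc z = projModelLoc e V.str hec z := rfl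

/-- S1b. Existence of the projective model attached to a family of tuples (from S1a, by taking
the Segre product of the tuples). -/
theorem exists_mod {T ι : Type} [Finite T] [Finite ι] [Nonempty ι] (x : T → ι → K)
    (hx : ∀ t i, x t i ≠ 0)
    (hgen : IntermediateField.adjoin ℂ
      (Set.range fun u : T × ι × ι => x u.1 u.2.1 / x u.1 u.2.2) = ⊤)
    (S : Set (T → ι)) (hS : ∀ R : Subalgebra ℂ K, Dom R x → ∃ k ∈ S, famChart x k ≤ R)
    (hsm : ∀ k ∈ S, Algebra.Smooth ℂ (famChart x k)) :
    ∃ M : Mod K, IsModelOf M x := by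
  classical
  have := Fintype.ofFinite T
  have := Fintype.ofFinite ι
  obtain ⟨n, hn⟩ : ∃ n, Fintype.card (T → ι) = n + 1 :=
    Nat.exists_eq_succ_of_ne_zero Fintype.card_ne_zero
  let ε : Fin (n + 1) ≃ (T → ι) := (finCongr hn.symm).trans (Fintype.equivFin _).symm
  let y : Fin (n + 1) → K := fun m => projModelSegre x (ε m)
  have hy : ∀ m, y m ≠ 0 := fun m => projModelSegre_ne_zero x hx _
  obtain ⟨X, hX, str, i, e, U, hU, hi, hstr, haff, hcov, hec, hsec, hbas⟩ :=
    exists_proj n y hy (projModel_gen x ε hx hgen)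
  -- charts
  have hsec' : ∀ k t, t ∈ famChart x (ε k) ↔
      ∃ g : Γ(X, U k), e (X.presheaf.germ (U k) (genericPoint X) (hU k) g) = t := by
    intro k t
    rw [← projModel_adjoin_eq x ε hx k]
    exact hsec k t
  have hmem : ∀ k (z : X), z ∈ U k → famChart x (ε k) ≤ projModelLoc e str hec z := by
    intro k z hz t ht
    obtain ⟨g, hg⟩ := (hsec' k t).mp ht
    exact ⟨X.presheaf.germ (U k) z hz g, by rw [projModelEmb_germ e (U k) (hU k), hg]⟩
  have hcov' : ∀ z : X, ∃ m, z ∈ U m := by
    intro z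
    have h1 : z ∈ (⨆ k, U k) := by rw [hcov]; trivial
    exact TopologicalSpace.Opens.mem_iSup.mp h1
  have hUk : ∀ (z : X) (k : Fin (n + 1)), famChart x (ε k) ≤ projModelLoc e str hec z → z ∈ U k := by
    intro z k hk
    obtain ⟨m, hm⟩ := hcov' z
    obtain ⟨g, hg, hgb⟩ := hbas m k
    obtain ⟨g', hg'⟩ := hk (projModelSegre_div_mem x (ε k) (ε m))
    have h2 : IsUnit (X.presheaf.germ (U m) z hm g) := by
      refine IsUnit.of_mul_eq_one g' ?_
      apply projModelEmb_injective e z
      change projModelEmb e z g' = _ at hg'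
      rw [map_mul, map_one, projModelEmb_germ e (U m) (hU m) z hm, hg, hg']
      have h3 := hy m
      have h4 := hy k
      simp only [y] at h3 h4 ⊢
      field_simp
    have h5 : z ∈ X.basicOpen g := (X.mem_basicOpen g z hm).mpr h2
    rw [hgb] at h5
    exact h5.2
  have hDom : ∀ z : X, Dom (projModelLoc e str hec z) x := by
    intro z t
    obtain ⟨m, hm⟩ := hcov' z
    exact ⟨ε m t, fun i => hmem m z hm (Algebra.subset_adjoin ⟨(t, i), rfl⟩)⟩
  have hsmooth : Smooth str := by
    let W : {m : Fin (n + 1) // ε m ∈ S} → X.affineOpens := fun m => ⟨U m.1, haff m.1⟩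
    have hW : ⨆ m, ((W m : X.affineOpens) : X.Opens) = ⊤ := by
      rw [eq_top_iff]
      intro z _
      obtain ⟨k, hkS, hk⟩ := hS _ (hDom z)
      refine TopologicalSpace.Opens.mem_iSup.mpr ⟨⟨ε.symm k, by simpa using hkS⟩, ?_⟩
      refine hUk z (ε.symm k) ?_
      simpa using hk
    refine HasRingHomProperty.of_iSup_eq_top (P := @Smooth) W hW ?_
    intro m
    exact projModel_smooth e str hec (U m.1) (hU m.1) (famChart x (ε m.1)) (hsec' m.1)
      (hsm _ m.2)
  let V : SmoothProjVar := ⟨X, str, hX, hsmooth, n, i, hi, hstr⟩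
  have hloc : ∀ z : X, (projModelMk V e hec).loc z = projModelLoc e str hec z :=
    fun z => projModelMk_loc V e hec z
  refine ⟨projModelMk V e hec, ⟨fun z => ?_, fun z k hk => ?_, fun k O hO hk => ?_⟩⟩
  · exact hDom z
  · rw [hloc] at hk ⊢
    have hz : z ∈ U (ε.symm k) := hUk z (ε.symm k) (by simpa using hk)
    intro f hf
    obtain ⟨f', rfl⟩ := hf
    obtain ⟨g, h, hh, hf'⟩ := projModel_frac e (U (ε.symm k)) (haff _) (hU _) z hz f'
    refine ⟨_, ?_, _, ?_, ?_, ?_, hf'⟩
    · have := (hsec' (ε.symm k) _).mpr ⟨g, rfl⟩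
      simpa using this
    · have := (hsec' (ε.symm k) _).mpr ⟨h, rfl⟩
      simpa using this
    · rw [← projModelEmb_germ e _ (hU _) z hz]
      exact (hh.map (projModelEmb e z)).ne_zero
    · obtain ⟨u, hu⟩ := hh.exists_right_inv
      refine ⟨u, ?_⟩
      change projModelEmb e z _ = _
      rw [← projModelEmb_germ e _ (hU _) z hz]
      refine eq_inv_of_mul_eq_one_right ?_
      rw [← map_mul, hu, map_one]
  · -- centres
    have hk' : famChart x (ε (ε.symm k)) ≤ O := by simpa using hk
    let ψ0 : Γ(X, U (ε.symm k)) →+* K :=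
      (e : X.functionField →+* K).comp
        (X.presheaf.germ (U (ε.symm k)) (genericPoint X) (hU _)).hom
    let ψ : Γ(X, U (ε.symm k)) →+* O :=
      ψ0.codRestrict O.toSubring (fun g => hk' ((hsec' _ _).mpr ⟨g, rfl⟩))
    let P : Ideal Γ(X, U (ε.symm k)) := (IsLocalRing.maximalIdeal O).comap ψ
    have hP : P.IsPrime := Ideal.comap_isPrime ψ (IsLocalRing.maximalIdeal O)
    obtain ⟨z, hz, hPz⟩ := projModel_point (U (ε.symm k)) (haff _) P hP
    refine ⟨z, ?_⟩
    rw [hloc]
    rintro _ ⟨f', rfl⟩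
    obtain ⟨g, h, hh, hf'⟩ := projModel_frac e (U (ε.symm k)) (haff _) (hU _) z hz f'
    have h1 : IsUnit (ψ h) := by
      have h2 := (hPz h).mp hh
      by_contra h3
      exact h2 ((IsLocalRing.mem_maximalIdeal _).mpr h3)
    obtain ⟨u, hu⟩ := h1.exists_right_inv
    change projModelEmb e z f' ∈ O
    rw [hf', div_eq_mul_inv]
    have h4 : (e (X.presheaf.germ (U (ε.symm k)) (genericPoint X) (hU _) h))⁻¹ = (u : K) := by
      have h5 : ψ0 h * (u : K) = 1 := congrArg Subtype.val hu
      exact (eq_inv_of_mul_eq_one_right h5).symm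
    rw [h4]
    exact O.mul_mem (ψ g).2 u.2

end

end Pool.Agent.AHM
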