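import Pool.Agent.AHM.Model

open CategoryTheory AlgebraicGeometry Order

namespace Pool.Agent.AHM

noncomputable section

variable {K : Type} [Field K] [Algebra ℂ K] {L : Type} [Field L] [Algebra ℂ L]

namespace ProjPiece

open MvPolynomial HomogeneousLocalization

/-- The grading. -/
abbrev gr (n : ℕ) : ℕ → Submodule ℂ (MvPolynomial (Fin (n + 1)) ℂ) :=
  homogeneousSubmodule (Fin (n + 1)) ℂ

theorem X_mem {n : ℕ} (k : Fin (n + 1)) : (X k : MvPolynomial (Fin (n + 1)) ℂ) ∈ gr n 1 :=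
  isHomogeneous_X ℂ k

/-- Evaluation at `y`. -/
def ev {n : ℕ} (y : Fin (n + 1) → K) : MvPolynomial (Fin (n + 1)) ℂ →+* K :=
  (aeval (R := ℂ) y).toRingHom

theorem ev_X {n : ℕ} (y : Fin (n + 1) → K) (k : Fin (n + 1)) : ev y (X k) = y k := by
  simp [ev]

theorem ev_C {n : ℕ} (y : Fin (n + 1) → K) (c : ℂ) : ev y (C c) = algebraMap ℂ K c := by
  simp [ev]

/-- Evaluation at `y` of homogeneous fractions. -/
def rho {n : ℕ} (y : Fin (n + 1) → K) (r : MvPolynomial (Fin (n + 1)) ℂ) (hr : ev y r ≠ 0) :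
    Away (gr n) r →+* K :=
  (IsLocalization.Away.lift (S := Localization.Away r) r (g := ev y)
    (isUnit_iff_ne_zero.2 hr)).comp
    (algebraMap (Away (gr n) r) (Localization.Away r))

theorem rho_apply {n : ℕ} (y : Fin (n + 1) → K) (r : MvPolynomial (Fin (n + 1)) ℂ)
    (hr : ev y r ≠ 0) (a : Away (gr n) r) :
    rho y r hr a = IsLocalization.Away.lift (S := Localization.Away r) r (g := ev y)
      (isUnit_iff_ne_zero.2 hr) a.val := rfl

theorem rho_mk {n : ℕ} (y : Fin (n + 1) → K) {r : MvPolynomial (Fin (n + 1)) ℂ}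
    (hr : ev y r ≠ 0) {d : ℕ} (hf : r ∈ gr n d) (m : ℕ) (x : MvPolynomial (Fin (n + 1)) ℂ)
    (hx : x ∈ gr n (m • d)) :
    rho y r hr (Away.mk (gr n) hf m x hx) = ev y x / ev y r ^ m := by
  rw [rho_apply, Away.val_mk, Localization.mk_eq_mk', eq_div_iff (pow_ne_zero _ hr)]
  have h := IsLocalization.Away.lift_eq (S := Localization.Away r) r (g := ev y)
      (isUnit_iff_ne_zero.2 hr) x
  rw [← map_pow, ← IsLocalization.Away.lift_eq (S := Localization.Away r) r (g := ev y)
      (isUnit_iff_ne_zero.2 hr) (r ^ m), ← map_mul, ← h]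
  congr 1
  exact IsLocalization.mk'_spec (Localization.Away r) x (⟨r ^ m, m, rfl⟩ : Submonoid.powers r)

theorem rho_awayMap {n : ℕ} (y : Fin (n + 1) → K) {r s : MvPolynomial (Fin (n + 1)) ℂ}
    (hr : ev y r ≠ 0) {d : ℕ} (hsd : s ∈ gr n d) {x} (hx : x = r * s)
    (hx' : ev y x ≠ 0) :
    (rho y x hx').comp (awayMap (gr n) hsd hx) = rho y r hr := by
  ext a
  rw [RingHom.comp_apply, rho_apply, rho_apply, val_awayMap]
  have h : (IsLocalization.Away.lift (S := Localization.Away x) x (g := ev y)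
      (isUnit_iff_ne_zero.2 hx')).comp (Localization.awayLift
        (algebraMap (MvPolynomial (Fin (n + 1)) ℂ) (Localization.Away x)) r
        (isUnit_of_dvd_unit (map_dvd _ (show r ∣ x by rw [hx]; exact dvd_mul_right r s))
          (IsLocalization.Away.algebraMap_isUnit x))) =
      IsLocalization.Away.lift (S := Localization.Away r) r (g := ev y)
        (isUnit_iff_ne_zero.2 hr) := by
    apply IsLocalization.ringHom_ext (M := .powers r)
    ext i
    · simp [Localization.awayLift]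
    · simp [Localization.awayLift]
  exact congrArg (fun f => f a.val) h

/-- Homogeneity. -/
theorem ev_homog {n : ℕ} (y : Fin (n + 1) → K) (c : K) {m : ℕ}
    {x : MvPolynomial (Fin (n + 1)) ℂ} (hx : x ∈ gr n m) :
    aeval (fun j => c * y j) x = c ^ m * ev y x := by
  have hx' : x.IsHomogeneous m := hx
  change _ = c ^ m * aeval y x
  rw [aeval_def, aeval_def, eval₂_eq, eval₂_eq, Finset.mul_sum]
  refine Finset.sum_congr rfl fun d hd => ?_
  have h1 : d.degree = m := by
    by_contra hne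
    exact (mem_support_iff.1 hd) (hx'.coeff_eq_zero hne)
  simp only [mul_pow, Finset.prod_mul_distrib, Finset.prod_pow_eq_pow_sum]
  have h2 : ∑ i ∈ d.support, d i = m := h1
  rw [h2]
  ring

/-- The range of `rho` for a variable. -/
theorem rho_range {n : ℕ} (y : Fin (n + 1) → K) (k : Fin (n + 1)) (hk : ev y (X k) ≠ 0) (t : K) :
    t ∈ Algebra.adjoin ℂ (Set.range fun j => y j / y k) ↔
      ∃ a, rho y (X k) hk a = t := by
  have hk' : y k ≠ 0 := by rwa [ev_X] at hk
  constructor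
  · intro ht
    induction ht using Algebra.adjoin_induction with
    | mem x hx =>
      obtain ⟨j, rfl⟩ := hx
      refine ⟨Away.mk (gr n) (X_mem k) 1 (X j) (X_mem j), ?_⟩
      rw [rho_mk, ev_X, ev_X, pow_one]
    | algebraMap c =>
      refine ⟨Away.mk (gr n) (X_mem k) 0 (C c) (by rw [zero_smul]; exact isHomogeneous_C _ c), ?_⟩
      rw [rho_mk, ev_C, pow_zero, div_one]
    | add x z _ _ hx hz =>
      obtain ⟨a, rfl⟩ := hx
      obtain ⟨b, rfl⟩ := hz
      exact ⟨a + b, map_add _ _ _⟩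
    | mul x z _ _ hx hz =>
      obtain ⟨a, rfl⟩ := hx
      obtain ⟨b, rfl⟩ := hz
      exact ⟨a * b, map_mul _ _ _⟩
  · rintro ⟨a, rfl⟩
    obtain ⟨m, x, hx, rfl⟩ := Away.mk_surjective (gr n) (X_mem k) a
    rw [rho_mk]
    have h1 := ev_homog y (y k)⁻¹ hx
    rw [smul_eq_mul, mul_one, ← ev_X y k] at h1
    rw [div_eq_mul_inv, mul_comm, ← inv_pow, ← h1, Algebra.adjoin_range_eq_range_aeval]
    refine ⟨x, ?_⟩
    change aeval _ x = aeval _ x
    congr 2
    ext j
    rw [ev_X, div_eq_mul_inv, mul_comm]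

end ProjPiece

end

end Pool.Agent.AHM
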