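import Pool.Agent.AHM.ProjPieceAux

open CategoryTheory AlgebraicGeometry Order

namespace Pool.Agent.AHM

noncomputable section

variable {K : Type} [Field K] [Algebra ℂ K] {L : Type} [Field L] [Algebra ℂ L]

namespace ProjPiece

open MvPolynomial HomogeneousLocalization IsLocalRing

/-- The standard affine charts of projective space. -/
abbrev chart (n : ℕ) (k : Fin (n + 1)) : (PSpace n).Opens := Proj.basicOpen (gr n) (X k)

theorem iSup_chart (n : ℕ) : ⨆ k, chart n k = ⊤ := by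
  apply Proj.iSup_basicOpen_eq_top' (gr n) (fun k => X k) (fun k => ⟨1, X_mem k⟩)
  rw [eq_top_iff]
  intro p _
  have hp : p ∈ Algebra.adjoin ℂ (Set.range (X : Fin (n + 1) → MvPolynomial (Fin (n + 1)) ℂ)) := by
    rw [adjoin_range_X]; trivial
  induction hp using Algebra.adjoin_induction with
  | mem x hx => exact Algebra.subset_adjoin hx
  | algebraMap c =>
    exact Subalgebra.algebraMap_mem (Algebra.adjoin (gr n 0) _)
      (⟨C c, isHomogeneous_C _ c⟩ : gr n 0)
  | add x z _ _ hx hz => exact add_mem (hx trivial) (hz trivial)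
  | mul x z _ _ hx hz => exact mul_mem (hx trivial) (hz trivial)

theorem isAffineOpen_chart (n : ℕ) (k : Fin (n + 1)) : IsAffineOpen (chart n k) :=
  Proj.isAffineOpen_basicOpen (gr n) (X k) (X_mem k) one_pos

/-- The `K`-point `(y 0 : ... : y n)`. -/
def pt {n : ℕ} (y : Fin (n + 1) → K) (hy : ∀ k, ev y (X k) ≠ 0) :
    Spec (CommRingCat.of K) ⟶ PSpace n :=
  Spec.map (CommRingCat.ofHom (rho y (X 0) (hy 0))) ≫
    Proj.awayι (gr n) (X 0) (X_mem 0) one_pos

theorem pt_eq {n : ℕ} (y : Fin (n + 1) → K) (hy : ∀ k, ev y (X k) ≠ 0) (k : Fin (n + 1)) :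
    pt y hy = Spec.map (CommRingCat.ofHom (rho y (X k) (hy k))) ≫
      Proj.awayι (gr n) (X k) (X_mem k) one_pos := by
  have hx : ev y (X 0 * X k) ≠ 0 := by rw [map_mul]; exact mul_ne_zero (hy 0) (hy k)
  have h1 := rho_awayMap y (hy 0) (X_mem k) (x := X 0 * X k) rfl hx
  have h2 := rho_awayMap y (hy k) (X_mem 0) (x := X 0 * X k) (mul_comm _ _) hx
  rw [pt, ← h1, ← h2, CommRingCat.ofHom_comp, CommRingCat.ofHom_comp, Spec.map_comp,
    Spec.map_comp, Category.assoc, Category.assoc, Proj.SpecMap_awayMap_awayι,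
    Proj.SpecMap_awayMap_awayι]

/-- Functions near the image of the closed point. -/
def tau {X : Scheme.{0}} (φ : Spec (CommRingCat.of K) ⟶ X) (U : X.Opens)
    (hU : φ (closedPoint K) ∈ U) : Γ(X, U) ⟶ CommRingCat.of K :=
  φ.appLE U ⊤ (Scheme.preimage_eq_top_of_closedPoint_mem φ hU).ge ≫
    (Scheme.ΓSpecIso (CommRingCat.of K)).hom

omit [Algebra ℂ K] in
theorem germ_tau {X : Scheme.{0}} (φ : Spec (CommRingCat.of K) ⟶ X) (U : X.Opens)
    (hU : φ (closedPoint K) ∈ U) :
    X.presheaf.germ U _ hU ≫ Scheme.stalkClosedPointTo φ = tau φ U hU := by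
  rw [Scheme.germ_stalkClosedPointTo, tau, Iso.trans_hom, ← Category.assoc]
  congr 1

omit [Algebra ℂ K] in
theorem tau_comp {X Y : Scheme.{0}} (φ : Spec (CommRingCat.of K) ⟶ X) (i : X ⟶ Y) (U : Y.Opens)
    (hU : (φ ≫ i) (closedPoint K) ∈ U) :
    tau (φ ≫ i) U hU = i.app U ≫ tau φ (i ⁻¹ᵁ U) hU := by
  rw [tau, tau, Scheme.Hom.comp_appLE, Category.assoc]

end ProjPiece

end

end Pool.Agent.AHM
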