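import Pool.Agent.AHM.ProjPieceAux2

open CategoryTheory AlgebraicGeometry Order

namespace Pool.Agent.AHM

noncomputable section

namespace ProjPiece

section General

open HomogeneousLocalization

universe u

variable {σ : Type*} {A : Type u}
variable [CommRing A] [SetLike σ A] [AddSubgroupClass σ A]
variable (𝒜 : ℕ → σ)
variable [GradedRing 𝒜] {m : ℕ} (f : A) (f_deg : f ∈ 𝒜 m) (hm : 0 < m)

theorem awayι_preimage_self :
    (Proj.awayι 𝒜 f f_deg hm) ⁻¹ᵁ (Proj.basicOpen 𝒜 f) = ⊤ := by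
  rw [← Proj.opensRange_awayι 𝒜 f f_deg hm]
  exact Scheme.Hom.preimage_opensRange _

theorem awayToSection_awayι :
    Proj.awayToSection 𝒜 f ≫
      (Proj.awayι 𝒜 f f_deg hm).appLE (Proj.basicOpen 𝒜 f) ⊤
        (awayι_preimage_self 𝒜 f f_deg hm).ge ≫
      (Scheme.ΓSpecIso _).hom = 𝟙 _ := by
  have h1 := Proj.basicOpenToSpec_app_top 𝒜 f
  have h2 : (Proj.awayι 𝒜 f f_deg hm).appLE (Proj.basicOpen 𝒜 f) ⊤
        (awayι_preimage_self 𝒜 f f_deg hm).ge =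
      (Proj.basicOpen 𝒜 f).topIso.inv ≫
        (Proj.basicOpenIsoSpec 𝒜 f f_deg hm).inv.appTop := by
    have h4 := Scheme.Hom.appLE_comp_appLE (Proj.basicOpenIsoSpec 𝒜 f f_deg hm).inv
      (Proj.basicOpen 𝒜 f).ι (Proj.basicOpen 𝒜 f) ⊤ ⊤ (by simp) (by simp)
    refine h4.symm.trans ?_
    congr 1
  have h3 : (Proj.basicOpenToSpec 𝒜 f).appTop ≫
      (Proj.basicOpenIsoSpec 𝒜 f f_deg hm).inv.appTop = 𝟙 _ := by
    rw [← Scheme.Hom.comp_appTop, ← Proj.basicOpenIsoSpec_hom 𝒜 f f_deg hm, Iso.inv_hom_id,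
      Scheme.Hom.id_appTop]
  rw [h2]
  have h5 : (Scheme.ΓSpecIso _).hom ≫ Proj.awayToSection 𝒜 f ≫
      (Proj.basicOpen 𝒜 f).topIso.inv ≫ (Proj.basicOpenIsoSpec 𝒜 f f_deg hm).inv.appTop = 𝟙 _ := by
    have h6 : (Proj.basicOpenToSpec 𝒜 f).appTop = (Scheme.ΓSpecIso _).hom ≫
      Proj.awayToSection 𝒜 f ≫ (Proj.basicOpen 𝒜 f).topIso.inv := h1
    rw [h6] at h3
    simpa only [Category.assoc] using h3
  rw [← Iso.eq_inv_comp] at h5
  rw [Category.assoc, reassoc_of% h5]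
  simp

end General

variable {K : Type} [Field K] [Algebra ℂ K]

open MvPolynomial HomogeneousLocalization IsLocalRing

omit [Algebra ℂ K] in
theorem tau_congr {X : Scheme.{0}} {φ ψ : Spec (CommRingCat.of K) ⟶ X} (h : φ = ψ) (U : X.Opens)
    (hU : φ (closedPoint K) ∈ U) : tau φ U hU = tau ψ U (h ▸ hU) := by
  subst h
  rfl

theorem pt_mem {n : ℕ} (y : Fin (n + 1) → K) (hy : ∀ k, ev y (X k) ≠ 0) (k : Fin (n + 1)) :
    (pt y hy) (closedPoint K) ∈ chart n k := by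
  rw [pt_eq y hy k]
  change _ ∈ Proj.basicOpen (gr n) (X k)
  rw [← Proj.opensRange_awayι (gr n) (X k) (X_mem k) one_pos]
  exact ⟨_, rfl⟩

theorem tau_pt {n : ℕ} (y : Fin (n + 1) → K) (hy : ∀ k, ev y (X k) ≠ 0) (k : Fin (n + 1)) :
    Proj.awayToSection (gr n) (X k) ≫ tau (pt y hy) (chart n k) (pt_mem y hy k) =
      CommRingCat.ofHom (rho y (X k) (hy k)) := by
  rw [tau_congr (pt_eq y hy k), tau]
  have h4 := Scheme.Hom.appLE_comp_appLE
    (Spec.map (CommRingCat.ofHom (rho y (X k) (hy k))))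
    (Proj.awayι (gr n) (X k) (X_mem k) one_pos) (Proj.basicOpen (gr n) (X k)) ⊤ ⊤
    (awayι_preimage_self _ _ _ _).ge le_top
  have h5 : (Spec.map (CommRingCat.ofHom (rho y (X k) (hy k)))).appLE ⊤ ⊤ le_top ≫
      (Scheme.ΓSpecIso (CommRingCat.of K)).hom = (Scheme.ΓSpecIso _).hom ≫
        CommRingCat.ofHom (rho y (X k) (hy k)) := by
    rw [← Scheme.ΓSpecIso_naturality]
    congr 1
  rw [← h4, Category.assoc, h5]
  have h6 := awayToSection_awayι (gr n) (X k) (X_mem k) one_pos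
  rw [reassoc_of% h6]

end ProjPiece

end

end Pool.Agent.AHM
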