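import Pool.Agent.AHM.ProjPieceAux3

open CategoryTheory AlgebraicGeometry Order

namespace Pool.Agent.AHM

noncomputable section

namespace ProjPiece

variable {K : Type} [Field K] [Algebra ℂ K]

open MvPolynomial HomogeneousLocalization IsLocalRing

theorem basicOpen_awayToSection {n : ℕ} (k l : Fin (n + 1)) :
    (PSpace n).basicOpen (Proj.awayToSection (gr n) (X k)
      (Away.mk (gr n) (X_mem k) 1 (X l) (X_mem l))) = chart n k ⊓ chart n l := by
  have h1 : (Proj.awayι (gr n) (X k) (X_mem k) one_pos) ⁻¹ᵁ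
      ((PSpace n).basicOpen (Proj.awayToSection (gr n) (X k)
      (Away.mk (gr n) (X_mem k) 1 (X l) (X_mem l)))) =
      (Proj.awayι (gr n) (X k) (X_mem k) one_pos) ⁻¹ᵁ (chart n k ⊓ chart n l) := by
    have h2 := Scheme.basicOpen_appLE (Proj.awayι (gr n) (X k) (X_mem k) one_pos) ⊤
      (Proj.basicOpen (gr n) (X k)) (awayι_preimage_self _ _ _ _).ge
      (Proj.awayToSection (gr n) (X k) (Away.mk (gr n) (X_mem k) 1 (X l) (X_mem l)))
    rw [top_inf_eq] at h2
    refine h2.symm.trans ?_
    rw [basicOpen_eq_of_affine']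
    have h3 : (Scheme.ΓSpecIso (CommRingCat.of (Away (gr n) (X k)))).hom
        ((Proj.awayι (gr n) (X k) (X_mem k) one_pos).appLE (Proj.basicOpen (gr n) (X k)) ⊤
          (awayι_preimage_self _ _ _ _).ge
          (Proj.awayToSection (gr n) (X k) (Away.mk (gr n) (X_mem k) 1 (X l) (X_mem l)))) =
        Away.mk (gr n) (X_mem k) 1 (X l) (X_mem l) := by
      have h4 := awayToSection_awayι (gr n) (X k) (X_mem k) one_pos
      exact congrArg (fun f => f.hom (Away.mk (gr n) (X_mem k) 1 (X l) (X_mem l))) h4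
    rw [h3]
    have h5 := Proj.awayι_preimage_basicOpen (gr n) (X_mem k) one_pos (X_mem l) one_pos
    have h6 : (Proj.awayι (gr n) (X k) (X_mem k) one_pos) ⁻¹ᵁ (chart n k ⊓ chart n l) =
      (Proj.awayι (gr n) (X k) (X_mem k) one_pos) ⁻¹ᵁ Proj.basicOpen (gr n) (X l) := by
      change (Proj.awayι (gr n) (X k) (X_mem k) one_pos) ⁻¹ᵁ Proj.basicOpen (gr n) (X k) ⊓
        (Proj.awayι (gr n) (X k) (X_mem k) one_pos) ⁻¹ᵁ Proj.basicOpen (gr n) (X l) = _
      rw [awayι_preimage_self, top_inf_eq]
    rw [h6, h5]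
    congr 1
    apply HomogeneousLocalization.val_injective
    rw [Away.isLocalizationElem, Away.val_mk, Away.val_mk]
    congr 1
    exact (pow_one _).symm
  have hr := Proj.opensRange_awayι (gr n) (X k) (X_mem k) one_pos
  have h7 : ∀ W : (PSpace n).Opens, W ≤ chart n k →
      (Proj.awayι (gr n) (X k) (X_mem k) one_pos) ''ᵁ
        ((Proj.awayι (gr n) (X k) (X_mem k) one_pos) ⁻¹ᵁ W) = W := by
    intro W hW
    rw [Scheme.Hom.image_preimage_eq_opensRange_inf, hr]
    exact inf_eq_right.2 hW
  rw [← h7 _ (Scheme.basicOpen_le _ _), h1, h7 _ inf_le_left]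

instance quasiCompact_pt {X : Scheme.{0}} (φ : Spec (CommRingCat.of K) ⟶ X) : QuasiCompact φ :=
  ⟨fun _ _ _ => (Set.toFinite _).isCompact⟩

instance isClosedImmersion_image {X : Scheme.{0}} (φ : Spec (CommRingCat.of K) ⟶ X) :
    IsClosedImmersion φ.imageι := inferInstance

omit [Algebra ℂ K] in
theorem range_eq {X : Scheme.{0}} (φ : Spec (CommRingCat.of K) ⟶ X) :
    Set.range φ = {φ (closedPoint K)} := by
  ext x
  constructor
  · rintro ⟨z, rfl⟩
    rw [Set.mem_singleton_iff]
    congr 1
    exact Subsingleton.elim _ _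
  · rintro rfl
    exact ⟨_, rfl⟩

omit [Algebra ℂ K] in
theorem closure_toImage {X : Scheme.{0}} (φ : Spec (CommRingCat.of K) ⟶ X) :
    closure {φ.toImage (closedPoint K)} = Set.univ := by
  rw [← range_eq]
  exact φ.toImage.denseRange.closure_eq

instance isIntegral_image {X : Scheme.{0}} (φ : Spec (CommRingCat.of K) ⟶ X) :
    IsIntegral φ.image := by
  have h1 : IsSchemeTheoreticallyDominant φ.toImage := by
    rw [isSchemeTheoreticallyDominant_iff]
    refine Scheme.IdealSheafData.ext_of_iSup_eq_top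
      (fun U : X.affineOpens => (⟨φ.imageι ⁻¹ᵁ U, U.2.preimage _⟩ : φ.image.affineOpens)) ?_ ?_
    · have h := iSup_affineOpens_eq_top X
      have h2 := congrArg (fun W => φ.imageι ⁻¹ᵁ W) h
      simpa only [Scheme.Hom.preimage_iSup, Scheme.Hom.preimage_top] using h2
    · intro U
      rw [Scheme.Hom.ker_apply]
      simp only [Scheme.IdealSheafData.ideal_bot, Pi.bot_apply]
      exact (RingHom.injective_iff_ker_eq_bot _).1 (φ.toImage_app_injective U)
  have h2 : IsReduced φ.image := IsSchemeTheoreticallyDominant.isReduced φ.toImage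
  have h3 : IrreducibleSpace φ.image :=
    { isPreirreducible_univ := closure_toImage φ ▸ isPreirreducible_singleton.closure
      toNonempty := ⟨φ.toImage (closedPoint K)⟩ }
  exact isIntegral_of_irreducibleSpace_of_isReduced _

omit [Algebra ℂ K] in
theorem toImage_generic {X : Scheme.{0}} (φ : Spec (CommRingCat.of K) ⟶ X) :
    φ.toImage (closedPoint K) = genericPoint φ.image := by
  have h1 : IsGenericPoint (φ.toImage (closedPoint K)) Set.univ := closure_toImage φ
  exact h1.eq (genericPoint_spec φ.image)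

end ProjPiece

end

end Pool.Agent.AHM
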