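import Pool.Agent.AHM.Defs

open CategoryTheory AlgebraicGeometry Order

namespace Pool.Agent.AHM

noncomputable section

/-! S9. Projective space is proper over `Spec ℂ`. -/

theorem bijective_algebraMap_zero (n : ℕ) : Function.Bijective
    (algebraMap ℂ (MvPolynomial.homogeneousSubmodule (Fin (n + 1)) ℂ 0)) := by
  constructor
  · intro a b h
    have h1 := congrArg (Subtype.val) h
    exact MvPolynomial.C_injective _ _ h1
  · intro x
    have hx : (x : MvPolynomial (Fin (n + 1)) ℂ).IsHomogeneous 0 := x.2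
    have h1 := hx.totalDegree_le
    have h2 : (x : MvPolynomial (Fin (n + 1)) ℂ) =
        MvPolynomial.C (MvPolynomial.coeff 0 (x : MvPolynomial (Fin (n + 1)) ℂ)) :=
      MvPolynomial.totalDegree_eq_zero_iff_eq_C.mp (by omega)
    exact ⟨MvPolynomial.coeff 0 (x : MvPolynomial (Fin (n + 1)) ℂ), Subtype.ext h2.symm⟩

instance finiteType_zero (n : ℕ) : Algebra.FiniteType
    (MvPolynomial.homogeneousSubmodule (Fin (n + 1)) ℂ 0) (MvPolynomial (Fin (n + 1)) ℂ) := by
  have h : Algebra.FiniteType ℂ (MvPolynomial (Fin (n + 1)) ℂ) := inferInstance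
  have h' : IsScalarTower ℂ (MvPolynomial.homogeneousSubmodule (Fin (n + 1)) ℂ 0)
      (MvPolynomial (Fin (n + 1)) ℂ) := by
    refine IsScalarTower.of_algebraMap_eq (R := ℂ)
      (S := MvPolynomial.homogeneousSubmodule (Fin (n + 1)) ℂ 0) ?_
    intro x
    rfl
  exact Algebra.FiniteType.of_restrictScalars_finiteType ℂ _ _

theorem isProper_PSpace (n : ℕ) : IsProper (PSpace.str n) := by
  have h1 : IsIso (CommRingCat.ofHom
      (algebraMap ℂ (MvPolynomial.homogeneousSubmodule (Fin (n + 1)) ℂ 0))) := by
    rw [CategoryTheory.ConcreteCategory.isIso_iff_bijective]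
    exact bijective_algebraMap_zero n
  have h2 : IsProper (Proj.toSpecZero (MvPolynomial.homogeneousSubmodule (Fin (n + 1)) ℂ)) :=
    inferInstance
  unfold PSpace.str
  infer_instance

theorem isProper_str (V : SmoothProjVar) : IsProper V.str := by
  obtain ⟨n, i, hi, h⟩ := V.projective
  have h1 := isProper_PSpace n
  rw [← h]
  infer_instance

end

end Pool.Agent.AHM
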