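import Pool.Agent.AHM.CurvePoly
import Pool.Agent.AHM.Forms
import Pool.Agent.AHM.DiffBasis

namespace Pool.Agent.AHM

noncomputable section

variable {K : Type} [Field K] [Algebra ℂ K] {L : Type} [Field L] [Algebra ℂ L]

/-! A6. Smoothness and local coordinates on the charts of `X`. -/

/-- The certificate that the curve is smooth. -/
theorem smoothX_cert {R : Type} [CommRing R] (a b : R) :
    (4 * b - 28 * a) * (a * (1 + b ^ 2) - 2 * b * (1 + a ^ 2)) +
      (10 - 6 * a * b + 14 * a ^ 2) * ((1 + b ^ 2) - 4 * a * b) +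
      (b ^ 2 - 7) * (2 * a * b - 2 * (1 + a ^ 2)) = 24 := by ring

/-- The surjection from the polynomial ring onto the chart. -/
def smoothX_map (d : Quad K) : MvPolynomial (Fin 4) ℂ →ₐ[ℂ] d.chartX :=
  MvPolynomial.aeval ![⟨d.a, Algebra.subset_adjoin (by simp)⟩,
    ⟨d.b, Algebra.subset_adjoin (by simp)⟩, ⟨d.r, Algebra.subset_adjoin (by simp)⟩,
    ⟨d.s, Algebra.subset_adjoin (by simp)⟩]

theorem smoothX_map_val (d : Quad K) (p : MvPolynomial (Fin 4) ℂ) :
    (smoothX_map d p : K) = MvPolynomial.aeval ![d.a, d.b, d.r, d.s] p := by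
  have : (d.chartX.val.comp (smoothX_map d)) = MvPolynomial.aeval ![d.a, d.b, d.r, d.s] := by
    apply MvPolynomial.algHom_ext
    intro i
    fin_cases i <;> simp [smoothX_map]
  exact DFunLike.congr_fun this p

theorem smoothX_map_surjective (d : Quad K) : Function.Surjective (smoothX_map d) := by
  rintro ⟨x, hx⟩
  have h : x ∈ (MvPolynomial.aeval (R := ℂ) ![d.a, d.b, d.r, d.s]).range := by
    rw [← Algebra.adjoin_range_eq_range_aeval]
    have : Set.range ![d.a, d.b, d.r, d.s] = {d.a, d.b, d.r, d.s} := by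
      ext y
      constructor
      · rintro ⟨i, rfl⟩
        fin_cases i <;> simp
      · rintro (rfl | rfl | rfl | rfl)
        · exact ⟨0, rfl⟩
        · exact ⟨1, rfl⟩
        · exact ⟨2, rfl⟩
        · exact ⟨3, rfl⟩
    rw [this]
    exact hx
  obtain ⟨p, hp⟩ := h
  refine ⟨p, Subtype.ext ?_⟩
  rw [smoothX_map_val]
  exact hp

theorem smoothX_map_ker {d : Quad K} (hd : d.IsData) (p : MvPolynomial (Fin 4) ℂ) :
    p ∈ RingHom.ker (smoothX_map d).toRingHom ↔ curvePoly ∣ p := by
  rw [← aeval_eq_zero_iff hd, ← smoothX_map_val, RingHom.mem_ker]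
  constructor
  · intro h
    have : smoothX_map d p = 0 := h
    rw [this]
    rfl
  · intro h
    exact Subtype.ext h

open MvPolynomial in
/-- The coordinate change which is a section modulo the square of the ideal. -/
def smoothX_change : MvPolynomial (Fin 4) ℂ →ₐ[ℂ] MvPolynomial (Fin 4) ℂ :=
  MvPolynomial.aeval
    ![X 0 - C (1 / 24) * ((10 - 6 * X 0 * X 1 + 14 * X 0 ^ 2) * curvePoly),
      X 1 - C (1 / 24) * ((X 1 ^ 2 - 7) * curvePoly), X 2, X 3]

open MvPolynomial in
theorem smoothX_change_curvePoly : ∃ W, smoothX_change curvePoly = curvePoly ^ 2 * W := by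
  have h24 : (24 : MvPolynomial (Fin 4) ℂ) * C (1 / 24) = 1 := by
    rw [← map_ofNat (C : ℂ →+* MvPolynomial (Fin 4) ℂ) 24, ← C_mul]
    norm_num
  have e0 : smoothX_change (X 0) =
      X 0 - C (1 / 24) * ((10 - 6 * X 0 * X 1 + 14 * X 0 ^ 2) * curvePoly) := by
    unfold smoothX_change
    rw [MvPolynomial.aeval_X]
    rfl
  have e1 : smoothX_change (X 1) = X 1 - C (1 / 24) * ((X 1 ^ 2 - 7) * curvePoly) := by
    unfold smoothX_change
    rw [MvPolynomial.aeval_X]
    rfl
  have e : smoothX_change curvePoly =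
      (X 0 - C (1 / 24) * ((10 - 6 * X 0 * X 1 + 14 * X 0 ^ 2) * curvePoly)) *
        (1 + (X 1 - C (1 / 24) * ((X 1 ^ 2 - 7) * curvePoly)) ^ 2) -
      2 * (X 1 - C (1 / 24) * ((X 1 ^ 2 - 7) * curvePoly)) *
        (1 + (X 0 - C (1 / 24) * ((10 - 6 * X 0 * X 1 + 14 * X 0 ^ 2) * curvePoly)) ^ 2) := by
    rw [← e0, ← e1]
    conv_lhs => rw [curvePoly]
    simp only [map_sub, map_mul, map_add, map_one, map_pow, map_ofNat]
  have hf : (curvePoly : MvPolynomial (Fin 4) ℂ) =
    X 0 * (1 + X 1 ^ 2) - 2 * X 1 * (1 + X 0 ^ 2) := rfl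
  rw [hf] at e ⊢
  rw [e]
  generalize (X 0 : MvPolynomial (Fin 4) ℂ) = x at *
  generalize (X 1 : MvPolynomial (Fin 4) ℂ) = y at *
  generalize (C (1 / 24) : MvPolynomial (Fin 4) ℂ) = c at *
  refine ⟨c * (4 * y - 28 * x) + (x * (c * (y ^ 2 - 7)) ^ 2 + 2 * y * (c * (y ^ 2 - 7)) *
    (c * (10 - 6 * x * y + 14 * x ^ 2)) - 2 * y * (c * (10 - 6 * x * y + 14 * x ^ 2)) ^ 2
    - 4 * x * (c * (y ^ 2 - 7)) * (c * (10 - 6 * x * y + 14 * x ^ 2))) +
    (x * (1 + y ^ 2) - 2 * y * (1 + x ^ 2)) *
      (- (c * (10 - 6 * x * y + 14 * x ^ 2)) * (c * (y ^ 2 - 7)) ^ 2 +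
      2 * (c * (y ^ 2 - 7)) * (c * (10 - 6 * x * y + 14 * x ^ 2)) ^ 2), ?_⟩
  linear_combination (-(x * (1 + y ^ 2) - 2 * y * (1 + x ^ 2))) * h24

theorem chartX_formallySmooth {d : Quad K} (hd : d.IsData) :
    Algebra.FormallySmooth ℂ d.chartX := by
  classical
  obtain ⟨W, hW⟩ := smoothX_change_curvePoly
  have hcI : curvePoly ∈ RingHom.ker (smoothX_map d).toRingHom :=
    (smoothX_map_ker hd _).2 dvd_rfl
  have hker : RingHom.ker (smoothX_map d).toRingHom ≤ RingHom.ker
      ((Ideal.Quotient.mkₐ ℂ (RingHom.ker (smoothX_map d).toRingHom ^ 2)).comp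
        smoothX_change).toRingHom := by
    intro p hp
    obtain ⟨q, rfl⟩ := (smoothX_map_ker hd p).1 hp
    rw [RingHom.mem_ker]
    change Ideal.Quotient.mk (RingHom.ker (smoothX_map d).toRingHom ^ 2)
      (smoothX_change (curvePoly * q)) = 0
    rw [Ideal.Quotient.eq_zero_iff_mem, map_mul, hW, mul_assoc]
    exact Ideal.mul_mem_right _ _ (Ideal.pow_mem_pow hcI 2)
  refine Algebra.FormallySmooth.of_split (smoothX_map d)
    (AlgHom.liftOfSurjective (smoothX_map d) (smoothX_map_surjective d) _ hker) ?_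
  have h0 : smoothX_map d curvePoly = 0 := hcI
  have key : (smoothX_map d).comp smoothX_change = smoothX_map d := by
    apply MvPolynomial.algHom_ext
    intro i
    rw [AlgHom.comp_apply]
    fin_cases i <;> simp [smoothX_change, h0]
  ext x
  obtain ⟨p, rfl⟩ := smoothX_map_surjective d x
  rw [AlgHom.comp_apply, AlgHom.liftOfSurjective_apply]
  change ((smoothX_map d (smoothX_change p) : d.chartX) : K) = _
  rw [← AlgHom.comp_apply, key]
  rfl

theorem chartX_smooth {d : Quad K} (hd : d.IsData) : Algebra.Smooth ℂ d.chartX := by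
  have h1 := chartX_formallySmooth hd
  have h2 : Algebra.FiniteType ℂ d.chartX := by
    rw [← Subalgebra.fg_iff_finiteType]
    classical
    exact ⟨{d.a, d.b, d.r, d.s}, by simp [Quad.chartX]⟩
  exact { formallySmooth := h1
          finitePresentation := Algebra.FinitePresentation.of_finiteType.1 h2 }

/-- The relation between the differentials of `a` and `b`. -/
theorem smoothX_rel {R : Type} [CommRing R] [Algebra ℂ R] {a b : R}
    (h : a * (1 + b ^ 2) = 2 * b * (1 + a ^ 2)) :
    ((1 + b ^ 2) - 4 * a * b) • KaehlerDifferential.D ℂ R a +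
      (2 * a * b - 2 * (1 + a ^ 2)) • KaehlerDifferential.D ℂ R b = 0 := by
  have h1 : KaehlerDifferential.D ℂ R (a * (1 + b ^ 2)) =
      KaehlerDifferential.D ℂ R (2 * b * (1 + a ^ 2)) := by rw [h]
  have h2 : KaehlerDifferential.D ℂ R (2 : R) = 0 := by
    have : (2 : R) = algebraMap ℂ R 2 := (map_ofNat (algebraMap ℂ R) 2).symm
    rw [this, Derivation.map_algebraMap]
  rw [Derivation.leibniz, Derivation.leibniz, Derivation.leibniz, map_add, map_add,
    Derivation.leibniz_pow, Derivation.leibniz_pow, Derivation.map_one_eq_zero, h2] at h1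
  rw [← sub_eq_zero] at h1
  rw [← h1]
  module

/-- The field of the example is algebraic over the field generated by `a, r, s`. -/
theorem smoothX_algebraic {d : Quad K} (hd : d.IsData) :
    Algebra.IsAlgebraic (IntermediateField.adjoin ℂ (Set.range ![d.a, d.r, d.s])) K := by
  set F := IntermediateField.adjoin ℂ (Set.range ![d.a, d.r, d.s]) with hF
  have ha : d.a ∈ F := IntermediateField.subset_adjoin _ _ ⟨0, rfl⟩
  have hr : d.r ∈ F := IntermediateField.subset_adjoin _ _ ⟨1, rfl⟩
  have hs : d.s ∈ F := IntermediateField.subset_adjoin _ _ ⟨2, rfl⟩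
  have ha0 : d.a ≠ 0 := (hd.ind.ne_zero 0 : _)
  have hb : IsAlgebraic F d.b := by
    refine ⟨Polynomial.C (⟨d.a, ha⟩ : F) * (1 + Polynomial.X ^ 2) -
      2 * Polynomial.X * Polynomial.C (1 + (⟨d.a, ha⟩ : F) ^ 2), ?_, ?_⟩
    · intro h0
      have h1 := congrArg (Polynomial.eval 0) h0
      simp at h1
      apply ha0
      have h2 := congrArg (algebraMap F K) h1
      rw [map_zero] at h2
      exact h2
    · simp only [map_sub, map_mul, map_add, map_one, map_pow, map_ofNat, Polynomial.aeval_C,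
        Polynomial.aeval_X]
      have : algebraMap F K ⟨d.a, ha⟩ = d.a := rfl
      rw [this, hd.eq, sub_self]
  have hall : ∀ x : K, IsAlgebraic F x := by
    intro x
    let E : IntermediateField ℂ K := (algebraicClosure F K).restrictScalars ℂ
    have hE : (⊤ : IntermediateField ℂ K) ≤ E := by
      rw [← hd.gen, IntermediateField.adjoin_le_iff]
      have key : ∀ y : K, IsAlgebraic F y → y ∈ (E : Set K) := by
        intro y hy
        change y ∈ algebraicClosure F K
        rw [mem_algebraicClosure_iff]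
        exact hy
      rintro y (rfl | rfl | rfl | rfl)
      · exact key _ (isAlgebraic_algebraMap (⟨d.a, ha⟩ : F))
      · exact key _ hb
      · exact key _ (isAlgebraic_algebraMap (⟨d.r, hr⟩ : F))
      · exact key _ (isAlgebraic_algebraMap (⟨d.s, hs⟩ : F))
    have hx : x ∈ E := hE trivial
    have hx' : x ∈ algebraicClosure F K := hx
    rw [mem_algebraicClosure_iff] at hx'
    exact hx'
  exact ⟨hall⟩

theorem smoothX_li {d : Quad K} (hd : d.IsData) : LinearIndependent K
    (fun i => KaehlerDifferential.D ℂ K (![d.a, d.r, d.s] i)) := by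
  have := smoothX_algebraic hd
  exact diffBasis_linearIndependent hd.ind

theorem smoothX_li' {d : Quad K} (hd : d.IsData) (hfa : (1 + d.b ^ 2) - 4 * d.a * d.b ≠ 0) :
    LinearIndependent K (fun i => KaehlerDifferential.D ℂ K (![d.b, d.r, d.s] i)) := by
  have h := smoothX_li hd
  have hrel := smoothX_rel hd.eq
  rw [Fintype.linearIndependent_iff] at h ⊢
  intro g hg
  rw [Fin.sum_univ_three] at hg
  change g 0 • KaehlerDifferential.D ℂ K d.b + g 1 • KaehlerDifferential.D ℂ K d.r +
    g 2 • KaehlerDifferential.D ℂ K d.s = 0 at hg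
  set fa := (1 + d.b ^ 2) - 4 * d.a * d.b
  set fb := 2 * d.a * d.b - 2 * (1 + d.a ^ 2)
  have h1 := h ![- g 0 * fa, g 1 * fb, g 2 * fb] (by
    rw [Fin.sum_univ_three]
    change (- g 0 * fa) • KaehlerDifferential.D ℂ K d.a +
      (g 1 * fb) • KaehlerDifferential.D ℂ K d.r +
      (g 2 * fb) • KaehlerDifferential.D ℂ K d.s = 0
    have e : (- g 0 * fa) • KaehlerDifferential.D ℂ K d.a +
      (g 1 * fb) • KaehlerDifferential.D ℂ K d.r +
      (g 2 * fb) • KaehlerDifferential.D ℂ K d.s =
      fb • (g 0 • KaehlerDifferential.D ℂ K d.b + g 1 • KaehlerDifferential.D ℂ K d.r +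
      g 2 • KaehlerDifferential.D ℂ K d.s) - g 0 • (fa • KaehlerDifferential.D ℂ K d.a +
      fb • KaehlerDifferential.D ℂ K d.b) := by module
    rw [e, hg, hrel, smul_zero, smul_zero, sub_zero])
  have g0 : g 0 = 0 := by
    have := h1 0
    change - g 0 * fa = 0 at this
    rcases mul_eq_zero.1 this with h | h
    · exact neg_eq_zero.1 h
    · exact absurd h hfa
  rw [g0, zero_smul, zero_add] at hg
  have h2 := h ![0, g 1, g 2] (by
    rw [Fin.sum_univ_three]
    change (0 : K) • KaehlerDifferential.D ℂ K d.a + g 1 • KaehlerDifferential.D ℂ K d.r +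
      g 2 • KaehlerDifferential.D ℂ K d.s = 0
    rw [zero_smul, zero_add, hg])
  intro i
  fin_cases i
  · exact g0
  · exact h2 1
  · exact h2 2

theorem chartX_coords {d : Quad K} (hd : d.IsData) (O : Type) [CommRing O] [Algebra ℂ O]
    [IsLocalRing O] (j : O →ₐ[ℂ] K) (hj : Function.Injective j) (h1 : d.chartX ≤ j.range)
    (h2 : IsLocOf j.range d.chartX) :
    ∃ a b r s : O, j a = d.a ∧ j b = d.b ∧ j r = d.r ∧ j s = d.s ∧
      ((IsUnit (2 * a * b - 2 * (1 + a ^ 2)) ∧ IsDBasis O ![a, r, s]) ∨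
       (IsUnit ((1 + b ^ 2) - 4 * a * b) ∧ IsDBasis O ![b, r, s])) := by
  obtain ⟨a, ha⟩ : d.a ∈ j.range := h1 (Algebra.subset_adjoin (by simp))
  obtain ⟨b, hb⟩ : d.b ∈ j.range := h1 (Algebra.subset_adjoin (by simp))
  obtain ⟨r, hr⟩ : d.r ∈ j.range := h1 (Algebra.subset_adjoin (by simp))
  obtain ⟨s, hs⟩ : d.s ∈ j.range := h1 (Algebra.subset_adjoin (by simp))
  change j a = d.a at ha
  change j b = d.b at hb
  change j r = d.r at hr
  change j s = d.s at hs
  have heq : a * (1 + b ^ 2) = 2 * b * (1 + a ^ 2) := by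
    apply hj
    simp only [map_mul, map_add, map_one, map_pow, map_ofNat, ha, hb]
    exact hd.eq
  have hrel := smoothX_rel heq
  -- the algebra generated by the four coordinates
  have hloc : ∀ x : O, ∃ u ∈ Algebra.adjoin ℂ ({a, b, r, s} : Set O),
      ∃ v ∈ Algebra.adjoin ℂ ({a, b, r, s} : Set O), ∃ w : O, v * w = 1 ∧ x = u * w := by
    intro x
    have himg : d.chartX = (Algebra.adjoin ℂ ({a, b, r, s} : Set O)).map j := by
      rw [AlgHom.map_adjoin, Set.image_insert_eq, Set.image_insert_eq, Set.image_insert_eq,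
        Set.image_singleton, ha, hb, hr, hs]
      rfl
    obtain ⟨u, hu, v, hv, hv0, hvi, hx⟩ := h2 (j x) ⟨x, rfl⟩
    rw [himg] at hu hv
    obtain ⟨u', hu', rfl⟩ := hu
    obtain ⟨v', hv', rfl⟩ := hv
    obtain ⟨w, hw⟩ := hvi
    change j w = (j v')⁻¹ at hw
    change j v' ≠ 0 at hv0
    change j x = j u' / j v' at hx
    refine ⟨u', hu', v', hv', w, ?_, ?_⟩
    · apply hj
      rw [map_mul, hw, map_one, mul_inv_cancel₀ hv0]
    · apply hj
      rw [map_mul, hw, hx, div_eq_mul_inv]
  refine ⟨a, b, r, s, ha, hb, hr, hs, ?_⟩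
  have hcert := smoothX_cert a b
  rw [heq, sub_self, mul_zero, zero_add] at hcert
  have h24 : IsUnit (24 : O) := by
    have : (24 : O) = algebraMap ℂ O 24 := (map_ofNat (algebraMap ℂ O) 24).symm
    rw [this]
    exact (IsUnit.mk0 (24 : ℂ) (by norm_num)).map _
  rw [← hcert] at h24
  rcases IsLocalRing.isUnit_or_isUnit_of_isUnit_add h24 with h | h
  · right
    have hu := isUnit_of_mul_isUnit_right h
    refine ⟨hu, ?_, ?_⟩
    · apply diffBasis_li_of_map j hj
      have hne : (1 + d.b ^ 2) - 4 * d.a * d.b ≠ 0 := by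
        have := (hu.map j).ne_zero
        simpa only [map_mul, map_add, map_sub, map_one, map_pow, map_ofNat, ha, hb] using this
      have := smoothX_li' hd hne
      convert this using 3 with i
      fin_cases i <;> simp [hb, hr, hs]
    · apply diffBasis_span_loc {a, b, r, s} _ _ hloc
      obtain ⟨c, hc⟩ := hu.exists_left_inv
      have key : ∀ i, KaehlerDifferential.D ℂ O (![b, r, s] i) ∈ Submodule.span O
          (Set.range fun i => KaehlerDifferential.D ℂ O (![b, r, s] i)) := fun i =>
        Submodule.subset_span ⟨i, rfl⟩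
      have hDa : KaehlerDifferential.D ℂ O a = (- c * (2 * a * b - 2 * (1 + a ^ 2))) •
          KaehlerDifferential.D ℂ O b := by
        have h3 := congrArg (fun z => c • z) hrel
        simp only [smul_add, smul_smul, smul_zero] at h3
        rw [hc, one_smul] at h3
        rw [neg_mul, neg_smul]
        exact eq_neg_of_add_eq_zero_left h3
      rintro x (rfl | rfl | rfl | rfl)
      · rw [hDa]
        exact Submodule.smul_mem _ _ (key 0)
      · exact key 0
      · exact key 1
      · exact key 2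
  · left
    have hu := isUnit_of_mul_isUnit_right h
    refine ⟨hu, ?_, ?_⟩
    · apply diffBasis_li_of_map j hj
      have := smoothX_li hd
      convert this using 3 with i
      fin_cases i <;> simp [ha, hr, hs]
    · apply diffBasis_span_loc {a, b, r, s} _ _ hloc
      obtain ⟨c, hc⟩ := hu.exists_left_inv
      have key : ∀ i, KaehlerDifferential.D ℂ O (![a, r, s] i) ∈ Submodule.span O
          (Set.range fun i => KaehlerDifferential.D ℂ O (![a, r, s] i)) := fun i =>
        Submodule.subset_span ⟨i, rfl⟩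
      have hDb : KaehlerDifferential.D ℂ O b = (- c * ((1 + b ^ 2) - 4 * a * b)) •
          KaehlerDifferential.D ℂ O a := by
        have h3 := congrArg (fun z => c • z) hrel
        simp only [smul_add, smul_smul, smul_zero] at h3
        rw [hc, one_smul] at h3
        rw [neg_mul, neg_smul]
        exact eq_neg_of_add_eq_zero_right h3
      rintro x (rfl | rfl | rfl | rfl)
      · exact key 0
      · rw [hDb]
        exact Submodule.smul_mem _ _ (key 0)
      · exact key 1
      · exact key 2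

end

end Pool.Agent.AHM
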