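import Pool.Agent.AHM.Base

/-!
# The definitions used in the statement

Differential forms in commutative algebra, then morphisms, rational maps, local rings and
relative canonical divisors of smooth projective complex varieties.
-/

set_option autoImplicit false

open CategoryTheory AlgebraicGeometry Order

namespace Pool.Agent.AHM.Stmt

noncomputable section

/-! ### Differential forms in algebra -/

section algebra

/-- The `n`-th exterior power of the `F`-module `M`. -/
abbrev Ext (F M : Type) [CommRing F] [AddCommGroup M] [Module F M] (n : ℕ) : Type :=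
  ⋀[F]^n M

/-- The element `v₁ ∧ … ∧ vₙ`. -/
def wedgeOf {F M : Type} [CommRing F] [AddCommGroup M] [Module F M] {n : ℕ} (v : Fin n → M) :
    Ext F M n :=
  exteriorPower.ιMulti F n v

/-- The element `a x`. -/
def scaleOf {F M : Type} [CommRing F] [AddCommGroup M] [Module F M] {n : ℕ} (a : F)
    (x : Ext F M n) : Ext F M n :=
  a • x

/-- The element `x` is not zero. -/
def NonzeroOf {F M : Type} [CommRing F] [AddCommGroup M] [Module F M] {n : ℕ}
    (x : Ext F M n) : Prop :=
  x ≠ 0

variable {A B F L : Type} [CommRing A] [CommRing B] [CommRing F] [CommRing L]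
  [Algebra ℂ A] [Algebra ℂ B] [Algebra ℂ F] [Algebra ℂ L] [Algebra A F] [Algebra B L]

/-- The differential `n`-forms of the `ℂ`-algebra `F`. -/
abbrev Forms (F : Type) [CommRing F] [Algebra ℂ F] (n : ℕ) : Type := Ext F Ω[F⁄ℂ] n

/-- The form `a ω`. -/
def scale {n : ℕ} (a : F) (ω : Forms F n) : Forms F n := scaleOf a ω

/-- The form `ω` is not zero. -/
def Nonzero {n : ℕ} (ω : Forms F n) : Prop := NonzeroOf ω

/-- The form `dt₁ ∧ … ∧ dtₙ`. -/
def wedge {n : ℕ} (t : Fin n → F) : Forms F n :=
  wedgeOf (F := F) fun i => KaehlerDifferential.D ℂ F (t i)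

/-- `t₁, …, tₙ ∈ A` are local coordinates: `dt₁, …, dtₙ` is a basis of the `A`-module
`Ω_{A/ℂ}`. -/
def IsCoordinates {n : ℕ} (t : Fin n → A) : Prop :=
  LinearIndependent A (fun i => KaehlerDifferential.D ℂ A (t i)) ∧
    Submodule.span A (Set.range fun i => KaehlerDifferential.D ℂ A (t i)) = ⊤

variable (A) in
/-- `a / b` is a local equation at `A` of the divisor of the form `ω` of `F`:
`b ω = a dt₁ ∧ … ∧ dtₙ` for some local coordinates `t₁, …, tₙ ∈ A`. -/
def HasEquation {n : ℕ} (ω : Forms F n) (a b : F) : Prop :=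
  ∃ t : Fin n → A, IsCoordinates t ∧
    scale b ω = scale a (wedge fun i => algebraMap A F (t i))

/-- `e` is the multiplicity of the difference of the divisor of `ω` and of the pull back by
`ψ : A → B` of the divisor of `η`, where `v` gives the multiplicities of the elements of `L` at
the local ring `B`: here `f` is a local equation of the divisor of `ω` at `B`, and `a / b`
with `a, b ∈ A` a local equation of the divisor of `η` at `A`. -/
def RelMult (ψ : A →+* B) (v : L → ℤ) {n m : ℕ} (ω : Forms L n) (η : Forms F m) (e : ℤ) :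
    Prop :=
  ∃ (f : L) (a b : A), f ≠ 0 ∧ ψ a ≠ 0 ∧ ψ b ≠ 0 ∧ HasEquation B ω f 1 ∧
    HasEquation A η (algebraMap A F a) (algebraMap A F b) ∧
    e = v f - (v (algebraMap B L (ψ a)) - v (algebraMap B L (ψ b)))

end algebra

/-! ### Geometry -/

/-- The points of a variety. -/
abbrev Pt (X : SmoothProjVar) : Type := X.X

/-- The local ring at a point. -/
abbrev Loc (X : SmoothProjVar) (x : Pt X) : CommRingCat.{0} := X.X.presheaf.stalk x

/-- The generic point. -/
def gen (X : SmoothProjVar) : Pt X := genericPoint X.X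

/-- The function field: the local ring at the generic point. -/
abbrev FunField (X : SmoothProjVar) : CommRingCat.{0} := Loc X (gen X)

/-- The constants in the local rings. -/
def const (X : SmoothProjVar) (x : Pt X) : CommRingCat.of ℂ ⟶ Loc X x :=
  (Scheme.ΓSpecIso (CommRingCat.of ℂ)).inv ≫ X.str.appTop ≫ X.X.presheaf.germ ⊤ x trivial

/-- The local rings are `ℂ`-algebras. -/
instance locAlgebra (X : SmoothProjVar) (x : Pt X) : Algebra ℂ (Loc X x) :=
  (const X x).hom.toAlgebra

/-- The inclusion of a local ring in the function field. -/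
def toFunField (X : SmoothProjVar) (x : Pt X) : Loc X x ⟶ FunField X :=
  X.X.presheaf.stalkSpecializes ((genericPoint_spec X.X).specializes trivial)

/-- The function field is an algebra over the local rings. -/
instance ratAlgebra (X : SmoothProjVar) (x : Pt X) : Algebra (Loc X x) (FunField X) :=
  (toFunField X x).hom.toAlgebra

/-- The rational differential `n`-forms. -/
abbrev RForms (X : SmoothProjVar) (n : ℕ) : Type := Forms (FunField X) n

/-- The multiplicity of a rational function at a point of codimension one, that is, along its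
closure (from Mathlib). -/
def mult (X : SmoothProjVar) (x : Pt X) (f : FunField X) : ℤ := Scheme.ord (X := X.X) f x

/-- The prime divisors, seen as points of codimension one. -/
def IsPrimeDivisor (X : SmoothProjVar) (x : Pt X) : Prop := coheight x = 1

/-- The morphisms over `ℂ`. -/
structure Mor (X Y : SmoothProjVar) where
  /-- the morphism of schemes -/
  hom : X.X ⟶ Y.X
  w : hom ≫ Y.str = X.str

/-- The dominant rational maps over `ℂ`. -/
structure RMap (X Y : SmoothProjVar) where
  /-- the rational map of schemes -/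
  hom : X.X ⤏ Y.X
  dom : hom.IsDominant
  w : hom.compHom Y.str = X.str.toRationalMap

/-- The image of a point. -/
def img {X Y : SmoothProjVar} (φ : Mor X Y) (x : Pt X) : Pt Y := φ.hom x

/-- The pull back of functions. -/
def pull {X Y : SmoothProjVar} (φ : Mor X Y) (x : Pt X) : Loc Y (img φ x) →+* Loc X x :=
  (φ.hom.stalkMap x).hom

/-- `e` is the multiplicity along the prime divisor with generic point `z` of the relative
canonical divisor `K_{Γ/Y} = div(ω) - φ^* div(η)`, for a rational `n`-form `ω` on `Γ` and a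
rational `m`-form `η` on `Y`. -/
def RelCanonicalMult {Γ Y : SmoothProjVar} (φ : Mor Γ Y) {n m : ℕ} (ω : RForms Γ n)
    (η : RForms Y m) (z : Pt Γ) (e : ℤ) : Prop :=
  RelMult (pull φ z) (mult Γ z) ω η e

/-- The morphism `π : Γ ⟶ X` is birational and `φ ∘ π` is the morphism `φΓ`. -/
def Resolves {X Y Γ : SmoothProjVar} (π : Mor Γ X) (φ : RMap X Y) (φΓ : Mor Γ Y) : Prop :=
  ∃ (_ : IsDominant π.hom) (_ : φ.hom.IsDominant), IsBirationalMorphism π.hom ∧
    π.hom.toRationalMap.comp φ.hom = φΓ.hom.toRationalMap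

/-- The function field of `Y` is integrally closed in the function field of `Γ`. -/
def ConnectedFibres {Γ Y : SmoothProjVar} (φ : Mor Γ Y) : Prop :=
  ∀ f : FunField Γ, (pull φ (gen Γ)).IsIntegralElem f → f ∈ (pull φ (gen Γ)).range

/-- For some nonzero rational `n`-form `ω` on `Γ` and `m`-form `η` on `Y`, the divisor
`K_{Γ/Y} = div(ω) - φ^* div(η)` has multiplicity zero along the prime divisors of `Γ` which are
mapped onto a prime divisor of `X`, that is, `π_* K_{Γ/Y} = 0`. -/
def PushforwardZero {X Y Γ : SmoothProjVar} (π : Mor Γ X) (φ : Mor Γ Y) (n m : ℕ) : Prop :=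
  ∃ (ω : RForms Γ n) (η : RForms Y m), Nonzero ω ∧ Nonzero η ∧
    ∀ z : Pt Γ, IsPrimeDivisor Γ z → IsPrimeDivisor X (img π z) → RelCanonicalMult φ ω η z 0

/-! ### Divisors and Assumption (A) -/

/-- The prime divisors. -/
abbrev PrimeDivisor (X : SmoothProjVar) : Type := {x : Pt X // IsPrimeDivisor X x}

/-- The `ℚ`-divisors. -/
abbrev QDivisor (X : SmoothProjVar) : Type := PrimeDivisor X →₀ ℚ

/-- `r` is the multiplicity at `w` of the pull back by `f : W ⟶ X` of the divisor
`m N + div(h)`: here `a / b` is a local equation of this divisor at `f(w)`. -/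
def PullMult {W X : SmoothProjVar} (f : Mor W X) (N : QDivisor X) (m : ℕ) (h : FunField X)
    (w : Pt W) (r : ℤ) : Prop :=
  ∃ a b : Loc X (img f w), pull f w a ≠ 0 ∧ pull f w b ≠ 0 ∧
    (∀ P : PrimeDivisor X, P.1 ⤳ img f w →
      (mult X P.1 (toFunField X _ a) : ℚ) - mult X P.1 (toFunField X _ b) =
        m * N P + mult X P.1 h) ∧
    r = mult W w (toFunField W w (pull f w a)) - mult W w (toFunField W w (pull f w b))

/-- `e` is the multiplicity at `w` of the canonical divisor `K_{W/X}` of the birational morphism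
`f : W ⟶ X`: the multiplicity of the Jacobian determinant `J` of `f` in local coordinates `sᵢ` at
`f(w)` and `tᵢ` at `w`, that is `f^*(ds₁ ∧ … ∧ dsₙ) = J dt₁ ∧ … ∧ dtₙ`. -/
def Discrepancy {W X : SmoothProjVar} (f : Mor W X) (w : Pt W) (e : ℤ) : Prop :=
  ∃ (n : ℕ) (s : Fin n → Loc X (img f w)) (J : FunField W), IsCoordinates s ∧ J ≠ 0 ∧
    HasEquation (Loc W w) (wedge fun i => algebraMap (Loc W w) (FunField W) (pull f w (s i)))
      J 1 ∧
    e = mult W w J

/-- The pair `(X, D)` is klt: for all birational morphisms `f : W ⟶ X` the multiplicities of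
`K_{W/X} - f^* D` are larger than `-1`. -/
def IsKlt (X : SmoothProjVar) (D : QDivisor X) : Prop :=
  ∀ (W : SmoothProjVar) (f : Mor W X), IsBirationalMorphism f.hom →
    ∀ w, IsPrimeDivisor W w → ∃ (e : ℤ) (m : ℕ) (r : ℤ), Discrepancy f w e ∧ m ≠ 0 ∧
      PullMult f D m 1 w r ∧ -1 < (e : ℚ) - r / m

/-- The `ℚ`-divisor `N` on `X` is nef: the degree of `ν^* N` is nonnegative for all morphisms
`ν : C ⟶ X` from a smooth projective curve `C`.  Here `m N` is replaced by a linearly equivalent
divisor `m N + div(h)` in order to have a well-defined pull back. -/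
def IsNef (X : SmoothProjVar) (N : QDivisor X) : Prop :=
  ∀ (C : SmoothProjVar) (ν : Mor C X), (∀ p : Pt C, p ≠ gen C → IsPrimeDivisor C p) →
    ∃ (m : ℕ) (h : FunField X) (r : PrimeDivisor C →₀ ℤ), m ≠ 0 ∧ h ≠ 0 ∧
      (∀ p : PrimeDivisor C, PullMult ν N m h p.1 (r p)) ∧ 0 ≤ r.sum fun _ k => k

/-- `N = π_* (K_{Γ/Y} + D)`, where `K_{Γ/Y} = div(ω) - φ^* div(η)`: the multiplicity of `N` along
`π(z)` is that of `K_{Γ/Y} + D` along `z`, for the prime divisors `z` of `Γ` which are mapped onto
a prime divisor of `X`. -/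
def IsPushforward {X Y Γ : SmoothProjVar} (π : Mor Γ X) (φ : Mor Γ Y) (D : QDivisor Γ)
    (N : QDivisor X) : Prop :=
  ∃ (n m : ℕ) (ω : RForms Γ n) (η : RForms Y m), Nonzero ω ∧ Nonzero η ∧
    ∀ (z : PrimeDivisor Γ) (h : IsPrimeDivisor X (img π z.1)),
      ∃ e : ℤ, RelCanonicalMult φ ω η z.1 e ∧ N ⟨img π z.1, h⟩ = e + D z

/-- Assumption (A): there is an effective `ℚ`-divisor `D` on `Γ` such that the pair `(Γ, D)` is klt
and `-N` is nef, where `N = π_* (K_{Γ/Y} + D)`. -/
def AssumptionA {X Y Γ : SmoothProjVar} (π : Mor Γ X) (φ : Mor Γ Y) : Prop :=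
  ∃ (D : QDivisor Γ) (N : QDivisor X), (∀ P, 0 ≤ D P) ∧ IsKlt Γ D ∧
    IsPushforward π φ D N ∧ IsNef X (-N)

/-- The rational map `φ : X ⇢ Y` is birationally equivalent to a morphism: for some smooth
projective `Y'` and birational map `β : Y ⇢ Y'`, the composite `β ∘ φ` is a morphism. -/
def EquivalentToMorphism {X Y : SmoothProjVar} (φ : RMap X Y) : Prop :=
  ∃ (_ : φ.hom.IsDominant) (Y' : SmoothProjVar) (β : Y.X.PartialIso Y'.X) (ψ : Mor X Y'),
    β.IsOver Y.str Y'.str ∧ φ.hom.comp β.toRationalMap = ψ.hom.toRationalMap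

end

end Pool.Agent.AHM.Stmt
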