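import Pool.Agent.AHM.Final
import Pool.Agent.AHM.KltZero

/-!
# The statement of the main theorem in terms of the definitions of `Stmt`
-/

set_option autoImplicit false

open CategoryTheory AlgebraicGeometry Order

namespace Pool.Agent.AHM.Stmt

noncomputable section

/-- Rational forms in both languages. -/
def toRForms (X : SmoothProjVar) (n : ℕ) (ω : RatForms X n) : RForms X n := ω

/-- Rational functions in both languages. -/
def toRatF (X : SmoothProjVar) (f : X.X.functionField) : FunField X := f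

theorem nonzero_toRForms (X : SmoothProjVar) (n : ℕ) (ω : RatForms X n) (h : ω ≠ 0) :
    Nonzero (toRForms X n ω) := h

theorem hasEquation_of_isLocalEq (X : SmoothProjVar) {n : ℕ} (ω : RatForms X n) (x : X.X)
    (f : X.X.functionField) (h : IsLocalEq X n ω x f) :
    HasEquation (Loc X x) (toRForms X n ω) (toRatF X f) 1 := by
  obtain ⟨t, ht, hω⟩ := h
  refine ⟨t, ht, ?_⟩
  have h1 : (1 : X.X.functionField) • ω = f • coordForm X x t := by
    rw [one_smul]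
    exact hω
  exact h1

theorem hasEquation_of_isLocalEq' (X : SmoothProjVar) {n : ℕ} (ω : RatForms X n) (x : X.X)
    (a b : X.X.functionField) (hb : b ≠ 0) (h : IsLocalEq X n ω x (a / b)) :
    HasEquation (Loc X x) (toRForms X n ω) (toRatF X a) (toRatF X b) := by
  obtain ⟨t, ht, hω⟩ := h
  refine ⟨t, ht, ?_⟩
  have h1 : b • ω = a • coordForm X x t := by
    rw [hω, smul_smul, mul_div_cancel₀ _ hb]
  exact h1

theorem relCanonicalMult_of_relCanMult {Γ Y : SmoothProjVar} (φ : Mor Γ Y) {n m : ℕ}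
    (ω : RatForms Γ n) (η : RatForms Y m) (z : Γ.X) (e : ℤ)
    (h : RelCanMult φ.hom n m ω η z e) :
    RelCanonicalMult φ (toRForms Γ n ω) (toRForms Y m η) z e := by
  obtain ⟨f, a, b, hf, ha, hb, h1, h2, he⟩ := h
  have hb' : algebraMap (Y.X.presheaf.stalk (φ.hom z)) Y.X.functionField b ≠ 0 := by
    intro h0
    apply hb
    have : b = 0 := by
      apply IsFractionRing.injective (Y.X.presheaf.stalk (φ.hom z)) Y.X.functionField
      rw [h0, map_zero]
    rw [this, map_zero]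
  exact ⟨toRatF Γ f, a, b, hf, ha, hb, hasEquation_of_isLocalEq Γ ω z f h1,
    hasEquation_of_isLocalEq' Y η (φ.hom z) _ _ hb' h2, he⟩

theorem assumptionA_of_pushforwardZero {X Y Γ : SmoothProjVar} (π : Mor Γ X) (φ : Mor Γ Y)
    {n m : ℕ} (h : PushforwardZero π φ n m) : AssumptionA π φ := by
  obtain ⟨ω, η, hω, hη, h⟩ := h
  refine ⟨0, 0, fun P => le_rfl, isKlt_zero Γ, ⟨n, m, ω, η, hω, hη, fun z hz =>
    ⟨0, h z.1 z.2 hz, ?_⟩⟩, ?_⟩
  · simp
  · rw [neg_zero]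
    exact isNef_zero X

/-- The main theorem. -/
theorem main :
    ∃ (X Y Γ : SmoothProjVar) (φ : RMap X Y) (π : Mor Γ X) (φΓ : Mor Γ Y),
      IsAlmostHolomorphic φ.hom ∧ Resolves π φ φΓ ∧ ConnectedFibres φΓ ∧
        PushforwardZero π φΓ 3 2 ∧ AssumptionA π φΓ ∧ ¬ EquivalentToMorphism φ := by
  obtain ⟨X, Y, Γ, φ, hφ, π, hπ, φΓ, h1, h2, h3, h4, h5, h6, h7, ⟨ω, η, hω, hη, h8⟩, h9⟩ :=
    Pool.Agent.AHM.main
  have h10 : PushforwardZero (⟨π, h2⟩ : Mor Γ X) (⟨φΓ, h3⟩ : Mor Γ Y) 3 2 :=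
    ⟨toRForms Γ 3 ω, toRForms Y 2 η, hω, hη, fun z hz hπz =>
      relCanonicalMult_of_relCanMult _ ω η z 0 (h8 z hz hπz)⟩
  refine ⟨X, Y, Γ, ⟨φ, hφ, h1⟩, ⟨π, h2⟩, ⟨φΓ, h3⟩, h4, ⟨hπ, hφ, h5, h6⟩, h7, h10,
    assumptionA_of_pushforwardZero _ _ h10, ?_⟩
  rintro ⟨_, Y', β, ψ, hβ, hψ⟩
  exact h9 Y' β ψ.hom hβ ψ.w hψ

end

end Pool.Agent.AHM.Stmt
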